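import Mathlib

set_option autoImplicit false

namespace Pool.Agent.H322R3.Tree

variable {α : Type} [DecidableEq α]

/-- length of the longest common initial segment -/
def cp : List α → List α → ℕ
  | a :: l, b :: m => if a = b then cp l m + 1 else 0
  | [], _ => 0
  | _ :: _, [] => 0

@[simp] lemma cp_nil_left (l : List α) : cp [] l = 0 := by cases l <;> simp [cp]
@[simp] lemma cp_nil_right (l : List α) : cp l [] = 0 := by cases l <;> simp [cp]
@[simp] lemma cp_cons_cons (a b : α) (l m : List α) :
    cp (a :: l) (b :: m) = if a = b then cp l m + 1 else 0 := by simp [cp]

lemma cp_comm (l m : List α) : cp l m = cp m l := by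
  induction l generalizing m with
  | nil => simp
  | cons a l ih =>
    cases m with
    | nil => simp
    | cons b m =>
      simp only [cp_cons_cons, ih m]
      split_ifs with h1 h2 h2
      · rfl
      · exact absurd h1.symm h2
      · exact absurd h2.symm h1
      · rfl

@[simp] lemma cp_self (l : List α) : cp l l = l.length := by
  induction l with
  | nil => simp
  | cons a l ih => simp [ih]

lemma cp_le_left (l m : List α) : cp l m ≤ l.length := by
  induction l generalizing m with
  | nil => simp
  | cons a l ih =>
    cases m with
    | nil => simp
    | cons b m =>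
      simp only [cp_cons_cons, List.length_cons]
      split_ifs
      · have := ih m; omega
      · omega

lemma cp_le_right (l m : List α) : cp l m ≤ m.length := by
  rw [cp_comm]; exact cp_le_left m l

lemma cp_ultra (x y z : List α) : min (cp x y) (cp y z) ≤ cp x z := by
  induction x generalizing y z with
  | nil => simp
  | cons a x ih =>
    cases y with
    | nil => simp
    | cons b y =>
      cases z with
      | nil => simp
      | cons c z =>
        simp only [cp_cons_cons]
        have := ih y z
        by_cases h1 : a = b
        · by_cases h2 : b = c
          · have h3 : a = c := h1.trans h2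
            rw [if_pos h1, if_pos h2, if_pos h3]; omega
          · rw [if_neg h2]; omega
        · rw [if_neg h1]; omega

lemma eq_of_cp (l m : List α) (h1 : cp l m = l.length) (h2 : cp l m = m.length) : l = m := by
  induction l generalizing m with
  | nil =>
    simp at h2
    exact (List.length_eq_zero_iff.1 h2.symm).symm
  | cons a l ih =>
    cases m with
    | nil => simp at h1
    | cons b m =>
      simp only [cp_cons_cons, List.length_cons] at h1 h2
      split_ifs at h1 h2 with h
      · rw [h, ih m (by omega) (by omega)]

lemma cp_take (x z : List α) (q : ℕ) : cp (x.take q) z = min q (cp x z) := by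
  induction x generalizing z q with
  | nil => simp
  | cons a x ih =>
    cases q with
    | zero => simp
    | succ q =>
      cases z with
      | nil => simp
      | cons b z =>
        simp only [List.take_succ_cons, cp_cons_cons, ih z q]
        split_ifs <;> omega

/-- tree distance on words -/
def td (x y : List α) : ℕ := x.length + y.length - 2 * cp x y

lemma td_add (x y : List α) : td x y + 2 * cp x y = x.length + y.length := by
  have h1 := cp_le_left x y
  have h2 := cp_le_right x y
  unfold td; omega

lemma td_comm (x y : List α) : td x y = td y x := by
  have h1 := td_add x y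
  have h2 := td_add y x
  have h3 := cp_comm x y
  omega

@[simp] lemma td_self (x : List α) : td x x = 0 := by
  have h1 := td_add x x
  have h2 := cp_self x
  omega

lemma td_eq_zero (x y : List α) : td x y = 0 ↔ x = y := by
  constructor
  · intro h
    have h1 := td_add x y
    have h2 := cp_le_left x y
    have h3 := cp_le_right x y
    exact eq_of_cp x y (by omega) (by omega)
  · rintro rfl; simp

/-- four point condition -/
lemma td_four (x y z w : List α) :
    td x y + td z w ≤ max (td x z + td y w) (td x w + td y z) := by
  have a1 := td_add x y
  have a2 := td_add z w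
  have a3 := td_add x z
  have a4 := td_add y w
  have a5 := td_add x w
  have a6 := td_add y z
  have u1 := cp_ultra x z y
  have u2 := cp_ultra x w y
  have u3 := cp_ultra z x w
  have u4 := cp_ultra z y w
  have u5 := cp_ultra x y z
  have u6 := cp_ultra x w z
  have u7 := cp_ultra y x w
  have u8 := cp_ultra y z w
  have u9 := cp_ultra x y w
  have u10 := cp_ultra x z w
  have u11 := cp_ultra y x z
  have u12 := cp_ultra y w z
  have c1 := cp_comm y z
  have c2 := cp_comm z x
  have c3 := cp_comm y x
  have c4 := cp_comm w y
  have c5 := cp_comm w z
  have c6 := cp_comm w x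
  omega

lemma td_triangle (x y z : List α) : td x z ≤ td x y + td y z := by
  have h := td_four x z y y
  have h1 := td_self y
  have h2 := td_comm y z
  omega

/-- uniqueness on geodesics -/
lemma td_unique (u v m m' : List α) (h1 : td u m + td m v = td u v)
    (h2 : td u m' + td m' v = td u v) (h3 : td u m = td u m') : m = m' := by
  rw [← td_eq_zero]
  have h := td_four m m' u v
  have h4 := td_comm m u
  have h5 := td_comm m' u
  omega

/-- existence of medians, as an initial segment of one of the three words -/
lemma exists_median (u v w : List α) : ∃ m : List α,
    ((∃ q, m = u.take q) ∨ (∃ q, m = v.take q)) ∧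
    td u m + td m v = td u v ∧ td v m + td m w = td v w ∧ td u m + td m w = td u w := by
  have key : ∀ (u v w : List α), cp v w ≤ cp u v → cp u w ≤ cp u v →
      ∃ q, td u (u.take q) + td (u.take q) v = td u v ∧
        td v (u.take q) + td (u.take q) w = td v w ∧
        td u (u.take q) + td (u.take q) w = td u w := by
    intro u v w h1 h2
    refine ⟨cp u v, ?_⟩
    have hu := cp_take u u (cp u v)
    have hv := cp_take u v (cp u v)
    have hw := cp_take u w (cp u v)
    have hl := cp_take u (u.take (cp u v)) (cp u v)
    have l1 := cp_le_left u v
    have l2 := cp_le_right u v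
    have hlen : (u.take (cp u v)).length = cp u v := by
      rw [List.length_take]; omega
    have e1 := cp_ultra u v w
    have e2 := cp_ultra v u w
    have e3 := cp_comm v u
    have e4 := cp_comm u (u.take (cp u v))
    have e5 := cp_comm v (u.take (cp u v))
    have e6 := cp_self u
    have a1 := td_add u v
    have a2 := td_add v w
    have a3 := td_add u w
    have a4 := td_add u (u.take (cp u v))
    have a5 := td_add (u.take (cp u v)) v
    have a6 := td_add v (u.take (cp u v))
    have a7 := td_add (u.take (cp u v)) w
    refine ⟨?_, ?_, ?_⟩ <;> omega
  by_cases h1 : cp v w ≤ cp u v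
  · by_cases h2 : cp u w ≤ cp u v
    · obtain ⟨q, hq⟩ := key u v w h1 h2
      exact ⟨u.take q, Or.inl ⟨q, rfl⟩, hq⟩
    · -- `cp u w` is largest
      obtain ⟨q, hq1, hq2, hq3⟩ := key u w v (by rw [cp_comm w v]; omega) (by omega)
      refine ⟨u.take q, Or.inl ⟨q, rfl⟩, hq3, ?_, hq1⟩
      have e1 := td_comm w (u.take q)
      have e2 := td_comm v (u.take q)
      have e3 := td_comm w v
      omega
  · by_cases h2 : cp u w ≤ cp v w
    · obtain ⟨q, hq1, hq2, hq3⟩ := key v w u (by rw [cp_comm w u]; omega)
        (by rw [cp_comm v u]; omega)
      refine ⟨v.take q, Or.inr ⟨q, rfl⟩, ?_, hq1, ?_⟩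
      · have e1 := td_comm u (v.take q)
        have e2 := td_comm v (v.take q)
        have e3 := td_comm v u
        omega
      · have e1 := td_comm w (v.take q)
        have e2 := td_comm u (v.take q)
        have e3 := td_comm w u
        omega
    · obtain ⟨q, hq1, hq2, hq3⟩ := key u w v (by rw [cp_comm w v]; omega) (by omega)
      refine ⟨u.take q, Or.inl ⟨q, rfl⟩, hq3, ?_, hq1⟩
      have e1 := td_comm w (u.take q)
      have e2 := td_comm v (u.take q)
      have e3 := td_comm w v
      omega

/-- next step towards `v` -/
lemma exists_step (u v : List α) (h : u ≠ v) : ∃ m : List α,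
    ((∃ q, m = u.take q) ∨ (∃ q, m = v.take q)) ∧ td u m = 1 ∧ td m v + 1 = td u v := by
  have l1 := cp_le_left u v
  have l2 := cp_le_right u v
  have a1 := td_add u v
  by_cases hc : cp u v < u.length
  · refine ⟨u.take (u.length - 1), Or.inl ⟨_, rfl⟩, ?_⟩
    have hlen : (u.take (u.length - 1)).length = u.length - 1 := by
      rw [List.length_take]; omega
    have hu := cp_take u u (u.length - 1)
    have hv := cp_take u v (u.length - 1)
    have e1 := cp_self u
    have e2 := cp_comm u (u.take (u.length - 1))
    have a2 := td_add u (u.take (u.length - 1))
    have a3 := td_add (u.take (u.length - 1)) v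
    constructor <;> omega
  · have hlt : u.length < v.length := by
      by_contra hcon
      exact h (eq_of_cp u v (by omega) (by omega))
    refine ⟨v.take (u.length + 1), Or.inr ⟨_, rfl⟩, ?_⟩
    have hlen : (v.take (u.length + 1)).length = u.length + 1 := by
      rw [List.length_take]; omega
    have hu := cp_take v u (u.length + 1)
    have hv := cp_take v v (u.length + 1)
    have e1 := cp_self v
    have e2 := cp_comm u (v.take (u.length + 1))
    have e3 := cp_comm v u
    have a2 := td_add u (v.take (u.length + 1))
    have a3 := td_add (v.take (u.length + 1)) v
    constructor <;> omega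

lemma length_le_of_td (u v : List α) (h : td u v ≤ 1) : v.length ≤ u.length + 1 := by
  have a1 := td_add u v
  have l1 := cp_le_left u v
  omega

end Pool.Agent.H322R3.Tree
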