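import Mathlib
import Pool.Agent.H322R3.Tree

set_option autoImplicit false

namespace Pool.Agent.H322R3.Lattice

open Pool.Agent.H322R3.Tree

/-- next state table -/
def rho : Fin 3 → Fin 3 → Fin 3 := ![![0, 0, 1], ![1, 2, 0], ![2, 1, 2]]
/-- output table -/
def out : Fin 3 → Fin 3 → Fin 3 := ![![0, 1, 2], ![0, 1, 2], ![2, 1, 0]]

/-- the square conditions of a pair of tables -/
structure Sq (nx ou : Fin 3 → Fin 3 → Fin 3) : Prop where
  h1 : ∀ s x, nx (nx s x) x = s
  h2 : ∀ s x, ou s (ou s x) = x
  h3 : ∀ s x, nx s (ou s x) = nx s x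
  h4 : ∀ s x, ou (nx s x) x = ou s x

lemma sqA : Sq rho out := by
  constructor <;> decide

lemma sqB : Sq (fun x s => out s x) (fun x s => rho s x) := by
  constructor <;> decide

/-- automaton action on words -/
def run (nx ou : Fin 3 → Fin 3 → Fin 3) : Fin 3 → List (Fin 3) → List (Fin 3)
  | _, [] => []
  | s, x :: w => ou s x :: run nx ou (nx s x) w

/-- left multiplication by an involutive letter -/
def lm (s : Fin 3) : List (Fin 3) → List (Fin 3)
  | [] => [s]
  | x :: w => if x = s then w else s :: x :: w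

section generic

variable {nx ou : Fin 3 → Fin 3 → Fin 3}

@[simp] lemma run_nil (s : Fin 3) : run nx ou s [] = [] := by simp [run]
@[simp] lemma run_cons (s x : Fin 3) (w : List (Fin 3)) :
    run nx ou s (x :: w) = ou s x :: run nx ou (nx s x) w := by simp [run]

@[simp] lemma run_length (s : Fin 3) (w : List (Fin 3)) : (run nx ou s w).length = w.length := by
  induction w generalizing s with
  | nil => simp
  | cons x w ih => simp [ih]

lemma run_run (h : Sq nx ou) (s : Fin 3) (w : List (Fin 3)) : run nx ou s (run nx ou s w) = w := by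
  induction w generalizing s with
  | nil => simp
  | cons x w ih => simp [h.h2, h.h3, ih]

lemma ou_inj (h : Sq nx ou) (s x y : Fin 3) (hxy : ou s x = ou s y) : x = y := by
  rw [← h.h2 s x, hxy, h.h2]

lemma run_chain (h : Sq nx ou) (s : Fin 3) (w : List (Fin 3)) (hw : w.IsChain (· ≠ ·)) :
    (run nx ou s w).IsChain (· ≠ ·) := by
  induction w generalizing s with
  | nil => simp
  | cons x w ih =>
    cases w with
    | nil => simp
    | cons y w =>
      rw [List.isChain_cons_cons] at hw
      have h1 := ih (nx s x) hw.2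
      simp only [run_cons] at h1 ⊢
      rw [List.isChain_cons_cons]
      refine ⟨?_, h1⟩
      intro he
      rw [← h.h4 s x] at he
      exact hw.1 (ou_inj h _ _ _ he)

lemma cp_run (h : Sq nx ou) (s : Fin 3) (u v : List (Fin 3)) :
    cp (run nx ou s u) (run nx ou s v) = cp u v := by
  induction u generalizing s v with
  | nil => simp
  | cons x u ih =>
    cases v with
    | nil => simp
    | cons y v =>
      simp only [run_cons, cp_cons_cons]
      by_cases hxy : x = y
      · subst hxy
        simp [ih]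
      · have : ou s x ≠ ou s y := fun he => hxy (ou_inj h _ _ _ he)
        simp [hxy, this]

lemma td_run (h : Sq nx ou) (s : Fin 3) (u v : List (Fin 3)) :
    td (run nx ou s u) (run nx ou s v) = td u v := by
  simp [td, cp_run h]

lemma key (h : Sq nx ou) (s x : Fin 3) (v : List (Fin 3)) :
    run nx ou (nx s x) (lm x v) = lm (ou s x) (run nx ou s v) := by
  cases v with
  | nil => simp [lm, h.h4]
  | cons y v =>
    by_cases hy : y = x
    · subst hy
      simp [lm]
    · have : ou s y ≠ ou s x := fun he => hy (ou_inj h _ _ _ he)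
      simp [lm, hy, this, h.h4, h.h1]

end generic

lemma lm_lm (s : Fin 3) (w : List (Fin 3)) (hw : w.IsChain (· ≠ ·)) : lm s (lm s w) = w := by
  cases w with
  | nil => simp [lm]
  | cons x w =>
    by_cases hx : x = s
    · subst hx
      cases w with
      | nil => simp [lm]
      | cons y w =>
        rw [List.isChain_cons_cons] at hw
        simp [lm, hw.1.symm]
    · simp [lm, hx]

lemma lm_chain (s : Fin 3) (w : List (Fin 3)) (hw : w.IsChain (· ≠ ·)) :
    (lm s w).IsChain (· ≠ ·) := by
  cases w with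
  | nil => simp [lm]
  | cons x w =>
    by_cases hx : x = s
    · subst hx
      simp only [lm, if_true]
      exact hw.tail
    · simp only [lm, hx, if_false]
      rw [List.isChain_cons_cons]
      exact ⟨fun he => hx he.symm, hw⟩

lemma td_cons_cons_ne (a b : Fin 3) (u v : List (Fin 3)) (h : a ≠ b) :
    td (a :: u) (b :: v) = u.length + v.length + 2 := by
  simp [td, h]; omega

lemma td_cons_cons_self (a : Fin 3) (u v : List (Fin 3)) :
    td (a :: u) (a :: v) = td u v := by
  simp [td]; omega

lemma td_nil_left (v : List (Fin 3)) : td [] v = v.length := by simp [td]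
lemma td_nil_right (v : List (Fin 3)) : td v [] = v.length := by simp [td]

/-- `td (s :: u) v` when `u` is empty or does not start with `s`, and `v` too. -/
lemma td_lm (s : Fin 3) (u v : List (Fin 3)) (hu : u.IsChain (· ≠ ·)) (hv : v.IsChain (· ≠ ·)) :
    td (lm s u) (lm s v) = td u v := by
  have aux : ∀ (u v : List (Fin 3)), (s :: u).IsChain (· ≠ ·) → (∀ w, v ≠ s :: w) →
      td u (s :: v) = td (s :: u) v := by
    intro u v hu hv
    cases u with
    | nil =>
      cases v with
      | nil => simp [td]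
      | cons b v =>
        have hb : s ≠ b := fun h => hv v (by rw [h])
        rw [td_nil_left, td_cons_cons_ne _ _ _ _ hb]
        simp
    | cons a u =>
      rw [List.isChain_cons_cons] at hu
      cases v with
      | nil =>
        rw [td_nil_right, td_cons_cons_ne _ _ _ _ hu.1.symm]
        simp
      | cons b v =>
        have hb : s ≠ b := fun h => hv v (by rw [h])
        rw [td_cons_cons_ne _ _ _ _ hu.1.symm, td_cons_cons_ne _ _ _ _ hb]
        simp; omega
  by_cases hu' : ∃ u', u = s :: u'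
  · obtain ⟨u', rfl⟩ := hu'
    by_cases hv' : ∃ v', v = s :: v'
    · obtain ⟨v', rfl⟩ := hv'
      simp [lm, td_cons_cons_self]
    · have hv'' : ∀ w, v ≠ s :: w := fun w h => hv' ⟨w, h⟩
      have e1 : lm s v = s :: v := by
        cases v with
        | nil => simp [lm]
        | cons b v =>
          have hb : b ≠ s := fun h => hv'' v (by rw [h])
          simp [lm, hb]
      rw [e1]
      simp only [lm, if_true]
      exact aux u' v hu hv''
  · have hu'' : ∀ w, u ≠ s :: w := fun w h => hu' ⟨w, h⟩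
    have e2 : lm s u = s :: u := by
      cases u with
      | nil => simp [lm]
      | cons b u =>
        have hb : b ≠ s := fun h => hu'' u (by rw [h])
        simp [lm, hb]
    rw [e2]
    by_cases hv' : ∃ v', v = s :: v'
    · obtain ⟨v', rfl⟩ := hv'
      simp only [lm, if_true]
      rw [td_comm, td_comm u]
      exact aux v' u hv hu''
    · have hv'' : ∀ w, v ≠ s :: w := fun w h => hv' ⟨w, h⟩
      have e1 : lm s v = s :: v := by
        cases v with
        | nil => simp [lm]
        | cons b v =>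
          have hb : b ≠ s := fun h => hv'' v (by rw [h])
          simp [lm, hb]
      rw [e1, td_cons_cons_self]

/-- reduced words -/
abbrev W : Type := {l : List (Fin 3) // l.IsChain (· ≠ ·)}

/-- the empty word -/
def o : W := ⟨[], by simp⟩

/-- involution of `W` from automaton -/
def runP {nx ou : Fin 3 → Fin 3 → Fin 3} (h : Sq nx ou) (s : Fin 3) : Equiv.Perm W where
  toFun w := ⟨run nx ou s w.1, run_chain h s w.1 w.2⟩
  invFun w := ⟨run nx ou s w.1, run_chain h s w.1 w.2⟩
  left_inv w := Subtype.ext (run_run h s w.1)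
  right_inv w := Subtype.ext (run_run h s w.1)

/-- involution of `W` from left multiplication -/
def lmP (s : Fin 3) : Equiv.Perm W where
  toFun w := ⟨lm s w.1, lm_chain s w.1 w.2⟩
  invFun w := ⟨lm s w.1, lm_chain s w.1 w.2⟩
  left_inv w := Subtype.ext (lm_lm s w.1 w.2)
  right_inv w := Subtype.ext (lm_lm s w.1 w.2)

/-- generators of the first kind -/
def q (s : Fin 3) : Equiv.Perm W × Equiv.Perm W := (lmP s, runP sqA s)
/-- generators of the second kind -/
def l (x : Fin 3) : Equiv.Perm W × Equiv.Perm W := (runP sqB x, lmP x)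

lemma q_mul_q (s : Fin 3) : q s * q s = 1 :=
  Prod.ext (Equiv.ext fun w => (lmP s).left_inv w) (Equiv.ext fun w => (runP sqA s).left_inv w)

lemma l_mul_l (x : Fin 3) : l x * l x = 1 :=
  Prod.ext (Equiv.ext fun w => (runP sqB x).left_inv w) (Equiv.ext fun w => (lmP x).left_inv w)

lemma l_mul_q (z s : Fin 3) : l z * q s = q (rho s z) * l (out s z) := by
  refine Prod.ext (Equiv.ext fun w => Subtype.ext ?_) (Equiv.ext fun w => Subtype.ext ?_)
  · have := key sqB (out s z) s w.1
    rw [sqA.h2, sqA.h3] at this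
    exact this
  · have := key sqA s (out s z) w.1
    rw [sqA.h2, sqA.h3] at this
    exact this.symm

/-- the group acting -/
def H : Subgroup (Equiv.Perm W × Equiv.Perm W) :=
  Subgroup.closure (Set.range q ∪ Set.range l)

lemma q_mem (s : Fin 3) : q s ∈ H := Subgroup.subset_closure (Or.inl ⟨s, rfl⟩)
lemma l_mem (x : Fin 3) : l x ∈ H := Subgroup.subset_closure (Or.inr ⟨x, rfl⟩)

/-- product of generators of the first kind along a word -/
def Qw (u : List (Fin 3)) : Equiv.Perm W × Equiv.Perm W := (u.map q).prod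
/-- product of generators of the second kind along a word -/
def Lw (u : List (Fin 3)) : Equiv.Perm W × Equiv.Perm W := (u.map l).prod

@[simp] lemma Qw_nil : Qw [] = 1 := by simp [Qw]
@[simp] lemma Lw_nil : Lw [] = 1 := by simp [Lw]
@[simp] lemma Qw_cons (s : Fin 3) (u : List (Fin 3)) : Qw (s :: u) = q s * Qw u := by simp [Qw]
@[simp] lemma Lw_cons (s : Fin 3) (u : List (Fin 3)) : Lw (s :: u) = l s * Lw u := by simp [Lw]
lemma Qw_append (u v : List (Fin 3)) : Qw (u ++ v) = Qw u * Qw v := by simp [Qw]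
lemma Lw_append (u v : List (Fin 3)) : Lw (u ++ v) = Lw u * Lw v := by simp [Lw]

lemma Qw_mem (u : List (Fin 3)) : Qw u ∈ H := by
  induction u with
  | nil => simp
  | cons s u ih => simpa using H.mul_mem (q_mem s) ih

lemma Lw_mem (u : List (Fin 3)) : Lw u ∈ H := by
  induction u with
  | nil => simp
  | cons s u ih => simpa using H.mul_mem (l_mem s) ih

lemma lmP_val (s : Fin 3) (w : W) : ((lmP s w : W) : List (Fin 3)) = lm s w.1 := rfl
lemma runP_val {nx ou : Fin 3 → Fin 3 → Fin 3} (h : Sq nx ou) (s : Fin 3) (w : W) :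
    ((runP h s w : W) : List (Fin 3)) = run nx ou s w.1 := rfl

lemma lm_of_chain (s : Fin 3) (u : List (Fin 3)) (h : (s :: u).IsChain (· ≠ ·)) :
    lm s u = s :: u := by
  cases u with
  | nil => simp [lm]
  | cons a u =>
    rw [List.isChain_cons_cons] at h
    simp [lm, h.1.symm]

lemma Qw_fst_o (u : W) : (Qw u.1).1 o = u := by
  obtain ⟨u, hu⟩ := u
  induction u with
  | nil => simp; rfl
  | cons s u ih =>
    have h1 := ih hu.tail
    simp only [Qw_cons, Prod.fst_mul, Equiv.Perm.mul_apply] at h1 ⊢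
    rw [h1]
    apply Subtype.ext
    exact lm_of_chain s u hu

lemma Lw_snd_o (u : W) : (Lw u.1).2 o = u := by
  obtain ⟨u, hu⟩ := u
  induction u with
  | nil => simp; rfl
  | cons s u ih =>
    have h1 := ih hu.tail
    simp only [Lw_cons, Prod.snd_mul, Equiv.Perm.mul_apply] at h1 ⊢
    rw [h1]
    apply Subtype.ext
    exact lm_of_chain s u hu

lemma Qw_snd_o (u : List (Fin 3)) : (Qw u).2 o = o := by
  induction u with
  | nil => simp
  | cons s u ih =>
    simp only [Qw_cons, Prod.snd_mul, Equiv.Perm.mul_apply, ih]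
    apply Subtype.ext
    simp [q, runP_val, o]

lemma Lw_fst_o (u : List (Fin 3)) : (Lw u).1 o = o := by
  induction u with
  | nil => simp
  | cons s u ih =>
    simp only [Lw_cons, Prod.fst_mul, Equiv.Perm.mul_apply, ih]
    apply Subtype.ext
    simp [l, runP_val, o]

/-- left multiplication on normal forms, first kind -/
lemma q_mul_Qw (s : Fin 3) (u : W) : ∃ u' : W, q s * Qw u.1 = Qw u'.1 := by
  refine ⟨lmP s u, ?_⟩
  rw [lmP_val]
  obtain ⟨u, hu⟩ := u
  cases u with
  | nil => simp [lm]
  | cons a u =>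
    by_cases ha : a = s
    · subst ha
      simp [lm, ← mul_assoc, q_mul_q]
    · simp [lm, ha]

lemma l_mul_Lw (s : Fin 3) (u : W) : ∃ u' : W, l s * Lw u.1 = Lw u'.1 := by
  refine ⟨lmP s u, ?_⟩
  rw [lmP_val]
  obtain ⟨u, hu⟩ := u
  cases u with
  | nil => simp [lm]
  | cons a u =>
    by_cases ha : a = s
    · subst ha
      simp [lm, ← mul_assoc, l_mul_l]
    · simp [lm, ha]

lemma l_mul_Qw (z : Fin 3) (u : List (Fin 3)) :
    ∃ z', l z * Qw u = Qw (run (fun x s => out s x) (fun x s => rho s x) z u) * l z' := by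
  induction u generalizing z with
  | nil => exact ⟨z, by simp⟩
  | cons s u ih =>
    obtain ⟨z', hz'⟩ := ih (out s z)
    refine ⟨z', ?_⟩
    rw [Qw_cons, ← mul_assoc, l_mul_q, mul_assoc, hz', run_cons, Qw_cons, mul_assoc]

lemma normal_form (g : Equiv.Perm W × Equiv.Perm W) (hg : g ∈ H) :
    ∃ u v : W, g = Qw u.1 * Lw v.1 := by
  have hstep : ∀ x ∈ (Set.range q ∪ Set.range l), ∀ y : Equiv.Perm W × Equiv.Perm W,
      (∃ u v : W, y = Qw u.1 * Lw v.1) → ∃ u v : W, x * y = Qw u.1 * Lw v.1 := by
    rintro x (⟨s, rfl⟩ | ⟨z, rfl⟩) y ⟨u, v, rfl⟩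
    · obtain ⟨u', hu'⟩ := q_mul_Qw s u
      exact ⟨u', v, by rw [← mul_assoc, hu']⟩
    · obtain ⟨z', hz'⟩ := l_mul_Qw z u.1
      obtain ⟨v', hv'⟩ := l_mul_Lw z' v
      refine ⟨⟨_, run_chain sqB z u.1 u.2⟩, v', ?_⟩
      rw [← mul_assoc, hz', mul_assoc, hv']
  have hinv : ∀ x ∈ (Set.range q ∪ Set.range l), x⁻¹ ∈ (Set.range q ∪ Set.range l) := by
    rintro x (⟨s, rfl⟩ | ⟨z, rfl⟩)
    · left; exact ⟨s, by rw [eq_inv_iff_mul_eq_one]; exact q_mul_q s⟩
    · right; exact ⟨z, by rw [eq_inv_iff_mul_eq_one]; exact l_mul_l z⟩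
  induction hg using Subgroup.closure_induction_left with
  | one => exact ⟨o, o, by simp [o]⟩
  | mul_left x hx y hy ih => exact hstep x hx y ih
  | inv_mul_cancel x hx y hy ih => exact hstep _ (hinv x hx) y ih

/-- freeness on pairs of base points -/
lemma eq_one_of_fix (g : Equiv.Perm W × Equiv.Perm W) (hg : g ∈ H) (h1 : g.1 o = o)
    (h2 : g.2 o = o) : g = 1 := by
  obtain ⟨u, v, rfl⟩ := normal_form g hg
  rw [Prod.fst_mul, Equiv.Perm.mul_apply, Lw_fst_o, Qw_fst_o] at h1
  subst h1
  rw [Prod.snd_mul, Equiv.Perm.mul_apply, Lw_snd_o] at h2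
  have : (Qw (o : W).1) = 1 := by simp [o]
  rw [this] at h2 ⊢
  have h3 : v = o := by simpa using h2
  subst h3
  simp [o]

/-- transitivity on pairs of vertices -/
lemma exists_move (t v : W) : ∃ g ∈ H, g.1 o = t ∧ g.2 o = v := by
  refine ⟨Lw v.1 * Qw (((Lw v.1)⁻¹).1 t).1, H.mul_mem (Lw_mem _) (Qw_mem _), ?_, ?_⟩
  · rw [Prod.fst_mul, Equiv.Perm.mul_apply, Qw_fst_o]
    simp
  · rw [Prod.snd_mul, Equiv.Perm.mul_apply, Qw_snd_o, Lw_snd_o]

lemma H_td (g : Equiv.Perm W × Equiv.Perm W) (hg : g ∈ H) :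
    (∀ u v : W, td (g.1 u).1 (g.1 v).1 = td u.1 v.1) ∧
    (∀ u v : W, td (g.2 u).1 (g.2 v).1 = td u.1 v.1) := by
  induction hg using Subgroup.closure_induction with
  | mem x hx =>
    rcases hx with ⟨s, rfl⟩ | ⟨s, rfl⟩
    · exact ⟨fun u v => td_lm s u.1 v.1 u.2 v.2, fun u v => td_run sqA s u.1 v.1⟩
    · exact ⟨fun u v => td_run sqB s u.1 v.1, fun u v => td_lm s u.1 v.1 u.2 v.2⟩
  | one => simp
  | mul x y hx hy ihx ihy =>
    constructor
    · intro u v
      rw [Prod.fst_mul, Equiv.Perm.mul_apply, Equiv.Perm.mul_apply, ihx.1, ihy.1]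
    · intro u v
      rw [Prod.snd_mul, Equiv.Perm.mul_apply, Equiv.Perm.mul_apply, ihx.2, ihy.2]
  | inv x hx ih =>
    constructor
    · intro u v
      rw [← ih.1]; simp
    · intro u v
      rw [← ih.2]; simp

end Pool.Agent.H322R3.Lattice
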