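import Mathlib
import Pool.Agent.H322R3.Lattice

set_option autoImplicit false

namespace Pool.Agent.H322R3.Odometer

open Pool.Agent.H322R3.Tree Pool.Agent.H322R3.Lattice

/-- letters `x0`, `x1` -/
def xj : Bool → Fin 3
  | false => 0
  | true => 2

/-- binary words as reduced words -/
def enc : List Bool → List (Fin 3)
  | [] => []
  | j :: b => xj j :: 1 :: enc b

/-- next state on a binary letter -/
def nb (s : Fin 3) (j : Bool) : Fin 3 := rho (rho s (xj j)) 1
/-- output on a binary letter -/
def ob (s : Fin 3) (j : Bool) : Bool := if s = 2 then !j else j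

/-- output of a list of states -/
def mo : List (Fin 3) → Bool → Bool
  | [], j => j
  | s :: S, j => ob s (mo S j)

/-- section of a list of states -/
def ms : List (Fin 3) → Bool → List (Fin 3)
  | [], _ => []
  | s :: S, j => nb s (mo S j) :: ms S j

/-- action of a list of states on binary words -/
def mb : List (Fin 3) → List Bool → List Bool
  | _, [] => []
  | S, j :: b => mo S j :: mb (ms S j) b

/-- action of a list of states on words -/
def mr : List (Fin 3) → List (Fin 3) → List (Fin 3)
  | [], w => w
  | s :: S, w => run rho out s (mr S w)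

lemma out_xj (s : Fin 3) (j : Bool) : out s (xj j) = xj (ob s j) := by
  revert s j; decide

lemma out_one (s : Fin 3) : out s 1 = 1 := by
  revert s; decide

@[simp] lemma mb_nil (S : List (Fin 3)) : mb S [] = [] := by simp [mb]
@[simp] lemma mb_cons (S : List (Fin 3)) (j : Bool) (b : List Bool) :
    mb S (j :: b) = mo S j :: mb (ms S j) b := by simp [mb]

lemma run_enc (s : Fin 3) (j : Bool) (w : List (Fin 3)) :
    run rho out s (xj j :: 1 :: w) = xj (ob s j) :: 1 :: run rho out (nb s j) w := by
  simp [out_xj, out_one, nb]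

lemma mr_cons_cons (S : List (Fin 3)) (j : Bool) (w : List (Fin 3)) :
    mr S (xj j :: 1 :: w) = xj (mo S j) :: 1 :: mr (ms S j) w := by
  induction S with
  | nil => simp [mr, mo, ms]
  | cons s S ih => simp only [mr, mo, ms, ih, run_enc]

lemma mr_nil (S : List (Fin 3)) : mr S [] = [] := by
  induction S with
  | nil => simp [mr]
  | cons s S ih => simp [mr, ih]

lemma mr_single (S : List (Fin 3)) (j : Bool) : mr S [xj j] = [xj (mo S j)] := by
  induction S with
  | nil => simp [mr, mo]
  | cons s S ih => simp [mr, mo, ih, out_xj]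

lemma mr_enc (S : List (Fin 3)) (b : List Bool) : mr S (enc b) = enc (mb S b) := by
  induction b generalizing S with
  | nil => simp [enc, mr_nil]
  | cons j b ih => simp only [enc, mb_cons, mr_cons_cons, ih]

/-- section after a whole binary word -/
def msw : List (Fin 3) → List Bool → List (Fin 3)
  | S, [] => S
  | S, j :: b => msw (ms S j) b

lemma mb_append_single (S : List (Fin 3)) (b : List Bool) (j : Bool) :
    mb S (b ++ [j]) = mb S b ++ [mo (msw S b) j] := by
  induction b generalizing S with
  | nil => simp [msw]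
  | cons i b ih => simp [msw, ih]

lemma mr_enc_append_single (S : List (Fin 3)) (b : List Bool) (j : Bool) :
    mr S (enc b ++ [xj j]) = enc (mb S b) ++ [xj (mo (msw S b) j)] := by
  induction b generalizing S with
  | nil => simp [enc, msw, mr_single]
  | cons i b ih => simp only [enc, List.cons_append, mb_cons, mr_cons_cons, ih, msw]

/-- number of `c`s -/
def cc : List (Fin 3) → ℕ
  | [] => 0
  | s :: S => (if s = 2 then 1 else 0) + cc S

/-- number of `a`s and `b`s -/
def cab : List (Fin 3) → ℕ
  | [] => 0
  | s :: S => (if s = 2 then 0 else 1) + cab S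

lemma cc_append (S T : List (Fin 3)) : cc (S ++ T) = cc S + cc T := by
  induction S with
  | nil => simp [cc]
  | cons s S ih => simp [cc, ih]; omega

lemma cab_append (S T : List (Fin 3)) : cab (S ++ T) = cab S + cab T := by
  induction S with
  | nil => simp [cab]
  | cons s S ih => simp [cab, ih]; omega

lemma mo_eq (S : List (Fin 3)) (j : Bool) :
    mo S j = if cc S % 2 = 1 then !j else j := by
  induction S with
  | nil => simp [mo, cc]
  | cons s S ih =>
    simp only [mo, ih, cc, ob]
    by_cases hs : s = 2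
    · subst hs
      rcases Nat.mod_two_eq_zero_or_one (cc S) with h | h
      · have : (1 + cc S) % 2 = 1 := by omega
        simp [h, this]
      · have : (1 + cc S) % 2 = 0 := by omega
        simp [h, this]
    · simp [hs]

lemma mo_append (S T : List (Fin 3)) (j : Bool) : mo (S ++ T) j = mo S (mo T j) := by
  induction S with
  | nil => simp [mo]
  | cons s S ih => simp [mo, ih]

lemma ms_append (S T : List (Fin 3)) (j : Bool) : ms (S ++ T) j = ms S (mo T j) ++ ms T j := by
  induction S with
  | nil => simp [ms]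
  | cons s S ih => simp [ms, ih, mo_append]

lemma sum_cc (S : List (Fin 3)) : cc (ms S false) + cc (ms S true) = cab S := by
  induction S with
  | nil => simp [ms, cc, cab]
  | cons s S ih =>
    simp only [ms, cc, cab]
    have h : ∀ i k : Bool, i ≠ k → ((if nb s i = 2 then 1 else 0) + (if nb s k = 2 then 1 else 0) : ℕ)
        = if s = 2 then 0 else 1 := by revert s; decide
    have hne : mo S false ≠ mo S true := by
      rw [mo_eq, mo_eq]; split_ifs <;> simp
    have := h _ _ hne
    omega

lemma sum_cab (S : List (Fin 3)) : cab (ms S false) + cab (ms S true) = cab S + 2 * cc S := by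
  induction S with
  | nil => simp [ms, cc, cab]
  | cons s S ih =>
    simp only [ms, cc, cab]
    have h : ∀ i k : Bool, i ≠ k → ((if nb s i = 2 then 0 else 1) + (if nb s k = 2 then 0 else 1) : ℕ)
        = (if s = 2 then 0 else 1) + 2 * (if s = 2 then 1 else 0) := by revert s; decide
    have hne : mo S false ≠ mo S true := by
      rw [mo_eq, mo_eq]; split_ifs <;> simp
    have := h _ _ hne
    omega

/-- power of a list -/
def pw (S : List (Fin 3)) : ℕ → List (Fin 3)
  | 0 => []
  | n + 1 => S ++ pw S n

lemma cc_pw (S : List (Fin 3)) (n : ℕ) : cc (pw S n) = n * cc S := by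
  induction n with
  | zero => simp [pw, cc]
  | succ n ih => simp only [pw, cc_append, ih]; ring

lemma pw_double (S : List (Fin 3)) (n : ℕ) : pw S (2 * n) = pw (S ++ S) n := by
  induction n with
  | zero => simp [pw]
  | succ n ih =>
    have : 2 * (n + 1) = (2 * n + 1) + 1 := by ring
    rw [this]
    simp [pw, ih]

lemma mo_pw_fix (S : List (Fin 3)) (j : Bool) (h : mo S j = j) (n : ℕ) : mo (pw S n) j = j := by
  induction n with
  | zero => simp [pw, mo]
  | succ n ih => simp [pw, mo_append, ih, h]

lemma ms_pw_fix (S : List (Fin 3)) (j : Bool) (h : mo S j = j) (n : ℕ) :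
    ms (pw S n) j = pw (ms S j) n := by
  induction n with
  | zero => simp [pw, ms]
  | succ n ih => simp [pw, ms_append, mo_pw_fix S j h, ih]

lemma infinite_order (n : ℕ) (hn : 0 < n) (S : List (Fin 3)) (h1 : cc S % 2 = 1)
    (h2 : cab S % 2 = 1) : ∃ b : List Bool, mb (pw S n) b ≠ b := by
  induction n using Nat.strong_induction_on generalizing S with
  | _ n ih =>
    rcases Nat.even_or_odd' n with ⟨k, rfl | rfl⟩
    · have hk : 0 < k := by omega
      have hS0 : mo (S ++ S) false = false := by
        rw [mo_eq, cc_append, if_neg (by omega)]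
      have hS : mo S false = true := by
        rw [mo_eq, if_pos h1]; rfl
      have hms : ms (S ++ S) false = ms S true ++ ms S false := by
        rw [ms_append, hS]
      have c1 : cc (ms (S ++ S) false) % 2 = 1 := by
        rw [hms, cc_append]
        have := sum_cc S
        omega
      have c2 : cab (ms (S ++ S) false) % 2 = 1 := by
        rw [hms, cab_append]
        have := sum_cab S
        omega
      obtain ⟨b, hb⟩ := ih k (by omega) hk (ms (S ++ S) false) c1 c2
      refine ⟨false :: b, ?_⟩
      rw [pw_double, mb_cons, mo_pw_fix _ _ hS0, ms_pw_fix _ _ hS0]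
      intro h
      exact hb (List.cons.inj h).2
    · refine ⟨[false], ?_⟩
      have : cc (pw S (2 * k + 1)) % 2 = 1 := by
        rw [cc_pw, Nat.mul_mod, h1]; omega
      simp [mo_eq, this]

/-- the basic word -/
def S0 : List (Fin 3) := [0, 2]

/-- separating pair -/
lemma exists_sep (n : ℕ) (hn : 0 < n) : ∃ (b : List Bool) (j j' : Bool), j ≠ j' ∧
    mr (pw S0 n) (enc b) = enc b ∧ mr (pw S0 n) (enc b ++ [xj j]) = enc b ++ [xj j'] := by
  obtain ⟨b, hb⟩ := infinite_order n hn S0 (by decide) (by decide)
  -- a shortest moved word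
  have : ∃ b' j, mb (pw S0 n) b' = b' ∧ mb (pw S0 n) (b' ++ [j]) ≠ b' ++ [j] := by
    by_contra hcon
    push Not at hcon
    apply hb
    induction b using List.reverseRecOn with
    | nil => simp
    | append_singleton b j ih =>
      by_cases hb' : mb (pw S0 n) b = b
      · exact hcon b j hb'
      · exact absurd (ih hb') hb'
  obtain ⟨b', j, h1, h2⟩ := this
  rw [mb_append_single, h1] at h2
  refine ⟨b', j, mo (msw (pw S0 n) b') j, ?_, ?_, ?_⟩
  · intro h; apply h2; rw [← h]
  · rw [mr_enc, h1]
  · rw [mr_enc_append_single, h1]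

lemma enc_append_chain (b : List Bool) (j : Bool) : (enc b ++ [xj j]).IsChain (· ≠ ·) := by
  have hx : ∀ j : Bool, xj j ≠ 1 := by decide
  induction b with
  | nil => simp [enc]
  | cons i b ih =>
    simp only [enc, List.cons_append]
    rw [List.isChain_cons_cons]
    refine ⟨hx i, ?_⟩
    cases b with
    | nil =>
      simp only [enc, List.nil_append]
      rw [List.isChain_cons_cons]
      exact ⟨(hx j).symm, by simp⟩
    | cons k b =>
      simp only [enc, List.cons_append] at ih ⊢
      rw [List.isChain_cons_cons]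
      exact ⟨(hx k).symm, ih⟩

lemma Qw_snd (S : List (Fin 3)) (w : W) : ((Qw S).2 w).1 = mr S w.1 := by
  induction S with
  | nil => simp [mr]
  | cons s S ih =>
    simp only [Qw_cons, Prod.snd_mul, Equiv.Perm.mul_apply, mr, ← ih]
    rfl

/-- the pattern -/
def phi (t v v' : W) : Prop :=
  ∃ g ∈ H, g.1 o = t ∧ g.2 o = v ∧ g.2 ⟨[2], by simp⟩ = v'

lemma phi_smul (g : Equiv.Perm W × Equiv.Perm W) (hg : g ∈ H) (t v v' : W) :
    phi (g.1 t) (g.2 v) (g.2 v') ↔ phi t v v' := by
  constructor
  · rintro ⟨k, hk, h1, h2, h3⟩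
    refine ⟨g⁻¹ * k, H.mul_mem (H.inv_mem hg) hk, ?_, ?_, ?_⟩
    · simp [h1]
    · simp [h2]
    · simp [h3]
  · rintro ⟨k, hk, h1, h2, h3⟩
    refine ⟨g * k, H.mul_mem hg hk, ?_, ?_, ?_⟩
    · simp [h1]
    · simp [h2]
    · simp [h3]

lemma phi_base (b : List Bool) (j : Bool) :
    phi o ⟨enc b, (enc_append_chain b j).left_of_append⟩ ⟨enc b ++ [xj j], enc_append_chain b j⟩
      ↔ j = true := by
  set v : W := ⟨enc b, (enc_append_chain b j).left_of_append⟩ with hv
  have hmove : ∀ k : Bool, (Lw v.1).2 ⟨[xj k], by simp⟩ = ⟨enc b ++ [xj k], enc_append_chain b k⟩ := by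
    intro k
    have h1 := Lw_snd_o ⟨enc b ++ [xj k], enc_append_chain b k⟩
    simp only at h1
    rw [Lw_append, Prod.snd_mul, Equiv.Perm.mul_apply] at h1
    have h2 : (Lw [xj k]).2 o = ⟨[xj k], by simp⟩ := by
      simp [Lw, l, o]
      apply Subtype.ext
      rw [lmP_val]; simp [lm]
    rw [h2] at h1
    exact h1
  constructor
  · rintro ⟨g, hg, h1, h2, h3⟩
    have hgv : g = Lw v.1 := by
      have h4 : (Lw v.1)⁻¹ * g = 1 := by
        apply eq_one_of_fix _ (H.mul_mem (H.inv_mem (Lw_mem _)) hg)
        · rw [Prod.fst_mul, Equiv.Perm.mul_apply, h1, Prod.fst_inv, Equiv.Perm.inv_eq_iff_eq]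
          exact (Lw_fst_o _).symm
        · rw [Prod.snd_mul, Equiv.Perm.mul_apply, h2, Prod.snd_inv, Equiv.Perm.inv_eq_iff_eq]
          exact (Lw_snd_o _).symm
      exact (inv_mul_eq_one.1 h4).symm
    rw [hgv] at h3
    have h5 := hmove true
    have h6 : (⟨[xj true], by simp⟩ : W) = ⟨[2], by simp⟩ := rfl
    rw [h6, h3] at h5
    have h7 := congrArg Subtype.val h5
    simp only [List.append_cancel_left_eq, List.cons.injEq, and_true] at h7
    cases j
    · exact absurd h7 (by decide)
    · rfl
  · rintro rfl
    exact ⟨Lw v.1, Lw_mem _, Lw_fst_o _, Lw_snd_o _, hmove true⟩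

lemma cp_append_self (u v : List (Fin 3)) : cp u (u ++ v) = u.length := by
  induction u with
  | nil => simp
  | cons a u ih => simp [ih]

/-- the sequence of vertices with pairwise different rows -/
def tn (n : ℕ) : W := (Qw (pw S0 n)).1 o

lemma pw_add (S : List (Fin 3)) (m n : ℕ) : pw S (m + n) = pw S m ++ pw S n := by
  induction m with
  | zero => simp [pw]
  | succ m ih =>
    have : m + 1 + n = (m + n) + 1 := by ring
    rw [this]; simp [pw, ih]

lemma rows_ne_of_lt (n m : ℕ) (h : n < m) :
    ∃ v v' : W, td v.1 v'.1 = 1 ∧ ¬ (phi (tn n) v v' ↔ phi (tn m) v v') := by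
  obtain ⟨d, rfl⟩ := Nat.exists_eq_add_of_lt h
  obtain ⟨b, j, j', hjj, h1, h2⟩ := exists_sep (d + 1) (by omega)
  set v : W := ⟨enc b, (enc_append_chain b j).left_of_append⟩ with hv
  set w : W := ⟨enc b ++ [xj j], enc_append_chain b j⟩ with hw
  set w' : W := ⟨enc b ++ [xj j'], enc_append_chain b j'⟩ with hw'
  have hcomm : pw S0 (n + d + 1) = pw S0 n ++ pw S0 (d + 1) := by
    rw [← pw_add, add_assoc]
  refine ⟨(Qw (pw S0 (n + d + 1))).2 v, (Qw (pw S0 (n + d + 1))).2 w, ?_, ?_⟩
  · rw [(H_td _ (Qw_mem _)).2]
    have : cp (enc b) (enc b ++ [xj j]) = (enc b).length := cp_append_self _ _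
    have h4 := td_add v.1 w.1
    simp only [hv, hw, this, List.length_append, List.length_singleton] at h4 ⊢
    omega
  · have e2 : phi (tn (n + d + 1)) ((Qw (pw S0 (n + d + 1))).2 v) ((Qw (pw S0 (n + d + 1))).2 w)
        ↔ j = true := by
      unfold tn
      rw [phi_smul _ (Qw_mem _)]
      exact phi_base b j
    have e1 : phi (tn n) ((Qw (pw S0 (n + d + 1))).2 v) ((Qw (pw S0 (n + d + 1))).2 w)
        ↔ j' = true := by
      unfold tn
      rw [hcomm, Qw_append, Prod.snd_mul, Equiv.Perm.mul_apply, Equiv.Perm.mul_apply,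
        phi_smul _ (Qw_mem _)]
      have a1 : (Qw (pw S0 (d + 1))).2 v = v := Subtype.ext (by rw [Qw_snd]; exact h1)
      have a2 : (Qw (pw S0 (d + 1))).2 w = w' := Subtype.ext (by rw [Qw_snd]; exact h2)
      rw [a1, a2]
      exact phi_base b j'
    rw [e1, e2]
    intro hiff
    apply hjj
    cases j <;> cases j' <;> simp_all

end Pool.Agent.H322R3.Odometer
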