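import Mathlib
import Pool.Agent.H322R3.Odometer

set_option autoImplicit false

namespace Pool.Agent.H322R3.Complex

open Pool.Agent.H322R3.Tree Pool.Agent.H322R3.Lattice Pool.Agent.H322R3.Odometer

section whisker

open Classical

variable {P : Type} (π : P → W)

/-- base point -/
def bs : W ⊕ P → W := Sum.elim id π
/-- height -/
def ht : W ⊕ P → ℕ := Sum.elim (fun _ => 0) (fun _ => 1)

/-- distance in the tree with whiskers -/
noncomputable def wd (x y : W ⊕ P) : ℕ :=
  if x = y then 0 else td (bs π x).1 (bs π y).1 + ht x + ht y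

@[simp] lemma bs_inl (t : W) : bs π (Sum.inl t) = t := rfl
@[simp] lemma bs_inr (p : P) : bs π (Sum.inr p) = π p := rfl
@[simp] lemma ht_inl (t : W) : ht (Sum.inl t : W ⊕ P) = 0 := rfl
@[simp] lemma ht_inr (p : P) : ht (Sum.inr p : W ⊕ P) = 1 := rfl

@[simp] lemma wd_self (x : W ⊕ P) : wd π x x = 0 := by simp [wd]

lemma wd_comm (x y : W ⊕ P) : wd π x y = wd π y x := by
  unfold wd
  by_cases h : x = y
  · subst h; simp
  · rw [if_neg h, if_neg (Ne.symm h), td_comm]; omega

lemma wd_of_ne {x y : W ⊕ P} (h : x ≠ y) :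
    wd π x y = td (bs π x).1 (bs π y).1 + ht x + ht y := by
  simp [wd, h]

lemma wd_inl (x : W ⊕ P) (t : W) : wd π x (Sum.inl t) = td (bs π x).1 t.1 + ht x := by
  by_cases h : x = Sum.inl t
  · subst h; simp
  · rw [wd_of_ne π h]; simp

lemma inl_wd (x : W ⊕ P) (t : W) : wd π (Sum.inl t) x = td t.1 (bs π x).1 + ht x := by
  rw [wd_comm, wd_inl, td_comm]

lemma wd_le (x y : W ⊕ P) : wd π x y ≤ td (bs π x).1 (bs π y).1 + ht x + ht y := by
  unfold wd; split_ifs <;> omega

lemma wd_eq_zero (x y : W ⊕ P) : wd π x y = 0 ↔ x = y := by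
  constructor
  · intro h
    by_contra hne
    rw [wd_of_ne π hne] at h
    rcases x with t | p
    · rcases y with t' | p'
      · simp only [bs_inl, ht_inl] at h
        apply hne
        have : td t.1 t'.1 = 0 := by omega
        rw [td_eq_zero] at this
        rw [Subtype.ext this]
      · simp only [ht_inr] at h; omega
    · simp only [ht_inr] at h; omega
  · rintro rfl; simp

lemma wd_triangle (x y z : W ⊕ P) : wd π x z ≤ wd π x y + wd π y z := by
  by_cases hxy : x = y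
  · subst hxy; simp
  · by_cases hyz : y = z
    · subst hyz; simp
    · rw [wd_of_ne π hxy, wd_of_ne π hyz]
      have h1 := wd_le π x z
      have h2 := td_triangle (bs π x).1 (bs π y).1 (bs π z).1
      omega

lemma wd_median (x y z : W ⊕ P) : ∃ m : W ⊕ P,
    (wd π x m + wd π m y = wd π x y ∧ wd π y m + wd π m z = wd π y z ∧
      wd π x m + wd π m z = wd π x z) ∧
    ((∃ t, m = Sum.inl t) ∨ (x = m ∧ y = m) ∨ (y = m ∧ z = m) ∨ (x = m ∧ z = m)) := by
  by_cases hxy : x = y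
  · subst hxy
    exact ⟨x, by simp, Or.inr (Or.inl ⟨rfl, rfl⟩)⟩
  by_cases hyz : y = z
  · subst hyz
    exact ⟨y, by simp, Or.inr (Or.inr (Or.inl ⟨rfl, rfl⟩))⟩
  by_cases hxz : x = z
  · subst hxz
    exact ⟨x, by simp [wd_comm π y x], Or.inr (Or.inr (Or.inr ⟨rfl, rfl⟩))⟩
  obtain ⟨m, hm, h1, h2, h3⟩ := exists_median (bs π x).1 (bs π y).1 (bs π z).1
  have hch : m.IsChain (· ≠ ·) := by
    rcases hm with ⟨q, rfl⟩ | ⟨q, rfl⟩
    · exact (bs π x).2.take q
    · exact (bs π y).2.take q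
  refine ⟨Sum.inl ⟨m, hch⟩, ?_, Or.inl ⟨_, rfl⟩⟩
  rw [wd_inl, wd_inl, inl_wd, inl_wd, wd_of_ne π hxy, wd_of_ne π hyz, wd_of_ne π hxz]
  simp only
  refine ⟨by omega, by omega, by omega⟩

lemma wd_median_unique (x y z m m' : W ⊕ P)
    (hm : wd π x m + wd π m y = wd π x y ∧ wd π y m + wd π m z = wd π y z ∧
      wd π x m + wd π m z = wd π x z)
    (hm' : wd π x m' + wd π m' y = wd π x y ∧ wd π y m' + wd π m' z = wd π y z ∧
      wd π x m' + wd π m' z = wd π x z) : m = m' := by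
  -- the case where two of the points agree
  have aux : ∀ a b : W ⊕ P, wd π a b + wd π b a = wd π a a → b = a := by
    intro a b h
    rw [wd_self] at h
    have h1 : wd π b a = 0 := by omega
    exact (wd_eq_zero π b a).1 h1
  by_cases hxy : x = y
  · subst hxy
    rw [aux x m hm.1, aux x m' hm'.1]
  by_cases hyz : y = z
  · subst hyz
    rw [aux y m hm.2.1, aux y m' hm'.2.1]
  by_cases hxz : x = z
  · subst hxz
    rw [aux x m hm.2.2, aux x m' hm'.2.2]
  -- a whisker end cannot be strictly between two points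
  have wh : ∀ (p : P) (a b : W ⊕ P), a ≠ b →
      wd π a (Sum.inr p) + wd π (Sum.inr p) b = wd π a b → a = Sum.inr p ∨ b = Sum.inr p := by
    intro p a b hab h
    by_contra hcon
    push Not at hcon
    rw [wd_of_ne π hcon.1, wd_of_ne π (Ne.symm hcon.2), wd_of_ne π hab] at h
    have h2 := td_triangle (bs π a).1 (bs π (Sum.inr p)).1 (bs π b).1
    simp only [ht_inr] at h
    omega
  have isl : ∀ m : W ⊕ P, (wd π x m + wd π m y = wd π x y ∧ wd π y m + wd π m z = wd π y z ∧
      wd π x m + wd π m z = wd π x z) → ∃ t, m = Sum.inl t := by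
    intro m hm
    rcases m with t | p
    · exact ⟨t, rfl⟩
    · exfalso
      have a1 := wh p x y hxy hm.1
      have a2 := wh p y z hyz hm.2.1
      have a3 := wh p x z hxz hm.2.2
      rcases a1 with h1 | h1
      · rcases a2 with h2 | h2
        · exact hxy (h1.trans h2.symm)
        · exact hxz (h1.trans h2.symm)
      · rcases a3 with h2 | h2
        · exact hxy (h2.trans h1.symm)
        · exact hyz (h1.trans h2.symm)
  obtain ⟨t, rfl⟩ := isl m hm
  obtain ⟨t', rfl⟩ := isl m' hm'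
  rw [wd_inl, wd_inl, inl_wd, inl_wd, wd_of_ne π hxy, wd_of_ne π hyz, wd_of_ne π hxz] at hm hm'
  have : t.1 = t'.1 := by
    apply td_unique (bs π x).1 (bs π y).1 t.1 t'.1
    · omega
    · omega
    · have c1 := td_comm (bs π y).1 t.1
      have c2 := td_comm (bs π y).1 t'.1
      omega
  rw [Subtype.ext this]

lemma wd_step (x y : W ⊕ P) (h : x ≠ y) : ∃ m : W ⊕ P,
    wd π x m = 1 ∧ wd π m y + 1 = wd π x y ∧ ((∃ t, m = Sum.inl t) ∨ m = y) ∧
    ((∃ p, x = Sum.inr p) → ∃ t, m = Sum.inl t) := by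
  rcases x with t | p
  · by_cases hb : t = bs π y
    · rcases y with t' | p'
      · exact absurd (by rw [hb]; rfl) h
      · refine ⟨Sum.inr p', ?_, ?_, Or.inr rfl, ?_⟩
        · rw [inl_wd, ← hb]; simp
        · rw [wd_self, inl_wd, ← hb]; simp
        · rintro ⟨p, hp⟩; exact absurd hp (by simp)
    · have hb' : t.1 ≠ (bs π y).1 := fun he => hb (Subtype.ext he)
      obtain ⟨m, hm, h1, h2⟩ := exists_step t.1 (bs π y).1 hb'
      have hch : m.IsChain (· ≠ ·) := by
        rcases hm with ⟨q, rfl⟩ | ⟨q, rfl⟩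
        · exact t.2.take q
        · exact (bs π y).2.take q
      refine ⟨Sum.inl ⟨m, hch⟩, ?_, ?_, Or.inl ⟨_, rfl⟩, ?_⟩
      · rw [wd_inl]; simpa using h1
      · rw [inl_wd, inl_wd]; simp only; omega
      · intro _; exact ⟨_, rfl⟩
  · refine ⟨Sum.inl (π p), ?_, ?_, Or.inl ⟨_, rfl⟩, fun _ => ⟨_, rfl⟩⟩
    · rw [wd_inl]; simp
    · rw [inl_wd, wd_of_ne π h]; simp; omega

end whisker

/-- ordered adjacent pairs in the second tree -/
abbrev P2 : Type := {p : W × W // td p.1.1 p.2.1 = 1}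

/-- base of a pair -/
def pi2 (p : P2) : W := p.1.1

/-- vertex set of the complex -/
abbrev X : Type := {v : (W ⊕ W) × (W ⊕ P2) //
  ¬ ∃ (t : W) (p : P2), v = (Sum.inr t, Sum.inr p) ∧ ¬ phi t p.1.1 p.1.2}

/-- distance in the first factor -/
noncomputable abbrev d1 : W ⊕ W → W ⊕ W → ℕ := wd (id : W → W)
/-- distance in the second factor -/
noncomputable abbrev d2 : W ⊕ P2 → W ⊕ P2 → ℕ := wd pi2

/-- the distance -/
noncomputable def dX (v w : X) : ℕ := d1 v.1.1 w.1.1 + d2 v.1.2 w.1.2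

lemma dX_self (v : X) : dX v v = 0 := by simp [dX, d1, d2]

lemma dX_comm (v w : X) : dX v w = dX w v := by
  simp only [dX, d1, d2]; rw [wd_comm id v.1.1, wd_comm pi2 v.1.2]

lemma dX_triangle (u v w : X) : dX u w ≤ dX u v + dX v w := by
  have h1 := wd_triangle id u.1.1 v.1.1 w.1.1
  have h2 := wd_triangle pi2 u.1.2 v.1.2 w.1.2
  simp only [dX, d1, d2]; omega

lemma dX_eq_zero (v w : X) : dX v w = 0 ↔ v = w := by
  constructor
  · intro h
    simp only [dX, d1, d2] at h
    have h1 := (wd_eq_zero id v.1.1 w.1.1).1 (by omega)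
    have h2 := (wd_eq_zero pi2 v.1.2 w.1.2).1 (by omega)
    exact Subtype.ext (Prod.ext h1 h2)
  · rintro rfl; exact dX_self v

lemma mem_of_inl_left (t : W) (b : W ⊕ P2) :
    ¬ ∃ (t' : W) (p : P2), ((Sum.inl t, b) : (W ⊕ W) × (W ⊕ P2)) = (Sum.inr t', Sum.inr p) ∧
      ¬ phi t' p.1.1 p.1.2 := by
  rintro ⟨t', p, h, -⟩
  simp at h

lemma mem_of_inl_right (a : W ⊕ W) (s : W) :
    ¬ ∃ (t' : W) (p : P2), ((a, Sum.inl s) : (W ⊕ W) × (W ⊕ P2)) = (Sum.inr t', Sum.inr p) ∧
      ¬ phi t' p.1.1 p.1.2 := by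
  rintro ⟨t', p, h, -⟩
  simp at h

lemma dX_step (v w : X) (h : v ≠ w) : ∃ m : X, dX v m = 1 ∧ dX m w + 1 = dX v w := by
  obtain ⟨⟨a, b⟩, hv⟩ := v
  obtain ⟨⟨c, e⟩, hw⟩ := w
  by_cases h1 : a = c
  · subst h1
    have h2 : b ≠ e := by rintro rfl; exact h rfl
    obtain ⟨m, hm1, hm2, hm3, hm4⟩ := wd_step pi2 b e h2
    rcases hm3 with ⟨s, rfl⟩ | rfl
    · refine ⟨⟨(a, Sum.inl s), mem_of_inl_right a s⟩, ?_, ?_⟩
      · simp only [dX, d1, d2, wd_self]; omega
      · simp only [dX, d1, d2, wd_self]; omega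
    · refine ⟨⟨(a, m), hw⟩, ?_, ?_⟩
      · simp only [dX, d1, d2, wd_self]; omega
      · simp only [dX, d1, d2, wd_self] at hm2 ⊢; omega
  · obtain ⟨m, hm1, hm2, hm3, hm4⟩ := wd_step id a c h1
    rcases hm3 with ⟨s, rfl⟩ | rfl
    · refine ⟨⟨(Sum.inl s, b), mem_of_inl_left s b⟩, ?_, ?_⟩
      · simp only [dX, d1, d2, wd_self]; omega
      · simp only [dX, d1, d2]; omega
    · by_cases h2 : b = e
      · subst h2
        refine ⟨⟨(m, b), hw⟩, ?_, ?_⟩
        · simp only [dX, d1, d2, wd_self]; omega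
        · simp only [dX, d1, d2, wd_self] at hm2 ⊢; omega
      · rcases b with s | p
        · refine ⟨⟨(m, Sum.inl s), mem_of_inl_right m s⟩, ?_, ?_⟩
          · simp only [dX, d1, d2, wd_self]; omega
          · simp only [dX, d1, d2]; omega
        · obtain ⟨k, hk1, hk2, hk3, hk4⟩ := wd_step pi2 (Sum.inr p) e h2
          obtain ⟨s, rfl⟩ := hk4 ⟨p, rfl⟩
          refine ⟨⟨(a, Sum.inl s), mem_of_inl_right a s⟩, ?_, ?_⟩
          · simp only [dX, d1, d2, wd_self]; omega
          · simp only [dX, d1, d2]; omega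

lemma dX_median (x y z : X) : ∃! m : X, dX x m + dX m y = dX x y ∧
    dX y m + dX m z = dX y z ∧ dX x m + dX m z = dX x z := by
  obtain ⟨m1, hm1, hc1⟩ := wd_median id x.1.1 y.1.1 z.1.1
  obtain ⟨m2, hm2, hc2⟩ := wd_median pi2 x.1.2 y.1.2 z.1.2
  have hmem : ¬ ∃ (t' : W) (p : P2), ((m1, m2) : (W ⊕ W) × (W ⊕ P2)) = (Sum.inr t', Sum.inr p) ∧
      ¬ phi t' p.1.1 p.1.2 := by
    have hx := x.2
    have hy := y.2
    have hz := z.2
    rcases hc1 with ⟨t, rfl⟩ | hc1
    · exact mem_of_inl_left t m2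
    rcases hc2 with ⟨t, rfl⟩ | hc2
    · exact mem_of_inl_right m1 t
    have : (m1, m2) = x.1 ∨ (m1, m2) = y.1 ∨ (m1, m2) = z.1 := by
      rcases hc1 with ⟨a, b⟩ | ⟨a, b⟩ | ⟨a, b⟩ <;> rcases hc2 with ⟨c, e⟩ | ⟨c, e⟩ | ⟨c, e⟩
      · left; exact Prod.ext a.symm c.symm
      · right; left; exact Prod.ext b.symm c.symm
      · left; exact Prod.ext a.symm c.symm
      · right; left; exact Prod.ext a.symm e.symm
      · right; left; exact Prod.ext a.symm c.symm
      · right; right; exact Prod.ext b.symm e.symm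
      · left; exact Prod.ext a.symm c.symm
      · right; right; exact Prod.ext b.symm e.symm
      · left; exact Prod.ext a.symm c.symm
    rcases this with h | h | h
    · rw [h]; exact hx
    · rw [h]; exact hy
    · rw [h]; exact hz
  refine ⟨⟨(m1, m2), hmem⟩, ?_, ?_⟩
  · simp only [dX, d1, d2]
    refine ⟨by omega, by omega, by omega⟩
  · intro n hn
    simp only [dX, d1, d2] at hn
    have t1 := wd_triangle id x.1.1 n.1.1 y.1.1
    have t2 := wd_triangle id y.1.1 n.1.1 z.1.1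
    have t3 := wd_triangle id x.1.1 n.1.1 z.1.1
    have t4 := wd_triangle pi2 x.1.2 n.1.2 y.1.2
    have t5 := wd_triangle pi2 y.1.2 n.1.2 z.1.2
    have t6 := wd_triangle pi2 x.1.2 n.1.2 z.1.2
    have e1 : n.1.1 = m1 :=
      wd_median_unique id x.1.1 y.1.1 z.1.1 n.1.1 m1 ⟨by omega, by omega, by omega⟩ hm1
    have e2 : n.1.2 = m2 :=
      wd_median_unique pi2 x.1.2 y.1.2 z.1.2 n.1.2 m2 ⟨by omega, by omega, by omega⟩ hm2
    exact Subtype.ext (Prod.ext e1 e2)

/-- the graph -/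
noncomputable def GX : SimpleGraph X where
  Adj v w := dX v w = 1
  symm := ⟨fun v w h => by rw [dX_comm]; exact h⟩
  loopless := ⟨fun v h => by rw [dX_self] at h; exact absurd h (by decide)⟩

lemma GX_adj (v w : X) : GX.Adj v w ↔ dX v w = 1 := Iff.rfl

lemma exists_walk (n : ℕ) (v w : X) (h : dX v w = n) : ∃ p : GX.Walk v w, p.length = n := by
  induction n generalizing v with
  | zero =>
    rw [dX_eq_zero] at h
    subst h
    exact ⟨SimpleGraph.Walk.nil, rfl⟩
  | succ n ih =>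
    have hne : v ≠ w := by
      rintro rfl; rw [dX_self] at h; omega
    obtain ⟨m, h1, h2⟩ := dX_step v w hne
    obtain ⟨p, hp⟩ := ih m (by omega)
    exact ⟨SimpleGraph.Walk.cons (GX_adj v m |>.2 h1) p, by simp [hp]⟩

lemma le_length (v w : X) (p : GX.Walk v w) : dX v w ≤ p.length := by
  induction p with
  | nil => simp [dX_self]
  | cons h p ih =>
    rename_i u v w
    have := dX_triangle u v w
    rw [GX_adj] at h
    simp only [SimpleGraph.Walk.length_cons]
    omega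

lemma GX_connected : GX.Connected := by
  have : Nonempty X := ⟨⟨(Sum.inl o, Sum.inl o), mem_of_inl_left _ _⟩⟩
  refine SimpleGraph.Connected.mk ?_
  intro v w
  obtain ⟨p, -⟩ := exists_walk _ v w rfl
  exact ⟨p⟩

lemma GX_dist (v w : X) : GX.dist v w = dX v w := by
  apply le_antisymm
  · obtain ⟨p, hp⟩ := exists_walk _ v w rfl
    rw [← hp]; exact SimpleGraph.dist_le p
  · obtain ⟨p, hp⟩ := GX_connected.exists_walk_length_eq_dist v w
    rw [← hp]; exact le_length v w p

end Pool.Agent.H322R3.Complex
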