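import Mathlib
import Pool.Agent.H322R3.Complex

set_option autoImplicit false

namespace Pool.Agent.H322R3.Complex

open Pool.Agent.H322R3.Tree Pool.Agent.H322R3.Lattice Pool.Agent.H322R3.Odometer

/-- action on adjacent pairs -/
def actP (g : H) (p : P2) : P2 :=
  ⟨(g.1.2 p.1.1, g.1.2 p.1.2), by rw [(H_td g.1 g.2).2]; exact p.2⟩

/-- action on the first tree with whiskers -/
def actA (g : H) : W ⊕ W → W ⊕ W := Sum.map g.1.1 g.1.1
/-- action on the second tree with whiskers -/
def actB (g : H) : W ⊕ P2 → W ⊕ P2 := Sum.map g.1.2 (actP g)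

lemma actA_one (a : W ⊕ W) : actA 1 a = a := by cases a <;> simp [actA]
lemma actB_one (a : W ⊕ P2) : actB 1 a = a := by
  cases a <;> simp [actB, actP]

lemma actA_mul (g h : H) (a : W ⊕ W) : actA (g * h) a = actA g (actA h a) := by
  cases a <;> simp [actA]
lemma actB_mul (g h : H) (a : W ⊕ P2) : actB (g * h) a = actB g (actB h a) := by
  cases a <;> simp [actB, actP]

lemma bs_actA (g : H) (a : W ⊕ W) : bs id (actA g a) = g.1.1 (bs id a) := by
  cases a <;> simp [actA]
lemma bs_actB (g : H) (a : W ⊕ P2) : bs pi2 (actB g a) = g.1.2 (bs pi2 a) := by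
  cases a <;> simp [actB, actP, pi2]
lemma ht_actA (g : H) (a : W ⊕ W) : ht (actA g a) = ht a := by
  cases a <;> simp [actA]
lemma ht_actB (g : H) (a : W ⊕ P2) : ht (actB g a) = ht a := by
  cases a <;> simp [actB]

lemma actA_inj (g : H) : Function.Injective (actA g) := by
  intro a b h
  have := congrArg (actA g⁻¹) h
  rwa [← actA_mul, ← actA_mul, inv_mul_cancel, actA_one, actA_one] at this

lemma actB_inj (g : H) : Function.Injective (actB g) := by
  intro a b h
  have := congrArg (actB g⁻¹) h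
  rwa [← actB_mul, ← actB_mul, inv_mul_cancel, actB_one, actB_one] at this

lemma d1_act (g : H) (a b : W ⊕ W) : d1 (actA g a) (actA g b) = d1 a b := by
  by_cases h : a = b
  · subst h; simp [d1]
  · have h' : actA g a ≠ actA g b := fun he => h (actA_inj g he)
    simp only [d1]
    rw [wd_of_ne id h, wd_of_ne id h', bs_actA, bs_actA, ht_actA, ht_actA, (H_td g.1 g.2).1]

lemma d2_act (g : H) (a b : W ⊕ P2) : d2 (actB g a) (actB g b) = d2 a b := by
  by_cases h : a = b
  · subst h; simp [d2]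
  · have h' : actB g a ≠ actB g b := fun he => h (actB_inj g he)
    simp only [d2]
    rw [wd_of_ne pi2 h, wd_of_ne pi2 h', bs_actB, bs_actB, ht_actB, ht_actB, (H_td g.1 g.2).2]

lemma mem_act (g : H) (v : X) :
    ¬ ∃ (t : W) (p : P2), ((actA g v.1.1, actB g v.1.2) : (W ⊕ W) × (W ⊕ P2))
      = (Sum.inr t, Sum.inr p) ∧ ¬ phi t p.1.1 p.1.2 := by
  rintro ⟨t, p, h, hn⟩
  obtain ⟨⟨a, b⟩, hv⟩ := v
  simp only [Prod.mk.injEq] at h
  obtain ⟨h1, h2⟩ := h
  rcases a with a | a
  · simp [actA] at h1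
  rcases b with b | b
  · simp [actB] at h2
  simp only [actA, actB, Sum.map_inr, Sum.inr.injEq] at h1 h2
  apply hv
  refine ⟨a, b, rfl, ?_⟩
  intro hphi
  apply hn
  rw [← h1, ← h2]
  exact (phi_smul g.1 g.2 a b.1.1 b.1.2).2 hphi

instance : MulAction H X where
  smul g v := ⟨(actA g v.1.1, actB g v.1.2), mem_act g v⟩
  one_smul v := by
    apply Subtype.ext
    exact Prod.ext (actA_one _) (actB_one _)
  mul_smul g h v := by
    apply Subtype.ext
    exact Prod.ext (actA_mul g h _) (actB_mul g h _)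

lemma smul_val (g : H) (v : X) : (g • v).1 = (actA g v.1.1, actB g v.1.2) := rfl

lemma dX_smul (g : H) (v w : X) : dX (g • v) (g • w) = dX v w := by
  simp only [dX, smul_val, d1_act, d2_act]

lemma GX_smul (g : H) (v w : X) : GX.Adj (g • v) (g • w) ↔ GX.Adj v w := by
  rw [GX_adj, GX_adj, dX_smul]

lemma fix_one (g : H) (v : X) (h : g • v = v) : g = 1 := by
  have h0 := congrArg Subtype.val h
  rw [smul_val] at h0
  have h1 : actA g v.1.1 = v.1.1 := congrArg Prod.fst h0
  have h2 : actB g v.1.2 = v.1.2 := congrArg Prod.snd h0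
  have h3 := congrArg (bs id) h1
  have h4 := congrArg (bs pi2) h2
  rw [bs_actA] at h3
  rw [bs_actB] at h4
  obtain ⟨k, hk, hk1, hk2⟩ := exists_move (bs id v.1.1) (bs pi2 v.1.2)
  rw [← hk1] at h3
  rw [← hk2] at h4
  have h5 : k⁻¹ * g.1 * k = 1 := by
    apply eq_one_of_fix _ (H.mul_mem (H.mul_mem (H.inv_mem hk) g.2) hk)
    · rw [Prod.fst_mul, Prod.fst_mul, Equiv.Perm.mul_apply, Equiv.Perm.mul_apply, h3]
      simp
    · rw [Prod.snd_mul, Prod.snd_mul, Equiv.Perm.mul_apply, Equiv.Perm.mul_apply, h4]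
      simp
  have h6 : g.1 = 1 := by
    have := congrArg (fun x => k * x * k⁻¹) h5
    simpa [mul_assoc] using this
  exact Subtype.ext h6

lemma stab_finite (v : X) : (MulAction.stabilizer H v : Set H).Finite := by
  apply Set.Finite.subset (Set.finite_singleton (1 : H))
  intro g hg
  exact fix_one g v hg

lemma W_finite (N : ℕ) : {w : W | w.1.length ≤ N}.Finite := by
  apply Set.Finite.of_finite_image (f := Subtype.val)
  · apply Set.Finite.subset (List.finite_length_le (Fin 3) N)
    rintro _ ⟨w, hw, rfl⟩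
    exact hw
  · exact Subtype.val_injective.injOn

lemma P2_finite (N : ℕ) : {p : P2 | p.1.1.1.length ≤ N}.Finite := by
  apply Set.Finite.of_finite_image (f := Subtype.val)
  · apply Set.Finite.subset ((W_finite N).prod (W_finite (N + 1)))
    rintro _ ⟨p, hp, rfl⟩
    have h1 := length_le_of_td p.1.1.1 p.1.2.1 (le_of_eq p.2)
    have h2 : p.1.1.1.length ≤ N := hp
    refine ⟨hp, ?_⟩
    simp only [Set.mem_ofPred_eq]; omega
  · exact Subtype.val_injective.injOn

lemma A_finite (N : ℕ) : {a : W ⊕ W | (bs id a).1.length ≤ N}.Finite := by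
  apply Set.Finite.subset (((W_finite N).image Sum.inl).union ((W_finite N).image Sum.inr))
  rintro (a | a) ha
  · left; exact ⟨a, ha, rfl⟩
  · right; exact ⟨a, ha, rfl⟩

lemma B_finite (N : ℕ) : {a : W ⊕ P2 | (bs pi2 a).1.length ≤ N}.Finite := by
  apply Set.Finite.subset (((W_finite N).image Sum.inl).union ((P2_finite N).image Sum.inr))
  rintro (a | a) ha
  · left; exact ⟨a, ha, rfl⟩
  · right; exact ⟨a, ha, rfl⟩

lemma X_finite (N : ℕ) :
    {v : X | (bs id v.1.1).1.length ≤ N ∧ (bs pi2 v.1.2).1.length ≤ N}.Finite := by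
  apply Set.Finite.of_finite_image (f := Subtype.val)
  · apply Set.Finite.subset ((A_finite N).prod (B_finite N))
    rintro _ ⟨v, hv, rfl⟩
    exact hv
  · exact Subtype.val_injective.injOn

lemma bs_le {P : Type} (π : P → W) (x y : W ⊕ P) (h : wd π x y ≤ 1) :
    (bs π y).1.length ≤ (bs π x).1.length + 1 := by
  apply length_le_of_td
  by_cases hxy : x = y
  · subst hxy; simp
  · rw [wd_of_ne π hxy] at h; omega

lemma nbr_finite (v : X) : (GX.neighborSet v).Finite := by
  apply Set.Finite.subset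
    (X_finite ((bs id v.1.1).1.length + (bs pi2 v.1.2).1.length + 1))
  intro w hw
  have hw' : dX v w = 1 := hw
  simp only [dX, d1, d2] at hw'
  have h1 := bs_le id v.1.1 w.1.1 (by omega)
  have h2 := bs_le pi2 v.1.2 w.1.2 (by omega)
  constructor <;> omega

lemma orbits_finite : Finite (MulAction.orbitRel.Quotient H X) := by
  have hfin := X_finite 0
  have : Finite {v : X | (bs id v.1.1).1.length ≤ 0 ∧ (bs pi2 v.1.2).1.length ≤ 0} := hfin
  apply Finite.of_surjective
    (fun v : {v : X | (bs id v.1.1).1.length ≤ 0 ∧ (bs pi2 v.1.2).1.length ≤ 0} =>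
      (Quotient.mk _ v.1 : MulAction.orbitRel.Quotient H X))
  intro c
  induction c using Quotient.inductionOn with
  | _ v =>
    obtain ⟨k, hk, hk1, hk2⟩ := exists_move (bs id v.1.1) (bs pi2 v.1.2)
    set g : H := ⟨k, hk⟩ with hg
    refine ⟨⟨g⁻¹ • v, ?_, ?_⟩, ?_⟩
    · rw [smul_val, bs_actA, ← hk1]
      simp [hg, o]
    · rw [smul_val, bs_actB, ← hk2]
      simp [hg, o]
    · apply Quotient.sound
      exact ⟨g⁻¹, rfl⟩

end Pool.Agent.H322R3.Complex
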