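import Pool.Agent.H322R3.AcylElem

set_option autoImplicit false

/-!
Algebra of commensurators of loxodromic elements, and the generation theorem.
-/

namespace Pool.Agent.H322R3.Acyl

section alg

variable {G : Type*} [Group G]

lemma Com.of_comm {f g : G} {n : ℤ} (hn : n ≠ 0) (h : g * f ^ n = f ^ n * g) : Com f g :=
  ⟨n, n, hn, hn, by rw [h]; group⟩

lemma com_zpow (f : G) (i : ℤ) : Com f (f ^ i) :=
  Com.of_comm one_ne_zero (by rw [← zpow_add, ← zpow_add, add_comm])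

lemma Com.mul {f a b : G} (ha : Com f a) (hb : Com f b) : Com f (a * b) := by
  obtain ⟨m₁, n₁, h1, h2, h3⟩ := ha
  obtain ⟨m₂, n₂, h4, h5, h6⟩ := hb
  refine ⟨m₂ * m₁, n₁ * n₂, mul_ne_zero h4 h1, mul_ne_zero h2 h5, ?_⟩
  have e1 : b * f ^ (m₂ * m₁) * b⁻¹ = f ^ (n₂ * m₁) := by
    rw [zpow_mul, zpow_mul, ← h6, conj_zpow]
  have e2 : a * f ^ (m₁ * n₂) * a⁻¹ = f ^ (n₁ * n₂) := by
    rw [zpow_mul, zpow_mul, ← h3, conj_zpow]
  calc a * b * f ^ (m₂ * m₁) * (a * b)⁻¹ = a * (b * f ^ (m₂ * m₁) * b⁻¹) * a⁻¹ := by group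
    _ = f ^ (n₁ * n₂) := by rw [e1, mul_comm n₂ m₁, e2]

lemma Com.inv {f a : G} (ha : Com f a) : Com f a⁻¹ := by
  obtain ⟨m, n, h1, h2, h3⟩ := ha
  refine ⟨n, m, h2, h1, ?_⟩
  rw [← h3]; group

lemma Com.of_pow {f s g : G} {m l : ℤ} (hm : m ≠ 0) (hl : l ≠ 0) (h : s ^ m = f ^ l)
    (hg : Com f g) : Com s g := by
  obtain ⟨a, b, ha, hb, hab⟩ := hg
  refine ⟨m * a, m * b, mul_ne_zero hm ha, mul_ne_zero hm hb, ?_⟩
  rw [zpow_mul, zpow_mul, h, ← zpow_mul, ← zpow_mul, mul_comm l a, mul_comm l b, zpow_mul,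
    zpow_mul, ← hab, conj_zpow]

lemma Com.conj_iff {f g h : G} : Com (h * f * h⁻¹) g ↔ Com f (h⁻¹ * g * h) := by
  constructor
  · rintro ⟨m, n, hm, hn, e⟩
    refine ⟨m, n, hm, hn, ?_⟩
    rw [conj_zpow, conj_zpow] at e
    calc h⁻¹ * g * h * f ^ m * (h⁻¹ * g * h)⁻¹ = h⁻¹ * (g * (h * f ^ m * h⁻¹) * g⁻¹) * h := by group
      _ = f ^ n := by rw [e]; group
  · rintro ⟨m, n, hm, hn, e⟩
    refine ⟨m, n, hm, hn, ?_⟩
    rw [conj_zpow, conj_zpow, ← e]
    group

/-- Infinite order, in the form used here. -/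
def InfOrd (s : G) : Prop := ∀ n : ℤ, s ^ n = 1 → n = 0

lemma InfOrd.zpow {s : G} (h : InfOrd s) {n : ℤ} (hn : n ≠ 0) : InfOrd (s ^ n) := by
  intro m hm
  rw [← zpow_mul] at hm
  have := h _ hm
  exact (mul_eq_zero.mp this).resolve_left hn

lemma InfOrd.conj {s : G} (h : InfOrd s) (g : G) : InfOrd (g * s * g⁻¹) := by
  intro m hm
  rw [conj_zpow, conj_eq_one_iff] at hm
  exact h _ hm

/-- `⟨f⟩` has finite index in its commensurator. -/
def FinCom (f : G) : Prop := ∃ T : Set G, T.Finite ∧ ∀ g : G, Com f g → ∃ i : ℤ, ∃ t ∈ T,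
  g = f ^ i * t

lemma FinCom.infinite {f : G} (hf : FinCom f) {K : Set G} (hK : K.Infinite)
    (hKf : ∀ k ∈ K, Com f k) : ∃ k₁ ∈ K, ∃ k₂ ∈ K, k₁ ≠ k₂ ∧ ∃ n : ℤ, n ≠ 0 ∧
      k₁ * k₂⁻¹ = f ^ n := by
  obtain ⟨T, hT, h⟩ := hf
  choose i t ht hit using h
  classical
  obtain ⟨k₁, h1, k₂, h2, hne, heq⟩ := hK.exists_ne_map_eq_of_mapsTo
    (f := fun k => if hk : Com f k then t k hk else 1) (t := insert 1 T)
    (by
      intro k hk
      simp only [dif_pos (hKf k hk)]
      exact Set.mem_insert_of_mem _ (ht _ _)) (hT.insert 1)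
  simp only [dif_pos (hKf k₁ h1), dif_pos (hKf k₂ h2)] at heq
  have e1 := hit k₁ (hKf k₁ h1)
  have e2 := hit k₂ (hKf k₂ h2)
  refine ⟨k₁, h1, k₂, h2, hne, i k₁ (hKf k₁ h1) - i k₂ (hKf k₂ h2), ?_, ?_⟩
  · intro h0
    apply hne
    rw [e1, e2, heq, sub_eq_zero.mp h0]
  · conv_lhs => rw [e1, e2]
    rw [heq, zpow_sub]; group

lemma FinCom.common {f s : G} (hf : FinCom f) (hs : InfOrd s) (hfs : Com f s) :
    ∃ m l : ℤ, m ≠ 0 ∧ l ≠ 0 ∧ s ^ m = f ^ l := by
  have hinj : Function.Injective (fun n : ℤ => s ^ n) := by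
    intro a b hab
    have : s ^ (a - b) = 1 := by
      rw [zpow_sub]; simp only at hab; rw [hab]; group
    have := hs _ this
    omega
  have hinf : (Set.range (fun n : ℤ => s ^ n)).Infinite := Set.infinite_range_of_injective hinj
  have hcom : ∀ n : ℤ, Com f (s ^ n) := by
    intro n
    obtain ⟨a, b, ha, hb, hab⟩ := hfs
    have hnat : ∀ n : ℕ, Com f (s ^ n) := by
      intro n
      induction n with
      | zero => simpa using com_zpow f 0
      | succ n ih => rw [pow_succ]; exact ih.mul ⟨a, b, ha, hb, hab⟩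
    rcases Int.natAbs_eq n with h | h
    · rw [h, zpow_natCast]; exact hnat _
    · rw [h, zpow_neg, zpow_natCast]; exact (hnat _).inv
  obtain ⟨k₁, ⟨a, rfl⟩, k₂, ⟨b, rfl⟩, hne, n, hn, h⟩ := hf.infinite hinf
    (by rintro _ ⟨n, rfl⟩; exact hcom n)
  refine ⟨a - b, n, ?_, hn, by rw [zpow_sub]; exact h⟩
  intro h0
  apply hne
  have : a = b := by omega
  rw [this]

/-- If no finite normal subgroup is nontrivial and `G` is not virtually cyclic, then some conjugate
of `w` does not commensurate `⟨f⟩`. -/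
lemma exists_not_com (hnvc : ¬ ∃ H : Subgroup G, H.FiniteIndex ∧ IsCyclic H)
    (hK : ∀ N : Subgroup G, N.Normal → Finite N → N = ⊥) {f : G} (hf : FinCom f)
    (hfi : InfOrd f) {w : G} (hw : w ≠ 1) : ∃ g : G, ¬ Com (g * f * g⁻¹) w := by
  by_contra hcon
  push Not at hcon
  let K : Subgroup G :=
    { carrier := {k | ∀ g : G, Com f (g⁻¹ * k * g)}
      one_mem' := by
        intro g
        simpa using com_zpow f 0
      mul_mem' := by
        intro a b ha hb g
        have := (ha g).mul (hb g)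
        convert this using 1
        group
      inv_mem' := by
        intro a ha g
        have := (ha g).inv
        convert this using 1
        group }
  have hKn : K.Normal := by
    refine ⟨fun k hk g h => ?_⟩
    have := hk (g⁻¹ * h)
    convert this using 1
    group
  have hwK : w ∈ K := fun g => Com.conj_iff.mp (hcon g)
  have hKinf : ¬ Finite K := by
    intro hfin
    have := hK K hKn hfin
    rw [this] at hwK
    exact hw (Subgroup.mem_bot.mp hwK)
  have hKset : (K : Set G).Infinite := by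
    intro h
    exact hKinf h.to_subtype
  obtain ⟨k₁, h1, k₂, h2, -, n, hn, h⟩ := hf.infinite hKset
    (by intro k hk; simpa using hk 1)
  have hfn : f ^ n ∈ K := by rw [← h]; exact K.mul_mem h1 (K.inv_mem h2)
  have hall : ∀ g : G, Com f g := by
    intro g
    have h3 : Com f (g⁻¹ * f ^ n * g) := hfn g
    have h4 : InfOrd (g⁻¹ * f ^ n * g) := by
      have := (hfi.zpow hn).conj g⁻¹
      rwa [inv_inv] at this
    obtain ⟨m, l, hm, hl, h5⟩ := hf.common h4 h3
    have h6 : (g⁻¹ * f ^ n * g) ^ m = g⁻¹ * (f ^ n) ^ m * g := by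
      have := conj_zpow (a := g⁻¹) (b := f ^ n) (i := m)
      rwa [inv_inv] at this
    rw [h6, ← zpow_mul] at h5
    have h7 : Com f g⁻¹ := ⟨n * m, l, mul_ne_zero hn hm, hl, by rw [inv_inv]; exact h5⟩
    simpa using h7.inv
  obtain ⟨T, hT, hTg⟩ := hf
  apply hnvc
  refine ⟨Subgroup.zpowers f, ?_, inferInstance⟩
  have : Finite (G ⧸ Subgroup.zpowers f) := by
    have hTf : Finite T := hT.to_subtype
    refine Finite.of_surjective (fun t : T => (QuotientGroup.mk ((t : G)⁻¹) : G ⧸ Subgroup.zpowers f)) ?_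
    intro q
    obtain ⟨g, rfl⟩ := QuotientGroup.mk_surjective q
    obtain ⟨i, t, ht, hgt⟩ := hTg g⁻¹ (hall _)
    refine ⟨⟨t, ht⟩, ?_⟩
    rw [QuotientGroup.eq]
    refine ⟨-i, ?_⟩
    have : g = t⁻¹ * f ^ (-i) := by
      rw [← inv_inv g, hgt]; group
    rw [this]; simp only; group
  exact Subgroup.finiteIndex_of_finite_quotient

end alg

section gen

variable {G X : Type*} [Group G] [MetricSpace X] [MulAction G X]

lemma Lox.infOrd (hi : Isom G X) {g : G} (h : Lox X g) : InfOrd g := by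
  obtain ⟨x, c, hc, hg⟩ := h
  intro n hn
  by_contra hne
  have h1 : g ^ n.natAbs = 1 := by
    rcases Int.natAbs_eq n with h | h
    · rw [h, zpow_natCast] at hn; exact hn
    · rw [h, zpow_neg, zpow_natCast, inv_eq_one] at hn; exact hn
  have h2 := hg n.natAbs
  rw [h1, one_smul, dist_self] at h2
  have h3 : (0 : ℝ) < n.natAbs := by exact_mod_cast Int.natAbs_pos.mpr hne
  have := mul_pos hc h3
  linarith

lemma Lox.conj (hi : Isom G X) {f : G} (h : Lox X f) (g : G) : Lox X (g * f * g⁻¹) := by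
  obtain ⟨x, c, hc, hg⟩ := h
  refine ⟨g • x, c, hc, fun n => ?_⟩
  rw [conj_pow, mul_smul, mul_smul, inv_smul_smul, hi]
  exact hg n

lemma Lox.finCom (hi : Isom G X) {δ : ℝ} (hδ : FourPt X δ) (ha : Acylin G X) {f : G}
    (h : Lox X f) : FinCom f := by
  obtain ⟨x, c, hc, hf⟩ := h
  exact com_finite hi hδ ha hc hf (fun a b h1 h2 => h1.mul h2) (com_zpow f)

lemma Lox.mul_pow (hi : Isom G X) {δ : ℝ} (hδ : FourPt X δ) (ha : Acylin G X) {f : G}
    (h : Lox X f) {y : G} (hy : ¬ Com f y) : ∃ k₀ : ℕ, ∀ k : ℕ, k₀ ≤ k → Lox X (f ^ k * y) := by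
  obtain ⟨x, c, hc, hf⟩ := h
  exact lox_mul hi hδ ha hc hf hy

/-- The key step: a loxodromic element whose commensurator avoids `w` and all elements of `S`. -/
lemma exists_avoid (hi : Isom G X) {δ : ℝ} (hδ : FourPt X δ) (ha : Acylin G X)
    {f : G} (hf : Lox X f) {w : G} (hfw : ¬ Com f w) {S : Set G} (hS : S.Finite)
    (hSl : ∀ s ∈ S, Lox X s) :
    ∃ h : G, Lox X h ∧ ¬ Com h w ∧ ∀ s ∈ S, ¬ Com h s := by
  obtain ⟨k₀, hk₀⟩ := hf.mul_pow hi hδ ha hfw
  -- a nonzero power of `f` is not commensurated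
  have key : ∀ k : ℕ, k₀ ≤ k → ∀ n : ℤ, n ≠ 0 → ¬ Com (f ^ k * w) (f ^ n) := by
    intro k hk n hn hcom
    have hL := hk₀ k hk
    obtain ⟨m, l, hm, hl, h⟩ := (hL.finCom hi hδ ha).common ((hf.infOrd hi).zpow hn) hcom
    rw [← zpow_mul] at h
    have h1 : Com f (f ^ k * w) := by
      refine Com.of_comm (mul_ne_zero hn hm) ?_
      rw [h]
      rw [← zpow_one_add, ← zpow_add_one, add_comm]
    have h2 : Com f ((f ^ (k : ℤ))⁻¹ * (f ^ k * w)) := (com_zpow f k).inv.mul h1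
    rw [zpow_natCast, inv_mul_cancel_left] at h2
    exact hfw h2
  have hw : ∀ k : ℕ, k₀ ≤ k → 0 < k → ¬ Com (f ^ k * w) w := by
    intro k hk hk0 hcom
    have h1 : Com (f ^ k * w) (f ^ k * w) := by simpa using com_zpow (f ^ k * w) 1
    have h2 := h1.mul hcom.inv
    rw [mul_assoc, mul_inv_cancel, mul_one] at h2
    exact key k hk k (by exact_mod_cast hk0.ne') (by rw [zpow_natCast]; exact h2)
  have hsub : ∀ s ∈ S, {k : ℕ | k₀ ≤ k ∧ Com (f ^ k * w) s}.Subsingleton := by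
    intro s hs k ⟨hk, hks⟩ l ⟨hl, hls⟩
    by_contra hne
    have hL := hk₀ k hk
    have hL' := hk₀ l hl
    obtain ⟨m, p, hm, hp, h1⟩ := (hL.finCom hi hδ ha).common ((hSl s hs).infOrd hi) hks
    obtain ⟨m', p', hm', hp', h2⟩ := (hL'.finCom hi hδ ha).common ((hSl s hs).infOrd hi) hls
    have h3 : (f ^ k * w) ^ (p * m') = (f ^ l * w) ^ (p' * m) := by
      rw [zpow_mul, zpow_mul, ← h1, ← h2, ← zpow_mul, ← zpow_mul, mul_comm]
    have h4 : Com (f ^ k * w) (f ^ l * w) := by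
      refine Com.of_comm (mul_ne_zero hp hm') ?_
      rw [h3, ← zpow_one_add, ← zpow_add_one, add_comm]
    have h5 : Com (f ^ k * w) (f ^ k * w) := by simpa using com_zpow (f ^ k * w) 1
    have h6 := h4.mul h5.inv
    have h7 : f ^ l * w * (f ^ k * w)⁻¹ = f ^ ((l : ℤ) - k) := by
      rw [zpow_sub, zpow_natCast, zpow_natCast]; group
    rw [h7] at h6
    refine key k hk _ ?_ h6
    intro h0
    apply hne
    omega
  have hfin : (⋃ s ∈ S, {k : ℕ | k₀ ≤ k ∧ Com (f ^ k * w) s}).Finite :=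
    hS.biUnion (fun s hs => (hsub s hs).finite)
  obtain ⟨k, hk1, hk2⟩ := (hfin.union (Set.finite_le_nat (k₀ + 1))).infinite_compl.nonempty |>.elim
    (fun k hk => (⟨k, hk, trivial⟩ : ∃ k, k ∈ ((⋃ s ∈ S, {k : ℕ | k₀ ≤ k ∧ Com (f ^ k * w) s}) ∪
      {i | i ≤ k₀ + 1})ᶜ ∧ True))
  simp only [Set.mem_compl_iff, Set.mem_union, Set.mem_iUnion, Set.mem_ofPred_eq, exists_prop,
    not_or, not_exists, not_and, not_le] at hk1
  obtain ⟨hk3, hk4⟩ := hk1
  exact ⟨f ^ k * w, hk₀ k (by omega), hw k (by omega) (by omega),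
    fun s hs hc => hk3 s hs (by omega) hc⟩

/-- Finite sets of pairwise non-commuting loxodromic elements. -/
def Good (X : Type*) [MetricSpace X] {G : Type*} [Group G] [MulAction G X] (S : Finset G) : Prop :=
  (∀ s ∈ S, Lox X s) ∧ ∀ s ∈ S, ∀ t ∈ S, s ≠ t → s * t ≠ t * s

lemma Good.insert [DecidableEq G] {S : Finset G} (hS : Good X S) {a : G} (ha : Lox X a)
    (h : ∀ s ∈ S, a * s ≠ s * a) : Good X (insert a S) := by
  refine ⟨?_, ?_⟩
  · intro s hs
    rcases Finset.mem_insert.mp hs with rfl | hs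
    · exact ha
    · exact hS.1 s hs
  · intro s hs t ht hne
    rcases Finset.mem_insert.mp hs with h1 | h1
    · rcases Finset.mem_insert.mp ht with h2 | h2
      · exact absurd (h1.trans h2.symm) hne
      · rw [h1]; exact h t h2
    · rcases Finset.mem_insert.mp ht with h2 | h2
      · rw [h2]; exact fun h' => h s h1 h'.symm
      · exact hS.2 s h1 t h2 hne

lemma good_step (hi : Isom G X) {δ : ℝ} (hδ : FourPt X δ) (ha : Acylin G X)
    (hnvc : ¬ ∃ H : Subgroup G, H.FiniteIndex ∧ IsCyclic H)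
    (hK : ∀ N : Subgroup G, N.Normal → Finite N → N = ⊥) {f₀ : G} (hf₀ : Lox X f₀)
    {S : Finset G} (hS : Good X S) (w : G) :
    ∃ S' : Finset G, Good X S' ∧ S ⊆ S' ∧ w ∈ Subgroup.closure (S' : Set G) := by
  classical
  by_cases hw : w = 1
  · exact ⟨S, hS, subset_rfl, by rw [hw]; exact Subgroup.one_mem _⟩
  obtain ⟨g, hg⟩ := exists_not_com hnvc hK (hf₀.finCom hi hδ ha) (hf₀.infOrd hi) hw
  obtain ⟨f, hf, hfw, hfS⟩ := exists_avoid hi hδ ha (hf₀.conj hi g) hg S.finite_toSet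
    (fun s hs => hS.1 s hs)
  obtain ⟨k₀, hk₀⟩ := hf.mul_pow hi hδ ha hfw
  have hsub : ∀ s ∈ S, {k : ℕ | (f ^ k * w) * s = s * (f ^ k * w)}.Subsingleton := by
    have aux : ∀ s ∈ S, ∀ k l : ℕ, k < l → (f ^ k * w) * s = s * (f ^ k * w) →
        (f ^ l * w) * s = s * (f ^ l * w) → False := by
      intro s hs k l hkl h1 h2
      obtain ⟨j, rfl⟩ := Nat.exists_eq_add_of_lt hkl
      apply hfS s hs
      refine Com.of_comm (n := ((j + 1 : ℕ) : ℤ)) (by exact_mod_cast (Nat.succ_ne_zero j)) ?_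
      rw [zpow_natCast]
      rw [show k + j + 1 = (j + 1) + k by ring, pow_add, mul_assoc (f ^ (j + 1)),
        mul_assoc (f ^ (j + 1)), h1, ← mul_assoc, ← mul_assoc s] at h2
      exact (mul_right_cancel h2).symm
    intro s hs k hk l hl
    by_contra hne
    rcases lt_or_gt_of_ne hne with h | h
    · exact aux s hs k l h hk hl
    · exact aux s hs l k h hl hk
  have hfin : (⋃ s ∈ (S : Set G), {k : ℕ | (f ^ k * w) * s = s * (f ^ k * w)}).Finite :=
    S.finite_toSet.biUnion (fun s hs => (hsub s hs).finite)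
  obtain ⟨k, hk⟩ := (hfin.union (Set.finite_le_nat k₀)).infinite_compl.nonempty
  simp only [Set.mem_compl_iff, Set.mem_union, Set.mem_iUnion, Set.mem_ofPred_eq, exists_prop,
    not_or, not_exists, not_and, not_le] at hk
  obtain ⟨hk3, hk4⟩ := hk
  have h1 : Good X (insert f S) := hS.insert hf (by
    intro s hs h
    exact hfS s hs (Com.of_comm one_ne_zero (by rw [zpow_one]; exact h.symm)))
  have h2 : Good X (insert (f ^ k * w) (insert f S)) := h1.insert (hk₀ k hk4.le) (by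
    intro s hs h
    rcases Finset.mem_insert.mp hs with rfl | hs
    · apply hfw
      refine Com.of_comm one_ne_zero ?_
      rw [zpow_one]
      rw [mul_assoc, ← mul_assoc s, ← pow_succ', pow_succ, mul_assoc] at h
      exact mul_left_cancel h
    · exact hk3 s hs h)
  refine ⟨_, h2, ?_, ?_⟩
  · intro s hs
    exact Finset.mem_insert_of_mem (Finset.mem_insert_of_mem hs)
  · have m1 : f ∈ Subgroup.closure ((insert (f ^ k * w) (insert f S) : Finset G) : Set G) :=
      Subgroup.subset_closure (by simp)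
    have m2 : f ^ k * w ∈ Subgroup.closure
        ((insert (f ^ k * w) (insert f S) : Finset G) : Set G) :=
      Subgroup.subset_closure (by simp)
    have := Subgroup.mul_mem _ (Subgroup.inv_mem _ (Subgroup.pow_mem _ m1 k)) m2
    rwa [inv_mul_cancel_left] at this

theorem exists_good (hi : Isom G X) {δ : ℝ} (hδ : FourPt X δ) (ha : Acylin G X)
    (hfg : Group.FG G)
    (hnvc : ¬ ∃ H : Subgroup G, H.FiniteIndex ∧ IsCyclic H)
    (hK : ∀ N : Subgroup G, N.Normal → Finite N → N = ⊥) {f₀ : G} (hf₀ : Lox X f₀) :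
    ∃ S : Finset G, Subgroup.closure (S : Set G) = ⊤ ∧ Good X S := by
  classical
  obtain ⟨Y, hY⟩ := hfg.out
  have key : ∀ Z : Finset G, ∃ S : Finset G, Good X S ∧
      (Z : Set G) ⊆ Subgroup.closure (S : Set G) := by
    intro Z
    induction Z using Finset.induction_on with
    | empty => exact ⟨∅, ⟨by simp, by simp⟩, by simp⟩
    | insert w Z _ ih =>
      obtain ⟨S, hS, hZ⟩ := ih
      obtain ⟨S', hS', hSS, hw⟩ := good_step hi hδ ha hnvc hK hf₀ hS w
      refine ⟨S', hS', ?_⟩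
      intro z hz
      rw [Finset.coe_insert] at hz
      rcases hz with rfl | hz
      · exact hw
      · exact Subgroup.closure_mono (by exact_mod_cast hSS) (hZ hz)
  obtain ⟨S, hS, hYS⟩ := key Y
  refine ⟨S, ?_, hS⟩
  rw [eq_top_iff, ← hY, Subgroup.closure_le]
  exact hYS

end gen

end Pool.Agent.H322R3.Acyl
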