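import Pool.Agent.H322R3.AcylGeom

set_option autoImplicit false
set_option linter.unusedSectionVars false

/-!
Commensurators of loxodromic elements in acylindrical actions.
-/

namespace Pool.Agent.H322R3.Acyl

/-- `y` commensurates `⟨f⟩`. -/
def Com {G : Type*} [Group G] (f y : G) : Prop :=
  ∃ m n : ℤ, m ≠ 0 ∧ n ≠ 0 ∧ y * f ^ m * y⁻¹ = f ^ n

variable {G X : Type*} [Group G] [MetricSpace X] [MulAction G X]

section

variable (hi : Isom G X) {δ : ℝ} (hδ : FourPt X δ) (ha : Acylin G X)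
include hi hδ

lemma le_of_sub {f : G} {x : X} {C : ℝ}
    (hC : ∀ m n : ℕ, dist x (f ^ m • x) + dist x (f ^ n • x) ≤ dist x (f ^ (m + n) • x) + C)
    {i k : ℕ} (hik : i ≤ k) : dist x (f ^ i • x) - C / 2 ≤ gp x (f ^ i • x) (f ^ k • x) := by
  unfold gp
  obtain ⟨j, rfl⟩ := Nat.exists_eq_add_of_le hik
  rw [dist_pow hi]
  have := hC i j
  linarith

lemma mono_of {f : G} {x : X} {C : ℝ}
    (hC : ∀ m n : ℕ, dist x (f ^ m • x) + dist x (f ^ n • x) ≤ dist x (f ^ (m + n) • x) + C)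
    {i k : ℕ} (hik : i ≤ k) : dist x (f ^ i • x) ≤ dist x (f ^ k • x) + C := by
  obtain ⟨j, rfl⟩ := Nat.exists_eq_add_of_le hik
  have := hC i j
  have h2 : 0 ≤ dist x (f ^ j • x) := dist_nonneg
  linarith

/-- Two rays with unbounded Gromov product fellow travel. -/
lemma fellow {f g : G} {x x' : X} (hfg : ∀ n : ℕ, dist x' (g ^ n • x') = dist x (f ^ n • x))
    {C : ℝ} (hC0 : 0 ≤ C)
    (hC : ∀ m n : ℕ, dist x (f ^ m • x) + dist x (f ^ n • x) ≤ dist x (f ^ (m + n) • x) + C)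
    (hub : ∀ T : ℝ, ∃ k : ℕ, T ≤ gp x (f ^ k • x) (g ^ k • x')) (i : ℕ) :
    dist (f ^ i • x) (g ^ i • x) ≤ C + 4 * dist x x' + 4 * δ := by
  have hδ0 := hδ.nonneg x
  obtain ⟨k, hk⟩ := hub (dist x (f ^ i • x) + C + 1)
  have hC' : ∀ m n : ℕ, dist x' (g ^ m • x') + dist x' (g ^ n • x') ≤
      dist x' (g ^ (m + n) • x') + C := by
    intro m n; rw [hfg, hfg, hfg]; exact hC m n
  have hik : i ≤ k := by
    by_contra hcon
    push Not at hcon
    have h1 := mono_of hi hδ hC hcon.le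
    have h2 := gp_le_left x (f ^ k • x) (g ^ k • x')
    linarith
  have h1 := le_of_sub hi hδ hC hik
  have h2 := le_of_sub hi hδ hC' hik
  rw [hfg] at h2
  have h3 := gp_base x x' (g ^ i • x') (g ^ k • x')
  have h4 := hδ.gp x (f ^ i • x) (f ^ k • x) (g ^ k • x')
  have h5 := hδ.gp x (f ^ i • x) (g ^ k • x') (g ^ i • x')
  rw [gp_comm x (g ^ k • x') (g ^ i • x')] at h5
  have h6 : dist x (f ^ i • x) - C / 2 - δ ≤ gp x (f ^ i • x) (g ^ k • x') := by
    have : dist x (f ^ i • x) - C / 2 ≤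
      min (gp x (f ^ i • x) (f ^ k • x)) (gp x (f ^ k • x) (g ^ k • x')) :=
      le_min h1 (by linarith)
    linarith
  have hd : 0 ≤ dist x x' := dist_nonneg
  have h7 : dist x (f ^ i • x) - C / 2 - dist x x' - 2 * δ ≤ gp x (f ^ i • x) (g ^ i • x') := by
    have : dist x (f ^ i • x) - C / 2 - dist x x' - δ ≤
      min (gp x (f ^ i • x) (g ^ k • x')) (gp x (g ^ i • x') (g ^ k • x')) :=
      le_min (by linarith) (by linarith)
    linarith
  unfold gp at h7
  have h8 := dist_triangle x x' (g ^ i • x')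
  rw [hfg] at h8
  have h9 := dist_triangle (f ^ i • x) (g ^ i • x') (g ^ i • x)
  rw [hi, dist_comm x' x] at h9
  linarith

include ha

/-- Two fellow travelling loxodromic elements have a common power. -/
lemma common_power {f g : G} {x : X} {c : ℝ} (hc : 0 < c)
    (hf : ∀ n : ℕ, c * (n : ℝ) ≤ dist x (f ^ n • x)) {D : ℝ}
    (hD : ∀ i : ℕ, dist (f ^ i • x) (g ^ i • x) ≤ D) :
    ∃ n : ℕ, 0 < n ∧ f ^ n = g ^ n := by
  have hD0 : 0 ≤ D := dist_nonneg.trans (hD 0)
  obtain ⟨R, N, hRN⟩ := ha (2 * D + 1) (by linarith)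
  obtain ⟨m, hm⟩ := exists_nat_gt (R / c)
  have hm' : R ≤ dist x (f ^ m • x) := by
    rw [div_lt_iff₀ hc] at hm
    have := hf m
    linarith
  obtain ⟨hfin, -⟩ := hRN x (f ^ m • x) hm'
  have hmem : ∀ j : ℕ, (g ^ j)⁻¹ * f ^ j ∈
      {h : G | dist x (h • x) ≤ 2 * D + 1 ∧ dist (f ^ m • x) (h • f ^ m • x) ≤ 2 * D + 1} := by
    intro j
    constructor
    · rw [mul_smul, dist_comm, dist_inv hi]
      linarith [hD j]
    · rw [mul_smul, dist_comm, dist_inv hi, ← mul_smul, ← pow_add]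
      have h1 := dist_triangle (f ^ (j + m) • x) (g ^ (j + m) • x) (g ^ j • f ^ m • x)
      have h2 : dist (g ^ (j + m) • x) (g ^ j • f ^ m • x) ≤ D := by
        rw [pow_add, mul_smul, hi, dist_comm]; exact hD m
      linarith [hD (j + m)]
  have hninj : ¬ Function.Injective (fun j : ℕ => (g ^ j)⁻¹ * f ^ j) := by
    intro hinj
    exact (Set.infinite_range_of_injective hinj)
      (hfin.subset (by rintro _ ⟨j, rfl⟩; exact hmem j))
  have key : ∀ i j : ℕ, i < j → (g ^ i)⁻¹ * f ^ i = (g ^ j)⁻¹ * f ^ j →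
      ∃ n : ℕ, 0 < n ∧ f ^ n = g ^ n := by
    intro i j hij h
    refine ⟨j - i, by omega, ?_⟩
    obtain ⟨k, rfl⟩ := Nat.exists_eq_add_of_lt hij
    have e : i + k + 1 - i = k + 1 := by omega
    rw [e]
    rw [show i + k + 1 = (k + 1) + i by ring, pow_add, pow_add] at h
    have h2 : g ^ (k + 1) * g ^ i * ((g ^ i)⁻¹ * f ^ i) = f ^ (k + 1) * f ^ i := by
      rw [h]; group
    have h3 : g ^ (k + 1) * f ^ i = f ^ (k + 1) * f ^ i := by
      rw [← h2]; group
    exact (mul_right_cancel h3).symm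
  unfold Function.Injective at hninj
  push Not at hninj
  obtain ⟨i, j, h, hij⟩ := hninj
  rcases lt_or_gt_of_ne hij with h' | h'
  · exact key i j h' h
  · exact key j i h' h.symm

/-- If `y` does not commensurate `⟨f⟩` then `f ^ k * y` is loxodromic for all large `k`. -/
lemma lox_mul {f : G} {x : X} {c : ℝ} (hc : 0 < c)
    (hf : ∀ n : ℕ, c * (n : ℝ) ≤ dist x (f ^ n • x)) {y : G} (hy : ¬ Com f y) :
    ∃ k₀ : ℕ, ∀ k : ℕ, k₀ ≤ k → Lox X (f ^ k * y) := by
  have hδ0 := hδ.nonneg x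
  obtain ⟨C, hC0, hC⟩ := exists_qg hi hδ hc hf
  have hB : ∃ B : ℝ, ∀ k : ℕ, gp x (f ^ k • x) ((y⁻¹ * f⁻¹ * y) ^ k • (y⁻¹ • x)) ≤ B := by
    by_contra hcon
    push Not at hcon
    have h1 := fellow hi hδ (f := f) (g := y⁻¹ * f⁻¹ * y) (x := x) (x' := y⁻¹ • x) (C := C)
      (by
        intro n
        have : (y⁻¹ * f⁻¹ * y) ^ n = y⁻¹ * (f ^ n)⁻¹ * y := by
          have := conj_pow (a := y⁻¹) (b := f⁻¹) (i := n)
          simpa using this
        rw [this, mul_smul, smul_inv_smul, mul_smul, hi, dist_inv_self hi])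
      hC0 hC (fun T => by obtain ⟨k, hk⟩ := hcon T; exact ⟨k, hk.le⟩)
    obtain ⟨n, hn, h2⟩ := common_power hi hδ ha hc hf h1
    apply hy
    refine ⟨n, -n, by exact_mod_cast hn.ne', by simpa using hn.ne', ?_⟩
    have : (y⁻¹ * f⁻¹ * y) ^ n = y⁻¹ * (f ^ n)⁻¹ * y := by
      have := conj_pow (a := y⁻¹) (b := f⁻¹) (i := n)
      simpa using this
    rw [this] at h2
    rw [zpow_natCast, zpow_neg, zpow_natCast]
    have h3 : y * f ^ n * y⁻¹ = y * (y⁻¹ * (f ^ n)⁻¹ * y) * y⁻¹ := by rw [← h2]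
    rw [h3]; group
  obtain ⟨B, hB⟩ := hB
  set d := dist x (y • x) with hd
  have hd0 : 0 ≤ d := dist_nonneg
  obtain ⟨k₀, hk₀⟩ := exists_nat_gt ((2 * B + 3 * d + 2 * δ + 1) / c)
  refine ⟨k₀, fun k hk => lox_of hi hδ (f ^ k * y) x (η := 1) one_pos ?_⟩
  have hbk : 2 * B + 3 * d + 2 * δ + 1 ≤ dist x (f ^ k • x) := by
    rw [div_lt_iff₀ hc] at hk₀
    have h1 := hf k
    have h2 : c * (k₀ : ℝ) ≤ c * k := mul_le_mul_of_nonneg_left (by exact_mod_cast hk) hc.le
    linarith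
  have hpw : (y⁻¹ * f⁻¹ * y) ^ k • (y⁻¹ • x) = (f ^ k * y)⁻¹ • x := by
    have := conj_pow (a := y⁻¹) (b := f⁻¹) (i := k)
    rw [inv_inv] at this
    rw [this, ← mul_smul]
    congr 1
    group
  have h1 := hB k
  rw [hpw] at h1
  have h2 : dist x ((f ^ k * y) ^ 2 • x) = dist ((f ^ k * y) • x) ((f ^ k * y)⁻¹ • x) := by
    rw [dist_comm ((f ^ k * y) • x), dist_inv hi, pow_two, mul_smul]
  have h3 : dist x ((f ^ k * y)⁻¹ • x) = dist x ((f ^ k * y) • x) := dist_inv_self hi _ _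
  have h4 := gp_lip x ((f ^ k * y) • x) ((f ^ k * y)⁻¹ • x) (f ^ k • x)
  have h5 : dist ((f ^ k * y) • x) (f ^ k • x) = d := by
    rw [mul_smul, hi, dist_comm]
  have h6 := dist_triangle x ((f ^ k * y) • x) (f ^ k • x)
  rw [h5] at h4 h6
  have h7 : gp x ((f ^ k * y) • x) ((f ^ k * y)⁻¹ • x) =
      dist x ((f ^ k * y) • x) - dist ((f ^ k * y) • x) ((f ^ k * y)⁻¹ • x) / 2 := by
    unfold gp; rw [h3]; ring
  rw [h7] at h4
  rw [h2]
  linarith

omit ha in
/-- Points on the axis. -/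
lemma near_axis {f : G} {x : X} {c : ℝ} (hc : 0 < c)
    (hf : ∀ n : ℕ, c * (n : ℝ) ≤ dist x (f ^ n • x)) {C : ℝ} (hC0 : 0 ≤ C)
    (hC : ∀ m n : ℕ, dist x (f ^ m • x) + dist x (f ^ n • x) ≤ dist x (f ^ (m + n) • x) + C)
    {p : X} {L : ℕ} {C₁ : ℝ} (hC1 : C / 2 ≤ C₁)
    (hp : gp p (f ^ (-(L : ℤ)) • x) (f ^ (L : ℤ) • x) ≤ C₁) :
    ∃ i : ℤ, dist (f ^ i • x) p ≤ dist x (f • x) + 4 * C₁ + 2 * δ := by
  have hδ0 := hδ.nonneg x
  set e := f ^ (-(L : ℤ)) • x with he
  set e' := f ^ (L : ℤ) • x with he'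
  have hpt : ∀ i : ℕ, dist e (f ^ (-(L : ℤ) + i) • x) = dist x (f ^ i • x) := by
    intro i
    rw [he, dist_zpow hi]
    congr 3
    omega
  have hee' : dist e e' = dist x (f ^ (2 * L) • x) := by
    have := hpt (2 * L)
    have e0 : (-(L : ℤ) + ((2 * L : ℕ) : ℤ)) = L := by push_cast; ring
    rw [e0] at this
    exact this
  -- the largest index
  obtain ⟨i, hiL, hi1, hi2⟩ : ∃ i : ℕ, i ≤ 2 * L ∧ dist x (f ^ i • x) ≤ dist e p ∧
      (dist e p ≤ dist x (f ^ i • x) + dist x (f • x) + 2 * C₁) := by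
    have hex : ∃ i : ℕ, i ≤ 2 * L ∧ dist x (f ^ i • x) ≤ dist e p :=
      ⟨0, Nat.zero_le _, by simp⟩
    classical
    set i := Nat.findGreatest (fun i => dist x (f ^ i • x) ≤ dist e p) (2 * L) with hidef
    have hP : dist x (f ^ i • x) ≤ dist e p :=
      Nat.findGreatest_spec (P := fun i => dist x (f ^ i • x) ≤ dist e p) (Nat.zero_le (2 * L))
        (by simp)
    have hle : i ≤ 2 * L := Nat.findGreatest_le _
    refine ⟨i, hle, hP, ?_⟩
    rcases Nat.lt_or_ge i (2 * L) with h | h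
    · have h1 : ¬ dist x (f ^ (i + 1) • x) ≤ dist e p :=
        Nat.findGreatest_is_greatest (P := fun i => dist x (f ^ i • x) ≤ dist e p)
          (Nat.lt_succ_self i) h
      push Not at h1
      have h2 := pow_add_le hi f x i 1
      rw [pow_one] at h2
      linarith
    · have h1 : i = 2 * L := le_antisymm hle h
      rw [h1]
      unfold gp at hp
      rw [hee', dist_comm p e] at hp
      have : 0 ≤ dist p e' := dist_nonneg
      have : 0 ≤ dist x (f • x) := dist_nonneg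
      linarith
  refine ⟨-(L : ℤ) + i, ?_⟩
  set q := f ^ (-(L : ℤ) + i) • x with hq
  have h1 : dist e q = dist x (f ^ i • x) := hpt i
  have h2 : dist q e' = dist x (f ^ (2 * L - i) • x) := by
    rw [hq, he', dist_zpow hi]
    congr 3
    omega
  have h3 := hC i (2 * L - i)
  rw [Nat.add_sub_cancel' hiL] at h3
  have h4 := hδ.gp e p e' q
  have h5 : dist e p - C₁ ≤ gp e p e' := by
    unfold gp at hp ⊢
    rw [dist_comm p e] at hp
    linarith
  have h6 : dist x (f ^ i • x) - C / 2 ≤ gp e e' q := by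
    unfold gp
    rw [h1, hee', dist_comm e' q, h2]
    linarith
  have h7 : min (gp e p e') (gp e e' q) ≥ dist x (f ^ i • x) - C₁ :=
    le_min (by linarith) (by linarith)
  have h8 : gp e p q = (dist e p + dist x (f ^ i • x) - dist p q) / 2 := by
    unfold gp; rw [h1]
  rw [h8] at h4
  rw [dist_comm q p]
  linarith

/-- Commensurating elements stay near the axis. -/
lemma com_near {f : G} {x : X} {c : ℝ} (hc : 0 < c)
    (hf : ∀ n : ℕ, c * (n : ℝ) ≤ dist x (f ^ n • x)) {C : ℝ} (hC0 : 0 ≤ C)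
    (hC : ∀ m n : ℕ, dist x (f ^ m • x) + dist x (f ^ n • x) ≤ dist x (f ^ (m + n) • x) + C)
    {g : G} (hg : Com f g) :
    ∃ i : ℤ, dist (f ^ i • x) (g • x) ≤ dist x (f • x) + 4 * (C / 2 + 2 * δ) + 2 * δ := by
  have hδ0 := hδ.nonneg x
  obtain ⟨m, n, hm, hn, hmn⟩ := hg
  have hmn' : ∀ k : ℤ, g * f ^ (m * k) = f ^ (n * k) * g := by
    intro k
    have : (g * f ^ m * g⁻¹) ^ k = g * (f ^ m) ^ k * g⁻¹ := by
      rw [conj_zpow]
    rw [zpow_mul, zpow_mul, ← hmn, this]
    group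
  set Dg := dist (g • x) x with hDg
  -- choose k large
  obtain ⟨k, hk⟩ := exists_nat_gt ((Dg + C + 2 * δ + 1) / c)
  have hbk : ∀ l : ℕ, k ≤ l → Dg + C + 2 * δ + 1 ≤ dist x (f ^ l • x) := by
    intro l hl
    rw [div_lt_iff₀ hc] at hk
    have h1 := hf l
    have h2 : c * (k : ℝ) ≤ c * l := mul_le_mul_of_nonneg_left (by exact_mod_cast hl) hc.le
    linarith
  have main : gp (g • x) (f ^ (-((n.natAbs * k : ℕ) : ℤ)) • x) (f ^ ((n.natAbs * k : ℕ) : ℤ) • x) ≤
      C / 2 + 2 * δ := by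
    -- it suffices to treat `n * k`
    have suff : gp (g • x) (f ^ (n * (-k : ℤ)) • x) (f ^ (n * k) • x) ≤ C / 2 + 2 * δ := by
      set p := g • x with hp
      have e1 : f ^ (n * k) • p = g • f ^ (m * k) • x := by
        rw [hp, ← mul_smul, ← mul_smul, hmn']
      have e2 : f ^ (n * (-k : ℤ)) • p = g • f ^ (m * (-k : ℤ)) • x := by
        rw [hp, ← mul_smul, ← mul_smul, hmn']
      have d1 : dist p (f ^ (n * k) • p) = dist x (f ^ (m.natAbs * k) • x) := by
        rw [e1, hp, hi]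
        have := dist_zpow hi f x 0 (m * k)
        rw [zpow_zero, one_smul] at this
        rw [this]; congr 3
        rw [sub_zero, Int.natAbs_mul, Int.natAbs_natCast]
      have d2 : dist p (f ^ (n * (-k : ℤ)) • p) = dist x (f ^ (m.natAbs * k) • x) := by
        rw [e2, hp, hi]
        have := dist_zpow hi f x 0 (m * (-k : ℤ))
        rw [zpow_zero, one_smul] at this
        rw [this]; congr 3
        rw [sub_zero, Int.natAbs_mul, Int.natAbs_neg, Int.natAbs_natCast]
      have d3 : dist (f ^ (n * (-k : ℤ)) • p) (f ^ (n * k) • p) =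
          dist x (f ^ (m.natAbs * k + m.natAbs * k) • x) := by
        rw [e1, e2, hi, dist_zpow hi]
        congr 3
        rw [show m * (k : ℤ) - m * (-k : ℤ) = m * (k + k) by ring, Int.natAbs_mul,
          show ((k : ℤ) + k).natAbs = k + k by omega, mul_add]
      have hb := hbk (m.natAbs * k) (Nat.le_mul_of_pos_left k (Int.natAbs_pos.mpr hm))
      have h1 : gp p (f ^ (n * (-k : ℤ)) • p) (f ^ (n * k) • p) ≤ C / 2 := by
        unfold gp
        rw [d1, d2, d3]
        have := hC (m.natAbs * k) (m.natAbs * k)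
        linarith
      have hlow : ∀ z : ℤ, dist p (f ^ z • p) = dist x (f ^ (m.natAbs * k) • x) →
          dist x (f ^ (m.natAbs * k) • x) - Dg ≤ gp p (f ^ z • p) (f ^ z • x) := by
        intro z hz
        unfold gp
        rw [hi, ← hDg]
        have h2 := dist_triangle p (f ^ z • x) (f ^ z • p)
        rw [hi, dist_comm x p, ← hDg] at h2
        linarith
      have h2 := hlow _ d1
      have h3 := hlow _ d2
      have h4 := hδ.gp p (f ^ (n * (-k : ℤ)) • p) (f ^ (n * (-k : ℤ)) • x) (f ^ (n * k) • p)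
      have h5 := hδ.gp p (f ^ (n * (-k : ℤ)) • x) (f ^ (n * k) • x) (f ^ (n * k) • p)
      rw [gp_comm p (f ^ (n * k) • x) (f ^ (n * k) • p)] at h5
      by_contra hcon
      push Not at hcon
      have h6 : C / 2 + δ < gp p (f ^ (n * (-k : ℤ)) • x) (f ^ (n * k) • p) := by
        have : C / 2 + 2 * δ < min (gp p (f ^ (n * (-k : ℤ)) • x) (f ^ (n * k) • x))
          (gp p (f ^ (n * k) • p) (f ^ (n * k) • x)) := lt_min hcon (by linarith)
        linarith
      have h7 : C / 2 + δ < min (gp p (f ^ (n * (-k : ℤ)) • p) (f ^ (n * (-k : ℤ)) • x))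
          (gp p (f ^ (n * (-k : ℤ)) • x) (f ^ (n * k) • p)) := lt_min (by linarith) h6
      linarith
    rcases Int.natAbs_eq n with h | h
    · have e1 : n * (-k : ℤ) = (-((n.natAbs * k : ℕ) : ℤ)) := by
        rw [Nat.cast_mul, ← h]; ring
      have e2 : n * (k : ℤ) = ((n.natAbs * k : ℕ) : ℤ) := by
        rw [Nat.cast_mul, ← h]
      rw [e1, e2] at suff
      exact suff
    · have e1 : n * (-k : ℤ) = (((n.natAbs * k : ℕ) : ℤ)) := by
        rw [Nat.cast_mul, show ((n.natAbs : ℕ) : ℤ) = -n by omega]; ring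
      have e2 : n * (k : ℤ) = -((n.natAbs * k : ℕ) : ℤ) := by
        rw [Nat.cast_mul, show ((n.natAbs : ℕ) : ℤ) = -n by omega]; ring
      rw [e1, e2, gp_comm] at suff
      exact suff
  exact near_axis hi hδ hc hf hC0 hC (by linarith) main

/-- A loxodromic element has finite index in its commensurator (coset form). -/
lemma com_finite {f : G} {x : X} {c : ℝ} (hc : 0 < c)
    (hf : ∀ n : ℕ, c * (n : ℝ) ≤ dist x (f ^ n • x)) (hmul : ∀ a b : G, Com f a → Com f b →
      Com f (a * b)) (hpow : ∀ i : ℤ, Com f (f ^ i)) :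
    ∃ T : Set G, T.Finite ∧ ∀ g : G, Com f g → ∃ i : ℤ, ∃ t ∈ T, g = f ^ i * t := by
  have hδ0 := hδ.nonneg x
  obtain ⟨C, hC0, hC⟩ := exists_qg hi hδ hc hf
  set D := dist x (f • x) + 4 * (C / 2 + 2 * δ) + 2 * δ with hDdef
  have hD0 : 0 ≤ D := by have : 0 ≤ dist x (f • x) := dist_nonneg
                         positivity
  set D₂ := 3 * D + C with hD2
  obtain ⟨R, N, hRN⟩ := ha (2 * D₂ + 1) (by positivity)
  obtain ⟨M, hM⟩ := exists_nat_gt (R / c)
  have hM' : R ≤ dist x (f ^ M • x) := by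
    rw [div_lt_iff₀ hc] at hM
    have := hf M
    linarith
  obtain ⟨hfin, -⟩ := hRN x (f ^ M • x) hM'
  set A : Set G := {h : G | dist x (h • x) ≤ 2 * D₂ + 1 ∧
    dist (f ^ M • x) (h • f ^ M • x) ≤ 2 * D₂ + 1} with hA
  -- the second exceptional set
  set B : Set G := {t : G | dist x (t • x) ≤ D ∧
    dist (f ^ (-(M : ℤ)) • x) (t • f ^ M • x) ≤ D₂} with hB
  have hBfin : B.Finite := by
    rcases B.eq_empty_or_nonempty with h | ⟨t₀, ht₀⟩
    · rw [h]; exact Set.finite_empty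
    · refine (hfin.image (fun h => t₀ * h)).subset ?_
      intro t ht
      refine ⟨t₀⁻¹ * t, ⟨?_, ?_⟩, by simp⟩
      · rw [mul_smul, dist_comm, dist_inv hi]
        have := dist_triangle (t • x) x (t₀ • x)
        rw [dist_comm (t • x) x] at this
        have h1 := ht.1
        have h2 := ht₀.1
        linarith
      · rw [mul_smul, dist_comm, dist_inv hi]
        have := dist_triangle (t • f ^ M • x) (f ^ (-(M : ℤ)) • x) (t₀ • f ^ M • x)
        rw [dist_comm (t • f ^ M • x) (f ^ (-(M : ℤ)) • x)] at this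
        have h1 := ht.2
        have h2 := ht₀.2
        linarith
  refine ⟨A ∪ B, hfin.union hBfin, fun g hg => ?_⟩
  obtain ⟨i, hi1⟩ := com_near hi hδ ha hc hf hC0 hC hg
  rw [← hDdef] at hi1
  refine ⟨i, f ^ (-i) * g, ?_, by rw [← mul_assoc, ← zpow_add]; simp⟩
  set t := f ^ (-i) * g with ht
  have ht1 : dist x (t • x) ≤ D := by
    rw [ht, mul_smul, zpow_neg, dist_comm, dist_inv hi, dist_comm]
    exact hi1
  have htc : Com f (t * f ^ (M : ℤ)) := hmul _ _ (hmul _ _ (hpow _) hg) (hpow _)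
  obtain ⟨j, hj⟩ := com_near hi hδ ha hc hf hC0 hC htc
  rw [← hDdef, mul_smul, zpow_natCast] at hj
  -- compare the absolute values
  have hjM1 : dist x (f ^ j • x) ≤ dist x (f ^ M • x) + 2 * D := by
    have h1 := dist_triangle x (t • x) (f ^ j • x)
    have h2 := dist_triangle (t • x) (t • f ^ M • x) (f ^ j • x)
    rw [hi, dist_comm (t • f ^ M • x) (f ^ j • x)] at h2
    linarith
  have hjM2 : dist x (f ^ M • x) ≤ dist x (f ^ j • x) + 2 * D := by
    have h1 := dist_triangle (t • x) x (t • f ^ M • x)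
    have h2 := dist_triangle x (f ^ j • x) (t • f ^ M • x)
    rw [hi, dist_comm (t • x) x] at h1
    linarith
  have hj0 : dist x (f ^ j • x) = dist x (f ^ j.natAbs • x) := by
    have := dist_zpow hi f x 0 j
    rw [zpow_zero, one_smul, sub_zero] at this
    exact this
  rw [hj0] at hjM1 hjM2
  have hdiff : ∀ s : ℤ, (j - s).natAbs = (max j.natAbs M) - (min j.natAbs M) →
      dist (f ^ j • x) (f ^ s • x) ≤ 2 * D + C := by
    intro s hs
    rw [dist_comm, dist_zpow hi, hs]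
    rcases le_total j.natAbs M with h | h
    · rw [max_eq_right h, min_eq_left h]
      have := hC j.natAbs (M - j.natAbs)
      rw [Nat.add_sub_cancel' h] at this
      linarith
    · rw [max_eq_left h, min_eq_right h]
      have := hC M (j.natAbs - M)
      rw [Nat.add_sub_cancel' h] at this
      linarith
  rcases le_total 0 j with h | h
  · left
    have h1 := hdiff M (by omega)
    refine ⟨by linarith, ?_⟩
    have h2 := dist_triangle (f ^ M • x) (f ^ j • x) (t • f ^ M • x)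
    rw [zpow_natCast] at h1
    rw [dist_comm (f ^ M • x) (f ^ j • x)] at h2
    linarith
  · right
    have h1 := hdiff (-M) (by omega)
    refine ⟨ht1, ?_⟩
    have h2 := dist_triangle (f ^ (-(M : ℤ)) • x) (f ^ j • x) (t • f ^ M • x)
    rw [dist_comm (f ^ (-(M : ℤ)) • x) (f ^ j • x)] at h2
    linarith

end

end Pool.Agent.H322R3.Acyl
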