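import Mathlib

set_option autoImplicit false

/-!
Loxodromic elements of acylindrical actions on (not necessarily geodesic) hyperbolic metric
spaces.
-/

namespace Pool.Agent.H322R3.Acyl

variable {G X : Type*} [Group G] [MetricSpace X] [MulAction G X]

/-- Gromov product of `x`, `y` at `p`. -/
noncomputable def gp (p x y : X) : ℝ := (dist p x + dist p y - dist x y) / 2

/-- The four point condition. -/
def FourPt (X : Type*) [MetricSpace X] (δ : ℝ) : Prop :=
  ∀ x y z w : X, dist x y + dist z w ≤ max (dist x z + dist y w) (dist x w + dist y z) + 2 * δ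

/-- The action is isometric. -/
def Isom (G X : Type*) [Group G] [MetricSpace X] [MulAction G X] : Prop :=
  ∀ (h : G) (x y : X), dist (h • x) (h • y) = dist x y

/-- Acylindricity. -/
def Acylin (G X : Type*) [Group G] [MetricSpace X] [MulAction G X] : Prop :=
  ∀ ε : ℝ, 0 < ε → ∃ (R : ℝ) (N : ℕ), ∀ x y : X, R ≤ dist x y →
    {h : G | dist x (h • x) ≤ ε ∧ dist y (h • y) ≤ ε}.Finite ∧
    {h : G | dist x (h • x) ≤ ε ∧ dist y (h • y) ≤ ε}.ncard ≤ N

/-- `g` acts loxodromically. -/
def Lox (X : Type*) [MetricSpace X] {G : Type*} [Group G] [MulAction G X] (g : G) : Prop :=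
  ∃ x : X, ∃ c : ℝ, 0 < c ∧ ∀ n : ℕ, c * (n : ℝ) ≤ dist x ((g ^ n) • x)

lemma gp_comm (p x y : X) : gp p x y = gp p y x := by
  unfold gp; rw [dist_comm x y]; ring

lemma FourPt.nonneg {δ : ℝ} (h : FourPt X δ) (x : X) : 0 ≤ δ := by
  have := h x x x x
  simp at this
  linarith

lemma FourPt.gp {δ : ℝ} (h : FourPt X δ) (p x y z : X) :
    min (gp p x y) (gp p y z) - δ ≤ gp p x z := by
  have h1 := h p y x z
  unfold Acyl.gp
  have e1 := dist_comm y x
  rcases le_total (dist p x + dist y z) (dist p z + dist y x) with h2 | h2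
  · rw [max_eq_right h2] at h1
    have := min_le_left ((dist p x + dist p y - dist x y) / 2) ((dist p y + dist p z - dist y z) / 2)
    linarith
  · rw [max_eq_left h2] at h1
    have := min_le_right ((dist p x + dist p y - dist x y) / 2)
      ((dist p y + dist p z - dist y z) / 2)
    linarith

lemma gp_le_left (p x y : X) : gp p x y ≤ dist p x := by
  unfold gp; have := dist_triangle p x y; linarith

lemma gp_lip (p x y x' : X) : gp p x y ≤ gp p x' y + dist x x' := by
  unfold gp
  have h1 := dist_triangle p x' x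
  have h2 := dist_triangle x' x y
  have h3 := dist_comm x x'
  linarith

lemma gp_base (p q x y : X) : gp q x y ≤ gp p x y + dist p q := by
  unfold gp
  have h1 := dist_triangle q p x
  have h2 := dist_triangle q p y
  have h3 := dist_comm q p
  linarith

section iso

variable (hi : Isom G X)
include hi

lemma dist_inv (g : G) (x y : X) : dist (g⁻¹ • x) y = dist x (g • y) := by
  rw [← hi g (g⁻¹ • x) y, smul_inv_smul]

lemma dist_inv_self (g : G) (x : X) : dist x (g⁻¹ • x) = dist x (g • x) := by
  rw [dist_comm, dist_inv hi]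

lemma gp_smul (g : G) (p x y : X) : gp (g • p) (g • x) (g • y) = gp p x y := by
  unfold gp; rw [hi, hi, hi]

lemma dist_zpow (f : G) (x : X) (i j : ℤ) :
    dist (f ^ i • x) (f ^ j • x) = dist x (f ^ (j - i).natAbs • x) := by
  rcases Int.natAbs_eq (j - i) with h | h
  · have : j = i + ((j - i).natAbs : ℤ) := by omega
    conv_lhs => rw [this]
    rw [zpow_add, mul_smul, hi, zpow_natCast]
  · have : i = j + ((j - i).natAbs : ℤ) := by omega
    conv_lhs => rw [this]
    rw [zpow_add, mul_smul, dist_comm, hi, zpow_natCast]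

lemma dist_pow (f : G) (x : X) (i j : ℕ) :
    dist (f ^ i • x) (f ^ (i + j) • x) = dist x (f ^ j • x) := by
  rw [pow_add, mul_smul, hi]

lemma pow_le (f : G) (x : X) (n : ℕ) : dist x (f ^ n • x) ≤ n * dist x (f • x) := by
  induction n with
  | zero => simp
  | succ n ih =>
    have h1 := dist_triangle x (f ^ n • x) (f ^ (n + 1) • x)
    rw [dist_pow hi, pow_one] at h1
    push_cast
    linarith

lemma pow_add_le (f : G) (x : X) (m n : ℕ) :
    dist x (f ^ (m + n) • x) ≤ dist x (f ^ m • x) + dist x (f ^ n • x) := by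
  have h1 := dist_triangle x (f ^ m • x) (f ^ (m + n) • x)
  rw [dist_pow hi] at h1
  exact h1

/-- The classical criterion. -/
lemma step_of {δ : ℝ} (hδ : FourPt X δ) (g : G) (x : X) {η : ℝ} (hη : 0 < η)
    (h : dist x (g • x) + 2 * δ + η ≤ dist x (g ^ 2 • x)) (n : ℕ) :
    dist x (g ^ n • x) + η ≤ dist x (g ^ (n + 1) • x) := by
  have hδ0 := hδ.nonneg x
  have h2 := pow_le hi g x 2
  push_cast at h2
  have h1 : dist x (g • x) + η ≤ dist x (g ^ 2 • x) := by linarith
  have key : ∀ m : ℕ, dist x (g ^ (m + 1) • x) + η ≤ dist x (g ^ (m + 2) • x) := by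
    intro m
    induction m with
    | zero => simpa using h1
    | succ m ih =>
      have h3 := hδ x (g ^ 2 • x) (g • x) (g ^ (m + 3) • x)
      have e1 : dist (g • x) (g ^ (m + 3) • x) = dist x (g ^ (m + 2) • x) := by
        have := dist_pow hi g x 1 (m + 2)
        rw [pow_one] at this
        rw [← this]; congr 3; ring
      have e2 : dist (g ^ 2 • x) (g ^ (m + 3) • x) = dist x (g ^ (m + 1) • x) := by
        have := dist_pow hi g x 2 (m + 1)
        rw [← this]; congr 3; ring
      have e3 : dist (g ^ 2 • x) (g • x) = dist x (g • x) := by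
        have := dist_pow hi g x 1 1
        rw [pow_one] at this
        rw [dist_comm]; exact this
      rw [e1, e2, e3] at h3
      show dist x (g ^ (m + 2) • x) + η ≤ dist x (g ^ (m + 3) • x)
      rcases le_total (dist x (g • x) + dist x (g ^ (m + 1) • x))
        (dist x (g ^ (m + 3) • x) + dist x (g • x)) with h4 | h4
      · rw [max_eq_right h4] at h3; linarith
      · rw [max_eq_left h4] at h3; linarith
  cases n with
  | zero => simp; linarith
  | succ n => exact key n

lemma lox_of {δ : ℝ} (hδ : FourPt X δ) (g : G) (x : X) {η : ℝ} (hη : 0 < η)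
    (h : dist x (g • x) + 2 * δ + η ≤ dist x (g ^ 2 • x)) : Lox X g := by
  refine ⟨x, η, hη, fun n => ?_⟩
  induction n with
  | zero => simp
  | succ n ih =>
    have := step_of hi hδ g x hη h n
    push_cast
    linarith

/-- Coarse additivity of the displacement of powers, strong case. -/
lemma qg_strong {δ : ℝ} (hδ : FourPt X δ) (g : G) (x : X) {η : ℝ} (hη : δ < η)
    (h : dist x (g • x) + 2 * δ + η ≤ dist x (g ^ 2 • x)) (m n : ℕ) :
    dist x (g ^ m • x) + dist x (g ^ n • x) ≤
      dist x (g ^ (m + n) • x) + (dist x (g • x) + 2 * δ) := by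
  have hδ0 := hδ.nonneg x
  have hs := step_of hi hδ g x (lt_of_le_of_lt hδ0 hη) h
  cases n with
  | zero => simp; positivity
  | succ n =>
    have h3 := hδ x (g ^ (m + 1) • x) (g ^ m • x) (g ^ (m + (n + 1)) • x)
    have e1 : dist (g ^ m • x) (g ^ (m + (n + 1)) • x) = dist x (g ^ (n + 1) • x) :=
      dist_pow hi g x m (n + 1)
    have e2 : dist (g ^ (m + 1) • x) (g ^ (m + (n + 1)) • x) = dist x (g ^ n • x) := by
      have := dist_pow hi g x (m + 1) n
      rw [← this]; congr 3; ring
    have e3 : dist (g ^ (m + 1) • x) (g ^ m • x) = dist x (g • x) := by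
      have := dist_pow hi g x m 1
      rw [pow_one] at this
      rw [dist_comm]; exact this
    rw [e1, e2, e3] at h3
    have h5 := hs m
    have h6 := hs n
    rcases le_total (dist x (g ^ m • x) + dist x (g ^ n • x))
        (dist x (g ^ (m + (n + 1)) • x) + dist x (g • x)) with h4 | h4
    · rw [max_eq_right h4] at h3; linarith
    · rw [max_eq_left h4] at h3; linarith

lemma exists_big {f : G} {x : X} {c : ℝ} (hc : 0 < c)
    (hf : ∀ n : ℕ, c * (n : ℝ) ≤ dist x (f ^ n • x)) (K : ℝ) :
    ∃ M : ℕ, dist x (f ^ M • x) + K ≤ dist x (f ^ (2 * M) • x) := by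
  by_contra hcon
  push_neg at hcon
  have h1 : ∀ j : ℕ, dist x (f ^ (2 ^ j) • x) ≤ dist x (f • x) + j * K := by
    intro j
    induction j with
    | zero => simp
    | succ j ih =>
      have := hcon (2 ^ j)
      rw [show 2 * 2 ^ j = 2 ^ (j + 1) by ring] at this
      push_cast
      linarith
  have h2 : ∀ j : ℕ, c * 2 ^ j ≤ dist x (f • x) + j * K := by
    intro j
    have := hf (2 ^ j)
    push_cast at this
    exact this.trans (h1 j)
  have t1 : Filter.Tendsto (fun j : ℕ => (j : ℝ) ^ 1 / (2 : ℝ) ^ j) Filter.atTop (nhds 0) :=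
    tendsto_pow_const_div_const_pow_of_one_lt 1 (by norm_num)
  have t2 : Filter.Tendsto (fun j : ℕ => (j : ℝ) ^ 0 / (2 : ℝ) ^ j) Filter.atTop (nhds 0) :=
    tendsto_pow_const_div_const_pow_of_one_lt 0 (by norm_num)
  have t3 := (t2.mul_const (dist x (f • x))).add (t1.mul_const K)
  simp only [zero_mul, add_zero] at t3
  have h4 := (t3.eventually (gt_mem_nhds hc)).exists
  obtain ⟨j, hj⟩ := h4
  have h5 := h2 j
  have h6 : (0 : ℝ) < 2 ^ j := by positivity
  have h7 : (j : ℝ) ^ 0 / 2 ^ j * dist x (f • x) + (j : ℝ) ^ 1 / 2 ^ j * K =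
      (dist x (f • x) + j * K) / 2 ^ j := by
    rw [pow_zero, pow_one]; field_simp
  rw [h7, div_lt_iff₀ h6] at hj
  linarith

/-- Coarse additivity of the displacement of powers of a loxodromic element. -/
lemma exists_qg {δ : ℝ} (hδ : FourPt X δ) {f : G} {x : X} {c : ℝ} (hc : 0 < c)
    (hf : ∀ n : ℕ, c * (n : ℝ) ≤ dist x (f ^ n • x)) :
    ∃ C : ℝ, 0 ≤ C ∧ ∀ m n : ℕ, dist x (f ^ m • x) + dist x (f ^ n • x) ≤
      dist x (f ^ (m + n) • x) + C := by
  have hδ0 := hδ.nonneg x
  obtain ⟨M, hM⟩ := exists_big hi hc hf (2 * δ + (δ + 1))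
  have hM0 : 0 < M := by
    rcases Nat.eq_zero_or_pos M with h | h
    · subst h; simp at hM; linarith
    · exact h
  have hq := qg_strong hi hδ (f ^ M) x (η := δ + 1) (by linarith)
    (by rw [← pow_mul, mul_comm M 2]; linarith)
  set b1 := dist x (f • x) with hb1
  have hb10 : 0 ≤ b1 := dist_nonneg
  set D0 : ℝ := M * b1 with hD0
  have hD00 : 0 ≤ D0 := by positivity
  refine ⟨4 * D0 + (dist x (f ^ M • x) + 2 * δ), by positivity, fun m n => ?_⟩
  have hdec : ∀ k : ℕ, dist x (f ^ k • x) ≤ dist x ((f ^ M) ^ (k / M) • x) + D0 := by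
    intro k
    have h1 := pow_add_le hi f x (M * (k / M)) (k % M)
    rw [Nat.div_add_mod] at h1
    have h2 := pow_le hi f x (k % M)
    have h3 : ((k % M : ℕ) : ℝ) * b1 ≤ D0 :=
      mul_le_mul_of_nonneg_right (by exact_mod_cast (Nat.mod_lt k hM0).le) hb10
    rw [← pow_mul]
    linarith
  have h1 := hdec m
  have h2 := hdec n
  have h3 := hq (m / M) (n / M)
  have h4 : dist x ((f ^ M) ^ (m / M + n / M) • x) ≤ dist x (f ^ (m + n) • x) + 2 * D0 := by
    have h5 := dist_triangle x (f ^ (m + n) • x) (f ^ (M * (m / M + n / M)) • x)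
    have h6 : m + n = M * (m / M + n / M) + (m % M + n % M) := by
      have a1 := Nat.div_add_mod m M
      have a2 := Nat.div_add_mod n M
      rw [mul_add]; omega
    have h7 : dist (f ^ (m + n) • x) (f ^ (M * (m / M + n / M)) • x) ≤ 2 * D0 := by
      rw [dist_comm]
      conv_lhs => rw [h6]
      rw [dist_pow hi]
      have h8 := pow_le hi f x (m % M + n % M)
      have h9 : ((m % M + n % M : ℕ) : ℝ) ≤ 2 * M := by
        have a1 := (Nat.mod_lt m hM0).le
        have a2 := (Nat.mod_lt n hM0).le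
        exact_mod_cast (by omega : m % M + n % M ≤ 2 * M)
      have h10 : ((m % M + n % M : ℕ) : ℝ) * b1 ≤ (2 * M) * b1 :=
        mul_le_mul_of_nonneg_right h9 hb10
      rw [hD0]
      linarith
    rw [← pow_mul]
    linarith
  linarith

end iso

end Pool.Agent.H322R3.Acyl
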