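import Pool.Agent.H322R3.CGBase

set_option linter.unusedSectionVars false

namespace PoolH322CG

open PowerSeries

section deriv

variable {F : Type} [Field F] {m : Type} [Fintype m] [DecidableEq m] {ι : Type}

open scoped LaurentSeries

/-- all entries have order at least `k` -/
def PM {L : Type} (v : L → LaurentSeries F) (k : ℤ) (M : Matrix m m L) : Prop :=
  ∀ a b, ((k : ℤ) : WithTop ℤ) ≤ (v (M a b)).orderTop

variable {K0 L : Type} [Field K0] [Field L] [Algebra K0 L] (v : L →+* LaurentSeries F)

lemma PM.zero (k : ℤ) : PM (m := m) v k 0 := by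
  intro a b; simp

lemma PM.add {k : ℤ} {M N : Matrix m m L} (hM : PM v k M) (hN : PM v k N) : PM v k (M + N) := by
  intro a b
  have h1 := hM a b
  have h2 := hN a b
  rw [Matrix.add_apply, map_add]
  exact le_trans (le_min h1 h2) HahnSeries.min_orderTop_le_orderTop_add

lemma ord_sum {k : WithTop ℤ} {α : Type} (s : Finset α) (f : α → LaurentSeries F)
    (h : ∀ a ∈ s, k ≤ (f a).orderTop) : k ≤ (∑ a ∈ s, f a).orderTop := by
  classical
  induction s using Finset.induction_on with
  | empty => simp
  | insert a s ha ih =>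
    rw [Finset.sum_insert ha]
    refine le_trans (le_min (h a (Finset.mem_insert_self _ _)) (ih ?_))
      HahnSeries.min_orderTop_le_orderTop_add
    intro b hb
    exact h b (Finset.mem_insert_of_mem hb)

lemma PM.mul {k l : ℤ} {M N : Matrix m m L} (hM : PM v k M) (hN : PM v l N) :
    PM v (k + l) (M * N) := by
  intro a b
  rw [Matrix.mul_apply, map_sum]
  refine ord_sum _ _ ?_
  intro c _
  rw [map_mul]
  refine le_trans ?_ HahnSeries.orderTop_add_le_mul
  have h1 := hM a c
  have h2 := hN c b
  have := add_le_add h1 h2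
  exact_mod_cast this

lemma PM.mono {k l : ℤ} (hkl : l ≤ k) {M : Matrix m m L} (hM : PM v k M) : PM v l M := by
  intro a b
  exact le_trans (by exact_mod_cast hkl) (hM a b)

lemma PM.ev {Y : ι → Matrix m m L} (hY : ∀ i, PM v 0 (Y i)) :
    ∀ (r : List (ι × Matrix m m L)) (c : Matrix m m L), PM v 0 c → (∀ p ∈ r, PM v 0 p.2) →
      PM v 0 (ev Y c r)
  | [], c, hc, _ => hc
  | (j, c') :: r, c, hc, hr => by
    have h1 := PM.ev hY r c' (hr (j, c') (by simp)) (fun p hp => hr p (by simp [hp]))
    have h2 := PM.mul v (PM.mul v hc (hY j)) h1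
    simpa [PoolH322CG.ev] using h2

lemma PM.ev1 {Y : ι → Matrix m m L} (hY : ∀ i, PM v 0 (Y i)) :
    ∀ (r : List (ι × Matrix m m L)) (c : Matrix m m L), PM v 0 c → (∀ p ∈ r, PM v 0 p.2) →
      (PM v 1 c ∨ ∃ p ∈ r, PM v 1 p.2) → PM v 1 (PoolH322CG.ev Y c r)
  | [], c, hc, _, h => by
    rcases h with h | ⟨p, hp, _⟩
    · exact h
    · simp at hp
  | (j, c') :: r, c, hc, hr, h => by
    have hc' := hr (j, c') (by simp)
    have hr' : ∀ p ∈ r, PM v 0 p.2 := fun p hp => hr p (by simp [hp])
    rcases h with h | ⟨p, hp, h⟩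
    · have h1 := PM.ev v hY r c' hc' hr'
      have h2 := PM.mul v (PM.mul v h (hY j)) h1
      simpa [PoolH322CG.ev] using h2
    · have h1 : PM v 1 (PoolH322CG.ev Y c' r) := by
        apply PM.ev1 hY r c' hc' hr'
        rcases List.mem_cons.1 hp with rfl | hp
        · left; exact h
        · right; exact ⟨p, hp, h⟩
      have h2 := PM.mul v (PM.mul v hc (hY j)) h1
      simpa [PoolH322CG.ev] using h2

variable (D : Derivation K0 L L)

lemma map_mul_D (M N : Matrix m m L) : (M * N).map D = M.map D * N + M * N.map D := by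
  ext a b
  simp only [Matrix.map_apply, Matrix.mul_apply, Matrix.add_apply, map_sum, Derivation.leibniz,
    smul_eq_mul]
  rw [← Finset.sum_add_distrib]
  refine Finset.sum_congr rfl fun c _ => ?_
  ring

lemma map_add_D (M N : Matrix m m L) : (M + N).map D = M.map D + N.map D := by
  ext a b
  simp

lemma D_ev {Y : ι → Matrix m m L} (hY : ∀ i, PM v 0 (Y i)) {k : ℤ}
    (hD : ∀ i, PM v k ((Y i).map D)) :
    ∀ (r : List (ι × Matrix m m L)) (c : Matrix m m L), PM v 0 c → (∀ p ∈ r, PM v 0 p.2) →
      c.map D = 0 → (∀ p ∈ r, p.2.map D = 0) → PM v k ((PoolH322CG.ev Y c r).map D)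
  | [], c, hc, _, h0, _ => by
    simp only [PoolH322CG.ev, h0]
    exact PM.zero v k
  | (j, c') :: r, c, hc, hr, h0, h0r => by
    have hc' := hr (j, c') (by simp)
    have hr' : ∀ p ∈ r, PM v 0 p.2 := fun p hp => hr p (by simp [hp])
    have ih := D_ev hY hD r c' hc' hr' (h0r (j, c') (by simp)) (fun p hp => h0r p (by simp [hp]))
    have h1 := PM.ev v hY r c' hc' hr'
    simp only [PoolH322CG.ev]
    rw [map_mul_D, map_mul_D, h0, zero_mul, zero_add]
    refine PM.add v ?_ ?_
    · have := PM.mul v (PM.mul v hc (hD j)) h1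
      simpa using this
    · have := PM.mul v (PM.mul v hc (hY j)) ih
      simpa using this

lemma D_ev1 {Y : ι → Matrix m m L} (hY : ∀ i, PM v 0 (Y i)) {k : ℤ}
    (hD : ∀ i, PM v k ((Y i).map D)) :
    ∀ (r : List (ι × Matrix m m L)) (c : Matrix m m L), PM v 0 c → (∀ p ∈ r, PM v 0 p.2) →
      c.map D = 0 → (∀ p ∈ r, p.2.map D = 0) →
      (PM v 1 c ∨ ∃ p ∈ r, PM v 1 p.2) → PM v (k + 1) ((PoolH322CG.ev Y c r).map D)
  | [], c, hc, _, h0, _, _ => by
    simp only [PoolH322CG.ev, h0]
    exact PM.zero v _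
  | (j, c') :: r, c, hc, hr, h0, h0r, h => by
    have hc' := hr (j, c') (by simp)
    have hr' : ∀ p ∈ r, PM v 0 p.2 := fun p hp => hr p (by simp [hp])
    have h0c' := h0r (j, c') (by simp)
    have h0r' : ∀ p ∈ r, p.2.map D = 0 := fun p hp => h0r p (by simp [hp])
    have ih := D_ev v D hY hD r c' hc' hr' h0c' h0r'
    have h1 := PM.ev v hY r c' hc' hr'
    simp only [PoolH322CG.ev]
    rw [map_mul_D, map_mul_D, h0, zero_mul, zero_add]
    rcases h with h | ⟨p, hp, h⟩
    · refine PM.add v ?_ ?_
      · have := PM.mul v (PM.mul v h (hD j)) h1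
        simpa [add_comm] using this
      · have := PM.mul v (PM.mul v h (hY j)) ih
        simpa [add_comm] using this
    · have hx : PM v 1 c' ∨ ∃ p ∈ r, PM v 1 p.2 := by
        rcases List.mem_cons.1 hp with rfl | hp
        · left; exact h
        · right; exact ⟨p, hp, h⟩
      have h1' := PM.ev1 v hY r c' hc' hr' hx
      have ih' := D_ev1 hY hD r c' hc' hr' h0c' h0r' hx
      refine PM.add v ?_ ?_
      · have := PM.mul v (PM.mul v hc (hD j)) h1'
        simpa [add_comm] using this
      · have := PM.mul v (PM.mul v hc (hY j)) ih'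
        simpa [add_comm] using this

/-- a derivation killing the coefficients of a proper system kills the solutions -/
lemma D_zero [Finite ι] (Q : ι → List (Matrix m m L × List (ι × Matrix m m L)))
    (Y : ι → Matrix m m L) (hY : ∀ i, PM v 0 (Y i))
    (hsol : ∀ i, Y i = ((Q i).map fun q => ev Y q.1 q.2).sum)
    (hint : ∀ i, ∀ q ∈ Q i, PM v 0 q.1 ∧ ∀ p ∈ q.2, PM v 0 p.2)
    (hker : ∀ i, ∀ q ∈ Q i, q.1.map D = 0 ∧ ∀ p ∈ q.2, p.2.map D = 0)
    (hprop : ∀ i, ∀ q ∈ Q i, q.2 ≠ [] → (PM v 1 q.1 ∨ ∃ p ∈ q.2, PM v 1 p.2)) (i : ι) :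
    (Y i).map D = 0 := by
  have hex : ∃ k : ℤ, ∀ i, PM v k ((Y i).map D) := by
    have hx : ∀ x : ι × m × m, ∃ k : ℤ, (k : WithTop ℤ) ≤ (v (((Y x.1).map D) x.2.1 x.2.2)).orderTop := by
      intro x
      by_cases h : v (((Y x.1).map D) x.2.1 x.2.2) = 0
      · exact ⟨0, by rw [h]; simp⟩
      · refine ⟨(v (((Y x.1).map D) x.2.1 x.2.2)).order, ?_⟩
        rw [HahnSeries.order_eq_orderTop_of_ne_zero h]
    choose f hf using hx
    obtain ⟨k, hk⟩ := Finite.exists_ge f
    refine ⟨k, fun i a b => ?_⟩
    exact le_trans (by exact_mod_cast hk (i, a, b)) (hf (i, a, b))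
  obtain ⟨k, hk⟩ := hex
  have step : ∀ l : ℤ, (∀ i, PM v l ((Y i).map D)) → (∀ i, PM v (l + 1) ((Y i).map D)) := by
    intro l hl i
    have key : ∀ R : List (Matrix m m L × List (ι × Matrix m m L)), (∀ q ∈ R, q ∈ Q i) →
        PM v (l + 1) (((R.map fun q => ev Y q.1 q.2).sum).map D) := by
      intro R
      induction R with
      | nil =>
        intro _
        have : ((0 : Matrix m m L)).map D = 0 := by ext a b; simp
        simp only [List.map_nil, List.sum_nil, this]
        exact PM.zero v _
      | cons q R ih =>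
        intro hR
        simp only [List.map_cons, List.sum_cons]
        rw [map_add_D]
        refine PM.add v ?_ (ih (fun q hq => hR q (by simp [hq])))
        have hq := hR q (by simp)
        by_cases hq2 : q.2 = []
        · rw [hq2]
          simp only [ev]
          rw [(hker i q hq).1]
          exact PM.zero v _
        · exact D_ev1 v D hY hl q.2 q.1 (hint i q hq).1 (hint i q hq).2 (hker i q hq).1
            (hker i q hq).2 (hprop i q hq hq2)
    have := key (Q i) (fun q hq => hq)
    rwa [← hsol i] at this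
  have all : ∀ n : ℕ, ∀ i, PM v (k + n) ((Y i).map D) := by
    intro n
    induction n with
    | zero => simpa using hk
    | succ n ih =>
      have := step _ ih
      intro i
      have h := this i
      push_cast
      rwa [← add_assoc]
  ext a b
  have hz : v (((Y i).map D) a b) = 0 := by
    by_contra h
    have h1 := all ((v (((Y i).map D) a b)).order - k + 1).toNat i a b
    rw [← HahnSeries.order_eq_orderTop_of_ne_zero h] at h1
    have h2 : k + (((v (((Y i).map D) a b)).order - k + 1).toNat : ℤ) ≤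
      (v (((Y i).map D) a b)).order := by exact_mod_cast h1
    have h3 := Int.self_le_toNat ((v (((Y i).map D) a b)).order - k + 1)
    omega
  have := (map_eq_zero v).1 hz
  rw [this]; rfl

end deriv

lemma map_ev {A B ι : Type*} [Semiring A] [Semiring B] (φ : A →+* B) (y : ι → A) :
    ∀ (r : List (ι × A)) (c : A), φ (ev y c r) =
      ev (fun i => φ (y i)) (φ c) (r.map fun p => (p.1, φ p.2))
  | [], c => rfl
  | (j, c') :: r, c => by
    simp only [ev, List.map_cons, map_mul]
    rw [map_ev φ y r c']

section field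

variable {F : Type} [Field F] {m : Type} [Fintype m] [DecidableEq m] {ι : Type}

open scoped LaurentSeries Polynomial RatFunc

/-- a (chosen) polynomial representing a power series -/
noncomputable def pz (f : F⟦X⟧) : F[X] :=
  open Classical in if h : ∃ p : F[X], (p : F⟦X⟧) = f then h.choose else 0

lemma pz_spec {f : F⟦X⟧} (h : ∃ p : F[X], (p : F⟦X⟧) = f) : ((pz f : F[X]) : F⟦X⟧) = f := by
  unfold pz
  rw [dif_pos h]
  exact h.choose_spec

lemma ord_coe_nonneg (f : F⟦X⟧) : (((0 : ℤ) : WithTop ℤ)) ≤ ((f : F⸨X⸩)).orderTop := by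
  rw [HahnSeries.le_orderTop_iff_forall]
  intro j hj
  have : j < 0 := by exact_mod_cast hj
  rw [PowerSeries.coeff_coe, if_pos this]

lemma ord_coe_one {f : F⟦X⟧} (hf : constantCoeff f = 0) :
    (((1 : ℤ) : WithTop ℤ)) ≤ ((f : F⸨X⸩)).orderTop := by
  rw [HahnSeries.le_orderTop_iff_forall]
  intro j hj
  have : j < 1 := by exact_mod_cast hj
  rw [PowerSeries.coeff_coe]
  split_ifs with h
  · rfl
  · have : j = 0 := by omega
    subst this
    simpa using hf

theorem entries_abs {K0 Ω : Type} [Field K0] [Field Ω] [Algebra K0 Ω] (e : Ω →+* F⸨X⸩) [Finite ι]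
    (Q : ι → List (Matrix m m K0 × List (ι × Matrix m m K0)))
    (Y : ι → Matrix m m Ω)
    (hY : ∀ i, PM e 0 (Y i))
    (hsol : ∀ i, Y i = ((Q i).map fun q => ev Y (q.1.map (algebraMap K0 Ω))
      (q.2.map fun p => (p.1, p.2.map (algebraMap K0 Ω)))).sum)
    (hint : ∀ i, ∀ q ∈ Q i, PM (fun x => e (algebraMap K0 Ω x)) 0 q.1 ∧
      ∀ p ∈ q.2, PM (fun x => e (algebraMap K0 Ω x)) 0 p.2)
    (hprop : ∀ i, ∀ q ∈ Q i, q.2 ≠ [] → (PM (fun x => e (algebraMap K0 Ω x)) 1 q.1 ∨
      ∃ p ∈ q.2, PM (fun x => e (algebraMap K0 Ω x)) 1 p.2)) (i : ι) (a b : m) :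
    IsAlgebraic K0 (Y i a b) := by
  classical
  set T : Set Ω := Set.range (fun x : ι × m × m => Y x.1 x.2.1 x.2.2) with hT
  have hTfin : T.Finite := Set.finite_range _
  set L := IntermediateField.adjoin K0 T with hL
  have hmem : ∀ i a b, Y i a b ∈ L := fun i a b =>
    IntermediateField.subset_adjoin _ _ ⟨(i, a, b), rfl⟩
  let y : ι → Matrix m m L := fun i a b => ⟨Y i a b, hmem i a b⟩
  let v : L →+* F⸨X⸩ := e.comp (algebraMap L Ω)
  let tl : Matrix m m K0 → Matrix m m L := fun c => c.map (algebraMap K0 L)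
  let φ : Matrix m m L →+* Matrix m m Ω := (algebraMap L Ω).mapMatrix
  have hφtl : ∀ c : Matrix m m K0, φ (tl c) = c.map (algebraMap K0 Ω) := fun c => rfl
  have hφy : ∀ i, φ (y i) = Y i := fun i => rfl
  have hφinj : Function.Injective φ := by
    intro M N h
    ext1 a b
    have h1 : algebraMap L Ω (M a b) = algebraMap L Ω (N a b) := congrFun (congrFun h a) b
    exact (algebraMap L Ω).injective h1
  let QL : ι → List (Matrix m m L × List (ι × Matrix m m L)) := fun i =>
    (Q i).map fun q => (tl q.1, q.2.map fun p => (p.1, tl p.2))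
  have hsolL : ∀ i, y i = ((QL i).map fun q => ev y q.1 q.2).sum := by
    intro i
    apply hφinj
    rw [hφy i, hsol i]
    rw [map_list_sum, List.map_map, List.map_map]
    congr 1
    apply List.map_congr_left
    intro q hq
    simp only [Function.comp]
    rw [map_ev, hφtl, List.map_map]
    rfl
  have hsep : Algebra.IsSeparable K0 L := by
    have : Algebra.EssFiniteType K0 L := by
      rw [IntermediateField.essFiniteType_iff]
      refine ⟨hTfin.toFinset, ?_⟩
      simp [hL]
    rw [← Algebra.FormallyUnramified.iff_isSeparable K0 L]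
    constructor
    have hDer : ∀ D : Derivation K0 L L, D = 0 := by
      intro D
      have h0 := D_zero (K0 := K0) v D QL y (fun i a b => hY i a b) hsolL ?_ ?_ ?_
      · have hz : ∀ x (hx : x ∈ IntermediateField.adjoin K0 T), D (⟨x, hx⟩ : L) = 0 := by
          intro x hx
          induction hx using IntermediateField.adjoin_induction with
          | mem x hx =>
            obtain ⟨⟨i, a, b⟩, rfl⟩ := hx
            exact congrFun (congrFun (h0 i) a) b
          | algebraMap x =>
            exact D.map_algebraMap x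
          | add x z hx hz h1 h2 =>
            have : (⟨x + z, add_mem hx hz⟩ : L) = ⟨x, hx⟩ + ⟨z, hz⟩ := rfl
            rw [this, map_add, h1, h2, add_zero]
          | inv x hx h1 =>
            have : (⟨x⁻¹, inv_mem hx⟩ : L) = (⟨x, hx⟩ : L)⁻¹ := rfl
            rw [this, Derivation.leibniz_inv, h1, smul_zero]
          | mul x z hx hz h1 h2 =>
            have : (⟨x * z, mul_mem hx hz⟩ : L) = ⟨x, hx⟩ * ⟨z, hz⟩ := rfl
            rw [this, Derivation.leibniz, h1, h2, smul_zero, smul_zero, add_zero]
        ext x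
        rw [Derivation.zero_apply, hz x.1 x.2]
      · intro i q hq
        simp only [QL, List.mem_map] at hq
        obtain ⟨q0, hq0, rfl⟩ := hq
        refine ⟨(hint i q0 hq0).1, ?_⟩
        intro p hp
        simp only [List.mem_map] at hp
        obtain ⟨p0, hp0, rfl⟩ := hp
        exact (hint i q0 hq0).2 p0 hp0
      · intro i q hq
        simp only [QL, List.mem_map] at hq
        obtain ⟨q0, hq0, rfl⟩ := hq
        refine ⟨?_, ?_⟩
        · ext1 a b
          exact D.map_algebraMap _
        · intro p hp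
          simp only [List.mem_map] at hp
          obtain ⟨p0, hp0, rfl⟩ := hp
          ext1 a b
          exact D.map_algebraMap _
      · intro i q hq hne
        simp only [QL, List.mem_map] at hq
        obtain ⟨q0, hq0, rfl⟩ := hq
        have hne' : q0.2 ≠ [] := by
          intro h; apply hne; simp [h]
        rcases hprop i q0 hq0 hne' with h | ⟨p, hp, h⟩
        · left; exact h
        · right
          exact ⟨(p.1, tl p.2), List.mem_map.2 ⟨p, hp, rfl⟩, h⟩
    refine subsingleton_of_forall_eq 0 ?_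
    intro w
    rw [← Module.forall_dual_apply_eq_zero_iff L]
    intro f
    have hf : f.compDer (KaehlerDifferential.D K0 L) = 0 := hDer _
    have hfz : f = 0 := by
      have hspan := KaehlerDifferential.span_range_derivation K0 L
      apply LinearMap.ext_on hspan
      rintro _ ⟨x, rfl⟩
      have := congrArg (fun D : Derivation K0 L L => D x) hf
      simpa using this
    rw [hfz]; rfl
  have h1 : IsAlgebraic K0 (y i a b) :=
    (Algebra.IsSeparable.isSeparable K0 (y i a b)).isIntegral.isAlgebraic
  exact h1.algebraMap (A := Ω)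

end field

end PoolH322CG
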