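import Pool.Agent.H322R3.CGAlg

set_option linter.unusedSectionVars false

namespace PoolH322CG

open PowerSeries

section field

variable {F : Type} [Field F] {m : Type} [Fintype m] [DecidableEq m] {ι : Type}

open scoped LaurentSeries Polynomial RatFunc

theorem entries_algebraic [Finite ι]
    (Q : ι → List (Matrix m m F⟦X⟧ × List (ι × Matrix m m F⟦X⟧)))
    (Y : ι → Matrix m m F⟦X⟧)
    (hsol : ∀ i, Y i = ((Q i).map fun q => ev Y q.1 q.2).sum)
    (hpoly : ∀ i, ∀ q ∈ Q i, (∀ a b, ∃ p : F[X], (p : F⟦X⟧) = q.1 a b) ∧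
      ∀ p ∈ q.2, ∀ a b, ∃ r : F[X], (r : F⟦X⟧) = p.2 a b)
    (hprop : ∀ i, ∀ q ∈ Q i, q.2 ≠ [] → ((∀ a b, constantCoeff (q.1 a b) = 0) ∨
      ∃ p ∈ q.2, ∀ a b, constantCoeff (p.2 a b) = 0)) (i : ι) (a b : m) :
    IsAlgebraic F[X] ((Y i a b : F⟦X⟧) : F⸨X⸩) := by
  classical
  let pl : Matrix m m F⟦X⟧ → Matrix m m (RatFunc F) := fun c a b =>
    algebraMap F[X] (RatFunc F) (pz (c a b))
  let ψ : Matrix m m F⟦X⟧ →+* Matrix m m F⸨X⸩ := (algebraMap F⟦X⟧ F⸨X⸩).mapMatrix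
  have hv : ∀ p : F[X], algebraMap (RatFunc F) F⸨X⸩ (algebraMap F[X] (RatFunc F) p) =
      ((p : F⟦X⟧) : F⸨X⸩) := by
    intro p
    rw [RatFunc.coe_coe]
    rfl
  have hpl : ∀ c : Matrix m m F⟦X⟧, (∀ a b, ∃ p : F[X], (p : F⟦X⟧) = c a b) →
      (pl c).map (algebraMap (RatFunc F) F⸨X⸩) = ψ c := by
    intro c hc
    ext1 a b
    have h1 : (pl c).map (algebraMap (RatFunc F) F⸨X⸩) a b =
      algebraMap (RatFunc F) F⸨X⸩ (algebraMap F[X] (RatFunc F) (pz (c a b))) := rfl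
    rw [h1, hv, pz_spec (hc a b)]
    rfl
  have hord0 : ∀ c : Matrix m m F⟦X⟧, (∀ a b, ∃ p : F[X], (p : F⟦X⟧) = c a b) →
      PM (fun x => (RingHom.id F⸨X⸩) (algebraMap (RatFunc F) F⸨X⸩ x)) 0 (pl c) := by
    intro c hc a b
    have h1 : (RingHom.id F⸨X⸩) (algebraMap (RatFunc F) F⸨X⸩ (pl c a b)) =
      ((c a b : F⟦X⟧) : F⸨X⸩) := by
      show algebraMap (RatFunc F) F⸨X⸩ (algebraMap F[X] (RatFunc F) (pz (c a b))) = _
      rw [hv, pz_spec (hc a b)]
    exact le_of_le_of_eq (ord_coe_nonneg (c a b)) (congrArg HahnSeries.orderTop h1.symm)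
  have hord1 : ∀ c : Matrix m m F⟦X⟧, (∀ a b, ∃ p : F[X], (p : F⟦X⟧) = c a b) →
      (∀ a b, constantCoeff (c a b) = 0) →
      PM (fun x => (RingHom.id F⸨X⸩) (algebraMap (RatFunc F) F⸨X⸩ x)) 1 (pl c) := by
    intro c hc hc0 a b
    have h1 : (RingHom.id F⸨X⸩) (algebraMap (RatFunc F) F⸨X⸩ (pl c a b)) =
      ((c a b : F⟦X⟧) : F⸨X⸩) := by
      show algebraMap (RatFunc F) F⸨X⸩ (algebraMap F[X] (RatFunc F) (pz (c a b))) = _
      rw [hv, pz_spec (hc a b)]
    exact le_of_le_of_eq (ord_coe_one (hc0 a b)) (congrArg HahnSeries.orderTop h1.symm)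
  have main := entries_abs (K0 := RatFunc F) (Ω := F⸨X⸩) (RingHom.id _)
    (fun i => (Q i).map fun q => (pl q.1, q.2.map fun p => (p.1, pl p.2)))
    (fun i => ψ (Y i)) (fun i a b => ord_coe_nonneg _) ?_ ?_ ?_ i a b
  · exact (IsFractionRing.isAlgebraic_iff F[X] (RatFunc F) F⸨X⸩).2 main
  · intro i
    show ψ (Y i) = _
    conv_lhs => rw [hsol i]
    rw [map_list_sum, List.map_map, List.map_map]
    congr 1
    apply List.map_congr_left
    intro q hq
    simp only [Function.comp]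
    rw [map_ev, hpl q.1 (hpoly i q hq).1, List.map_map]
    congr 1
    apply List.map_congr_left
    intro p hp
    simp only [Function.comp]
    rw [hpl p.2 ((hpoly i q hq).2 p hp)]
  · intro i q hq
    simp only [List.mem_map] at hq
    obtain ⟨q0, hq0, rfl⟩ := hq
    refine ⟨hord0 _ (hpoly i q0 hq0).1, ?_⟩
    intro p hp
    simp only [List.mem_map] at hp
    obtain ⟨p0, hp0, rfl⟩ := hp
    exact hord0 _ ((hpoly i q0 hq0).2 p0 hp0)
  · intro i q hq hne
    simp only [List.mem_map] at hq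
    obtain ⟨q0, hq0, rfl⟩ := hq
    have hne' : q0.2 ≠ [] := by
      intro h; apply hne; simp [h]
    rcases hprop i q0 hq0 hne' with h | ⟨p, hp, h⟩
    · left
      exact hord1 _ (hpoly i q0 hq0).1 h
    · right
      exact ⟨(p.1, pl p.2), List.mem_map.2 ⟨p, hp, rfl⟩, hord1 _ ((hpoly i q0 hq0).2 p hp) h⟩

/-- an algebraic relation with coefficients in a commutative ring -/
def AlgRel {R : Type} [CommRing R] (f : R⟦X⟧) : Prop :=
  ∃ (N : ℕ) (p : ℕ → ℕ → R), (∃ i < N, ∃ j < N, p i j ≠ 0) ∧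
    ∑ i ∈ Finset.range N, ∑ j ∈ Finset.range N,
      PowerSeries.C (p i j) * (PowerSeries.X : R⟦X⟧) ^ j * f ^ i = 0

lemma algRel_of_isAlgebraic {f : F⟦X⟧} (h : IsAlgebraic F[X] ((f : F⟦X⟧) : F⸨X⸩)) :
    AlgRel f := by
  obtain ⟨P, hP0, hP⟩ := h
  -- bound
  obtain ⟨N, hN1, hN2⟩ : ∃ N, P.natDegree < N ∧ ∀ i, (P.coeff i).natDegree < N := by
    refine ⟨P.natDegree + 1 + (Finset.range (P.natDegree + 1)).sup (fun i => (P.coeff i).natDegree) + 1,
      by omega, fun i => ?_⟩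
    by_cases hi : i < P.natDegree + 1
    · have := Finset.le_sup (f := fun i => (P.coeff i).natDegree) (Finset.mem_range.2 hi)
      omega
    · rw [Polynomial.coeff_eq_zero_of_natDegree_lt (by omega)]
      simp
  refine ⟨N, fun i j => (P.coeff i).coeff j, ?_, ?_⟩
  · obtain ⟨i, hi⟩ : ∃ i, P.coeff i ≠ 0 := by
      by_contra hcon
      push Not at hcon
      exact hP0 (Polynomial.ext hcon)
    obtain ⟨j, hj⟩ : ∃ j, (P.coeff i).coeff j ≠ 0 := by
      by_contra hcon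
      push Not at hcon
      exact hi (Polynomial.ext hcon)
    refine ⟨i, ?_, j, ?_, hj⟩
    · by_contra hlt
      exact hi (Polynomial.coeff_eq_zero_of_natDegree_lt (by omega))
    · by_contra hlt
      have := hN2 i
      exact hj (Polynomial.coeff_eq_zero_of_natDegree_lt (by omega))
  · have hinj : Function.Injective (algebraMap F⟦X⟧ F⸨X⸩) := IsFractionRing.injective _ _
    apply hinj
    rw [map_zero, ← hP]
    rw [Polynomial.aeval_eq_sum_range' hN1]
    rw [map_sum]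
    refine Finset.sum_congr rfl fun i _ => ?_
    have hc : P.coeff i = ∑ j ∈ Finset.range N, Polynomial.C ((P.coeff i).coeff j) * Polynomial.X ^ j := by
      conv_lhs => rw [Polynomial.as_sum_range' (P.coeff i) N (hN2 i)]
      simp [Polynomial.C_mul_X_pow_eq_monomial]
    have hsm : (P.coeff i) • ((f : F⟦X⟧) : F⸨X⸩) ^ i =
        (((P.coeff i : F[X]) : F⟦X⟧) : F⸨X⸩) * ((f : F⟦X⟧) : F⸨X⸩) ^ i := by
      rw [Algebra.smul_def]
      congr 1
    rw [hsm]
    have hs : ((P.coeff i : F[X]) : F⟦X⟧) = ∑ j ∈ Finset.range N,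
        ((Polynomial.C ((P.coeff i).coeff j) * Polynomial.X ^ j : F[X]) : F⟦X⟧) := by
      conv_lhs => rw [hc]
      exact map_sum (Polynomial.coeToPowerSeries.ringHom (R := F))
        (fun j => Polynomial.C ((P.coeff i).coeff j) * Polynomial.X ^ j) (Finset.range N)
    rw [hs, map_sum, map_sum, Finset.sum_mul]
    refine Finset.sum_congr rfl fun j _ => ?_
    rw [map_mul, map_pow]
    congr 1
    rw [Polynomial.coe_mul, Polynomial.coe_C, Polynomial.coe_pow, Polynomial.coe_X]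
    rfl

end field

end PoolH322CG
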