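import Mathlib

/-!
Definitions for complete growth series of groups, rational and algebraic series over group rings.
-/

namespace PoolH322CG

open PowerSeries

/-- evaluation of a monomial `c₀ · y_{j₁} · c₁ ⋯ y_{jₖ} · cₖ` in a ring: the first argument is
`c₀`, the list is `[(j₁, c₁), …, (jₖ, cₖ)]`. -/
def ev {A ι : Type*} [Mul A] (y : ι → A) : A → List (ι × A) → A
  | c, [] => c
  | c, (j, c') :: r => c * y j * ev y c' r

section defs

variable {G : Type} [Group G]

/-- `g` is a product of `n` elements of `S ∪ S⁻¹`. -/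
def IsProd (S : Finset G) (n : ℕ) (g : G) : Prop :=
  ∃ l : List G, l.length = n ∧ (∀ x ∈ l, x ∈ S ∨ x⁻¹ ∈ S) ∧ l.prod = g

/-- The sphere of radius `n`: the elements `g` with `d(1, g) = n`, that is, `n` is the least number
such that `g` is a product of `n` elements of `S ∪ S⁻¹`. -/
def sphere (S : Finset G) (n : ℕ) : Set G := {g | IsProd S n g ∧ ∀ k < n, ¬ IsProd S k g}

/-- The complete growth series `∑_g g z^{d(1,g)}` in `ℤG[[z]]` : the coefficient of `z^n` is the
sum of the elements of the (finite) sphere of radius `n`. -/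
noncomputable def CG (S : Finset G) : PowerSeries (MonoidAlgebra ℤ G) :=
  PowerSeries.mk fun n => ∑ᶠ g ∈ sphere S n, MonoidAlgebra.of ℤ G g

end defs

section ratalg

variable {R : Type} [Ring R]

/-- a power series which is a polynomial -/
def IsPoly (A : R⟦X⟧) : Prop := ∃ N, ∀ n, N ≤ n → PowerSeries.coeff n A = 0

/-- `A* = 1 + A + A² + ⋯` (used when `A(0) = 0`): the coefficient of `z^n` is that of
`1 + A + ⋯ + A^n`. -/
noncomputable def kleeneStar (A : R⟦X⟧) : R⟦X⟧ :=
  PowerSeries.mk fun n => PowerSeries.coeff n (∑ k ∈ Finset.range (n + 1), A ^ k)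

/-- the smallest subring of `R[[z]]` containing `R[z]` and closed under `A ↦ A*` for `A(0) = 0` -/
noncomputable def RatSub (R : Type) [Ring R] : Subring (R⟦X⟧) :=
  sInf {T | (∀ A : R⟦X⟧, IsPoly A → A ∈ T) ∧
    ∀ A ∈ T, PowerSeries.constantCoeff A = 0 → kleeneStar A ∈ T}

/-- `F` is algebraic: it is the first component of a solution of a proper system
`A_i = Q_i(A_1, …, A_n)`. Here `Q i` is the list of the monomials of `Q_i`; the pair
`(c₀, [(j₁,c₁), …, (jₖ,cₖ)])` stands for `c₀ A_{j₁} c₁ ⋯ A_{jₖ} cₖ` (see `ev`). All `c_m` are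
polynomials in `z`; if `k ≥ 1`, some `c_m` is divisible by `z`. -/
def IsAlg (F : R⟦X⟧) : Prop :=
  ∃ (n : ℕ) (Q : Fin (n + 1) → List (R⟦X⟧ × List (Fin (n + 1) × R⟦X⟧)))
    (A : Fin (n + 1) → R⟦X⟧),
    (∀ i, ∀ q ∈ Q i, IsPoly q.1 ∧ ∀ p ∈ q.2, IsPoly p.2) ∧
    (∀ i, ∀ q ∈ Q i, q.2 ≠ [] → (PowerSeries.constantCoeff q.1 = 0 ∨
      ∃ p ∈ q.2, PowerSeries.constantCoeff p.2 = 0)) ∧
    (∀ i, A i = ((Q i).map fun q => ev A q.1 q.2).sum) ∧ A 0 = F

end ratalg

end PoolH322CG
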