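import Pool.Agent.H322R3.CGTheta

set_option linter.unusedSectionVars false

namespace PoolH322CG

open List

/-- block of `p`s -/
def pb (r : ℕ) : List Let := (List.replicate r [Let.p, Let.b]).flatten ++ [Let.e]

def ub (y : List Bool) (r : ℕ) : List Let := y.flatMap (fun c => [Let.y c, Let.b]) ++ pb r

lemma pb_zero : pb 0 = [Let.e] := rfl
lemma pb_succ (r : ℕ) : pb (r + 1) = Let.p :: Let.b :: pb r := by
  simp [pb, List.replicate_succ]
lemma ub_nil (r : ℕ) : ub [] r = pb r := rfl
lemma ub_cons (c : Bool) (y : List Bool) (r : ℕ) : ub (c :: y) r = Let.y c :: Let.b :: ub y r := by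
  simp [ub]

lemma run_cons (i : Fin 7) (x : Let) (l : List Let) : run i (x :: l) = (step i x).bind fun j => run j l := rfl
lemma run_nil (i : Fin 7) : run i [] = some i := rfl

lemma run6 {l : List Let} (h : run 6 l = some 6) : l = [] := by
  cases l with
  | nil => rfl
  | cons x l =>
    rw [run_cons] at h
    cases x <;> simp [step] at h

lemma run4 {l : List Let} (h : run 4 l = some 6) : ∃ l', l = Let.b :: l' ∧ run 5 l' = some 6 := by
  cases l with
  | nil => simp [run_nil] at h
  | cons x l =>
    rw [run_cons] at h
    cases x <;> simp [step] at h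
    exact ⟨l, rfl, h⟩

lemma run3 {l : List Let} (h : run 3 l = some 6) : ∃ l', l = Let.b :: l' ∧ run 2 l' = some 6 := by
  cases l with
  | nil => simp [run_nil] at h
  | cons x l =>
    rw [run_cons] at h
    cases x <;> simp [step] at h
    exact ⟨l, rfl, h⟩

lemma run5 : ∀ (n : ℕ) (l : List Let), l.length ≤ n → run 5 l = some 6 → ∃ r, l = pb r := by
  intro n
  induction n with
  | zero =>
    intro l hl h
    rw [Nat.le_zero, List.length_eq_zero_iff] at hl
    subst hl
    simp [run_nil] at h
  | succ n ih =>
    intro l hl h
    cases l with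
    | nil => simp [run_nil] at h
    | cons x l =>
      rw [run_cons] at h
      cases x <;> simp [step] at h
      · rw [run6 h]
        exact ⟨0, rfl⟩
      · obtain ⟨l', rfl, h'⟩ := run4 h
        obtain ⟨r, rfl⟩ := ih l' (by simp at hl; omega) h'
        exact ⟨r + 1, (pb_succ r).symm⟩

lemma run2 : ∀ (n : ℕ) (l : List Let), l.length ≤ n → run 2 l = some 6 → ∃ y r, l = ub y r := by
  intro n
  induction n with
  | zero =>
    intro l hl h
    rw [Nat.le_zero, List.length_eq_zero_iff] at hl
    subst hl
    simp [run_nil] at h
  | succ n ih =>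
    intro l hl h
    cases l with
    | nil => simp [run_nil] at h
    | cons x l =>
      rw [run_cons] at h
      cases x with
      | d => simp [step] at h
      | b => simp [step] at h
      | e =>
        simp only [step, Option.bind_some] at h
        rw [run6 h]
        exact ⟨[], 0, rfl⟩
      | p =>
        simp only [step, Option.bind_some] at h
        obtain ⟨l', rfl, h'⟩ := run4 h
        obtain ⟨r, rfl⟩ := run5 _ l' le_rfl h'
        exact ⟨[], r + 1, by rw [ub_nil, pb_succ]⟩
      | y c =>
        simp only [step, Option.bind_some] at h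
        obtain ⟨l', rfl, h'⟩ := run3 h
        obtain ⟨y, r, rfl⟩ := ih l' (by simp at hl; omega) h'
        exact ⟨c :: y, r, (ub_cons c y r).symm⟩

lemma run0 {l : List Let} (h : run 0 l = some 6) : ∃ y r, l = Let.d :: Let.b :: ub y r := by
  cases l with
  | nil => simp [run_nil] at h
  | cons x l =>
    rw [run_cons] at h
    cases x <;> simp [step] at h
    cases l with
    | nil => simp [run_nil] at h
    | cons x l =>
      rw [run_cons] at h
      cases x <;> simp [step] at h
      obtain ⟨y, r, rfl⟩ := run2 _ l le_rfl h
      exact ⟨y, r, rfl⟩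

lemma run5_pb (r : ℕ) : run 5 (pb r) = some 6 := by
  induction r with
  | zero => rfl
  | succ r ih =>
    rw [pb_succ, run_cons]
    show (run 4 (Let.b :: pb r)) = some 6
    rw [run_cons]
    exact ih

lemma run2_pb (r : ℕ) : run 2 (pb r) = some 6 := by
  cases r with
  | zero => rfl
  | succ r =>
    rw [pb_succ, run_cons]
    show (run 4 (Let.b :: pb r)) = some 6
    rw [run_cons]
    exact run5_pb r

lemma run2_ub (y : List Bool) (r : ℕ) : run 2 (ub y r) = some 6 := by
  induction y with
  | nil => exact run2_pb r
  | cons c y ih =>
    rw [ub_cons, run_cons]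
    show (run 3 (Let.b :: ub y r)) = some 6
    rw [run_cons]
    exact ih

lemma run0_ub (y : List Bool) (r : ℕ) : run 0 (Let.d :: Let.b :: ub y r) = some 6 := by
  rw [run_cons]
  show (run 1 (Let.b :: ub y r)) = some 6
  rw [run_cons]
  exact run2_ub y r

lemma parseA5 : ∀ (r : ℕ) (γ : List Gen), γ.flatMap U = pb r →
    γ = List.replicate r Gen.aP ++ [Gen.yA] := by
  intro r
  induction r with
  | zero =>
    intro γ h
    rw [pb_zero] at h
    cases γ with
    | nil => simp at h
    | cons g γ =>
      rw [List.flatMap_cons] at h
      cases g <;> simp [U] at h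
      cases γ with
      | nil => rfl
      | cons g' γ' =>
        have := h g' (by simp)
        cases g' <;> simp at this
  | succ r ih =>
    intro γ h
    rw [pb_succ] at h
    cases γ with
    | nil => simp at h
    | cons g γ =>
      rw [List.flatMap_cons] at h
      cases g <;> simp only [U, List.cons_append, List.nil_append, List.cons.injEq, reduceCtorEq,
        false_and, true_and] at h
      rw [ih γ h]
      simp [List.replicate_succ]

lemma parseA (r : ℕ) : ∀ (y : List Bool) (γ : List Gen), γ.flatMap U = ub y r →
    γ = y.map Gen.aY ++ (List.replicate r Gen.aP ++ [Gen.yA]) := by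
  intro y
  induction y with
  | nil =>
    intro γ h
    rw [ub_nil] at h
    rw [parseA5 r γ h]
    rfl
  | cons c y ih =>
    intro γ h
    rw [ub_cons] at h
    cases γ with
    | nil => simp at h
    | cons g γ =>
      rw [List.flatMap_cons] at h
      cases g <;> simp only [U, List.cons_append, List.nil_append, List.cons.injEq, reduceCtorEq,
        false_and, true_and, Let.y.injEq] at h
      obtain ⟨rfl, h⟩ := h
      rw [ih γ h]
      simp

lemma parseB5 : ∀ (r : ℕ) (γ : List Gen), γ.flatMap U = Let.b :: pb r →
    γ = List.replicate r Gen.bP ++ [Gen.yB] := by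
  intro r
  induction r with
  | zero =>
    intro γ h
    rw [pb_zero] at h
    cases γ with
    | nil => simp at h
    | cons g γ =>
      rw [List.flatMap_cons] at h
      cases g <;> simp [U] at h
      cases γ with
      | nil => rfl
      | cons g' γ' =>
        have := h g' (by simp)
        cases g' <;> simp at this
  | succ r ih =>
    intro γ h
    rw [pb_succ] at h
    cases γ with
    | nil => simp at h
    | cons g γ =>
      rw [List.flatMap_cons] at h
      cases g <;> simp only [U, List.cons_append, List.nil_append, List.cons.injEq, reduceCtorEq,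
        false_and, true_and, and_false] at h
      rw [ih γ h]
      simp [List.replicate_succ]

lemma parseB (r : ℕ) : ∀ (y : List Bool) (γ : List Gen), γ.flatMap U = Let.b :: ub y r →
    γ = y.map Gen.bY ++ (List.replicate r Gen.bP ++ [Gen.yB]) := by
  intro y
  induction y with
  | nil =>
    intro γ h
    rw [ub_nil] at h
    rw [parseB5 r γ h]
    rfl
  | cons c y ih =>
    intro γ h
    rw [ub_cons] at h
    cases γ with
    | nil => simp at h
    | cons g γ =>
      rw [List.flatMap_cons] at h
      cases g <;> simp only [U, List.cons_append, List.nil_append, List.cons.injEq, reduceCtorEq,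
        false_and, true_and, Let.y.injEq, and_false] at h
      obtain ⟨rfl, h⟩ := h
      rw [ih γ h]
      simp

/-- `φ(c) = a c` -/
def ph (y : List Bool) : List Bool := y.flatMap fun c => [false, c]

noncomputable def gA (y : List Bool) (r : ℕ) : GG :=
  (pw (Let.d :: Let.b :: ub y r), pw (y ++ (List.replicate r false ++ [true])))

noncomputable def gB (y : List Bool) (r : ℕ) : GG :=
  (pw (Let.d :: Let.b :: ub y r), pw (true :: ph y))

def wA (y : List Bool) (r : ℕ) : List Gen :=
  Gen.xA :: (y.map Gen.aY ++ (List.replicate r Gen.aP ++ [Gen.yA]))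

def wB (y : List Bool) (r : ℕ) : List Gen :=
  Gen.xB :: (y.map Gen.bY ++ (List.replicate r Gen.bP ++ [Gen.yB]))

lemma wA_U (y : List Bool) (r : ℕ) : (wA y r).flatMap U = Let.d :: Let.b :: ub y r := by
  have h1 : (y.map Gen.aY).flatMap U = y.flatMap (fun c => [Let.y c, Let.b]) := by
    rw [List.flatMap_map]; rfl
  have h2 : (List.replicate r Gen.aP).flatMap U = (List.replicate r [Let.p, Let.b]).flatten := by
    induction r with
    | zero => rfl
    | succ r ih => simp [List.replicate_succ, ih, U]
  rw [wA, List.flatMap_cons, List.flatMap_append, List.flatMap_append, h1, h2]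
  simp [U, ub, pb]

lemma wA_V (y : List Bool) (r : ℕ) : (wA y r).flatMap V = y ++ (List.replicate r false ++ [true]) := by
  have h1 : (y.map Gen.aY).flatMap V = y := by
    rw [List.flatMap_map]
    show y.flatMap (fun c => [c]) = y
    simp
  have h2 : (List.replicate r Gen.aP).flatMap V = List.replicate r false := by
    induction r with
    | zero => rfl
    | succ r ih => simp [List.replicate_succ, ih, V]
  rw [wA, List.flatMap_cons, List.flatMap_append, List.flatMap_append, h1, h2]
  simp [V]

lemma wB_U (y : List Bool) (r : ℕ) : (wB y r).flatMap U = Let.d :: Let.b :: ub y r := by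
  have h2 : ∀ r, (List.replicate r Gen.bP ++ [Gen.yB]).flatMap U = Let.b :: pb r := by
    intro r
    induction r with
    | zero => rfl
    | succ r ih =>
      rw [List.replicate_succ, List.cons_append, List.flatMap_cons, ih, pb_succ]
      rfl
  have h1 : ∀ y : List Bool, (y.map Gen.bY ++ (List.replicate r Gen.bP ++ [Gen.yB])).flatMap U =
      Let.b :: ub y r := by
    intro y
    induction y with
    | nil => exact h2 r
    | cons c y ih =>
      rw [List.map_cons, List.cons_append, List.flatMap_cons, ih, ub_cons]
      rfl
  rw [wB, List.flatMap_cons, h1]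
  rfl

lemma wB_V (y : List Bool) (r : ℕ) : (wB y r).flatMap V = true :: ph y := by
  have h2 : ∀ r, (List.replicate r Gen.bP ++ [Gen.yB]).flatMap V = [] := by
    intro r
    induction r with
    | zero => rfl
    | succ r ih =>
      rw [List.replicate_succ, List.cons_append, List.flatMap_cons, ih]
      rfl
  have h1 : ∀ y : List Bool, (y.map Gen.bY ++ (List.replicate r Gen.bP ++ [Gen.yB])).flatMap V =
      ph y := by
    intro y
    induction y with
    | nil => exact h2 r
    | cons c y ih =>
      rw [List.map_cons, List.cons_append, List.flatMap_cons, ih]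
      rfl
  rw [wB, List.flatMap_cons, h1]
  rfl

lemma wA_len (y : List Bool) (r : ℕ) : (wA y r).length = y.length + r + 2 := by
  simp [wA]; ring

lemma wB_len (y : List Bool) (r : ℕ) : (wB y r).length = y.length + r + 2 := by
  simp [wB]; ring

lemma parse {γ : List Gen} {y : List Bool} {r : ℕ}
    (h : γ.flatMap U = Let.d :: Let.b :: ub y r) : γ = wA y r ∨ γ = wB y r := by
  cases γ with
  | nil => simp at h
  | cons g γ =>
    rw [List.flatMap_cons] at h
    cases g <;> simp only [U, List.cons_append, List.nil_append, List.cons.injEq, reduceCtorEq,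
        false_and, true_and] at h
    · left
      rw [parseA r y γ h]; rfl
    · right
      rw [parseB r y γ h]; rfl

lemma acc_iff (n : ℕ) (g : GG) : Acc n g ↔
    ∃ y r, n = y.length + r + 2 ∧ (g = gA y r ∨ g = gB y r) := by
  constructor
  · rintro ⟨γ, hl, hx, hr⟩
    obtain ⟨y, r, hU⟩ := run0 hr
    rw [prod_genEl] at hx
    refine ⟨y, r, ?_⟩
    rcases parse hU with rfl | rfl
    · refine ⟨by rw [← hl, wA_len], Or.inl ?_⟩
      rw [← hx, wA_U, wA_V]; rfl
    · refine ⟨by rw [← hl, wB_len], Or.inr ?_⟩
      rw [← hx, wB_U, wB_V]; rfl
  · rintro ⟨y, r, hn, rfl | rfl⟩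
    · refine ⟨wA y r, by rw [hn, wA_len], ?_, ?_⟩
      · rw [prod_genEl, wA_U, wA_V]; rfl
      · rw [wA_U, run0_ub]
    · refine ⟨wB y r, by rw [hn, wB_len], ?_, ?_⟩
      · rw [prod_genEl, wB_U, wB_V]; rfl
      · rw [wB_U, run0_ub]

lemma ub_inj {y y' : List Bool} {r r' : ℕ} (h : ub y r = ub y' r') : y = y' := by
  have key : ∀ (y : List Bool) (r : ℕ), (ub y r).filterMap
      (fun x => match x with | Let.y c => some c | _ => none) = y := by
    intro y r
    induction y with
    | nil =>
      rw [ub_nil]
      induction r with
      | zero => rfl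
      | succ r ih => rw [pb_succ]; simpa using ih
    | cons c y ih =>
      rw [ub_cons]
      simp [ih]
  rw [← key y r, ← key y' r', h]

/-- lists of length at most `k` -/
def LL : ℕ → Finset (List Bool)
  | 0 => {[]}
  | k + 1 => insert [] ((LL k).image (List.cons true) ∪ (LL k).image (List.cons false))

lemma mem_LL (k : ℕ) (y : List Bool) : y ∈ LL k ↔ y.length ≤ k := by
  induction k generalizing y with
  | zero => simp [LL]
  | succ k ih =>
    rw [LL, Finset.mem_insert, Finset.mem_union, Finset.mem_image, Finset.mem_image]
    cases y with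
    | nil => simp
    | cons c y =>
      cases c <;> simp [ih]

lemma card_LL (k : ℕ) : (LL k).card = 2 ^ (k + 1) - 1 := by
  induction k with
  | zero => rfl
  | succ k ih =>
    rw [LL, Finset.card_insert_of_notMem, Finset.card_union_of_disjoint, Finset.card_image_of_injective,
      Finset.card_image_of_injective, ih]
    · have : 1 ≤ 2 ^ (k + 1) := Nat.one_le_two_pow
      rw [pow_succ 2 (k + 1)]
      omega
    · intro a b h; simpa using h
    · intro a b h; simpa using h
    · rw [Finset.disjoint_left]
      intro y h1 h2
      rw [Finset.mem_image] at h1 h2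
      obtain ⟨a, -, rfl⟩ := h1
      obtain ⟨b, -, hb⟩ := h2
      simp at hb
    · simp

end PoolH322CG
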