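import Pool.Agent.H322R3.CGComb

set_option linter.unusedSectionVars false

namespace PoolH322CG

open List

open Classical in
/-- the infinite word: `W i` iff `i + 2` is a power of two -/
noncomputable def W (i : ℕ) : Bool := decide (∃ j : ℕ, i + 2 = 2 ^ j)

lemma W_iff (i : ℕ) : W i = true ↔ ∃ j : ℕ, i + 2 = 2 ^ j := by
  classical
  simp [W]

lemma W_zero : W 0 = true := (W_iff 0).2 ⟨1, rfl⟩

lemma W_odd (i : ℕ) : W (2 * i + 1) = false := by
  rw [← Bool.not_eq_true, W_iff]
  rintro ⟨j, hj⟩
  cases j with
  | zero => simp at hj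
  | succ j => rw [pow_succ] at hj; omega

lemma W_even (i : ℕ) : W (2 * i + 2) = W i := by
  rw [Bool.eq_iff_iff, W_iff, W_iff]
  constructor
  · rintro ⟨j, hj⟩
    cases j with
    | zero => simp at hj
    | succ j => exact ⟨j, by rw [pow_succ] at hj; omega⟩
  · rintro ⟨j, hj⟩
    exact ⟨j + 1, by rw [pow_succ]; omega⟩

lemma ph_cons (c : Bool) (y : List Bool) : ph (c :: y) = false :: c :: ph y := rfl

lemma ph_odd : ∀ (y : List Bool) (i : ℕ), (ph y)[2 * i + 1]? = y[i]?
  | [], i => by simp [ph]
  | c :: y, 0 => by simp [ph_cons]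
  | c :: y, i + 1 => by
    have h : 2 * (i + 1) + 1 = (2 * i + 1) + 1 + 1 := by ring
    rw [ph_cons, h, List.getElem?_cons_succ, List.getElem?_cons_succ, List.getElem?_cons_succ]
    exact ph_odd y i

lemma ph_even : ∀ (y : List Bool) (i : ℕ), i < y.length → (ph y)[2 * i]? = some false
  | [], i, h => by simp at h
  | c :: y, 0, _ => by simp [ph_cons]
  | c :: y, i + 1, h => by
    have h2 : 2 * (i + 1) = (2 * i) + 1 + 1 := by ring
    rw [ph_cons, h2, List.getElem?_cons_succ, List.getElem?_cons_succ]
    exact ph_even y i (by simpa using h)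

lemma ph_length (y : List Bool) : (ph y).length = 2 * y.length := by
  induction y with
  | nil => rfl
  | cons c y ih => rw [ph_cons]; simp [ih]; ring

/-- the equation -/
def EQ (y : List Bool) (r : ℕ) : Prop := y ++ (List.replicate r false ++ [true]) = true :: ph y

noncomputable def Wl (m : ℕ) : List Bool := (List.range m).map W

lemma Wl_length (m : ℕ) : (Wl m).length = m := by simp [Wl]

lemma Wl_get (m i : ℕ) (h : i < m) : (Wl m)[i]? = some (W i) := by
  simp [Wl, h]

lemma tph_get (y : List Bool) (hy : ∀ i < y.length, y[i]? = some (W i)) :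
    ∀ i, i ≤ 2 * y.length → (true :: ph y)[i]? = some (W i) := by
  intro i hi
  cases i with
  | zero => rw [W_zero]; rfl
  | succ i =>
    rw [List.getElem?_cons_succ]
    rcases Nat.even_or_odd' i with ⟨t, rfl | rfl⟩
    · rw [ph_even y t (by omega), W_odd]
    · rw [ph_odd, hy t (by omega)]
      congr 1
      exact (W_even t).symm

lemma lhs_get (y : List Bool) (r i : ℕ) : (y ++ (List.replicate r false ++ [true]))[i]? =
    if i < y.length then y[i]? else if i < y.length + r then some false else
      if i = y.length + r then some true else none := by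
  by_cases h1 : i < y.length
  · rw [if_pos h1, List.getElem?_append_left h1]
  · rw [if_neg h1, List.getElem?_append_right (by omega)]
    by_cases h2 : i < y.length + r
    · rw [if_pos h2, List.getElem?_append_left (by simp; omega), List.getElem?_replicate_of_lt (by omega)]
    · rw [if_neg h2, List.getElem?_append_right (by simp; omega)]
      simp only [List.length_replicate]
      by_cases h3 : i = y.length + r
      · rw [if_pos h3]
        have : i - y.length - r = 0 := by omega
        rw [this]; rfl
      · rw [if_neg h3]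
        rw [List.getElem?_eq_none]
        simp; omega

lemma EQ_iff (y : List Bool) (r : ℕ) : EQ y r ↔
    r = y.length ∧ (∃ j : ℕ, y.length + 1 = 2 ^ j) ∧ y = Wl y.length := by
  constructor
  · intro h
    have hlen := congrArg List.length h
    simp only [List.length_append, List.length_replicate, List.length_cons, List.length_nil,
      ph_length] at hlen
    have hr : r = y.length := by omega
    have hy : ∀ i < y.length, y[i]? = some (W i) := by
      intro i
      induction i using Nat.strong_induction_on with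
      | _ i ih =>
      intro hi
      have h1 : (y ++ (List.replicate r false ++ [true]))[i]? = (true :: ph y)[i]? := by rw [h]
      rw [lhs_get, if_pos hi] at h1
      rw [h1]
      cases i with
      | zero => rw [W_zero]; rfl
      | succ i =>
        rw [List.getElem?_cons_succ]
        rcases Nat.even_or_odd' i with ⟨t, rfl | rfl⟩
        · rw [ph_even y t (by omega), W_odd]
        · rw [ph_odd, ih t (by omega) (by omega)]
          congr 1
          exact (W_even t).symm
    refine ⟨hr, ?_, ?_⟩
    · rcases Nat.eq_zero_or_pos y.length with h0 | h0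
      · exact ⟨0, by rw [h0]; rfl⟩
      · have h1 : (y ++ (List.replicate r false ++ [true]))[2 * y.length]? =
          (true :: ph y)[2 * y.length]? := by rw [h]
        rw [lhs_get, if_neg (by omega), if_neg (by omega), if_pos (by omega),
          tph_get y hy _ le_rfl] at h1
        have h2 : W (2 * y.length) = true := (Option.some.inj h1).symm
        rw [W_iff] at h2
        obtain ⟨j, hj⟩ := h2
        cases j with
        | zero => simp at hj
        | succ j => exact ⟨j, by rw [pow_succ] at hj; omega⟩
    · apply List.ext_getElem?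
      intro i
      by_cases hi : i < y.length
      · rw [hy i hi, Wl_get _ _ hi]
      · rw [List.getElem?_eq_none (by omega), List.getElem?_eq_none (by rw [Wl_length]; omega)]
  · rintro ⟨rfl, ⟨j, hj⟩, hy⟩
    have hy' : ∀ i < y.length, y[i]? = some (W i) := by
      intro i hi
      conv_lhs => rw [hy]
      exact Wl_get _ _ hi
    rw [EQ]
    apply List.ext_getElem?
    intro i
    by_cases hi : i ≤ 2 * y.length
    · rw [tph_get y hy' i hi, lhs_get]
      by_cases h1 : i < y.length
      · rw [if_pos h1, hy' i h1]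
      · rw [if_neg h1]
        by_cases h2 : i < y.length + y.length
        · rw [if_pos h2]
          congr 1
          symm
          rw [← Bool.not_eq_true, W_iff]
          rintro ⟨j', hj'⟩
          have h3 : 2 ^ j < 2 ^ j' := by omega
          have h4 : 2 ^ j' < 2 ^ (j + 1) := by rw [pow_succ]; omega
          have h5 := (Nat.pow_lt_pow_iff_right (by norm_num : 1 < 2)).1 h3
          have h6 := (Nat.pow_lt_pow_iff_right (by norm_num : 1 < 2)).1 h4
          omega
        · rw [if_neg h2, if_pos (by omega)]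
          congr 1
          symm
          rw [W_iff]
          exact ⟨j + 1, by rw [pow_succ]; omega⟩
    · rw [List.getElem?_eq_none, List.getElem?_eq_none]
      · simp [ph_length]; omega
      · simp; omega

open Classical in
lemma card_sol (k : ℕ) : ((LL k).filter fun y => EQ y (k - y.length)).card =
    if ∃ j : ℕ, k + 2 = 2 ^ (j + 1) then 1 else 0 := by
  by_cases h : ∃ j : ℕ, k + 2 = 2 ^ (j + 1)
  · rw [if_pos h]
    obtain ⟨j, hj⟩ := h
    rw [Finset.card_eq_one]
    refine ⟨Wl (2 ^ j - 1), ?_⟩
    have h1 : 1 ≤ 2 ^ j := Nat.one_le_two_pow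
    ext y
    rw [Finset.mem_filter, mem_LL, EQ_iff, Finset.mem_singleton]
    constructor
    · rintro ⟨h2, h3, -, h5⟩
      have : y.length = 2 ^ j - 1 := by rw [pow_succ] at hj; omega
      rw [this] at h5
      exact h5
    · rintro rfl
      rw [Wl_length]
      rw [pow_succ] at hj
      exact ⟨by omega, by omega, ⟨j, by omega⟩, rfl⟩
  · rw [if_neg h, Finset.card_eq_zero, Finset.filter_eq_empty_iff]
    intro y hy
    rw [mem_LL] at hy
    rw [EQ_iff]
    rintro ⟨h3, ⟨j, hj⟩, -⟩
    exact h ⟨j, by rw [pow_succ]; omega⟩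

open Classical in
lemma ncard_acc (k : ℕ) : ({g | Acc (k + 2) g}.ncard : ℤ) =
    2 ^ (k + 2) - 2 - if ∃ j : ℕ, k + 2 = 2 ^ (j + 1) then 1 else 0 := by
  set fA : List Bool → GG := fun y => gA y (k - y.length) with hfA
  set fB : List Bool → GG := fun y => gB y (k - y.length) with hfB
  have hset : {g | Acc (k + 2) g} = (((LL k).image fA ∪ (LL k).image fB : Finset GG) : Set GG) := by
    ext g
    rw [Set.mem_ofPred_eq, acc_iff, Finset.mem_coe, Finset.mem_union, Finset.mem_image, Finset.mem_image]
    constructor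
    · rintro ⟨y, r, hn, hg⟩
      have hr : r = k - y.length := by omega
      have hy : y ∈ LL k := by rw [mem_LL]; omega
      subst hr
      rcases hg with rfl | rfl
      · left; exact ⟨y, hy, rfl⟩
      · right; exact ⟨y, hy, rfl⟩
    · rintro (⟨y, hy, rfl⟩ | ⟨y, hy, rfl⟩)
      · rw [mem_LL] at hy
        exact ⟨y, k - y.length, by omega, Or.inl rfl⟩
      · rw [mem_LL] at hy
        exact ⟨y, k - y.length, by omega, Or.inr rfl⟩
  have hub : ∀ {y y' : List Bool} {r r' : ℕ},
      pw (Let.d :: Let.b :: ub y r) = pw (Let.d :: Let.b :: ub y' r') → y = y' := by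
    intro y y' r r' h
    have h2 := pw_injective h
    simp only [List.cons.injEq, true_and] at h2
    exact ub_inj h2
  have hAinj : Function.Injective fA := fun y y' h => hub (Prod.mk.inj h).1
  have hBinj : Function.Injective fB := fun y y' h => hub (Prod.mk.inj h).1
  have hinter : (LL k).image fA ∩ (LL k).image fB =
      ((LL k).filter fun y => EQ y (k - y.length)).image fA := by
    ext g
    rw [Finset.mem_inter, Finset.mem_image, Finset.mem_image, Finset.mem_image]
    constructor
    · rintro ⟨⟨y, hy, rfl⟩, ⟨y', hy', h⟩⟩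
      have h1 : y' = y := hub (Prod.mk.inj h).1
      subst h1
      refine ⟨y', ?_, rfl⟩
      rw [Finset.mem_filter]
      refine ⟨hy, ?_⟩
      exact (pw_injective (Prod.mk.inj h).2).symm
    · rintro ⟨y, hy, rfl⟩
      rw [Finset.mem_filter] at hy
      refine ⟨⟨y, hy.1, rfl⟩, ⟨y, hy.1, ?_⟩⟩
      simp only [hfA, hfB, gA, gB]
      have h2 : y ++ (List.replicate (k - y.length) false ++ [true]) = true :: ph y := hy.2
      rw [h2]
  have hcard := Finset.card_union_add_card_inter ((LL k).image fA) ((LL k).image fB)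
  rw [hinter, Finset.card_image_of_injective _ hAinj, Finset.card_image_of_injective _ hBinj,
    Finset.card_image_of_injective _ hAinj, card_LL, card_sol] at hcard
  rw [hset, Set.ncard_coe_finset]
  have h1 : 1 ≤ 2 ^ (k + 1) := Nat.one_le_two_pow
  have h2 : (2 : ℤ) ^ (k + 2) = 2 * ((2 ^ (k + 1) : ℕ) : ℤ) := by
    push_cast; ring
  rw [h2]
  split_ifs at hcard ⊢ <;> omega

lemma ncard_acc_small (n : ℕ) (hn : n < 2) : {g | Acc n g}.ncard = 0 := by
  have : {g | Acc n g} = ∅ := by
    ext g
    rw [Set.mem_ofPred_eq, acc_iff]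
    constructor
    · rintro ⟨y, r, h, -⟩; omega
    · intro h; exact absurd h (Set.notMem_empty _)
  rw [this, Set.ncard_empty]

open PowerSeries

lemma isAlgebraic_of_algRel {f : ℚ⟦X⟧} (h : AlgRel f) : IsAlgebraic (Polynomial ℚ) f := by
  obtain ⟨N, p, ⟨i0, hi0, j0, hj0, hne⟩, hrel⟩ := h
  let P : Polynomial (Polynomial ℚ) := ∑ i ∈ Finset.range N,
    Polynomial.C (∑ j ∈ Finset.range N, Polynomial.C (p i j) * Polynomial.X ^ j) * Polynomial.X ^ i
  refine ⟨P, ?_, ?_⟩
  · intro h0
    have h1a : P.coeff i0 = ∑ j ∈ Finset.range N, Polynomial.C (p i0 j) * Polynomial.X ^ j := by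
      simp only [P, Polynomial.finsetSum_coeff, Polynomial.coeff_C_mul, Polynomial.coeff_X_pow,
        mul_ite, mul_one, mul_zero]
      rw [Finset.sum_ite_eq, if_pos (Finset.mem_range.2 hi0)]
    have h1 : (P.coeff i0).coeff j0 = p i0 j0 := by
      rw [h1a]
      simp only [Polynomial.finsetSum_coeff, Polynomial.coeff_C_mul, Polynomial.coeff_X_pow,
        mul_ite, mul_one, mul_zero]
      rw [Finset.sum_ite_eq, if_pos (Finset.mem_range.2 hj0)]
    rw [h0] at h1
    simp at h1
    exact hne h1.symm
  · rw [← hrel]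
    simp only [P, map_sum, map_mul, map_pow, Polynomial.aeval_C, Polynomial.aeval_X]
    refine Finset.sum_congr rfl fun i _ => ?_
    rw [Finset.sum_mul]
    refine Finset.sum_congr rfl fun j _ => ?_
    congr 1
    show ((Polynomial.C (p i j) : Polynomial ℚ) : ℚ⟦X⟧) * ((Polynomial.X : Polynomial ℚ) : ℚ⟦X⟧) ^ j = _
    rw [Polynomial.coe_C, Polynomial.coe_X]

lemma alg_geom (a : ℚ) : IsAlgebraic (Polynomial ℚ) (PowerSeries.mk fun n => a ^ n) := by
  refine ⟨Polynomial.C (1 - Polynomial.C a * Polynomial.X) * Polynomial.X - 1, ?_, ?_⟩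
  · intro h
    have h1 := congrArg (fun P => (Polynomial.coeff P 0)) h
    simp at h1
  · rw [map_sub, map_mul, map_one, Polynomial.aeval_C, Polynomial.aeval_X, sub_eq_zero]
    show (((1 - Polynomial.C a * Polynomial.X : Polynomial ℚ)) : ℚ⟦X⟧) * _ = 1
    rw [Polynomial.coe_sub, Polynomial.coe_mul, Polynomial.coe_C, Polynomial.coe_X, Polynomial.coe_one]
    ext n
    rw [sub_mul, one_mul, mul_assoc, map_sub, PowerSeries.coeff_C_mul, PowerSeries.coeff_mk,
      PowerSeries.coeff_one]
    cases n with
    | zero => simp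
    | succ n =>
      rw [PowerSeries.coeff_succ_X_mul, PowerSeries.coeff_mk]
      simp [pow_succ, mul_comm]

theorem not_isAlg_S2 : ¬ IsAlg (CG S2) := by
  classical
  intro h
  have h1 := isAlgebraic_of_algRel (algRel_F0 h)
  set f : ℚ⟦X⟧ := PowerSeries.mk fun n => (({g | Acc n g}.ncard : ℕ) : ℚ) with hf
  have h2 : gS = (PowerSeries.mk fun n => (2 : ℚ) ^ n) - (PowerSeries.mk fun n => (1 : ℚ) ^ n) -
      (PowerSeries.mk fun n => (1 : ℚ) ^ n) + 1 + X - f := by
    ext n
    rw [map_sub, map_add, map_add, map_sub, map_sub, PowerSeries.coeff_mk, PowerSeries.coeff_mk,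
      PowerSeries.coeff_one, PowerSeries.coeff_X, gS, hf, PowerSeries.coeff_mk, PowerSeries.coeff_mk]
    match n with
    | 0 =>
      rw [ncard_acc_small 0 (by norm_num), if_neg]
      · norm_num
      · rintro ⟨k, hk⟩
        have : 0 < 2 ^ k := by positivity
        omega
    | 1 =>
      rw [ncard_acc_small 1 (by norm_num), if_pos ⟨0, rfl⟩]
      norm_num
    | k + 2 =>
      have h3 := ncard_acc k
      have h4 : (∃ j : ℕ, k + 2 = 2 ^ (j + 1)) ↔ (∃ j : ℕ, k + 2 = 2 ^ j) := by
        constructor
        · rintro ⟨j, hj⟩; exact ⟨j + 1, hj⟩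
        · rintro ⟨j, hj⟩
          cases j with
          | zero => simp at hj
          | succ j => exact ⟨j, hj⟩
      have h5 : (({g | Acc (k + 2) g}.ncard : ℕ) : ℚ) =
          2 ^ (k + 2) - 2 - if ∃ j : ℕ, k + 2 = 2 ^ j then 1 else 0 := by
        have h6 : ((({g | Acc (k + 2) g}.ncard : ℕ) : ℤ) : ℚ) = _ := congrArg (fun z : ℤ => (z : ℚ)) h3
        rw [Int.cast_natCast] at h6
        rw [h6]
        simp only [h4]
        push_cast
        split_ifs <;> simp
      rw [h5, if_neg (by omega : ¬ (k + 2 = 0)), if_neg (by omega : ¬ (k + 2 = 1))]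
      ring
  apply gS_not_algebraic
  rw [h2]
  have hX : IsAlgebraic (Polynomial ℚ) (X : ℚ⟦X⟧) := by
    have := isAlgebraic_algebraMap (R := Polynomial ℚ) (A := ℚ⟦X⟧) (Polynomial.X)
    have h3 : algebraMap (Polynomial ℚ) ℚ⟦X⟧ Polynomial.X = X := by
      show ((Polynomial.X : Polynomial ℚ) : ℚ⟦X⟧) = X
      exact Polynomial.coe_X
    rwa [h3] at this
  exact ((((((alg_geom 2).sub (alg_geom 1)).sub (alg_geom 1)).add isAlgebraic_one).add hX).sub h1)

end PoolH322CG
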