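import Mathlib

namespace PoolH322CG

open PowerSeries

open Classical in
/-- `∑ X^(2^k)` -/
noncomputable def gS : ℚ⟦X⟧ := PowerSeries.mk fun n => if ∃ k, n = 2 ^ k then 1 else 0

lemma expand_gS : expand 2 two_ne_zero gS = gS - X := by
  classical
  ext n
  rw [map_sub, PowerSeries.coeff_X]
  rcases Nat.even_or_odd' n with ⟨m, rfl | rfl⟩
  · rw [coeff_expand_mul]
    simp only [gS, coeff_mk]
    have h1 : (∃ k, 2 * m = 2 ^ k) ↔ (∃ k, m = 2 ^ k) := by
      constructor
      · rintro ⟨k, hk⟩
        cases k with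
        | zero => omega
        | succ k => exact ⟨k, by rw [pow_succ] at hk; omega⟩
      · rintro ⟨k, hk⟩
        exact ⟨k + 1, by rw [pow_succ]; omega⟩
    have h2 : ¬ (2 * m = 1) := by omega
    simp [h1, h2]
  · rw [coeff_expand_of_not_dvd _ _ _ (by omega)]
    simp only [gS, coeff_mk]
    by_cases hm : m = 0
    · subst hm
      have : ∃ k, 2 * 0 + 1 = 2 ^ k := ⟨0, by norm_num⟩
      simp [this]
    · have h1 : ¬ (∃ k, 2 * m + 1 = 2 ^ k) := by
        rintro ⟨k, hk⟩
        cases k with
        | zero => simp at hk; omega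
        | succ k => rw [pow_succ] at hk; omega
      have h2 : ¬ (2 * m + 1 = 1) := by omega
      simp [h1, hm]

lemma degree_contra (p q : Polynomial ℚ) (d : ℚ) (hd : d ≠ 0) (hq : q ≠ 0)
    (h : q * (Polynomial.expand ℚ 2 p + Polynomial.C d * (Polynomial.expand ℚ 2 q * (-Polynomial.X))) =
      Polynomial.expand ℚ 2 q * p) : False := by
  have hEq : Polynomial.expand ℚ 2 q ≠ 0 := by
    rw [Ne, Polynomial.expand_eq_zero (by norm_num)]; exact hq
  have h1 : Polynomial.C d * (q * (Polynomial.expand ℚ 2 q * Polynomial.X)) =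
      q * Polynomial.expand ℚ 2 p - Polynomial.expand ℚ 2 q * p := by
    rw [← h]; ring
  have hdeg1 : (Polynomial.C d * (q * (Polynomial.expand ℚ 2 q * Polynomial.X))).natDegree =
      3 * q.natDegree + 1 := by
    rw [Polynomial.natDegree_C_mul hd, Polynomial.natDegree_mul hq (mul_ne_zero hEq Polynomial.X_ne_zero),
      Polynomial.natDegree_mul hEq Polynomial.X_ne_zero, Polynomial.natDegree_expand,
      Polynomial.natDegree_X]
    ring
  by_cases hl : p.natDegree ≤ q.natDegree
  · have h2 : (q * Polynomial.expand ℚ 2 p - Polynomial.expand ℚ 2 q * p).natDegree ≤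
        3 * q.natDegree := by
      refine (Polynomial.natDegree_sub_le _ _).trans (max_le ?_ ?_)
      · refine Polynomial.natDegree_mul_le.trans ?_
        rw [Polynomial.natDegree_expand]; omega
      · refine Polynomial.natDegree_mul_le.trans ?_
        rw [Polynomial.natDegree_expand]; omega
    rw [← h1, hdeg1] at h2
    omega
  · push Not at hl
    have hp : p ≠ 0 := by
      rintro rfl; simp at hl
    have hEp : Polynomial.expand ℚ 2 p ≠ 0 := by
      rw [Ne, Polynomial.expand_eq_zero (by norm_num)]; exact hp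
    have h3 : q * Polynomial.expand ℚ 2 p = Polynomial.C d * (q * (Polynomial.expand ℚ 2 q * Polynomial.X))
      + Polynomial.expand ℚ 2 q * p := by rw [h1]; ring
    have h4 : (q * Polynomial.expand ℚ 2 p).natDegree = q.natDegree + 2 * p.natDegree := by
      rw [Polynomial.natDegree_mul hq hEp, Polynomial.natDegree_expand]; ring
    have h5 : (Polynomial.C d * (q * (Polynomial.expand ℚ 2 q * Polynomial.X))
      + Polynomial.expand ℚ 2 q * p).natDegree ≤ max (3 * q.natDegree + 1) (2 * q.natDegree + p.natDegree) := by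
      refine (Polynomial.natDegree_add_le _ _).trans (max_le_max (le_of_eq hdeg1) ?_)
      refine Polynomial.natDegree_mul_le.trans ?_
      rw [Polynomial.natDegree_expand]; omega
    rw [← h3, h4] at h5
    omega

theorem gS_ne : ∀ d : ℕ, ∀ P : Polynomial (Polynomial ℚ), P.natDegree = d → P ≠ 0 →
    Polynomial.aeval gS P ≠ 0 := by
  intro d
  induction d using Nat.strong_induction_on with
  | _ d ih =>
  intro P hPd hP0 hP
  cases d with
  | zero =>
    rw [Polynomial.eq_C_of_natDegree_le_zero hPd.le] at hP hP0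
    rw [Polynomial.aeval_C] at hP
    apply hP0
    have : P.coeff 0 = 0 := by
      have h1 : ((P.coeff 0 : Polynomial ℚ) : ℚ⟦X⟧) = 0 := hP
      exact Polynomial.coe_eq_zero_iff.1 h1
    rw [this, map_zero]
  | succ e =>
    set q := P.coeff (e + 1) with hq
    set p := P.coeff e with hp
    have hq0 : q ≠ 0 := by
      rw [hq, ← hPd]
      exact Polynomial.leadingCoeff_ne_zero.2 hP0
    let τ : Polynomial ℚ →+* Polynomial ℚ := (Polynomial.expand ℚ 2 : Polynomial ℚ →ₐ[ℚ] Polynomial ℚ).toRingHom
    have hτinj : Function.Injective τ := Polynomial.expand_injective (by norm_num)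
    let σ : ℚ⟦X⟧ →+* ℚ⟦X⟧ := (expand 2 two_ne_zero : ℚ⟦X⟧ →ₐ[ℚ] ℚ⟦X⟧).toRingHom
    have hστ : σ.comp (algebraMap (Polynomial ℚ) ℚ⟦X⟧) = (algebraMap (Polynomial ℚ) ℚ⟦X⟧).comp τ := by
      apply Polynomial.ringHom_ext
      · intro a
        show expand 2 two_ne_zero ((Polynomial.C a : Polynomial ℚ) : ℚ⟦X⟧) =
          ((Polynomial.expand ℚ 2 (Polynomial.C a) : Polynomial ℚ) : ℚ⟦X⟧)
        rw [Polynomial.expand_C, Polynomial.coe_C, expand_C]
      · show expand 2 two_ne_zero ((Polynomial.X : Polynomial ℚ) : ℚ⟦X⟧) =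
          ((Polynomial.expand ℚ 2 (Polynomial.X) : Polynomial ℚ) : ℚ⟦X⟧)
        rw [Polynomial.expand_X, Polynomial.coe_X, expand_X, Polynomial.coe_pow, Polynomial.coe_X]
    set Pτ := P.map τ with hPτ
    have hPτd : Pτ.natDegree = e + 1 := by
      rw [hPτ, Polynomial.natDegree_map_eq_of_injective hτinj, hPd]
    have hPτa : Polynomial.aeval (gS - X) Pτ = 0 := by
      rw [← expand_gS, hPτ, Polynomial.aeval_def, Polynomial.eval₂_map, ← hστ]
      have h1 : Polynomial.eval₂ (σ.comp (algebraMap (Polynomial ℚ) ℚ⟦X⟧)) (σ gS) P =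
          σ (Polynomial.eval₂ (algebraMap (Polynomial ℚ) ℚ⟦X⟧) gS P) := (Polynomial.hom_eval₂ P _ σ gS).symm
      have h2 : Polynomial.eval₂ (algebraMap (Polynomial ℚ) ℚ⟦X⟧) gS P = 0 := hP
      rw [h2, map_zero] at h1
      exact h1
    set P1 := Polynomial.taylor (-Polynomial.X : Polynomial ℚ) Pτ with hP1
    have hP1a : Polynomial.aeval gS P1 = 0 := by
      rw [hP1, Polynomial.taylor_apply, Polynomial.aeval_comp]
      rw [← hPτa]
      congr 2
      simp only [map_add, Polynomial.aeval_X, Polynomial.aeval_C, map_neg]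
      rw [sub_eq_add_neg]
      congr 2
      exact Polynomial.coe_X
    have hP1d : P1.natDegree = e + 1 := by rw [hP1, Polynomial.natDegree_taylor, hPτd]
    have hc1 : P1.coeff (e + 1) = τ q := by
      have := Polynomial.coeff_taylor_natDegree (-Polynomial.X : Polynomial ℚ) Pτ
      rw [hPτd] at this
      rw [hP1, this, Polynomial.leadingCoeff, hPτd, hPτ, Polynomial.coeff_map]
    have hc0 : P1.coeff e = τ p + ((e + 1 : ℕ) : Polynomial ℚ) * (τ q * (-Polynomial.X)) := by
      rw [hP1, Polynomial.taylor_coeff]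
      have hnd : (Polynomial.hasseDeriv e Pτ).natDegree < 2 := by
        have := Polynomial.natDegree_hasseDeriv_le Pτ e
        omega
      rw [Polynomial.eval_eq_sum_range' hnd]
      simp only [Finset.sum_range_succ, Finset.sum_range_zero, Polynomial.hasseDeriv_coeff, hPτ,
        Polynomial.coeff_map]
      have h1 : (1 + e).choose e = e + 1 := by
        rw [add_comm]; exact Nat.choose_succ_self_right e
      rw [h1]
      simp only [zero_add, Nat.choose_self, Nat.cast_one, one_mul, pow_zero, mul_one, pow_one]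
      rw [add_comm 1 e]
      ring
    set R := Polynomial.C q * P1 - Polynomial.C (τ q) * P with hR
    have hRa : Polynomial.aeval gS R = 0 := by
      rw [hR, map_sub, map_mul, map_mul, hP1a, hP, mul_zero, mul_zero, sub_zero]
    have hRle : R.natDegree ≤ e + 1 := by
      refine (Polynomial.natDegree_sub_le _ _).trans (max_le ?_ ?_)
      · exact (Polynomial.natDegree_C_mul_le _ _).trans hP1d.le
      · exact (Polynomial.natDegree_C_mul_le _ _).trans hPd.le
    have hRc : R.coeff (e + 1) = 0 := by
      rw [hR, Polynomial.coeff_sub, Polynomial.coeff_C_mul, Polynomial.coeff_C_mul, hc1, ← hq]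
      ring
    have hR0 : R = 0 := by
      by_contra hne
      have hlt : R.natDegree < e + 1 := by
        rcases lt_or_eq_of_le hRle with h | h
        · exact h
        · exfalso
          rw [← h] at hRc
          exact hne (Polynomial.leadingCoeff_eq_zero.1 hRc)
      exact ih _ hlt R rfl hne hRa
    have hce := congrArg (fun S => Polynomial.coeff S e) hR0
    simp only [hR, Polynomial.coeff_sub, Polynomial.coeff_C_mul, hc0, Polynomial.coeff_zero] at hce
    rw [← hp] at hce
    refine degree_contra p q ((e + 1 : ℕ) : ℚ) (by positivity) hq0 ?_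
    have h5 : (Polynomial.C ((e + 1 : ℕ) : ℚ)) = ((e + 1 : ℕ) : Polynomial ℚ) := by simp
    rw [h5]
    exact sub_eq_zero.1 hce

/-- `∑ X^(2^k)` is transcendental over `ℚ[X]`. -/
theorem gS_not_algebraic : ¬ IsAlgebraic (Polynomial ℚ) gS := by
  rintro ⟨P, hP0, hP⟩
  exact gS_ne _ P rfl hP0 hP

end PoolH322CG
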