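import Pool.Agent.H322R3.CGSpec
import Pool.Agent.H322R3.CGMahler

set_option linter.unusedSectionVars false

namespace PoolH322CG

open PowerSeries

section basic

variable {G : Type} [Group G]

lemma isProd_finite (S : Finset G) (n : ℕ) : {g | IsProd S n g}.Finite := by
  classical
  induction n with
  | zero =>
    apply (Set.finite_singleton (1 : G)).subset
    rintro g ⟨l, hl, -, rfl⟩
    rw [List.length_eq_zero_iff] at hl
    subst hl
    simp
  | succ n ih =>
    have hT : {x : G | x ∈ S ∨ x⁻¹ ∈ S}.Finite := by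
      have : {x : G | x ∈ S ∨ x⁻¹ ∈ S} ⊆ (S ∪ S.image (fun x => x⁻¹) : Finset G) := by
        intro x hx
        rcases hx with hx | hx
        · simp [hx]
        · simp only [Finset.coe_union, Finset.coe_image, Set.mem_union, Set.mem_image]
          right
          exact ⟨x⁻¹, hx, by simp⟩
      exact (Finset.finite_toSet _).subset this
    apply (Set.Finite.image2 (fun a b : G => a * b) hT ih).subset
    rintro g ⟨l, hl, hS, rfl⟩
    cases l with
    | nil => simp at hl
    | cons x l =>
      refine ⟨x, hS x (by simp), l.prod, ⟨l, by simpa using hl, fun y hy => hS y (by simp [hy]), rfl⟩, ?_⟩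
      simp

lemma sphere_finite (S : Finset G) (n : ℕ) : (sphere S n).Finite :=
  (isProd_finite S n).subset fun _ h => h.1

lemma coeff_CG (S : Finset G) (n : ℕ) : PowerSeries.coeff n (CG S) =
    ∑ g ∈ (sphere_finite S n).toFinset, MonoidAlgebra.of ℤ G g := by
  rw [CG, PowerSeries.coeff_mk, finsum_mem_eq_finite_toFinset_sum _ (sphere_finite S n)]

end basic

section Psi

variable {A : Type} [Ring A] {K : Type} [Field K] {m : Type} [Fintype m] [DecidableEq m]

/-- the map underlying `Psi` -/
noncomputable def PsiFun (φ : A →+* Matrix m m K) (δ : K) (f : A⟦X⟧) : Matrix m m K⟦X⟧ :=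
  Matrix.of fun i j => PowerSeries.mk fun n => δ ^ n * (φ (PowerSeries.coeff n f)) i j

lemma PsiFun_coeff (φ : A →+* Matrix m m K) (δ : K) (f : A⟦X⟧) (i j : m) (n : ℕ) :
    PowerSeries.coeff n (PsiFun φ δ f i j) = δ ^ n * (φ (PowerSeries.coeff n f)) i j := by
  rw [PsiFun, Matrix.of_apply, PowerSeries.coeff_mk]

/-- the ring homomorphism `A[[z]] → M_m(K[[z]])` induced by `φ : A → M_m(K)` and `z ↦ δ z` -/
noncomputable def Psi (φ : A →+* Matrix m m K) (δ : K) : A⟦X⟧ →+* Matrix m m K⟦X⟧ where
  toFun := PsiFun φ δ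
  map_one' := by
    ext i j n
    rw [PsiFun_coeff, PowerSeries.coeff_one]
    by_cases hn : n = 0
    · subst hn
      rw [if_pos rfl, map_one]
      by_cases hij : i = j
      · subst hij; simp
      · simp [hij]
    · rw [if_neg hn, map_zero]
      by_cases hij : i = j
      · subst hij; simp [PowerSeries.coeff_one, hn]
      · simp [hij]
  map_zero' := by
    ext i j n
    rw [PsiFun_coeff]
    simp
  map_add' f g := by
    ext i j n
    rw [Matrix.add_apply, map_add, PsiFun_coeff, PsiFun_coeff, PsiFun_coeff, map_add, map_add,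
      Matrix.add_apply, mul_add]
  map_mul' f g := by
    ext i j n
    rw [PsiFun_coeff, PowerSeries.coeff_mul, map_sum, Matrix.sum_apply, Finset.mul_sum,
      Matrix.mul_apply, map_sum]
    simp only [PowerSeries.coeff_mul, PsiFun_coeff, map_mul]
    rw [Finset.sum_comm]
    refine Finset.sum_congr rfl fun x hx => ?_
    rw [Matrix.mul_apply, Finset.mul_sum]
    refine Finset.sum_congr rfl fun k _ => ?_
    rw [← Finset.HasAntidiagonal.mem_antidiagonal.1 hx, pow_add]
    ring

lemma Psi_coeff (φ : A →+* Matrix m m K) (δ : K) (f : A⟦X⟧) (i j : m) (n : ℕ) :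
    PowerSeries.coeff n (Psi φ δ f i j) = δ ^ n * (φ (PowerSeries.coeff n f)) i j :=
  PsiFun_coeff φ δ f i j n

open scoped LaurentSeries Polynomial in
theorem alg_of_isAlg (φ : A →+* Matrix m m K) (δ : K) (f : A⟦X⟧) (hf : IsAlg f) (i j : m) :
    AlgRel (Psi φ δ f i j) := by
  obtain ⟨n, Q, y, hpoly, hprop, hsol, rfl⟩ := hf
  apply algRel_of_isAlgebraic
  refine entries_algebraic
    (fun i => (Q i).map fun q => (Psi φ δ q.1, q.2.map fun p => (p.1, Psi φ δ p.2)))
    (fun i => Psi φ δ (y i)) ?_ ?_ ?_ 0 i j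
  · intro i
    show Psi φ δ (y i) = _
    conv_lhs => rw [hsol i]
    rw [map_list_sum, List.map_map, List.map_map]
    congr 1
    apply List.map_congr_left
    intro q hq
    simp only [Function.comp]
    rw [map_ev]
  · have key : ∀ c : A⟦X⟧, IsPoly c → ∀ a b, ∃ p : K[X], (p : K⟦X⟧) = Psi φ δ c a b := by
      rintro c ⟨N, hN⟩ a b
      refine ⟨PowerSeries.trunc N (Psi φ δ c a b), ?_⟩
      ext n
      rw [Polynomial.coeff_coe, PowerSeries.coeff_trunc]
      split_ifs with h
      · rfl
      · rw [Psi_coeff, hN n (by omega), map_zero]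
        simp
    intro i q hq
    simp only [List.mem_map] at hq
    obtain ⟨q0, hq0, rfl⟩ := hq
    refine ⟨key _ (hpoly i q0 hq0).1, ?_⟩
    intro p hp
    simp only [List.mem_map] at hp
    obtain ⟨p0, hp0, rfl⟩ := hp
    exact key _ ((hpoly i q0 hq0).2 p0 hp0)
  · have key : ∀ c : A⟦X⟧, PowerSeries.constantCoeff c = 0 →
        ∀ a b, PowerSeries.constantCoeff (Psi φ δ c a b) = 0 := by
      intro c hc a b
      rw [← PowerSeries.coeff_zero_eq_constantCoeff_apply] at hc ⊢
      rw [Psi_coeff, hc, map_zero]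
      simp
    intro i q hq hne
    simp only [List.mem_map] at hq
    obtain ⟨q0, hq0, rfl⟩ := hq
    have hne' : q0.2 ≠ [] := by
      intro h; apply hne; simp [h]
    rcases hprop i q0 hq0 hne' with h | ⟨p, hp, h⟩
    · left
      exact key _ h
    · right
      exact ⟨(p.1, Psi φ δ p.2), List.mem_map.2 ⟨p, hp, rfl⟩, key _ h⟩

end Psi

end PoolH322CG
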