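import Pool.Agent.H322R3.CGRat
import Pool.Agent.H322R3.CGCount

set_option linter.unusedSectionVars false

namespace PoolH322CG

open PowerSeries

/-- the standard generating set of `F₆ × F₂` -/
def S1 : Finset GG :=
  (Finset.univ.image fun x : Let => ((FreeGroup.of x, 1) : GG)) ∪
    (Finset.univ.image fun c : Bool => ((1, FreeGroup.of c) : GG))

lemma gen_all (H : Subgroup GG) (h1 : ∀ x : Let, ((FreeGroup.of x, 1) : GG) ∈ H)
    (h2 : ∀ c : Bool, ((1, FreeGroup.of c) : GG) ∈ H) : H = ⊤ := by
  have e1 : H.comap (MonoidHom.inl (FreeGroup Let) (FreeGroup Bool)) = ⊤ := by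
    rw [eq_top_iff, ← FreeGroup.closure_range_of, Subgroup.closure_le]
    rintro _ ⟨x, rfl⟩
    exact h1 x
  have e2 : H.comap (MonoidHom.inr (FreeGroup Let) (FreeGroup Bool)) = ⊤ := by
    rw [eq_top_iff, ← FreeGroup.closure_range_of, Subgroup.closure_le]
    rintro _ ⟨x, rfl⟩
    exact h2 x
  rw [eq_top_iff]
  rintro ⟨u, v⟩ -
  have f1 : ((u, 1) : GG) ∈ H := by
    have : u ∈ H.comap (MonoidHom.inl (FreeGroup Let) (FreeGroup Bool)) := by rw [e1]; trivial
    exact this
  have f2 : ((1, v) : GG) ∈ H := by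
    have : v ∈ H.comap (MonoidHom.inr (FreeGroup Let) (FreeGroup Bool)) := by rw [e2]; trivial
    exact this
  have := H.mul_mem f1 f2
  simpa using this

lemma closure_S1 : Subgroup.closure (S1 : Set GG) = ⊤ := by
  apply gen_all
  · intro x
    apply Subgroup.subset_closure
    simp [S1]
  · intro c
    apply Subgroup.subset_closure
    rw [Finset.mem_coe, S1, Finset.mem_union]
    right
    exact Finset.mem_image_of_mem _ (Finset.mem_univ _)

lemma closure_S2 : Subgroup.closure (S2 : Set GG) = ⊤ := by
  set H := Subgroup.closure (S2 : Set GG) with hH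
  have hg : ∀ g, genEl g ∈ H := by
    intro g
    apply Subgroup.subset_closure
    rw [Finset.mem_coe, S2, Finset.mem_union]
    left
    exact Finset.mem_image_of_mem _ (Finset.mem_univ _)
  have hb : ((FreeGroup.of Let.b, 1) : GG) ∈ H := by
    apply Subgroup.subset_closure
    rw [Finset.mem_coe, S2, Finset.mem_union]
    right
    simp
  have hc : ∀ c : Bool, ((1, FreeGroup.of c) : GG) ∈ H := by
    intro c
    apply Subgroup.subset_closure
    rw [Finset.mem_coe, S2, Finset.mem_union]
    right
    cases c <;> simp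
  apply gen_all
  · intro x
    cases x with
    | b => exact hb
    | d =>
      have h := H.mul_mem (hg Gen.xA) (H.inv_mem hb)
      have e : genEl Gen.xA * ((FreeGroup.of Let.b, 1) : GG)⁻¹ = (FreeGroup.of Let.d, 1) := by
        simp [genEl, U, V, pw]
      rwa [e] at h
    | e =>
      have h := H.mul_mem (hg Gen.yA) (H.inv_mem (hc true))
      have e : genEl Gen.yA * ((1, FreeGroup.of true) : GG)⁻¹ = (FreeGroup.of Let.e, 1) := by
        simp [genEl, U, V, pw]
      rwa [e] at h
    | p =>
      have h := H.mul_mem (H.mul_mem (hg Gen.aP) (H.inv_mem hb)) (H.inv_mem (hc false))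
      have e : genEl Gen.aP * ((FreeGroup.of Let.b, 1) : GG)⁻¹ * ((1, FreeGroup.of false) : GG)⁻¹ =
          (FreeGroup.of Let.p, 1) := by
        simp [genEl, U, V, pw]
      rwa [e] at h
    | y c =>
      have h := H.mul_mem (H.mul_mem (hg (Gen.aY c)) (H.inv_mem hb)) (H.inv_mem (hc c))
      have e : genEl (Gen.aY c) * ((FreeGroup.of Let.b, 1) : GG)⁻¹ * ((1, FreeGroup.of c) : GG)⁻¹ =
          (FreeGroup.of (Let.y c), 1) := by
        simp [genEl, U, V, pw]
      rwa [e] at h
  · exact hc

/-- total norm -/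
def nn (g : GG) : ℕ := g.1.norm + g.2.norm

lemma nn_mul (g h : GG) : nn (g * h) ≤ nn g + nn h := by
  have h1 := FreeGroup.norm_mul_le g.1 h.1
  have h2 := FreeGroup.norm_mul_le g.2 h.2
  simp only [nn, Prod.fst_mul, Prod.snd_mul]
  omega

lemma nn_S1 (x : GG) (hx : x ∈ S1 ∨ x⁻¹ ∈ S1) : nn x = 1 := by
  have key : ∀ z : GG, z ∈ S1 → nn z = 1 := by
    intro z hz
    rw [S1, Finset.mem_union, Finset.mem_image, Finset.mem_image] at hz
    rcases hz with ⟨x, -, rfl⟩ | ⟨x, -, rfl⟩ <;> simp [nn]
  rcases hx with hx | hx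
  · exact key x hx
  · have h := key _ hx
    simp only [nn, Prod.fst_inv, Prod.snd_inv, FreeGroup.norm_inv_eq] at h
    exact h

lemma nn_le_of_isProd {n : ℕ} {g : GG} (h : IsProd S1 n g) : nn g ≤ n := by
  obtain ⟨l, hl, hS, rfl⟩ := h
  rw [← hl]
  clear hl
  induction l with
  | nil => simp [nn]
  | cons x l ih =>
    rw [List.prod_cons, List.length_cons]
    have h1 := nn_mul x l.prod
    have h2 := nn_S1 x (hS x (by simp))
    have h3 := ih (fun y hy => hS y (by simp [hy]))
    omega

lemma prod_letters {α : Type} (L : List (α × Bool)) : (L.map letter).prod = FreeGroup.mk L := by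
  induction L with
  | nil => rfl
  | cons s L ih =>
    rw [List.map_cons, List.prod_cons, ih, letter, FreeGroup.mul_mk]
    rfl

lemma isProd_nn (g : GG) : IsProd S1 (nn g) g := by
  refine ⟨(g.1.toWord.map fun s => ((letter s, 1) : GG)) ++ (g.2.toWord.map fun s => ((1, letter s) : GG)),
    ?_, ?_, ?_⟩
  · simp [nn, FreeGroup.norm]
  · intro x hx
    rw [List.mem_append, List.mem_map, List.mem_map] at hx
    rcases hx with ⟨⟨a, c⟩, -, rfl⟩ | ⟨⟨a, c⟩, -, rfl⟩
    · cases c
      · right
        rw [S1, Finset.mem_union]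
        left
        refine Finset.mem_image.2 ⟨a, Finset.mem_univ _, ?_⟩
        simp [letter, FreeGroup.of, FreeGroup.inv_mk, FreeGroup.invRev]
      · left
        rw [S1, Finset.mem_union]
        left
        exact Finset.mem_image.2 ⟨a, Finset.mem_univ _, rfl⟩
    · cases c
      · right
        rw [S1, Finset.mem_union]
        right
        refine Finset.mem_image.2 ⟨a, Finset.mem_univ _, ?_⟩
        simp [letter, FreeGroup.of, FreeGroup.inv_mk, FreeGroup.invRev]
      · left
        rw [S1, Finset.mem_union]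
        right
        exact Finset.mem_image.2 ⟨a, Finset.mem_univ _, rfl⟩
  · rw [List.prod_append]
    have h1 : ∀ L : List (Let × Bool), (L.map fun s => ((letter s, 1) : GG)).prod =
        ((L.map letter).prod, 1) := by
      intro L
      induction L with
      | nil => rfl
      | cons s L ih => rw [List.map_cons, List.prod_cons, ih, List.map_cons, List.prod_cons]; simp
    have h2 : ∀ L : List (Bool × Bool), (L.map fun s => ((1, letter s) : GG)).prod =
        (1, (L.map letter).prod) := by
      intro L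
      induction L with
      | nil => rfl
      | cons s L ih => rw [List.map_cons, List.prod_cons, ih, List.map_cons, List.prod_cons]; simp
    rw [h1, h2, prod_letters, prod_letters, FreeGroup.mk_toWord, FreeGroup.mk_toWord]
    simp

lemma sphere_S1 (n : ℕ) (g : GG) : g ∈ sphere S1 n ↔ nn g = n := by
  constructor
  · rintro ⟨h1, h2⟩
    have h3 := nn_le_of_isProd h1
    rcases lt_or_eq_of_le h3 with h | h
    · exact absurd (isProd_nn g) (h2 _ h)
    · exact h
  · rintro rfl
    refine ⟨isProd_nn g, fun k hk h => ?_⟩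
    have := nn_le_of_isProd h
    omega

noncomputable def j1 : MonoidAlgebra ℤ (FreeGroup Let) →+* MonoidAlgebra ℤ GG :=
  MonoidAlgebra.mapDomainRingHom ℤ (MonoidHom.inl _ _)

noncomputable def j2 : MonoidAlgebra ℤ (FreeGroup Bool) →+* MonoidAlgebra ℤ GG :=
  MonoidAlgebra.mapDomainRingHom ℤ (MonoidHom.inr _ _)

lemma j1_single (u : FreeGroup Let) : j1 (MonoidAlgebra.single u 1) = MonoidAlgebra.single (u, 1) 1 := by
  simp [j1]

lemma j2_single (v : FreeGroup Bool) : j2 (MonoidAlgebra.single v 1) = MonoidAlgebra.single (1, v) 1 := by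
  simp [j2]

lemma CG_S1 : CG S1 = PowerSeries.map j1 (PF Let) * PowerSeries.map j2 (PF Bool) := by
  classical
  ext1 n
  rw [coeff_CG, PowerSeries.coeff_mul]
  rw [← Finset.sum_fiberwise_of_maps_to (s := (sphere_finite S1 n).toFinset)
    (t := Finset.HasAntidiagonal.antidiagonal n) (g := fun g : GG => (g.1.norm, g.2.norm))]
  · refine Finset.sum_congr rfl fun y hy => ?_
    rw [PowerSeries.coeff_map, PowerSeries.coeff_map, PF, PF, PowerSeries.coeff_mk,
      PowerSeries.coeff_mk, map_sum, map_sum, Finset.sum_mul_sum, ← Finset.sum_product']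
    have hset : (sphere_finite S1 n).toFinset.filter (fun g : GG => (g.1.norm, g.2.norm) = y) =
        (sph_finite Let y.1).toFinset ×ˢ (sph_finite Bool y.2).toFinset := by
      ext g
      rw [Finset.mem_filter, Set.Finite.mem_toFinset, sphere_S1, Finset.mem_product,
        Set.Finite.mem_toFinset, Set.Finite.mem_toFinset]
      have hy' := Finset.HasAntidiagonal.mem_antidiagonal.1 hy
      constructor
      · rintro ⟨-, h⟩
        rw [← h]
        exact ⟨rfl, rfl⟩
      · rintro ⟨h1, h2⟩
        have h1' : g.1.norm = y.1 := h1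
        have h2' : g.2.norm = y.2 := h2
        refine ⟨by rw [nn, h1', h2', hy'], by rw [h1', h2']⟩
    rw [hset]
    refine Finset.sum_congr rfl fun g _ => ?_
    rw [j1_single, j2_single, MonoidAlgebra.single_mul_single]
    simp
  · intro g hg
    rw [Set.Finite.mem_toFinset, sphere_S1] at hg
    rw [Finset.HasAntidiagonal.mem_antidiagonal]
    exact hg

lemma mem_rat {α : Type} [Fintype α] [DecidableEq α] {H : Type} [Group H]
    (j : MonoidAlgebra ℤ (FreeGroup α) →+* MonoidAlgebra ℤ H) :
    PowerSeries.map j (PF α) ∈ RatSub (MonoidAlgebra ℤ H) := by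
  have h := congrArg (PowerSeries.map j) (PF_rel (α := α))
  rw [map_mul, map_sub, map_sub, map_sub, map_one, map_mul, map_mul, map_pow, map_C, map_C, map_X] at h
  refine mem_ratSub_of ?_ ?_ ?_ h
  · simp
  · refine ⟨3, fun n hn => ?_⟩
    rw [map_sub, coeff_C_mul, coeff_C_mul, coeff_X, coeff_X_pow, if_neg (by omega), if_neg (by omega)]
    simp
  · refine ⟨3, fun n hn => ?_⟩
    rw [map_sub, coeff_one, coeff_X_pow, if_neg (by omega), if_neg (by omega)]
    simp

theorem CG_S1_mem : CG S1 ∈ RatSub (MonoidAlgebra ℤ GG) := by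
  rw [CG_S1]
  exact mul_mem (mem_rat j1) (mem_rat j2)

end PoolH322CG
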