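import Pool.Agent.H322R3.CGDefs

set_option linter.unusedSectionVars false

namespace PoolH322CG

open PowerSeries

section star

variable {R : Type} [Ring R]

lemma coeff_pow_zero (A : R⟦X⟧) (hA : constantCoeff A = 0) : ∀ k n, n < k → coeff n (A ^ k) = 0 := by
  intro k
  induction k with
  | zero => intro n hn; omega
  | succ k ih =>
    intro n hn
    rw [pow_succ, coeff_mul]
    apply Finset.sum_eq_zero
    intro x hx
    have hx' := Finset.HasAntidiagonal.mem_antidiagonal.1 hx
    by_cases h : x.1 < k
    · rw [ih _ h, zero_mul]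
    · have h2 : x.2 = 0 := by omega
      rw [h2, coeff_zero_eq_constantCoeff_apply, hA, mul_zero]

lemma star_mul (A : R⟦X⟧) (hA : constantCoeff A = 0) : kleeneStar A * (1 - A) = 1 := by
  ext n
  have h1 : coeff n (kleeneStar A * (1 - A)) =
      coeff n ((∑ k ∈ Finset.range (n + 1), A ^ k) * (1 - A)) := by
    rw [coeff_mul, coeff_mul]
    refine Finset.sum_congr rfl fun x hx => ?_
    have hx' := Finset.HasAntidiagonal.mem_antidiagonal.1 hx
    congr 1
    rw [kleeneStar, coeff_mk, map_sum, map_sum]
    apply Finset.sum_subset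
    · intro i hi
      rw [Finset.mem_range] at hi ⊢
      omega
    · intro i hi hi'
      rw [Finset.mem_range] at hi hi'
      exact coeff_pow_zero A hA _ _ (by omega)
  rw [h1, geom_sum_mul_neg, map_sub, coeff_pow_zero A hA _ _ (Nat.lt_succ_self n), sub_zero]

lemma eq_star_mul {B P C' : R⟦X⟧} (hB : constantCoeff B = 0) (h : (1 - B) * P = C') :
    P = kleeneStar B * C' := by
  rw [← h, ← mul_assoc, star_mul B hB, one_mul]

lemma mem_ratSub_of {B P C' : R⟦X⟧} (hB : constantCoeff B = 0) (hBp : IsPoly B) (hC : IsPoly C')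
    (h : (1 - B) * P = C') : P ∈ RatSub R := by
  rw [eq_star_mul hB h]
  apply mul_mem
  · rw [RatSub, Subring.mem_sInf]
    rintro T ⟨hT1, hT2⟩
    exact hT2 _ (hT1 _ hBp) hB
  · rw [RatSub, Subring.mem_sInf]
    rintro T ⟨hT1, hT2⟩
    exact hT1 _ hC

end star

section free

variable (α : Type) [Fintype α] [DecidableEq α]

lemma sph_finite (n : ℕ) : {u : FreeGroup α | u.norm = n}.Finite := by
  have h := (List.finite_length_eq (α × Bool) n)
  apply Set.Finite.of_finite_image (f := FreeGroup.toWord) (h.subset ?_)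
    FreeGroup.toWord_injective.injOn
  rintro _ ⟨u, hu, rfl⟩
  exact hu

/-- the complete growth series of the free group, via the norm -/
noncomputable def PF : (MonoidAlgebra ℤ (FreeGroup α))⟦X⟧ :=
  PowerSeries.mk fun n => ∑ u ∈ (sph_finite α n).toFinset, MonoidAlgebra.single u (1 : ℤ)

variable {α}

def letter (s : α × Bool) : FreeGroup α := FreeGroup.mk [s]

lemma letter_inv (s : α × Bool) : (letter s)⁻¹ = letter (s.1, !s.2) := rfl

lemma norm_letter_mul (s : α × Bool) (g : FreeGroup α) : ((letter s)⁻¹ * g).norm =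
    if g.toWord.head? = some s then g.norm - 1 else g.norm + 1 := by
  rw [letter_inv]
  have h1 : (letter (s.1, !s.2) * g).toWord = FreeGroup.reduce ((s.1, !s.2) :: g.toWord) := by
    conv_lhs => rw [← FreeGroup.mk_toWord (x := g)]
    rw [letter, FreeGroup.mul_mk, FreeGroup.toWord_mk]
    rfl
  rw [FreeGroup.norm, h1, FreeGroup.reduce.cons, FreeGroup.reduce_toWord, FreeGroup.norm]
  cases h : g.toWord with
  | nil => simp
  | cons hd tl =>
    simp only [List.head?_cons, Option.some.injEq]
    by_cases hs : hd = s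
    · subst hs
      simp
    · have h2 : ¬ (s.1 = hd.1 ∧ (!s.2) = !hd.2) := by
        rintro ⟨h3, h4⟩
        apply hs
        have h5 : s.2 = hd.2 := by
          have := congrArg Bool.not h4
          simpa using this
        exact (Prod.ext h3 h5).symm
      rw [if_neg hs]
      show (if s.1 = hd.1 ∧ (!s.2) = !hd.2 then tl else (s.1, !s.2) :: hd :: tl).length = _
      rw [if_neg h2]
      simp

/-- the sum of the generators and their inverses -/
noncomputable def Asum (α : Type) [Fintype α] : MonoidAlgebra ℤ (FreeGroup α) :=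
  ∑ s : α × Bool, MonoidAlgebra.single (letter s) (1 : ℤ)

lemma coeff_finsum' {β G : Type} (s : Finset β) (f : β → MonoidAlgebra ℤ G) (g : G) :
    (∑ b ∈ s, f b).coeff g = ∑ b ∈ s, (f b).coeff g := by
  classical
  induction s using Finset.induction_on with
  | empty => simp
  | insert a s ha ih =>
    rw [Finset.sum_insert ha, Finset.sum_insert ha, ← ih]
    simp

lemma coeff_PF (n : ℕ) (g : FreeGroup α) :
    (PowerSeries.coeff n (PF α)).coeff g = if g.norm = n then 1 else 0 := by
  classical
  rw [PF, PowerSeries.coeff_mk, coeff_finsum']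
  simp only [MonoidAlgebra.coeff_single, Finsupp.single_apply]
  rw [Finset.sum_ite_eq']
  simp

lemma coeff_Asum_mul (x : MonoidAlgebra ℤ (FreeGroup α)) (g : FreeGroup α) :
    (Asum α * x).coeff g = ∑ s : α × Bool, x.coeff ((letter s)⁻¹ * g) := by
  rw [Asum, Finset.sum_mul, coeff_finsum']
  refine Finset.sum_congr rfl fun s _ => ?_
  rw [MonoidAlgebra.coeff_single_mul_apply, one_mul]

lemma count_aux {β : Type} [Fintype β] [DecidableEq β] (L : List β) (n : ℕ) :
    (∑ s : β, if (if L.head? = some s then L.length - 1 else L.length + 1) = n then (1 : ℤ) else 0) =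
      if L = [] then (if n = 1 then (Fintype.card β : ℤ) else 0) else
        (if L.length = n + 1 then 1 else 0) +
          (if L.length + 1 = n then (Fintype.card β : ℤ) - 1 else 0) := by
  cases L with
  | nil =>
    simp only [List.head?_nil, reduceCtorEq, if_false, List.length_nil, zero_add, if_true]
    by_cases hn : n = 1
    · subst hn; simp
    · rw [if_neg hn]
      apply Finset.sum_eq_zero
      intro s _
      rw [if_neg (by omega)]
  | cons hd tl =>
    simp only [List.head?_cons, Option.some.injEq, List.length_cons, reduceCtorEq, if_false]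
    rw [← Finset.add_sum_erase _ _ (Finset.mem_univ hd)]
    simp only [if_true]
    have h1 : ∑ x ∈ Finset.univ.erase hd,
        (if (if hd = x then tl.length + 1 - 1 else tl.length + 1 + 1) = n then (1 : ℤ) else 0) =
        ∑ x ∈ Finset.univ.erase hd, (if tl.length + 1 + 1 = n then (1 : ℤ) else 0) := by
      refine Finset.sum_congr rfl fun x hx => ?_
      rw [if_neg (c := hd = x)]
      intro h
      exact (Finset.ne_of_mem_erase hx) h.symm
    rw [h1, Finset.sum_const, Finset.card_erase_of_mem (Finset.mem_univ _), Finset.card_univ]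
    have h2 : 1 ≤ Fintype.card β := Fintype.card_pos_iff.2 ⟨hd⟩
    have h3 : ((Fintype.card β - 1 : ℕ) : ℤ) = (Fintype.card β : ℤ) - 1 := by
      push_cast [h2]; ring
    rw [nsmul_eq_mul, h3]
    have h4 : (tl.length + 1 - 1 = n) ↔ (tl.length + 1 = n + 1) := by omega
    simp only [h4]
    split_ifs <;> simp

/-- the constant `2r - 1` -/
noncomputable def kap (α : Type) [Fintype α] : MonoidAlgebra ℤ (FreeGroup α) :=
  (((Fintype.card (α × Bool) : ℤ) - 1 : ℤ) : MonoidAlgebra ℤ (FreeGroup α))

lemma kap_mul (x : MonoidAlgebra ℤ (FreeGroup α)) (g : FreeGroup α) :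
    (kap α * x).coeff g = ((Fintype.card (α × Bool) : ℤ) - 1) * x.coeff g := by
  have h1 : kap α * x = ((Fintype.card (α × Bool) : ℤ) - 1) • x := by
    rw [zsmul_eq_mul]; rfl
  rw [h1]
  rfl

lemma one_coeff (g : FreeGroup α) : (1 : MonoidAlgebra ℤ (FreeGroup α)).coeff g =
    if g.toWord = [] then 1 else 0 := by
  classical
  rw [MonoidAlgebra.one_def, MonoidAlgebra.coeff_single, Finsupp.single_apply]
  by_cases h : g = 1
  · simp [h]
  · have h' : ¬ (1 = g) := fun e => h e.symm
    simp [h, h']

lemma PF_rel : (1 - (C (Asum α) * X - C (kap α) * X ^ 2)) * PF α = 1 - X ^ 2 := by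
  classical
  have hcoef : ∀ (n : ℕ) (g : FreeGroup α), (Asum α * coeff n (PF α)).coeff g =
      if g.toWord = [] then (if n = 1 then (Fintype.card (α × Bool) : ℤ) else 0) else
        (if g.toWord.length = n + 1 then 1 else 0) +
          (if g.toWord.length + 1 = n then (Fintype.card (α × Bool) : ℤ) - 1 else 0) := by
    intro n g
    rw [coeff_Asum_mul, ← count_aux g.toWord n]
    refine Finset.sum_congr rfl fun s _ => ?_
    rw [coeff_PF, norm_letter_mul]
    rfl
  have hX2 : ∀ (c : MonoidAlgebra ℤ (FreeGroup α)) (n : ℕ), coeff (n + 2) (C c * X ^ 2 * PF α) =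
      c * coeff n (PF α) := by
    intro c n
    rw [mul_assoc, coeff_C_mul]
    congr 1
    exact coeff_X_pow_mul (PF α) 2 n
  have hX20 : ∀ (c : MonoidAlgebra ℤ (FreeGroup α)) (n : ℕ), n < 2 → coeff n (C c * X ^ 2 * PF α) = 0 := by
    intro c n hn
    rw [mul_assoc, coeff_C_mul, coeff_X_pow_mul', if_neg (by omega), mul_zero]
  rw [sub_sub_eq_add_sub]
  ext n g
  rw [sub_mul, add_mul, one_mul, map_sub, map_add, map_sub]
  match n with
  | 0 =>
    rw [hX20 _ 0 (by norm_num), mul_assoc, coeff_C_mul]
    simp only [add_zero, coeff_zero_X_mul, mul_zero, sub_zero, coeff_one, if_true, coeff_X_pow]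
    rw [coeff_PF]
    simp only [OfNat.zero_ne_ofNat, if_false, sub_zero]
    rw [one_coeff]
    simp [FreeGroup.norm]
  | 1 =>
    rw [hX20 _ 1 (by norm_num), mul_assoc, coeff_C_mul]
    have h1 : coeff 1 ((X : (MonoidAlgebra ℤ (FreeGroup α))⟦X⟧) * PF α) = coeff 0 (PF α) :=
      coeff_succ_X_mul 0 _
    rw [h1]
    simp only [add_zero, coeff_one, coeff_X_pow]
    rw [MonoidAlgebra.coeff_sub, Finsupp.sub_apply, hcoef, coeff_PF]
    simp [FreeGroup.norm]
    by_cases hg : g = 1
    · subst hg; simp
    · rw [if_neg hg]; exact sub_self _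
  | k + 2 =>
    rw [hX2, mul_assoc, coeff_C_mul]
    have h1 : coeff (k + 2) ((X : (MonoidAlgebra ℤ (FreeGroup α))⟦X⟧) * PF α) = coeff (k + 1) (PF α) :=
      coeff_succ_X_mul (k + 1) _
    rw [h1]
    simp only [coeff_one, coeff_X_pow]
    rw [MonoidAlgebra.coeff_sub, Finsupp.sub_apply, hcoef, MonoidAlgebra.coeff_add, Finsupp.add_apply,
      kap_mul, coeff_PF, coeff_PF, if_neg (by omega : ¬ (k + 2 = 0)), zero_sub]
    have h2 : (-(if k + 2 = 2 then (1 : MonoidAlgebra ℤ (FreeGroup α)) else 0)).coeff g =
        - (if k = 0 then (if g.toWord = [] then 1 else 0) else 0) := by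
      by_cases hk : k = 0
      · subst hk
        rw [if_pos rfl, if_pos rfl, ← one_coeff]
        rfl
      · rw [if_neg (by omega), if_neg hk, neg_zero, neg_zero]
        rfl
    rw [h2]
    have h3 : g.norm = g.toWord.length := rfl
    rw [h3]
    by_cases hg : g.toWord = []
    · simp only [hg, List.length_nil, if_true]
      by_cases hk : k = 0
      · subst hk; simp
      · have hk1 : ¬ (0 = k + 2) := by omega
        have hk2 : ¬ (0 = k) := by omega
        have hk3 : ¬ (k + 1 = 1) := by omega
        simp [hk, hk2]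
    · simp only [hg, if_false]
      have hpos : 0 < g.toWord.length := List.length_pos_iff.2 hg
      have e1 : (g.toWord.length = k + 1 + 1) ↔ (g.toWord.length = k + 2) := by omega
      have e2 : (g.toWord.length + 1 = k + 1) ↔ (g.toWord.length = k) := by omega
      simp only [e1, e2, ite_self]
      split_ifs <;> ring

end free

end PoolH322CG
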