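import Pool.Agent.H322R3.CGDefs

set_option linter.unusedSectionVars false

namespace PoolH322CG

open PowerSeries

/-- free generators of the first factor -/
inductive Let | d | b | e | p | y (c : Bool)
  deriving DecidableEq, Fintype

/-- names of the ten elements of the face monoid -/
inductive Gen | xA | xB | yA | yB | aP | bP | aY (c : Bool) | bY (c : Bool)
  deriving DecidableEq, Fintype

/-- the group -/
abbrev GG := FreeGroup Let × FreeGroup Bool

/-- first coordinates -/
def U : Gen → List Let
  | .xA => [.d, .b] | .xB => [.d] | .yA => [.e] | .yB => [.b, .e]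
  | .aP => [.p, .b] | .bP => [.b, .p] | .aY c => [.y c, .b] | .bY c => [.b, .y c]

/-- second coordinates -/
def V : Gen → List Bool
  | .xA => [] | .xB => [true] | .yA => [true] | .yB => []
  | .aP => [false] | .bP => [] | .aY c => [c] | .bY c => [false, c]

/-- positive word in the free group -/
def pw {α : Type} (l : List α) : FreeGroup α := (l.map FreeGroup.of).prod

lemma pw_nil {α : Type} : pw ([] : List α) = 1 := rfl

lemma pw_cons {α : Type} (x : α) (l : List α) : pw (x :: l) = FreeGroup.of x * pw l := by
  simp [pw]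

lemma pw_append {α : Type} (l l' : List α) : pw (l ++ l') = pw l * pw l' := by
  simp [pw]

lemma pw_eq_mk {α : Type} (l : List α) : pw l = FreeGroup.mk (l.map fun x => (x, true)) := by
  induction l with
  | nil => rfl
  | cons x l ih =>
    rw [pw_cons, ih]
    rfl

lemma pw_injective {α : Type} [DecidableEq α] : Function.Injective (pw : List α → FreeGroup α) := by
  intro l l' h
  rw [pw_eq_mk, pw_eq_mk] at h
  have hr : ∀ l : List α, FreeGroup.reduce (l.map fun x => (x, true)) = l.map fun x => (x, true) := by
    intro l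
    rw [← FreeGroup.isReduced_iff_reduce_eq]
    induction l with
    | nil => exact FreeGroup.IsReduced.nil
    | cons x l ih =>
      cases l with
      | nil => exact FreeGroup.IsReduced.singleton
      | cons z l =>
        simp only [List.map_cons] at ih ⊢
        rw [FreeGroup.IsReduced] at ih ⊢
        rw [List.isChain_cons_cons]
        exact ⟨fun _ => rfl, ih⟩
  have h2 := congrArg FreeGroup.toWord h
  rw [FreeGroup.toWord_mk, FreeGroup.toWord_mk, hr, hr] at h2
  have hinj : Function.Injective (fun x : α => (x, true)) := fun a b hab => by simpa using hab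
  exact List.map_injective_iff.2 hinj h2

/-- the ten elements -/
def genEl (g : Gen) : GG := (pw (U g), pw (V g))

lemma prod_genEl (γ : List Gen) : (γ.map genEl).prod = (pw (γ.flatMap U), pw (γ.flatMap V)) := by
  induction γ with
  | nil => rfl
  | cons g γ ih =>
    rw [List.map_cons, List.prod_cons, ih, List.flatMap_cons, List.flatMap_cons, pw_append, pw_append]
    rfl

/-- the homomorphism to `ℤ` -/
def chi : FreeGroup Let →* Multiplicative ℤ :=
  FreeGroup.lift fun x => Multiplicative.ofAdd (if x = Let.b then 0 else 1)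

/-- additive version -/
def ch (g : GG) : ℤ := Multiplicative.toAdd (chi g.1)

lemma ch_mul (g h : GG) : ch (g * h) = ch g + ch h := by
  simp [ch]

lemma ch_one : ch 1 = 0 := by simp [ch]

lemma ch_inv (g : GG) : ch g⁻¹ = - ch g := by
  simp [ch]

lemma ch_genEl (g : Gen) : ch (genEl g) = 1 := by
  cases g <;> simp [ch, genEl, U, pw, chi]

lemma ch_prod (γ : List Gen) : ch (γ.map genEl).prod = γ.length := by
  induction γ with
  | nil => simp [ch_one]
  | cons g γ ih =>
    rw [List.map_cons, List.prod_cons, ch_mul, ch_genEl, ih]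
    push_cast [List.length_cons]
    ring

/-- the second generating set -/
def S2 : Finset GG :=
  (Finset.univ.image genEl) ∪ {((FreeGroup.of Let.b, 1) : GG), (1, FreeGroup.of true), (1, FreeGroup.of false)}

/-- a finite automaton -/
def step : Fin 7 → Let → Option (Fin 7)
  | 0, .d => some 1
  | 1, .b => some 2
  | 2, .y _ => some 3
  | 2, .p => some 4
  | 2, .e => some 6
  | 3, .b => some 2
  | 4, .b => some 5
  | 5, .p => some 4
  | 5, .e => some 6
  | _, _ => none

/-- runs of the automaton -/
def run : Fin 7 → List Let → Option (Fin 7)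
  | i, [] => some i
  | i, x :: l => (step i x).bind fun j => run j l

lemma step_step : ∀ (i : Fin 7) (x : Let) (k : Fin 7), step i x = some k → step k x = none := by
  decide

/-- transition matrices -/
def N (x : Let) : Matrix (Fin 7) (Fin 7) ℚ := Matrix.of fun i j => if step i x = some j then 1 else 0

lemma N_sq (x : Let) : N x * N x = 0 := by
  ext i j
  rw [Matrix.mul_apply, Matrix.zero_apply]
  apply Finset.sum_eq_zero
  intro k _
  simp only [N, Matrix.of_apply]
  by_cases h : step i x = some k
  · rw [step_step i x k h]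
    simp
  · simp [h]

lemma N_prod (l : List Let) (i j : Fin 7) :
    (l.map N).prod i j = if run i l = some j then 1 else 0 := by
  induction l generalizing i with
  | nil =>
    simp [run, Matrix.one_apply]
  | cons x l ih =>
    rw [List.map_cons, List.prod_cons, Matrix.mul_apply]
    simp only [ih, N, Matrix.of_apply, run]
    obtain ⟨o, ho⟩ : ∃ o, step i x = o := ⟨_, rfl⟩
    simp only [ho]
    cases o with
    | none => simp
    | some k =>
      simp only [Option.bind_some]
      rw [Finset.sum_eq_single k]
      · simp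
      · intro k' _ hk'
        have : ¬ (some k = some k') := by
          intro h; exact hk' (Option.some.inj h).symm
        simp [this]
      · simp

abbrev OO := Polynomial ℚ
abbrev KK := FractionRing (Polynomial ℚ)

/-- deformed transition matrices -/
noncomputable def NC (x : Let) : Matrix (Fin 7) (Fin 7) OO := (N x).map Polynomial.C

noncomputable def Rm (x : Let) : Matrix (Fin 7) (Fin 7) OO := (Polynomial.X : OO) • 1 + NC x

noncomputable def Rm' (x : Let) : Matrix (Fin 7) (Fin 7) OO :=
  (Polynomial.X : OO) • ((Polynomial.X : OO) • 1 - NC x)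

lemma NC_sq (x : Let) : NC x * NC x = 0 := by
  have h := congrArg (fun M => (Polynomial.C : ℚ →+* OO).mapMatrix M) (N_sq x)
  simp only [map_mul, map_zero] at h
  exact h

lemma Rm_mul (x : Let) : Rm x * Rm' x = (Polynomial.X ^ 3 : OO) • 1 := by
  have h := NC_sq x
  rw [Rm, Rm', mul_smul_comm, mul_sub, add_mul, add_mul, h, smul_mul_smul_comm]
  simp only [one_mul, mul_one, smul_mul_assoc, mul_smul_comm, add_zero]
  rw [smul_sub, smul_add, smul_smul, smul_smul]
  have : (Polynomial.X : OO) * (Polynomial.X * Polynomial.X) = Polynomial.X ^ 3 := by ring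
  rw [this]
  abel

lemma Rm'_mul (x : Let) : Rm' x * Rm x = (Polynomial.X ^ 3 : OO) • 1 := by
  have h := NC_sq x
  rw [Rm, Rm', smul_mul_assoc, sub_mul, mul_add, mul_add, h, smul_mul_smul_comm]
  simp only [one_mul, mul_one, smul_mul_assoc, mul_smul_comm, add_zero]
  rw [smul_sub, smul_add, smul_smul, smul_smul]
  have : (Polynomial.X : OO) * (Polynomial.X * Polynomial.X) = Polynomial.X ^ 3 := by ring
  rw [this]
  abel

/-- evaluation at `s = 0` -/
noncomputable abbrev ev0 : OO →+* ℚ := Polynomial.evalRingHom 0

lemma Rm_ev0 (x : Let) : ev0.mapMatrix (Rm x) = N x := by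
  ext i j
  simp only [Rm, NC, ev0, RingHom.mapMatrix_apply, Matrix.map_apply, Matrix.add_apply,
    Matrix.smul_apply, Matrix.one_apply, map_add]
  split_ifs <;> simp

lemma Rm'_ev0 (x : Let) : ev0.mapMatrix (Rm' x) = 0 := by
  ext i j
  simp [Rm', ev0]

/-- extension of scalars -/
noncomputable abbrev ιM : Matrix (Fin 7) (Fin 7) OO →+* Matrix (Fin 7) (Fin 7) KK :=
  (algebraMap OO KK).mapMatrix

noncomputable def δ : KK := algebraMap OO KK (Polynomial.X ^ 3)

lemma δ_ne : δ ≠ 0 := by
  rw [δ, Ne, map_eq_zero_iff _ (IsFractionRing.injective OO KK)]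
  exact pow_ne_zero _ Polynomial.X_ne_zero

lemma ιM_smul (a : OO) (M : Matrix (Fin 7) (Fin 7) OO) : ιM (a • M) = (algebraMap OO KK a) • ιM M := by
  ext i j
  simp

/-- the invertible matrix attached to a letter -/
noncomputable def unitOf (x : Let) : (Matrix (Fin 7) (Fin 7) KK)ˣ :=
  if x = Let.b then
    { val := ιM (Rm x)
      inv := δ⁻¹ • ιM (Rm' x)
      val_inv := by
        rw [mul_smul_comm, ← map_mul, Rm_mul, ιM_smul, map_one, smul_smul]
        change (δ⁻¹ * δ) • _ = _
        rw [inv_mul_cancel₀ δ_ne, one_smul]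
      inv_val := by
        rw [smul_mul_assoc, ← map_mul, Rm'_mul, ιM_smul, map_one, smul_smul]
        change (δ⁻¹ * δ) • _ = _
        rw [inv_mul_cancel₀ δ_ne, one_smul] }
  else
    { val := δ⁻¹ • ιM (Rm x)
      inv := ιM (Rm' x)
      val_inv := by
        rw [smul_mul_assoc, ← map_mul, Rm_mul, ιM_smul, map_one, smul_smul]
        change (δ⁻¹ * δ) • _ = _
        rw [inv_mul_cancel₀ δ_ne, one_smul]
      inv_val := by
        rw [mul_smul_comm, ← map_mul, Rm'_mul, ιM_smul, map_one, smul_smul]
        change (δ⁻¹ * δ) • _ = _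
        rw [inv_mul_cancel₀ δ_ne, one_smul] }

noncomputable def rho : FreeGroup Let →* Matrix (Fin 7) (Fin 7) KK :=
  (Units.coeHom _).comp (FreeGroup.lift unitOf)

noncomputable def Phi : GG →* Matrix (Fin 7) (Fin 7) KK := rho.comp (MonoidHom.fst _ _)

lemma rho_b : rho (FreeGroup.of Let.b) = ιM (Rm Let.b) := by
  simp [rho, unitOf]

lemma rho_x {x : Let} (hx : x ≠ Let.b) : δ • rho (FreeGroup.of x) = ιM (Rm x) := by
  have : rho (FreeGroup.of x) = δ⁻¹ • ιM (Rm x) := by
    simp [rho, unitOf, hx]
  rw [this, smul_smul, mul_inv_cancel₀ δ_ne, one_smul]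

lemma rho_b_inv : δ • rho (FreeGroup.of Let.b)⁻¹ = ιM (Rm' Let.b) := by
  have : rho (FreeGroup.of Let.b)⁻¹ = δ⁻¹ • ιM (Rm' Let.b) := by
    simp [rho, unitOf]
  rw [this, smul_smul, mul_inv_cancel₀ δ_ne, one_smul]

lemma rho_x_inv {x : Let} (hx : x ≠ Let.b) : rho (FreeGroup.of x)⁻¹ = ιM (Rm' x) := by
  simp [rho, unitOf, hx]

end PoolH322CG
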