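import Pool.Agent.H322R3.CGAlg2

set_option linter.unusedSectionVars false

namespace PoolH322CG

open PowerSeries Finset

/-- the relation sum -/
noncomputable def relSum {R : Type} [CommRing R] (N : ℕ) (p : ℕ → ℕ → R) (f : R⟦X⟧) : R⟦X⟧ :=
  ∑ i ∈ Finset.range N, ∑ j ∈ Finset.range N,
      PowerSeries.C (p i j) * (PowerSeries.X : R⟦X⟧) ^ j * f ^ i

lemma relSum_map {R S : Type} [CommRing R] [CommRing S] (φ : R →+* S) (N : ℕ) (p : ℕ → ℕ → R)
    (f : R⟦X⟧) : PowerSeries.map φ (relSum N p f) =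
      relSum N (fun i j => φ (p i j)) (PowerSeries.map φ f) := by
  unfold relSum
  simp only [map_sum, map_mul, map_pow, PowerSeries.map_C, PowerSeries.map_X]

lemma relSum_smul {R : Type} [CommRing R] (N : ℕ) (p q : ℕ → ℕ → R) (c : R)
    (f : R⟦X⟧) (h : ∀ i < N, ∀ j < N, q i j = c * p i j) :
    relSum N q f = PowerSeries.C c * relSum N p f := by
  unfold relSum
  rw [Finset.mul_sum]
  refine Finset.sum_congr rfl fun i hi => ?_
  rw [Finset.mul_sum]
  refine Finset.sum_congr rfl fun j hj => ?_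
  rw [h i (Finset.mem_range.1 hi) j (Finset.mem_range.1 hj), map_mul]
  ring

lemma descend (f : (Polynomial ℚ)⟦X⟧) (N i0 j0 : ℕ) (hi : i0 < N) (hj : j0 < N) :
    ∀ n : ℕ, ∀ q : ℕ → ℕ → Polynomial ℚ, (q i0 j0).natDegree ≤ n → q i0 j0 ≠ 0 →
      relSum N q f = 0 →
      ∃ q' : ℕ → ℕ → Polynomial ℚ, (∃ i < N, ∃ j < N, (q' i j).eval 0 ≠ 0) ∧
        relSum N q' f = 0 := by
  intro n
  induction n with
  | zero =>
    intro q hq hne hrel
    refine ⟨q, ⟨i0, hi, j0, hj, ?_⟩, hrel⟩
    rw [Polynomial.eq_C_of_natDegree_le_zero hq] at hne ⊢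
    rw [Polynomial.eval_C]
    intro h
    rw [h] at hne
    simp at hne
  | succ n ih =>
    intro q hq hne hrel
    by_cases hex : ∃ i < N, ∃ j < N, (q i j).eval 0 ≠ 0
    · exact ⟨q, hex, hrel⟩
    push Not at hex
    have hdiv : ∀ i < N, ∀ j < N, q i j = Polynomial.X * (q i j).divX := by
      intro i hi j hj
      have h1 := Polynomial.divX_mul_X_add (q i j)
      have h2 : (q i j).coeff 0 = 0 := by
        rw [Polynomial.coeff_zero_eq_eval_zero]; exact hex i hi j hj
      rw [h2, map_zero, add_zero] at h1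
      rw [mul_comm, h1]
    have h0 := hdiv i0 hi j0 hj
    apply ih (fun i j => (q i j).divX)
    · show (q i0 j0).divX.natDegree ≤ n
      rw [Polynomial.natDegree_divX_eq_natDegree_tsub_one]
      omega
    · show (q i0 j0).divX ≠ 0
      intro h
      rw [h, mul_zero] at h0
      exact hne h0
    · have h1 := relSum_smul N (fun i j => (q i j).divX) q Polynomial.X f hdiv
      rw [hrel] at h1
      rcases mul_eq_zero.1 h1.symm with h | h
      · exfalso
        have : (Polynomial.X : Polynomial ℚ) = 0 := by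
          have h2 := congrArg (PowerSeries.coeff 0) h
          simpa using h2
        exact Polynomial.X_ne_zero this
      · exact h

lemma algRel_iff {R : Type} [CommRing R] (f : R⟦X⟧) : AlgRel f ↔
    ∃ (N : ℕ) (p : ℕ → ℕ → R), (∃ i < N, ∃ j < N, p i j ≠ 0) ∧ relSum N p f = 0 := Iff.rfl

theorem algRel_specialize (f : (Polynomial ℚ)⟦X⟧)
    (h : AlgRel (PowerSeries.map (algebraMap (Polynomial ℚ) (FractionRing (Polynomial ℚ))) f)) :
    AlgRel (PowerSeries.map (Polynomial.evalRingHom (0 : ℚ)) f) := by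
  classical
  obtain ⟨N, p, ⟨i0, hi0, j0, hj0, hne⟩, hrel⟩ := h
  change relSum N p _ = 0 at hrel
  obtain ⟨b, hb⟩ := IsLocalization.exist_integer_multiples_of_finset
    (nonZeroDivisors (Polynomial ℚ))
    (((Finset.range N) ×ˢ (Finset.range N)).image fun x => p x.1 x.2)
  have hq : ∀ i j, ∃ q : Polynomial ℚ, i < N → j < N →
      algebraMap (Polynomial ℚ) (FractionRing (Polynomial ℚ)) q =
        algebraMap (Polynomial ℚ) (FractionRing (Polynomial ℚ)) b * p i j := by
    intro i j
    by_cases hij : i < N ∧ j < N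
    · obtain ⟨q, hq⟩ := hb (p i j) (Finset.mem_image.2 ⟨(i, j), by simp [hij.1, hij.2], rfl⟩)
      refine ⟨q, fun _ _ => ?_⟩
      rw [hq, Algebra.smul_def]
    · exact ⟨0, fun h1 h2 => absurd ⟨h1, h2⟩ hij⟩
  choose q hq using hq
  have hinj : Function.Injective (algebraMap (Polynomial ℚ) (FractionRing (Polynomial ℚ))) :=
    IsFractionRing.injective _ _
  have hb0 : algebraMap (Polynomial ℚ) (FractionRing (Polynomial ℚ)) b ≠ 0 := by
    intro h
    have : (b : Polynomial ℚ) = 0 := by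
      apply hinj
      rw [h, map_zero]
    exact nonZeroDivisors.coe_ne_zero b this
  have hrelq : relSum N q f = 0 := by
    apply PowerSeries.map_injective _ hinj
    rw [relSum_map, map_zero, relSum_smul N p _ _ _ (fun i hi j hj => hq i j hi hj), hrel, mul_zero]
  have hq0 : q i0 j0 ≠ 0 := by
    intro h
    have h1 := hq i0 j0 hi0 hj0
    rw [h, map_zero] at h1
    rcases mul_eq_zero.1 h1.symm with h | h
    · exact hb0 h
    · exact hne h
  obtain ⟨q', ⟨i, hi, j, hj, hne'⟩, hrel'⟩ := descend f N i0 j0 hi0 hj0 _ q le_rfl hq0 hrelq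
  refine ⟨N, fun i j => (q' i j).eval 0, ⟨i, hi, j, hj, hne'⟩, ?_⟩
  have h2 := relSum_map (Polynomial.evalRingHom (0 : ℚ)) N q' f
  rw [hrel', map_zero] at h2
  exact h2.symm

end PoolH322CG
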