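import Pool.Agent.H322R3.CGRep

set_option linter.unusedSectionVars false

namespace PoolH322CG

open PowerSeries

lemma ιM_X3 (M : Matrix (Fin 7) (Fin 7) OO) : ιM ((Polynomial.X ^ 3 : OO) • M) = δ • ιM M := by
  rw [ιM_smul]; rfl

lemma ev0_X3 (M : Matrix (Fin 7) (Fin 7) OO) : ev0.mapMatrix ((Polynomial.X ^ 3 : OO) • M) = 0 := by
  ext i j
  simp [ev0]

/-- the statement about one element: either it is one of the ten elements, or its matrix
vanishes at `s = 0` -/
def Good (n : ℕ) (x : GG) (T : Matrix (Fin 7) (Fin 7) OO) : Prop :=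
  ιM T = δ ^ n • Phi x ∧
    ((∃ γ : List Gen, γ.length = n ∧ x = (γ.map genEl).prod ∧
      ev0.mapMatrix T = ((γ.flatMap U).map N).prod) ∨ (ev0.mapMatrix T = 0 ∧ ch x < n))

lemma good_one : Good 0 1 1 := by
  refine ⟨by simp, Or.inl ⟨[], rfl, rfl, by simp⟩⟩

lemma good_genEl (g : Gen) : Good 1 (genEl g) ((U g).map Rm).prod := by
  refine ⟨?_, Or.inl ⟨[g], rfl, by simp, ?_⟩⟩
  · rw [pow_one]
    cases g
    all_goals simp only [U, genEl, Phi, pw, List.map_cons, List.map_nil, List.prod_cons,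
      List.prod_nil, mul_one, MonoidHom.coe_comp, Function.comp_apply, MonoidHom.coe_fst, map_mul]
    · rw [rho_b, ← rho_x (x := Let.d) (by simp), smul_mul_assoc]
    · rw [← rho_x (x := Let.d) (by simp)]
    · rw [← rho_x (x := Let.e) (by simp)]
    · rw [rho_b, ← rho_x (x := Let.e) (by simp), mul_smul_comm]
    · rw [rho_b, ← rho_x (x := Let.p) (by simp), smul_mul_assoc]
    · rw [rho_b, ← rho_x (x := Let.p) (by simp), mul_smul_comm]
    · rename_i c
      rw [rho_b, ← rho_x (x := Let.y c) (by simp), smul_mul_assoc]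
    · rename_i c
      rw [rho_b, ← rho_x (x := Let.y c) (by simp), mul_smul_comm]
  · rw [map_list_prod, List.map_map]
    have : (⇑(ev0.mapMatrix) ∘ Rm) = N := by
      funext x
      exact Rm_ev0 x
    rw [this]
    simp

lemma good_inv_genEl (g : Gen) : ∃ T, Good 1 (genEl g)⁻¹ T := by
  have hch : ch (genEl g)⁻¹ < (1 : ℕ) := by
    rw [ch_inv, ch_genEl]; norm_num
  have one : ∀ x : Let, x ≠ Let.b → ∀ v : FreeGroup Bool, genEl g = (FreeGroup.of x, v) →
      ∃ T, Good 1 (genEl g)⁻¹ T := by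
    intro x hx v hg
    refine ⟨(Polynomial.X ^ 3 : OO) • Rm' x, ?_, Or.inr ⟨ev0_X3 _, hch⟩⟩
    rw [ιM_X3, pow_one, ← rho_x_inv hx, hg]
    rfl
  have two1 : ∀ x : Let, x ≠ Let.b → ∀ v : FreeGroup Bool,
      genEl g = (FreeGroup.of x * FreeGroup.of Let.b, v) → ∃ T, Good 1 (genEl g)⁻¹ T := by
    intro x hx v hg
    refine ⟨Rm' Let.b * Rm' x, ?_, Or.inr ⟨by rw [map_mul, Rm'_ev0, zero_mul], hch⟩⟩
    rw [map_mul, pow_one, ← rho_x_inv hx, ← rho_b_inv, hg, smul_mul_assoc, ← map_mul, ← mul_inv_rev]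
    rfl
  have two2 : ∀ x : Let, x ≠ Let.b → ∀ v : FreeGroup Bool,
      genEl g = (FreeGroup.of Let.b * FreeGroup.of x, v) → ∃ T, Good 1 (genEl g)⁻¹ T := by
    intro x hx v hg
    refine ⟨Rm' x * Rm' Let.b, ?_, Or.inr ⟨by rw [map_mul, Rm'_ev0, zero_mul], hch⟩⟩
    rw [map_mul, pow_one, ← rho_x_inv hx, ← rho_b_inv, hg, mul_smul_comm, ← map_mul, ← mul_inv_rev]
    rfl
  cases g with
  | xA => exact two1 Let.d (by simp) _ (by simp [genEl, U, pw]; rfl)
  | xB => exact one Let.d (by simp) _ (by simp [genEl, U, pw]; rfl)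
  | yA => exact one Let.e (by simp) _ (by simp [genEl, U, pw]; rfl)
  | yB => exact two2 Let.e (by simp) _ (by simp [genEl, U, pw]; rfl)
  | aP => exact two1 Let.p (by simp) _ (by simp [genEl, U, pw]; rfl)
  | bP => exact two2 Let.p (by simp) _ (by simp [genEl, U, pw]; rfl)
  | aY c => exact two1 (Let.y c) (by simp) _ (by simp [genEl, U, pw]; rfl)
  | bY c => exact two2 (Let.y c) (by simp) _ (by simp [genEl, U, pw]; rfl)

lemma good_small (x : GG) (hx : x.1 = 1 ∨ x.1 = FreeGroup.of Let.b ∨ x.1 = (FreeGroup.of Let.b)⁻¹) :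
    ∃ T, Good 1 x T := by
  have hch : ch x < (1 : ℕ) := by
    rcases hx with h | h | h <;> simp [ch, h, chi]
  rcases hx with h | h | h
  · refine ⟨(Polynomial.X ^ 3 : OO) • 1, ?_, Or.inr ⟨ev0_X3 _, hch⟩⟩
    rw [ιM_X3, pow_one, map_one]
    show _ = δ • rho x.1
    rw [h, map_one]
  · refine ⟨(Polynomial.X ^ 3 : OO) • Rm Let.b, ?_, Or.inr ⟨ev0_X3 _, hch⟩⟩
    rw [ιM_X3, pow_one, ← rho_b]
    show _ = δ • rho x.1
    rw [h]
  · refine ⟨Rm' Let.b, ?_, Or.inr ⟨Rm'_ev0 _, hch⟩⟩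
    rw [pow_one, ← rho_b_inv]
    show _ = δ • rho x.1
    rw [h]

lemma good_el (x : GG) (hx : x ∈ S2 ∨ x⁻¹ ∈ S2) : ∃ T, Good 1 x T := by
  have key : ∀ z : GG, z ∈ S2 → (∃ g, z = genEl g) ∨ z.1 = 1 ∨ z.1 = FreeGroup.of Let.b := by
    intro z hz
    rw [S2, Finset.mem_union] at hz
    rcases hz with hz | hz
    · rw [Finset.mem_image] at hz
      obtain ⟨g, -, rfl⟩ := hz
      exact Or.inl ⟨g, rfl⟩
    · simp only [Finset.mem_insert, Finset.mem_singleton] at hz
      rcases hz with rfl | rfl | rfl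
      · right; right; rfl
      · right; left; rfl
      · right; left; rfl
  rcases hx with hx | hx
  · rcases key x hx with ⟨g, rfl⟩ | h | h
    · exact ⟨_, good_genEl g⟩
    · exact good_small x (Or.inl h)
    · exact good_small x (Or.inr (Or.inl h))
  · rcases key _ hx with ⟨g, hg⟩ | h | h
    · have : x = (genEl g)⁻¹ := by rw [← hg, inv_inv]
      rw [this]
      exact good_inv_genEl g
    · apply good_small x
      left
      have h' : (x.1)⁻¹ = 1 := h
      exact inv_eq_one.1 h'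
    · apply good_small x
      right; right
      have h' : (x.1)⁻¹ = FreeGroup.of Let.b := h
      rw [← h', inv_inv]

lemma good_mul {x g : GG} {n : ℕ} {T1 T2 : Matrix (Fin 7) (Fin 7) OO} (h1 : Good 1 x T1)
    (h2 : Good n g T2) : Good (n + 1) (x * g) (T1 * T2) := by
  obtain ⟨e1, c1⟩ := h1
  obtain ⟨e2, c2⟩ := h2
  refine ⟨?_, ?_⟩
  · rw [map_mul, e1, e2, smul_mul_smul_comm, map_mul]
    congr 1
    ring
  · rcases c1 with ⟨γ1, hl1, hx1, ht1⟩ | ⟨ht1, hc1⟩
    · rcases c2 with ⟨γ2, hl2, hx2, ht2⟩ | ⟨ht2, hc2⟩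
      · left
        refine ⟨γ1 ++ γ2, by rw [List.length_append, hl1, hl2]; ring, ?_, ?_⟩
        · rw [List.map_append, List.prod_append, ← hx1, ← hx2]
        · rw [List.flatMap_append, List.map_append, List.prod_append, map_mul, ht1, ht2]
      · right
        refine ⟨by rw [map_mul, ht2, mul_zero], ?_⟩
        rw [ch_mul, hx1, ch_prod, hl1]
        push_cast
        linarith
    · right
      refine ⟨by rw [map_mul, ht1, zero_mul], ?_⟩
      have hc2 : ch g ≤ n := by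
        rcases c2 with ⟨γ2, hl2, hx2, ht2⟩ | ⟨ht2, hc2⟩
        · rw [hx2, ch_prod, hl2]
        · exact hc2.le
      rw [ch_mul]
      push_cast at hc1 ⊢
      linarith

lemma good_prod {n : ℕ} {g : GG} (h : IsProd S2 n g) : ∃ T, Good n g T := by
  obtain ⟨l, hl, hS, rfl⟩ := h
  induction l generalizing n with
  | nil =>
    simp only [List.length_nil] at hl
    subst hl
    exact ⟨1, good_one⟩
  | cons x l ih =>
    obtain ⟨T2, hT2⟩ := ih (n := l.length) rfl (fun y hy => hS y (by simp [hy]))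
    obtain ⟨T1, hT1⟩ := good_el x (hS x (by simp))
    refine ⟨T1 * T2, ?_⟩
    rw [List.prod_cons, ← hl, List.length_cons]
    exact good_mul hT1 hT2

lemma ch_le {n : ℕ} {g : GG} (h : IsProd S2 n g) : ch g ≤ n := by
  obtain ⟨T, -, hT⟩ := good_prod h
  rcases hT with ⟨γ, hl, hx, -⟩ | ⟨-, hc⟩
  · rw [hx, ch_prod, hl]
  · exact hc.le

/-- the matrix attached to `(n, g)` -/
noncomputable def TT (n : ℕ) (g : GG) : Matrix (Fin 7) (Fin 7) OO :=
  open Classical in if h : IsProd S2 n g then (good_prod h).choose else 0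

lemma TT_spec {n : ℕ} {g : GG} (h : IsProd S2 n g) : Good n g (TT n g) := by
  rw [TT, dif_pos h]
  exact (good_prod h).choose_spec

/-- the accepted elements -/
def Acc (n : ℕ) (g : GG) : Prop :=
  ∃ γ : List Gen, γ.length = n ∧ (γ.map genEl).prod = g ∧ run 0 (γ.flatMap U) = some 6

open Classical in
lemma TT_ev0 {n : ℕ} {g : GG} (h : IsProd S2 n g) :
    ev0 (TT n g 0 6) = if Acc n g then 1 else 0 := by
  obtain ⟨-, hT⟩ := TT_spec h
  have h0 : ev0 (TT n g 0 6) = (ev0.mapMatrix (TT n g)) 0 6 := rfl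
  rcases hT with ⟨γ, hl, hx, ht⟩ | ⟨ht, hc⟩
  · rw [h0, ht, N_prod]
    by_cases hr : run 0 (γ.flatMap U) = some 6
    · rw [if_pos hr, if_pos ⟨γ, hl, hx.symm, hr⟩]
    · rw [if_neg hr, if_neg]
      rintro ⟨γ', hl', hx', hr'⟩
      rw [hx, prod_genEl, prod_genEl] at hx'
      have := pw_injective (Prod.mk.inj hx').1
      rw [this] at hr'
      exact hr hr'
  · rw [h0, ht, if_neg]
    · rfl
    · rintro ⟨γ', hl', hx', hr'⟩
      rw [← hx', ch_prod, hl'] at hc
      exact lt_irrefl _ hc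

lemma acc_sphere {n : ℕ} {g : GG} (h : Acc n g) : g ∈ sphere S2 n := by
  obtain ⟨γ, hl, hx, -⟩ := h
  refine ⟨⟨γ.map genEl, by simpa using hl, ?_, hx⟩, ?_⟩
  · intro x hx
    rw [List.mem_map] at hx
    obtain ⟨g, -, rfl⟩ := hx
    left
    rw [S2, Finset.mem_union]
    left
    exact Finset.mem_image_of_mem _ (Finset.mem_univ _)
  · intro k hk hcon
    have h1 := ch_le hcon
    rw [← hx, ch_prod, hl] at h1
    omega

/-- the series over `ℚ[s]` -/
noncomputable def FO : OO⟦X⟧ :=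
  PowerSeries.mk fun n => ∑ g ∈ (sphere_finite S2 n).toFinset, TT n g 0 6

/-- the group ring representation -/
noncomputable def PhiHat : MonoidAlgebra ℤ GG →+* Matrix (Fin 7) (Fin 7) KK :=
  (MonoidAlgebra.lift ℤ (Matrix (Fin 7) (Fin 7) KK) GG Phi).toRingHom

lemma PhiHat_of (g : GG) : PhiHat (MonoidAlgebra.of ℤ GG g) = Phi g := by
  have h : PhiHat (MonoidAlgebra.of ℤ GG g) =
    MonoidAlgebra.lift ℤ (Matrix (Fin 7) (Fin 7) KK) GG Phi (MonoidAlgebra.of ℤ GG g) := rfl
  rw [h, MonoidAlgebra.lift_of]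

lemma Psi_CG : Psi PhiHat δ (CG S2) 0 6 = PowerSeries.map (algebraMap OO KK) FO := by
  ext n
  rw [Psi_coeff, coeff_CG, PowerSeries.coeff_map, FO, PowerSeries.coeff_mk, map_sum, map_sum,
    Matrix.sum_apply, Finset.mul_sum]
  refine Finset.sum_congr rfl fun g hg => ?_
  rw [PhiHat_of]
  have hg' : g ∈ sphere S2 n := by simpa using hg
  have h1 := congrFun (congrFun (TT_spec hg'.1).1 0) 6
  have h2 : (δ ^ n • Phi g) 0 6 = δ ^ n * (Phi g) 0 6 := rfl
  rw [h2] at h1
  exact h1.symm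

open Classical in
lemma acc_finite (n : ℕ) : {g | Acc n g}.Finite :=
  (sphere_finite S2 n).subset fun _ h => acc_sphere h

theorem algRel_F0 (h : IsAlg (CG S2)) :
    AlgRel (PowerSeries.mk fun n => (({g | Acc n g}.ncard : ℕ) : ℚ)) := by
  classical
  have h1 := alg_of_isAlg PhiHat δ (CG S2) h 0 6
  rw [Psi_CG] at h1
  have h2 := algRel_specialize FO h1
  have h3 : PowerSeries.map (Polynomial.evalRingHom (0 : ℚ)) FO =
      PowerSeries.mk fun n => (({g | Acc n g}.ncard : ℕ) : ℚ) := by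
    ext n
    rw [PowerSeries.coeff_map, PowerSeries.coeff_mk, FO, PowerSeries.coeff_mk, map_sum]
    have h4 : ∑ g ∈ (sphere_finite S2 n).toFinset, (Polynomial.evalRingHom (0 : ℚ)) (TT n g 0 6) =
        ∑ g ∈ (sphere_finite S2 n).toFinset, if Acc n g then (1 : ℚ) else 0 := by
      refine Finset.sum_congr rfl fun g hg => ?_
      have hg' : g ∈ sphere S2 n := by simpa using hg
      exact TT_ev0 hg'.1
    rw [h4, Finset.sum_boole]
    congr 1
    rw [Set.ncard_eq_toFinset_card _ (acc_finite n)]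
    congr 1
    ext g
    simp only [Finset.mem_filter, Set.Finite.mem_toFinset]
    constructor
    · rintro ⟨-, h⟩; exact h
    · intro h; exact ⟨acc_sphere h, h⟩
  rw [h3] at h2
  exact h2

end PoolH322CG
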