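import Mathlib

set_option autoImplicit false

/-!
Word-hyperbolic groups, their Gromov boundaries and convergence actions.
-/

namespace Pool.Agent.H322R3.Hyp

open Filter Topology

variable {Γ : Type*} [Group Γ]

/-- Word length of `g` with respect to `S` (length of a shortest word in `S ∪ S⁻¹`). -/
noncomputable def wlen (S : Set Γ) (g : Γ) : ℕ :=
  sInf {n | ∃ l : List Γ, l.length = n ∧ (∀ x ∈ l, x ∈ S ∨ x⁻¹ ∈ S) ∧ l.prod = g}

/-- Word metric. -/
noncomputable def wdist (S : Set Γ) (x y : Γ) : ℝ := wlen S (x⁻¹ * y)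

/-- Gromov product of `x` and `y` based at `w`. -/
noncomputable def gprod (S : Set Γ) (w x y : Γ) : ℝ :=
  (wdist S x w + wdist S y w - wdist S x y) / 2

/-- Gromov's four point condition for the word metric. -/
def IsHyperbolic (S : Set Γ) : Prop :=
  ∃ δ : ℝ, ∀ w x y z : Γ, min (gprod S w x y) (gprod S w y z) - δ ≤ gprod S w x z

/-- The sequence `x` converges at infinity. -/
def ConvInf (S : Set Γ) (x : ℕ → Γ) : Prop :=
  Tendsto (fun p : ℕ × ℕ => gprod S 1 (x p.1) (x p.2)) atTop atTop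

/-- Sequences converging at infinity. -/
def InfSeq (S : Set Γ) : Type _ := {x : ℕ → Γ // ConvInf S x}

/-- Two sequences converging at infinity define the same boundary point. -/
def BEquiv (S : Set Γ) (x y : InfSeq S) : Prop :=
  Tendsto (fun p : ℕ × ℕ => gprod S 1 (x.1 p.1) (y.1 p.2)) atTop atTop

/-- The Gromov boundary (sequential model). -/
def Boundary (S : Set Γ) : Type _ := Quot (BEquiv S)

/-- The boundary point defined by a sequence converging at infinity. -/
def bmk (S : Set Γ) (x : InfSeq S) : Boundary S := Quot.mk _ x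

/-- The basic neighbourhood `U(ξ, r)`: points `η` such that for some sequences `x → ξ`, `y → η`
one has `(x_i | y_j) ≥ r` for all large `i, j`. -/
def bnhd (S : Set Γ) (ξ : Boundary S) (r : ℝ) : Set (Boundary S) :=
  {η | ∃ x y : InfSeq S, bmk S x = ξ ∧ bmk S y = η ∧
    ∃ N : ℕ, ∀ i j : ℕ, N ≤ i → N ≤ j → r ≤ gprod S 1 (x.1 i) (y.1 j)}

lemma bnhd_anti (S : Set Γ) (ξ : Boundary S) {r r' : ℝ} (h : r ≤ r') :
    bnhd S ξ r' ⊆ bnhd S ξ r := by
  rintro η ⟨x, y, hx, hy, N, hN⟩
  exact ⟨x, y, hx, hy, N, fun i j hi hj => h.trans (hN i j hi hj)⟩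

/-- The usual topology of the Gromov boundary: a set is open iff with each of its points `ξ` it
contains some basic neighbourhood `U(ξ, r)`. -/
instance (S : Set Γ) : TopologicalSpace (Boundary S) where
  IsOpen U := ∀ ξ ∈ U, ∃ r : ℝ, bnhd S ξ r ⊆ U
  isOpen_univ := fun _ _ => ⟨0, Set.subset_univ _⟩
  isOpen_inter := by
    rintro U V hU hV ξ ⟨h1, h2⟩
    obtain ⟨r, hr⟩ := hU ξ h1
    obtain ⟨r', hr'⟩ := hV ξ h2
    exact ⟨max r r', Set.subset_inter ((bnhd_anti S ξ (le_max_left _ _)).trans hr)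
      ((bnhd_anti S ξ (le_max_right _ _)).trans hr')⟩
  isOpen_sUnion := by
    rintro A hA ξ ⟨U, hU, hξ⟩
    obtain ⟨r, hr⟩ := hA U hU ξ hξ
    exact ⟨r, hr.trans (Set.subset_sUnion_of_mem hU)⟩

section gen

variable {S : Set Γ} (hS : Subgroup.closure S = ⊤)

include hS

lemma wlen_spec (g : Γ) : ∃ l : List Γ, l.length = wlen S g ∧ (∀ x ∈ l, x ∈ S ∨ x⁻¹ ∈ S) ∧
    l.prod = g := by
  have hg : g ∈ (Subgroup.closure S).toSubmonoid := by rw [hS]; trivial
  rw [Subgroup.closure_toSubmonoid] at hg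
  obtain ⟨l, hl, hp⟩ := Submonoid.exists_list_of_mem_closure hg
  have hne : {n | ∃ l : List Γ, l.length = n ∧ (∀ x ∈ l, x ∈ S ∨ x⁻¹ ∈ S) ∧ l.prod = g}.Nonempty :=
    ⟨l.length, l, rfl, fun x hx => by simpa using hl x hx, hp⟩
  exact Nat.sInf_mem hne

omit hS in
lemma wlen_le (l : List Γ) (hl : ∀ x ∈ l, x ∈ S ∨ x⁻¹ ∈ S) : wlen S l.prod ≤ l.length :=
  Nat.sInf_le ⟨l, rfl, hl, rfl⟩

omit hS in
lemma wlen_one : wlen S (1 : Γ) = 0 := by
  have := wlen_le (S := S) ([] : List Γ) (by simp)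
  simpa using this

lemma wlen_mul_le (g h : Γ) : wlen S (g * h) ≤ wlen S g + wlen S h := by
  obtain ⟨l, hl1, hl2, hl3⟩ := wlen_spec hS g
  obtain ⟨m, hm1, hm2, hm3⟩ := wlen_spec hS h
  have := wlen_le (S := S) (l ++ m) (by
    intro x hx
    rcases List.mem_append.1 hx with h | h
    · exact hl2 x h
    · exact hm2 x h)
  rw [List.prod_append, hl3, hm3, List.length_append, hl1, hm1] at this
  exact this

lemma wlen_inv_le (g : Γ) : wlen S g⁻¹ ≤ wlen S g := by
  obtain ⟨l, hl1, hl2, hl3⟩ := wlen_spec hS g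
  have := wlen_le (S := S) (l.map (fun x => x⁻¹)).reverse (by
    intro x hx
    rw [List.mem_reverse, List.mem_map] at hx
    obtain ⟨y, hy, rfl⟩ := hx
    rcases hl2 y hy with h | h
    · right; simpa using h
    · left; exact h)
  rw [← List.prod_inv_reverse, hl3] at this
  simpa [hl1] using this

lemma wlen_inv (g : Γ) : wlen S g⁻¹ = wlen S g := by
  apply le_antisymm (wlen_inv_le hS g)
  have := wlen_inv_le hS g⁻¹
  rwa [inv_inv] at this

lemma gprod_translate (g x y : Γ) : gprod S 1 x y - wlen S g ≤ gprod S 1 (g * x) (g * y) := by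
  have h1 := wlen_mul_le hS ((g * x)⁻¹) g
  have h2 := wlen_mul_le hS ((g * y)⁻¹) g
  have e1 : (g * x)⁻¹ * g = x⁻¹ := by group
  have e2 : (g * y)⁻¹ * g = y⁻¹ := by group
  have e3 : (g * x)⁻¹ * (g * y) = x⁻¹ * y := by group
  rw [e1] at h1
  rw [e2] at h2
  simp only [gprod, wdist, mul_one, e3]
  have h1' : (wlen S x⁻¹ : ℝ) ≤ wlen S (g * x)⁻¹ + wlen S g := by exact_mod_cast h1
  have h2' : (wlen S y⁻¹ : ℝ) ≤ wlen S (g * y)⁻¹ + wlen S g := by exact_mod_cast h2
  linarith

lemma tendsto_translate (g : Γ) (x y : ℕ → Γ)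
    (h : Tendsto (fun p : ℕ × ℕ => gprod S 1 (x p.1) (y p.2)) atTop atTop) :
    Tendsto (fun p : ℕ × ℕ => gprod S 1 (g * x p.1) (g * y p.2)) atTop atTop := by
  refine tendsto_atTop_mono (fun p => ?_)
    (tendsto_atTop_add_const_right atTop (-(wlen S g : ℝ)) h)
  have := gprod_translate hS g (x p.1) (y p.2)
  linarith

end gen

/-- Left translation of sequences converging at infinity. -/
def translate {S : Set Γ} (hS : Subgroup.closure S = ⊤) (g : Γ) (x : InfSeq S) : InfSeq S :=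
  ⟨fun n => g * x.1 n, tendsto_translate hS g x.1 x.1 x.2⟩

/-- The action of `g ∈ Γ` on the boundary, `g · [x_n] = [g x_n]`. -/
def bsmul {S : Set Γ} (hS : Subgroup.closure S = ⊤) (g : Γ) : Boundary S → Boundary S :=
  Quot.map (translate hS g) (fun x y h => tendsto_translate hS g x.1 y.1 h)

/-- `Γ` acts on `X` as a convergence group: every sequence of pairwise distinct elements has a
subsequence which converges to a constant `a`, uniformly on compact subsets of the complement of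
a point `b`. -/
def IsConvergenceAction (Γ : Type*) [Group Γ] (X : Type*) [TopologicalSpace X]
    [MulAction Γ X] : Prop :=
  ∀ γ : ℕ → Γ, Function.Injective γ → ∃ φ : ℕ → ℕ, StrictMono φ ∧ ∃ a b : X,
    ∀ K : Set X, IsCompact K → b ∉ K → ∀ U ∈ 𝓝 a, ∀ᶠ k in atTop, ∀ x ∈ K, γ (φ k) • x ∈ U

end Pool.Agent.H322R3.Hyp
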