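import Mathlib
import Pool.Agent.H322R3.HypDefs

set_option autoImplicit false
set_option linter.unusedSectionVars false

namespace Pool.Agent.H322R3.Dyn

open Filter Topology Metric

open Pool.Agent.H322R3.Hyp

section main

variable {Γ : Type*} [Group Γ] {X : Type*} [MetricSpace X] [CompactSpace X] [MulAction Γ X]
  [ContinuousConstSMul Γ X]

/-- uniform conicality of the points of `Λ` -/
def Con (Γ : Type*) [Group Γ] {X : Type*} [MetricSpace X] [MulAction Γ X] (Λ : Set X)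
    (d : ℝ) (ν : X) : Prop :=
  ∀ ρ > 0, ∀ τ > 0, ∃ s : Γ, ∃ b ∈ Λ, d ≤ dist (s • ν) b ∧
    ∀ y : X, ρ ≤ dist y ν → dist (s • y) b < τ

lemma not_isolated {Λ : Set X} (hΛ : IsCompact Λ) (hinv : ∀ g : Γ, ∀ x ∈ Λ, g • x ∈ Λ)
    {x₀ : X} (hx₀ : x₀ ∉ Λ) {d : ℝ} {ν : X} (hν : ν ∈ Λ) (hc : Con Γ Λ d ν) (η : ℝ)
    (hη : 0 < η) : ∃ y, y ≠ ν ∧ dist y ν < η := by
  by_contra hcon
  push Not at hcon
  have hne : Λ.Nonempty := ⟨ν, hν⟩
  have hpos : 0 < infDist x₀ Λ := (hΛ.isClosed.notMem_iff_infDist_pos hne).1 hx₀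
  obtain ⟨s, b, hb, h1, h2⟩ := hc η hη (infDist x₀ Λ) hpos
  have h3 : infDist x₀ Λ ≤ dist x₀ b := infDist_le_dist_of_mem hb
  by_cases hy : s⁻¹ • x₀ = ν
  · apply hx₀
    have : x₀ = s • ν := by rw [← hy, smul_inv_smul]
    rw [this]; exact hinv s ν hν
  · have h4 := h2 (s⁻¹ • x₀) (hcon _ hy)
    rw [smul_inv_smul] at h4
    linarith

/-- uniform annulus -/
lemma annulus {Λ : Set X} (hΛ : IsCompact Λ) (hiso : ∀ ν ∈ Λ, ∀ η > 0, ∃ y, y ≠ ν ∧ dist y ν < η)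
    (R : ℝ) (hR : 0 < R) :
    ∃ r, 0 < r ∧ r < R ∧ ∀ ν ∈ Λ, ∃ y, r ≤ dist y ν ∧ dist y ν ≤ R := by
  by_contra hcon
  push Not at hcon
  have hseq : ∀ n : ℕ, ∃ ν ∈ Λ, ∀ y, R / (n + 2) ≤ dist y ν → R < dist y ν := by
    intro n
    have hn : (0 : ℝ) < n + 2 := by positivity
    exact hcon (R / (n + 2)) (by positivity) (by rw [div_lt_iff₀ hn]; nlinarith)
  choose ν hν hν2 using hseq
  obtain ⟨μ, hμ, φ, hφ, hlim⟩ := hΛ.tendsto_subseq hν
  obtain ⟨y, hy, hy2⟩ := hiso μ hμ (R / 2) (by positivity)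
  have hd : 0 < dist y μ := dist_pos.2 hy
  have e1 : ∀ᶠ k in atTop, dist (ν (φ k)) μ < min (R / 2) (dist y μ / 2) :=
    (tendsto_iff_dist_tendsto_zero.1 hlim).eventually_lt_const (by positivity)
  have e2 : ∀ᶠ k : ℕ in atTop, R / ((φ k : ℝ) + 2) < dist y μ / 2 := by
    have : Tendsto (fun k : ℕ => R / ((φ k : ℝ) + 2)) atTop (𝓝 0) := by
      apply Tendsto.div_atTop tendsto_const_nhds
      apply tendsto_atTop_add_const_right
      exact tendsto_natCast_atTop_atTop.comp hφ.tendsto_atTop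
    exact this.eventually_lt_const (by positivity)
  obtain ⟨k, hk1, hk2⟩ := (e1.and e2).exists
  have h1 : dist (ν (φ k)) μ < R / 2 := lt_of_lt_of_le hk1 (min_le_left _ _)
  have h2 : dist (ν (φ k)) μ < dist y μ / 2 := lt_of_lt_of_le hk1 (min_le_right _ _)
  have h3 := dist_triangle y (ν (φ k)) μ
  have h4 := dist_triangle y μ (ν (φ k))
  rw [dist_comm μ] at h4
  have h5 := hν2 (φ k) y (by linarith)
  linarith

/-- uniform expansion near `Λ` -/
lemma uniform_exp {Λ : Set X} (hΛ : IsCompact Λ) {d : ℝ} (hd : 0 < d)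
    (hc : ∀ ν ∈ Λ, Con Γ Λ d ν) (r : ℝ) (hr : 0 < r) :
    ∃ ε, 0 < ε ∧ ∀ ν ∈ Λ, ∀ y₀ : X, dist y₀ ν < ε → ∃ s : Γ, ∀ ν' ∈ Λ, dist (s • y₀) ν' < ε →
      ∀ y, r ≤ dist y ν → d / 4 < dist (s • y) ν' := by
  by_contra hcon
  push Not at hcon
  have hseq : ∀ n : ℕ, ∃ ν ∈ Λ, ∃ y₀ : X, dist y₀ ν < 1 / ((n : ℝ) + 1) ∧ ∀ s : Γ, ∃ ν' ∈ Λ,
      dist (s • y₀) ν' < 1 / ((n : ℝ) + 1) ∧ ∃ y, r ≤ dist y ν ∧ dist (s • y) ν' ≤ d / 4 := by
    intro n
    exact hcon (1 / ((n : ℝ) + 1)) (by positivity)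
  choose ν hν y₀ hy₀ hs using hseq
  obtain ⟨μ, hμ, φ, hφ, hlim⟩ := hΛ.tendsto_subseq hν
  obtain ⟨s, b, hb, h1, h2⟩ := hc μ hμ (r / 2) (by positivity) (d / 8) (by positivity)
  have hinv0 : Tendsto (fun k : ℕ => 1 / ((φ k : ℝ) + 1)) atTop (𝓝 0) :=
    tendsto_one_div_add_atTop_nhds_zero_nat.comp hφ.tendsto_atTop
  have hlimd := tendsto_iff_dist_tendsto_zero.1 hlim
  have hy₀lim : Tendsto (fun k => y₀ (φ k)) atTop (𝓝 μ) := by
    rw [tendsto_iff_dist_tendsto_zero]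
    apply squeeze_zero (fun _ => dist_nonneg)
      (g := fun k => 1 / ((φ k : ℝ) + 1) + dist (ν (φ k)) μ)
    · intro k
      have := dist_triangle (y₀ (φ k)) (ν (φ k)) μ
      have := hy₀ (φ k)
      linarith
    · simpa using hinv0.add hlimd
  have hsy : Tendsto (fun k => s • y₀ (φ k)) atTop (𝓝 (s • μ)) :=
    ((continuous_const_smul s).tendsto μ).comp hy₀lim
  have e1 : ∀ᶠ k in atTop, dist (s • y₀ (φ k)) (s • μ) < d / 8 :=
    (tendsto_iff_dist_tendsto_zero.1 hsy).eventually_lt_const (by positivity)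
  have e2 : ∀ᶠ k : ℕ in atTop, 1 / ((φ k : ℝ) + 1) < d / 8 :=
    hinv0.eventually_lt_const (by positivity)
  have e3 : ∀ᶠ k in atTop, dist (ν (φ k)) μ < r / 2 := hlimd.eventually_lt_const (by positivity)
  obtain ⟨k, ⟨hk1, hk2⟩, hk3⟩ := ((e1.and e2).and e3).exists
  obtain ⟨ν', hν', a1, y, a2, a3⟩ := hs (φ k) s
  have a4 : r / 2 ≤ dist y μ := by
    have := dist_triangle y μ (ν (φ k))
    rw [dist_comm μ] at this
    linarith
  have a5 := h2 y a4
  have t1 := dist_triangle (s • μ) (s • y₀ (φ k)) ν'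
  have c1 := dist_comm (s • μ) (s • y₀ (φ k))
  have t2 := dist_triangle (s • μ) ν' b
  have t3 := dist_triangle ν' (s • y) b
  have c3 := dist_comm ν' (s • y)
  linarith

/-- The dynamical theorem. -/
theorem cocompact_of_con (hconv : IsConvergenceAction Γ X) {Λ : Set X} (hΛ : IsCompact Λ)
    (hne : Λ.Nonempty) (hinv : ∀ g : Γ, ∀ x ∈ Λ, g • x ∈ Λ) {d : ℝ} (hd : 0 < d)
    (hc : ∀ ν ∈ Λ, Con Γ Λ d ν) :
    ∃ K : Set X, IsCompact K ∧ K ⊆ Λᶜ ∧ ∀ x ∈ Λᶜ, ∃ g : Γ, g • x ∈ K := by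
  by_cases hΩ : ∃ x₀, x₀ ∉ Λ
  swap
  · push Not at hΩ
    exact ⟨∅, isCompact_empty, Set.empty_subset _, fun x hx => absurd (hΩ x) hx⟩
  obtain ⟨x₀, hx₀⟩ := hΩ
  have hiso : ∀ ν ∈ Λ, ∀ η > 0, ∃ y, y ≠ ν ∧ dist y ν < η := fun ν hν η hη =>
    not_isolated hΛ hinv hx₀ hν (hc ν hν) η hη
  obtain ⟨r, hr, hrd, hann⟩ := annulus hΛ hiso (d / 4) (by positivity)
  obtain ⟨ε₀, hε₀, hexp₀⟩ := uniform_exp hΛ hd hc r hr
  obtain ⟨ε, hε, hεr, hexp⟩ : ∃ ε, 0 < ε ∧ ε ≤ r ∧ ∀ ν ∈ Λ, ∀ y₀ : X, dist y₀ ν < ε →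
      ∃ s : Γ, ∀ ν' ∈ Λ, dist (s • y₀) ν' < ε →
      ∀ y, r ≤ dist y ν → d / 4 < dist (s • y) ν' := by
    refine ⟨min ε₀ r, lt_min hε₀ hr, min_le_right _ _, ?_⟩
    intro ν hν y₀ hy₀
    obtain ⟨s, hs⟩ := hexp₀ ν hν y₀ (lt_of_lt_of_le hy₀ (min_le_left _ _))
    exact ⟨s, fun ν' hν' h => hs ν' hν' (lt_of_lt_of_le h (min_le_left _ _))⟩
  refine ⟨{y | ε / 2 ≤ infDist y Λ}, ?_, ?_, ?_⟩
  · exact (isClosed_le continuous_const (continuous_infDist_pt Λ)).isCompact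
  · intro y hy hyΛ
    have h1 : infDist y Λ = 0 := infDist_zero_of_mem hyΛ
    have h2 : ε / 2 ≤ infDist y Λ := hy
    linarith
  intro x hx
  by_contra hcon
  push Not at hcon
  -- nearby points of Λ
  have hnear : ∀ g : Γ, ∃ ν ∈ Λ, dist (g • x) ν < ε := by
    intro g
    have h1 : infDist (g • x) Λ < ε := by
      have h2 : ¬ (ε / 2 ≤ infDist (g • x) Λ) := hcon g
      push Not at h2
      linarith
    exact (infDist_lt_iff hne).1 h1
  choose ν hν hνd using hnear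
  have hstep : ∀ g : Γ, ∃ s : Γ, ∀ ν' ∈ Λ, dist (s • (g • x)) ν' < ε →
      ∀ y, r ≤ dist y (ν g) → d / 4 < dist (s • y) ν' := fun g => hexp (ν g) (hν g) _ (hνd g)
  choose s hs using hstep
  -- the sequence
  set γ : ℕ → Γ := fun n => Nat.rec 1 (fun _ g => s g * g) n with hγ
  have hγs : ∀ n, γ (n + 1) = s (γ n) * γ n := fun n => rfl
  have key : ∀ n y, dist (γ (n + 1) • y) (ν (γ (n + 1))) ≤ d / 4 → dist (γ n • y) (ν (γ n)) < r := by
    intro n y hy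
    by_contra hlt
    push Not at hlt
    have h1 := hs (γ n) (ν (γ (n + 1))) (hν _) (by
      rw [← mul_smul, ← hγs]; exact hνd _) (γ n • y) hlt
    rw [← mul_smul, ← hγs] at h1
    linarith
  have nested : ∀ m n y, n < m → dist (γ m • y) (ν (γ m)) ≤ d / 4 →
      dist (γ n • y) (ν (γ n)) < r := by
    intro m n y hnm
    induction m with
    | zero => omega
    | succ m ih =>
      intro hy
      have h1 := key m y hy
      rcases Nat.lt_succ_iff_lt_or_eq.1 hnm with h | h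
      · exact ih h (by linarith)
      · rw [h]; exact h1
  have hinj : Function.Injective γ := by
    have aux : ∀ m n, n < m → γ m ≠ γ n := by
      intro m n hnm he
      obtain ⟨y, hy1, hy2⟩ := hann (ν (γ n)) (hν _)
      have h1 := nested m n ((γ n)⁻¹ • y) hnm (by
        rw [he, smul_inv_smul]; exact hy2)
      rw [smul_inv_smul] at h1
      linarith
    intro m n he
    rcases lt_trichotomy m n with h | h | h
    · exact absurd he.symm (aux n m h)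
    · exact h
    · exact absurd he (aux m n h)
  obtain ⟨φ, hφ, q, p, hqp⟩ := hconv γ hinj
  -- points leaving
  have hz : ∀ n : ℕ, ∃ z : X, r ≤ dist (γ n • z) (ν (γ n)) ∧ dist (γ n • z) (ν (γ n)) ≤ d / 4 := by
    intro n
    obtain ⟨y, hy1, hy2⟩ := hann (ν (γ n)) (hν _)
    exact ⟨(γ n)⁻¹ • y, by rw [smul_inv_smul]; exact hy1, by rw [smul_inv_smul]; exact hy2⟩
  obtain ⟨z0, hz0, hz0'⟩ := hz 0
  obtain ⟨z1, hz1, hz1'⟩ := hz 1
  have hz01 : z0 ≠ z1 := by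
    intro he
    have h1 := nested 1 0 z1 (by norm_num) hz1'
    rw [← he] at h1
    linarith
  have hzex : ∃ z, z ≠ p ∧ ∀ n, 2 ≤ n → d / 4 < dist (γ n • z) (ν (γ n)) := by
    have hout : ∀ z k, k < 2 → r ≤ dist (γ k • z) (ν (γ k)) →
        ∀ n, 2 ≤ n → d / 4 < dist (γ n • z) (ν (γ n)) := by
      intro z k hk hzk n hn
      by_contra hle
      push Not at hle
      have := nested n k z (by omega) hle
      linarith
    by_cases h0 : z0 = p
    · exact ⟨z1, fun h => hz01 (h0.trans h.symm), hout z1 1 (by norm_num) hz1⟩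
    · exact ⟨z0, h0, hout z0 0 (by norm_num) hz0⟩
  obtain ⟨z, hzp, hzn⟩ := hzex
  -- uniqueness of the point in all balls
  have huniq : ∀ w, (∀ n, dist (γ n • w) (ν (γ n)) < r) → w = p := by
    intro w hw
    by_contra hwp
    have hK : IsCompact ({w, z} : Set X) := (Set.toFinite _).isCompact
    have hpK : p ∉ ({w, z} : Set X) := by
      intro h
      rcases h with h | h
      · exact hwp h.symm
      · exact hzp h.symm
    have hρ : 0 < (d / 4 - r) / 2 := by linarith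
    have hev := hqp _ hK hpK (ball q ((d / 4 - r) / 2)) (ball_mem_nhds _ hρ)
    obtain ⟨k, hk, hk2⟩ := (hev.and (eventually_ge_atTop 2)).exists
    have a1 := hk w (by simp)
    have a2 := hk z (by simp)
    have a3 := hw (φ k)
    have a4 := hzn (φ k) (le_trans hk2 (hφ.id_le k))
    rw [mem_ball] at a1 a2
    have t1 := dist_triangle (γ (φ k) • z) q (ν (γ (φ k)))
    have t2 := dist_triangle q (γ (φ k) • w) (ν (γ (φ k)))
    have c2 := dist_comm q (γ (φ k) • w)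
    linarith
  have hxp : x = p := huniq x fun n => lt_of_lt_of_le (hνd _) hεr
  -- a point of Λ in all balls
  have hcl : ∀ n, IsClosed ({z | dist (γ n • z) (ν (γ n)) ≤ d / 4} ∩ Λ) := by
    intro n
    apply IsClosed.inter _ hΛ.isClosed
    exact isClosed_le ((continuous_const_smul (γ n)).dist continuous_const) continuous_const
  have hnonempty := IsCompact.nonempty_iInter_of_sequence_nonempty_isCompact_isClosed
    (fun n => {z | dist (γ n • z) (ν (γ n)) ≤ d / 4} ∩ Λ)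
    (by
      rintro n z ⟨hz1, hz2⟩
      exact ⟨(le_of_lt (lt_trans (key n z hz1) hrd)), hz2⟩)
    (by
      intro n
      refine ⟨(γ n)⁻¹ • ν (γ n), ?_, hinv _ _ (hν _)⟩
      simp only [Set.mem_ofPred_eq, smul_inv_smul, dist_self]
      positivity)
    ((hcl 0).isCompact) hcl
  obtain ⟨w, hw⟩ := hnonempty
  rw [Set.mem_iInter] at hw
  have hwp : w = p := huniq w fun n => key n w (hw (n + 1)).1
  apply hx
  rw [hxp, ← hwp]
  exact (hw 0).2

end main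

end Pool.Agent.H322R3.Dyn
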