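import Mathlib

set_option autoImplicit false

namespace Pool.Agent.H322R3.RAAG

open PresentedGroup

variable {n : ℕ}

/-- The commutator relators of the right-angled Artin group of `Γ`. -/
def rels (Γ : SimpleGraph (Fin n)) : Set (FreeGroup (Fin n)) :=
  {r | ∃ i j : Fin n, Γ.Adj i j ∧
        r = FreeGroup.of i * FreeGroup.of j * (FreeGroup.of i)⁻¹ * (FreeGroup.of j)⁻¹}

/-- exponent homomorphism in the `i`-th generator -/
noncomputable def expo (Γ : SimpleGraph (Fin n)) (i : Fin n) :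
    PresentedGroup (rels Γ) →* Multiplicative ℤ :=
  PresentedGroup.toGroup (f := fun j => if j = i then Multiplicative.ofAdd (1 : ℤ) else 1)
    (by
      rintro r ⟨k, l, -, rfl⟩
      simp only [map_mul, map_inv, FreeGroup.lift_apply_of]
      rw [mul_assoc, mul_comm, mul_assoc]
      split_ifs <;> simp)

lemma expo_of_self (Γ : SimpleGraph (Fin n)) (i : Fin n) :
    expo Γ i (PresentedGroup.of i) = Multiplicative.ofAdd (1 : ℤ) := by
  simp [expo]

lemma expo_of_ne (Γ : SimpleGraph (Fin n)) (i j : Fin n) (h : j ≠ i) :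
    expo Γ i (PresentedGroup.of j) = 1 := by
  simp [expo, h]

lemma comm_of_adj (Γ : SimpleGraph (Fin n)) {i j : Fin n} (h : Γ.Adj i j) :
    Commute (PresentedGroup.of (rels := rels Γ) i) (PresentedGroup.of j) := by
  have h1 : (PresentedGroup.mk (rels Γ))
      (FreeGroup.of i * FreeGroup.of j * (FreeGroup.of i)⁻¹ * (FreeGroup.of j)⁻¹) = 1 := by
    apply (QuotientGroup.eq_one_iff _).2
    exact Subgroup.subset_normalClosure ⟨i, j, h, rfl⟩
  simp only [map_mul, map_inv] at h1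
  have h2 : (PresentedGroup.of (rels := rels Γ) i) * (PresentedGroup.of j) *
      (PresentedGroup.of i)⁻¹ * (PresentedGroup.of j)⁻¹ = 1 := h1
  have h3 := mul_inv_eq_one.1 h2
  have h4 := mul_inv_eq_iff_eq_mul.1 h3
  exact h4

/-- retraction onto the free group on two non-adjacent generators -/
noncomputable def retr (Γ : SimpleGraph (Fin n)) (i j : Fin n) (h : ¬ Γ.Adj i j) :
    PresentedGroup (rels Γ) →* FreeGroup (Fin n) :=
  PresentedGroup.toGroup (f := fun k => if k = i ∨ k = j then FreeGroup.of k else 1)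
    (by
      rintro r ⟨k, l, hkl, rfl⟩
      simp only [map_mul, map_inv, FreeGroup.lift_apply_of]
      by_cases hk : k = i ∨ k = j
      · by_cases hl : l = i ∨ l = j
        · exfalso
          rcases hk with rfl | rfl <;> rcases hl with rfl | rfl
          · exact Γ.irrefl hkl
          · exact h hkl
          · exact h hkl.symm
          · exact Γ.irrefl hkl
        · simp [hl]
      · simp [hk])

lemma adj_of_comm (Γ : SimpleGraph (Fin n)) {i j : Fin n} (hij : i ≠ j)
    (h : Commute (PresentedGroup.of (rels := rels Γ) i) (PresentedGroup.of j)) : Γ.Adj i j := by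
  by_contra hna
  have h1 := congrArg (retr Γ i j hna) h.eq
  simp only [map_mul, retr, PresentedGroup.toGroup.of, true_or, or_true, if_true] at h1
  have h2 := congrArg FreeGroup.toWord h1
  have h3 : (FreeGroup.of i * FreeGroup.of j : FreeGroup (Fin n)).toWord = [(i, true), (j, true)] := by
    rw [FreeGroup.toWord_mul]
    simp [FreeGroup.toWord_of, FreeGroup.reduce]
  have h4 : (FreeGroup.of j * FreeGroup.of i : FreeGroup (Fin n)).toWord = [(j, true), (i, true)] := by
    rw [FreeGroup.toWord_mul]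
    simp [FreeGroup.toWord_of, FreeGroup.reduce]
  rw [h3, h4] at h2
  simp at h2
  exact hij h2.1

/-- `g` and `h` are joined by an edge labelled `i`. -/
def E (Γ : SimpleGraph (Fin n)) (i : Fin n) (g h : PresentedGroup (rels Γ)) : Prop :=
  h = g * PresentedGroup.of i ∨ g = h * PresentedGroup.of i

/-- integer exponent -/
noncomputable def ex (Γ : SimpleGraph (Fin n)) (i : Fin n) (g : PresentedGroup (rels Γ)) : ℤ :=
  Multiplicative.toAdd (expo Γ i g)

lemma E.symm {Γ : SimpleGraph (Fin n)} {i : Fin n} {g h : PresentedGroup (rels Γ)}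
    (e : E Γ i g h) : E Γ i h g := Or.symm e

lemma E.exists_eps {Γ : SimpleGraph (Fin n)} {i : Fin n} {g h : PresentedGroup (rels Γ)}
    (e : E Γ i g h) : ∃ ε : ℤ, (ε = 1 ∨ ε = -1) ∧ h = g * (PresentedGroup.of i) ^ ε := by
  rcases e with e | e
  · exact ⟨1, Or.inl rfl, by simpa using e⟩
  · exact ⟨-1, Or.inr rfl, by rw [e]; group⟩

lemma ex_mul (Γ : SimpleGraph (Fin n)) (i : Fin n) (g h : PresentedGroup (rels Γ)) :
    ex Γ i (g * h) = ex Γ i g + ex Γ i h := by
  simp [ex]

lemma ex_pow_self (Γ : SimpleGraph (Fin n)) (i : Fin n) (ε : ℤ) :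
    ex Γ i ((PresentedGroup.of i) ^ ε) = ε := by
  simp [ex, expo_of_self]

lemma ex_pow_ne (Γ : SimpleGraph (Fin n)) (i j : Fin n) (h : j ≠ i) (ε : ℤ) :
    ex Γ i ((PresentedGroup.of j) ^ ε) = 0 := by
  simp [ex, expo_of_ne Γ i j h]

lemma ex_pow (Γ : SimpleGraph (Fin n)) (i j : Fin n) (ε : ℤ) :
    ex Γ i ((PresentedGroup.of j) ^ ε) = if j = i then ε else 0 := by
  split_ifs with h
  · subst h; exact ex_pow_self Γ j ε
  · exact ex_pow_ne Γ i j h ε

lemma label_unique {Γ : SimpleGraph (Fin n)} {i j : Fin n} {g h : PresentedGroup (rels Γ)}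
    (e : E Γ i g h) (e' : E Γ j g h) : i = j := by
  obtain ⟨ε, hε, h1⟩ := e.exists_eps
  obtain ⟨δ, hδ, h2⟩ := e'.exists_eps
  by_contra hne
  have h3 := congrArg (ex Γ i) (h1.symm.trans h2)
  rw [ex_mul, ex_mul, ex_pow_self, ex_pow_ne Γ i j (Ne.symm hne)] at h3
  omega

lemma adj_labels_ne {Γ : SimpleGraph (Fin n)} {i j k l : Fin n}
    {g0 g1 g2 g3 : PresentedGroup (rels Γ)}
    (e0 : E Γ i g0 g1) (e1 : E Γ j g1 g2) (e2 : E Γ k g2 g3) (e3 : E Γ l g3 g0)
    (h02 : g0 ≠ g2) (h13 : g1 ≠ g3) : i ≠ j := by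
  rintro rfl
  obtain ⟨ε0, hε0, h0⟩ := e0.exists_eps
  obtain ⟨ε1, hε1, h1⟩ := e1.exists_eps
  obtain ⟨ε2, hε2, h2⟩ := e2.exists_eps
  obtain ⟨ε3, hε3, h3⟩ := e3.exists_eps
  have t0 := congrArg (ex Γ i) h0
  have t1 := congrArg (ex Γ i) h1
  have t2 := congrArg (ex Γ i) h2
  have t3 := congrArg (ex Γ i) h3
  rw [ex_mul, ex_pow] at t0 t1 t2 t3
  simp only [if_true] at t0 t1
  have hs : ε0 = ε1 := by
    by_contra hne
    apply h02
    rw [h1, h0, mul_assoc, ← zpow_add]
    have : ε0 + ε1 = 0 := by omega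
    rw [this]; simp
  have hk : k = i := by
    by_contra hne
    rw [if_neg hne] at t2
    split_ifs at t3 <;> omega
  subst hk
  rw [if_pos rfl] at t2
  apply h13
  have h4 : ε1 + ε2 = 0 := by
    split_ifs at t3 <;> omega
  rw [h2, h1, mul_assoc, ← zpow_add, h4]; simp

lemma square {Γ : SimpleGraph (Fin n)} {i j k l : Fin n}
    {g0 g1 g2 g3 : PresentedGroup (rels Γ)}
    (e0 : E Γ i g0 g1) (e1 : E Γ j g1 g2) (e2 : E Γ k g2 g3) (e3 : E Γ l g3 g0)
    (h02 : g0 ≠ g2) (h13 : g1 ≠ g3) : i = k ∧ j = l ∧ Γ.Adj i j := by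
  have hij := adj_labels_ne e0 e1 e2 e3 h02 h13
  have hjk := adj_labels_ne e1 e2 e3 e0 h13 h02.symm
  have hkl := adj_labels_ne e2 e3 e0 e1 h02.symm h13.symm
  have hli := adj_labels_ne e3 e0 e1 e2 h13.symm h02
  obtain ⟨ε0, hε0, h0⟩ := e0.exists_eps
  obtain ⟨ε1, hε1, h1⟩ := e1.exists_eps
  obtain ⟨ε2, hε2, h2⟩ := e2.exists_eps
  obtain ⟨ε3, hε3, h3⟩ := e3.exists_eps
  have hik : k = i := by
    by_contra hne
    have t0 := congrArg (ex Γ i) h0
    have t1 := congrArg (ex Γ i) h1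
    have t2 := congrArg (ex Γ i) h2
    have t3 := congrArg (ex Γ i) h3
    rw [ex_mul, ex_pow] at t0 t1 t2 t3
    rw [if_pos rfl] at t0
    rw [if_neg hij.symm] at t1
    rw [if_neg hne] at t2
    rw [if_neg hli] at t3
    omega
  have hjl : l = j := by
    by_contra hne
    have t0 := congrArg (ex Γ j) h0
    have t1 := congrArg (ex Γ j) h1
    have t2 := congrArg (ex Γ j) h2
    have t3 := congrArg (ex Γ j) h3
    rw [ex_mul, ex_pow] at t0 t1 t2 t3
    rw [if_neg hij] at t0
    rw [if_pos rfl] at t1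
    rw [if_neg hjk.symm] at t2
    rw [if_neg hne] at t3
    omega
  subst hik hjl
  refine ⟨rfl, rfl, ?_⟩
  have u0 : ε0 + ε2 = 0 := by
    have t0 := congrArg (ex Γ k) h0
    have t1 := congrArg (ex Γ k) h1
    have t2 := congrArg (ex Γ k) h2
    have t3 := congrArg (ex Γ k) h3
    rw [ex_mul, ex_pow] at t0 t1 t2 t3
    rw [if_pos rfl] at t0 t2
    rw [if_neg hij.symm] at t1 t3
    omega
  have u1 : ε1 + ε3 = 0 := by
    have t0 := congrArg (ex Γ l) h0
    have t1 := congrArg (ex Γ l) h1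
    have t2 := congrArg (ex Γ l) h2
    have t3 := congrArg (ex Γ l) h3
    rw [ex_mul, ex_pow] at t0 t1 t2 t3
    rw [if_pos rfl] at t1 t3
    rw [if_neg hij] at t0 t2
    omega
  have hcomm : Commute ((PresentedGroup.of (rels := rels Γ) k) ^ ε0)
      ((PresentedGroup.of (rels := rels Γ) l) ^ ε1) := by
    have v2 : ε2 = -ε0 := by omega
    have v3 : ε3 = -ε1 := by omega
    rw [h2, h1, h0, v2, v3] at h3
    have h5 : g0 * ((PresentedGroup.of k) ^ ε0 * (PresentedGroup.of l) ^ ε1 *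
        (PresentedGroup.of k) ^ (-ε0) * (PresentedGroup.of l) ^ (-ε1)) = g0 := by
      simpa [mul_assoc] using h3.symm
    have h6 := mul_eq_left.1 h5
    rw [zpow_neg, zpow_neg] at h6
    have h7 := mul_inv_eq_iff_eq_mul.1 (mul_inv_eq_one.1 h6)
    exact h7
  apply adj_of_comm Γ hij
  rcases hε0 with rfl | rfl <;> rcases hε1 with rfl | rfl <;>
    simpa using hcomm

end Pool.Agent.H322R3.RAAG
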