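import Mathlib
import Pool.Agent.H322R3.Action
import Pool.Agent.H322R3.RAAG

set_option autoImplicit false

namespace Pool.Agent.H322R3.Final

open Pool.Agent.H322R3.Tree Pool.Agent.H322R3.Lattice Pool.Agent.H322R3.Odometer
open Pool.Agent.H322R3.Complex Pool.Agent.H322R3.RAAG

/-- base vertices -/
def A1 (t v : W) : X := ⟨(Sum.inl t, Sum.inl v), mem_of_inl_left _ _⟩
/-- whisker in the first direction -/
def A2 (t v : W) : X := ⟨(Sum.inr t, Sum.inl v), mem_of_inl_right _ _⟩
/-- whisker in the second direction -/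
def A3 (t : W) (p : P2) : X := ⟨(Sum.inl t, Sum.inr p), mem_of_inl_left _ _⟩
/-- corner -/
def A4 (t : W) (p : P2) (h : phi t p.1.1 p.1.2) : X :=
  ⟨(Sum.inr t, Sum.inr p), by
    rintro ⟨t', p', he, hn⟩
    simp only [Prod.mk.injEq, Sum.inr.injEq] at he
    obtain ⟨rfl, rfl⟩ := he
    exact hn h⟩

lemma d12 (t v : W) : GX.Adj (A1 t v) (A2 t v) := by
  simp [GX_adj, dX, A1, A2, d1, d2, inl_wd]
lemma d11 (t v v' : W) (h : td v.1 v'.1 = 1) : GX.Adj (A1 t v) (A1 t v') := by
  simp [GX_adj, dX, A1, d1, d2, inl_wd, h]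
lemma d22 (t v v' : W) (h : td v.1 v'.1 = 1) : GX.Adj (A2 t v) (A2 t v') := by
  simp [GX_adj, dX, A2, d1, d2, inl_wd, h]
lemma d13 (t : W) (p : P2) : GX.Adj (A1 t p.1.1) (A3 t p) := by
  simp [GX_adj, dX, A1, A3, d1, d2, inl_wd, pi2]
lemma d11' (t t' v : W) (h : td t.1 t'.1 = 1) : GX.Adj (A1 t v) (A1 t' v) := by
  simp [GX_adj, dX, A1, d1, d2, inl_wd, h]
lemma d33 (t t' : W) (p : P2) (h : td t.1 t'.1 = 1) : GX.Adj (A3 t p) (A3 t' p) := by
  simp [GX_adj, dX, A3, d1, d2, inl_wd, h]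
lemma d24 (t : W) (p : P2) (h : phi t p.1.1 p.1.2) : GX.Adj (A2 t p.1.1) (A4 t p h) := by
  simp [GX_adj, dX, A2, A4, d1, d2, inl_wd, pi2]
lemma d34 (t : W) (p : P2) (h : phi t p.1.1 p.1.2) : GX.Adj (A3 t p) (A4 t p h) := by
  simp [GX_adj, dX, A3, A4, d1, d2, inl_wd]

lemma d23 (t : W) (p : P2) : ¬ GX.Adj (A2 t p.1.1) (A3 t p) := by
  simp [GX_adj, dX, A2, A3, d1, d2, inl_wd, wd_inl, pi2]

/-- common neighbours of the two whisker ends -/
lemma common (t : W) (p : P2) (h : ¬ phi t p.1.1 p.1.2) (z : X) (h2 : GX.Adj (A2 t p.1.1) z)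
    (h3 : GX.Adj (A3 t p) z) : z = A1 t p.1.1 := by
  obtain ⟨⟨a, b⟩, hz⟩ := z
  simp only [GX_adj, dX, A2, A3, d1, d2] at h2 h3
  rcases a with a | a
  · rcases b with b | b
    · simp only [wd_inl, bs_inr, bs_inl, ht_inr, ht_inl, id, pi2] at h2 h3
      have e1 : td t.1 a.1 = 0 := by omega
      have e2 : td p.1.1.1 b.1 = 0 := by omega
      rw [td_eq_zero] at e1 e2
      simp only [A1]
      rw [Subtype.ext e1, Subtype.ext e2]
    · exfalso
      simp only [wd_inl, inl_wd, bs_inr, bs_inl, ht_inr, ht_inl, id, pi2] at h2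
      omega
  · rcases b with b | b
    · exfalso
      simp only [wd_inl, inl_wd, bs_inr, bs_inl, ht_inr, ht_inl, id, pi2] at h3
      omega
    · exfalso
      simp only [wd_inl, inl_wd, bs_inr, bs_inl, ht_inr, ht_inl, id] at h2 h3
      have e1 : wd id (Sum.inr t : W ⊕ W) (Sum.inr a) = 0 := by omega
      have e2 : wd pi2 (Sum.inr p : W ⊕ P2) (Sum.inr b) = 0 := by omega
      rw [wd_eq_zero] at e1 e2
      rw [← e1, ← e2] at hz
      exact hz ⟨t, p, rfl, h⟩

section emb

variable {n : ℕ} (Γ : SimpleGraph (Fin n)) (C : SimpleGraph (PresentedGroup (rels Γ)))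
  (hC : ∀ g h : PresentedGroup (rels Γ), C.Adj g h ↔
          (g ≠ h ∧ ∃ i : Fin n, h = g * PresentedGroup.of i ∨ g = h * PresentedGroup.of i))
  (f : GX ↪g C)

include hC in
lemma exE (v w : X) (h : GX.Adj v w) : ∃ i, E Γ i (f v) (f w) := by
  have h1 := (hC _ _).1 (f.map_adj_iff.2 h)
  obtain ⟨-, i, hi⟩ := h1
  exact ⟨i, hi⟩

include hC in
lemma alpha_const (t : W) (i : Fin n) (hi : E Γ i (f (A1 t o)) (f (A2 t o))) (v : W) :
    E Γ i (f (A1 t v)) (f (A2 t v)) := by
  obtain ⟨N, hN⟩ : ∃ N, td v.1 o.1 = N := ⟨_, rfl⟩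
  induction N generalizing v with
  | zero =>
    rw [td_eq_zero] at hN
    rw [Subtype.ext hN]; exact hi
  | succ N ih =>
    have hne : v.1 ≠ o.1 := by
      intro he; rw [he] at hN; simp at hN
    obtain ⟨m, hm, h1, h2⟩ := exists_step v.1 o.1 hne
    have hch : m.IsChain (· ≠ ·) := by
      rcases hm with ⟨q, rfl⟩ | ⟨q, rfl⟩
      · exact v.2.take q
      · exact o.2.take q
    have h3 := ih ⟨m, hch⟩ (by simp only; omega)
    obtain ⟨k, hk⟩ := exE Γ C hC f _ _ (d12 t v)
    obtain ⟨j, hj⟩ := exE Γ C hC f _ _ (d22 t v ⟨m, hch⟩ h1)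
    obtain ⟨l, hl⟩ := exE Γ C hC f _ _ (d11 t ⟨m, hch⟩ v (by rw [td_comm]; exact h1))
    have hsq := square hk hj h3.symm hl
      (fun he => by
        have := congrArg (fun z : X => z.1.1) (f.injective he)
        simp [A1, A2] at this)
      (fun he => by
        have := congrArg (fun z : X => z.1.1) (f.injective he)
        simp [A1, A2] at this)
    rw [hsq.1] at hk
    exact hk

include hC in
lemma beta_const (p : P2) (i : Fin n) (hi : E Γ i (f (A1 o p.1.1)) (f (A3 o p))) (t : W) :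
    E Γ i (f (A1 t p.1.1)) (f (A3 t p)) := by
  obtain ⟨N, hN⟩ : ∃ N, td t.1 o.1 = N := ⟨_, rfl⟩
  induction N generalizing t with
  | zero =>
    rw [td_eq_zero] at hN
    rw [Subtype.ext hN]; exact hi
  | succ N ih =>
    have hne : t.1 ≠ o.1 := by
      intro he; rw [he] at hN; simp at hN
    obtain ⟨m, hm, h1, h2⟩ := exists_step t.1 o.1 hne
    have hch : m.IsChain (· ≠ ·) := by
      rcases hm with ⟨q, rfl⟩ | ⟨q, rfl⟩
      · exact t.2.take q
      · exact o.2.take q
    have h3 := ih ⟨m, hch⟩ (by simp only; omega)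
    obtain ⟨k, hk⟩ := exE Γ C hC f _ _ (d13 t p)
    obtain ⟨j, hj⟩ := exE Γ C hC f _ _ (d33 t ⟨m, hch⟩ p h1)
    obtain ⟨l, hl⟩ := exE Γ C hC f _ _ (d11' ⟨m, hch⟩ t p.1.1 (by rw [td_comm]; exact h1))
    have hsq := square hk hj h3.symm hl
      (fun he => by
        have := congrArg (fun z : X => z.1.2) (f.injective he)
        simp [A1, A3] at this)
      (fun he => by
        have := congrArg (fun z : X => z.1.2) (f.injective he)
        simp [A1, A3] at this)
    rw [hsq.1] at hk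
    exact hk

include hC in
lemma phi_iff_adj
    (hconv : ∀ a b c : PresentedGroup (rels Γ), a ∈ Set.range f → b ∈ Set.range f →
            C.dist a c + C.dist c b = C.dist a b → c ∈ Set.range f)
    (t : W) (p : P2) (i j : Fin n) (hi : E Γ i (f (A1 t o)) (f (A2 t o)))
    (hj : E Γ j (f (A1 o p.1.1)) (f (A3 o p))) :
    phi t p.1.1 p.1.2 ↔ Γ.Adj i j := by
  have hi' := alpha_const Γ C hC f t i hi p.1.1
  have hj' := beta_const Γ C hC f p j hj t
  constructor
  · intro h
    obtain ⟨k, hk⟩ := exE Γ C hC f _ _ (d24 t p h)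
    obtain ⟨l, hl⟩ := exE Γ C hC f _ _ (d34 t p h).symm
    have hsq := square hi' hk hl hj'.symm
      (fun he => by
        have := congrArg (fun z : X => z.1.1) (f.injective he)
        simp [A1, A4] at this)
      (fun he => by
        have := congrArg (fun z : X => z.1.1) (f.injective he)
        simp [A2, A3] at this)
    rw [hsq.2.1] at hsq
    exact hsq.2.2
  · intro hadj
    by_contra hphi
    have hij : i ≠ j := hadj.ne
    obtain ⟨ε, hε, h1⟩ := hi'.exists_eps
    obtain ⟨δ, hδ, h2⟩ := hj'.exists_eps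
    set g0 := f (A1 t p.1.1) with hg0
    have hcomm : Commute ((PresentedGroup.of (rels := rels Γ) i) ^ ε)
        ((PresentedGroup.of (rels := rels Γ) j) ^ δ) :=
      ((comm_of_adj Γ hadj).zpow_left ε).zpow_right δ
    set c := g0 * (PresentedGroup.of i) ^ ε * (PresentedGroup.of j) ^ δ with hc
    have hc' : c = g0 * (PresentedGroup.of j) ^ δ * (PresentedGroup.of i) ^ ε := by
      rw [hc, mul_assoc, mul_assoc, hcomm.eq]
    have hne : ∀ (g : PresentedGroup (rels Γ)) (k : Fin n) (η : ℤ), (η = 1 ∨ η = -1) →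
        C.Adj g (g * (PresentedGroup.of k) ^ η) := by
      intro g k η hη
      rw [hC]
      constructor
      · intro he
        have := congrArg (ex Γ k) he
        rw [ex_mul, ex_pow_self] at this
        omega
      · refine ⟨k, ?_⟩
        rcases hη with rfl | rfl
        · left; simp
        · right; simp
    have a1 : C.Adj (f (A2 t p.1.1)) c := by rw [h1, hc]; exact hne _ _ _ hδ
    have a2 : C.Adj (f (A3 t p)) c := by rw [h2, hc']; exact hne _ _ _ hε
    have hnadj : ¬ C.Adj (f (A2 t p.1.1)) (f (A3 t p)) := by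
      intro h; exact d23 t p (f.map_adj_iff.1 h)
    have hneq : f (A2 t p.1.1) ≠ f (A3 t p) := by
      intro he
      have := congrArg (fun z : X => z.1.1) (f.injective he)
      simp [A2, A3] at this
    have hdist : C.dist (f (A2 t p.1.1)) (f (A3 t p)) = 2 := by
      have hle : C.dist (f (A2 t p.1.1)) (f (A3 t p)) ≤ 2 := by
        have := SimpleGraph.dist_le (SimpleGraph.Walk.cons a1
          (SimpleGraph.Walk.cons a2.symm SimpleGraph.Walk.nil))
        simpa using this
      have hreach : C.Reachable (f (A2 t p.1.1)) (f (A3 t p)) :=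
        ⟨SimpleGraph.Walk.cons a1 (SimpleGraph.Walk.cons a2.symm SimpleGraph.Walk.nil)⟩
      have h0 : C.dist (f (A2 t p.1.1)) (f (A3 t p)) ≠ 0 := by
        intro h
        exact hneq ((SimpleGraph.Reachable.dist_eq_zero_iff hreach).1 h)
      have h1' : C.dist (f (A2 t p.1.1)) (f (A3 t p)) ≠ 1 := by
        intro h
        exact hnadj (SimpleGraph.dist_eq_one_iff_adj.1 h)
      omega
    have hmem := hconv (f (A2 t p.1.1)) (f (A3 t p)) c ⟨_, rfl⟩ ⟨_, rfl⟩ (by
      rw [hdist, SimpleGraph.dist_eq_one_iff_adj.2 a1, SimpleGraph.dist_eq_one_iff_adj.2 a2.symm])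
    obtain ⟨z, hz⟩ := hmem
    rw [← hz] at a1 a2
    have hz1 := common t p hphi z (f.map_adj_iff.1 a1) (f.map_adj_iff.1 a2)
    rw [hz1] at hz
    have h5 : g0 = g0 * ((PresentedGroup.of i) ^ ε * (PresentedGroup.of j) ^ δ) := by
      rw [← mul_assoc, ← hc, ← hz]
    have h6 := congrArg (ex Γ i) h5
    rw [ex_mul, ex_mul, ex_pow_self, ex_pow_ne Γ i j hij.symm] at h6
    omega

end emb

theorem main :
    ¬ (∀ (V : Type) (G : SimpleGraph V) (H : Type) [Group H] [MulAction H V],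
    G.Connected →
    (∀ x y z : V, ∃! m : V,
        G.dist x m + G.dist m y = G.dist x y ∧
        G.dist y m + G.dist m z = G.dist y z ∧
        G.dist x m + G.dist m z = G.dist x z) →
    (∀ v : V, (G.neighborSet v).Finite) →
    (∀ (h : H) (x y : V), G.Adj (h • x) (h • y) ↔ G.Adj x y) →
    (∀ v : V, (MulAction.stabilizer H v : Set H).Finite) →
    Finite (MulAction.orbitRel.Quotient H V) →
    ∃ (n : ℕ) (Γ : SimpleGraph (Fin n)) (R : Set (FreeGroup (Fin n))),
      R = {r | ∃ i j : Fin n, Γ.Adj i j ∧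
        r = FreeGroup.of i * FreeGroup.of j * (FreeGroup.of i)⁻¹ * (FreeGroup.of j)⁻¹} ∧
      ∃ (C : SimpleGraph (PresentedGroup R)),
        (∀ g h : PresentedGroup R, C.Adj g h ↔
          (g ≠ h ∧ ∃ i : Fin n, h = g * PresentedGroup.of i ∨ g = h * PresentedGroup.of i)) ∧
        ∃ f : G ↪g C,
          ∀ a b c : PresentedGroup R, a ∈ Set.range f → b ∈ Set.range f →
            C.dist a c + C.dist c b = C.dist a b → c ∈ Set.range f) := by
  intro hall
  obtain ⟨n, Γ, R, hR, C, hC, f, hconv⟩ := hall X GX H GX_connected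
    (by intro x y z; simp only [GX_dist]; exact dX_median x y z)
    nbr_finite (fun h x y => GX_smul h x y) stab_finite orbits_finite
  have hR' : R = rels Γ := hR
  subst hR'
  have hα : ∀ t : W, ∃ i, E Γ i (f (A1 t o)) (f (A2 t o)) :=
    fun t => exE Γ C hC f _ _ (d12 t o)
  have hβ : ∀ p : P2, ∃ i, E Γ i (f (A1 o p.1.1)) (f (A3 o p)) :=
    fun p => exE Γ C hC f _ _ (d13 o p)
  choose α hα using hα
  choose β hβ using hβ
  have key : ∀ a b : ℕ, a < b → α (tn a) = α (tn b) → False := by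
    intro a b hab he
    obtain ⟨v, v', htd, hne⟩ := rows_ne_of_lt a b hab
    apply hne
    have h1 := phi_iff_adj Γ C hC f hconv (tn a) ⟨(v, v'), htd⟩ _ _ (hα _) (hβ _)
    have h2 := phi_iff_adj Γ C hC f hconv (tn b) ⟨(v, v'), htd⟩ _ _ (hα _) (hβ _)
    simp only at h1 h2
    rw [h1, h2, he]
  obtain ⟨a, b, hab, he⟩ := Finite.exists_ne_map_eq_of_infinite (fun k : ℕ => α (tn k))
  rcases lt_or_gt_of_ne hab with h | h
  · exact key a b h he
  · exact key b a h he.symm

end Pool.Agent.H322R3.Final
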