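import Mathlib
import Pool.Agent.H322R3.HypDefs

set_option autoImplicit false

namespace Pool.Agent.H322R3.Hyp

open Filter Topology

set_option linter.unusedSectionVars false

variable {Γ : Type*} [Group Γ] {S : Set Γ}

lemma tendsto_pair_iff (F : ℕ → ℕ → ℝ) :
    Tendsto (fun p : ℕ × ℕ => F p.1 p.2) atTop atTop ↔
      ∀ M : ℝ, ∃ N : ℕ, ∀ i j, N ≤ i → N ≤ j → M ≤ F i j := by
  rw [tendsto_atTop]
  constructor
  · intro h M
    obtain ⟨a, ha⟩ := eventually_atTop.1 (h M)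
    refine ⟨max a.1 a.2, fun i j hi hj => ha (i, j) ?_⟩
    exact ⟨le_trans (le_max_left _ _) hi, le_trans (le_max_right _ _) hj⟩
  · intro h M
    obtain ⟨N, hN⟩ := h M
    exact eventually_atTop.2 ⟨(N, N), fun p hp => hN p.1 p.2 hp.1 hp.2⟩

section gen

variable (hS : Subgroup.closure S = ⊤)

include hS

lemma wlen_geod (g : Γ) (k : ℕ) (hk : k ≤ wlen S g) :
    ∃ h : Γ, wlen S h = k ∧ wlen S (h⁻¹ * g) + k = wlen S g := by
  obtain ⟨l, hl1, hl2, hl3⟩ := wlen_spec hS g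
  have h1 := wlen_le (S := S) (l.take k) (fun x hx => hl2 x (List.mem_of_mem_take hx))
  have h2 := wlen_le (S := S) (l.drop k) (fun x hx => hl2 x (List.mem_of_mem_drop hx))
  have h3 : (l.take k).prod * (l.drop k).prod = g := by
    rw [← List.prod_append, List.take_append_drop, hl3]
  have h4 : (l.take k).prod⁻¹ * g = (l.drop k).prod := by rw [← h3]; group
  have h5 := wlen_mul_le hS (l.take k).prod (l.drop k).prod
  rw [h3] at h5
  rw [List.length_take] at h1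
  rw [List.length_drop] at h2
  refine ⟨(l.take k).prod, by omega, ?_⟩
  rw [h4]; omega

lemma gprod_one (x y : Γ) :
    gprod S 1 x y = ((wlen S x : ℝ) + wlen S y - wlen S (x⁻¹ * y)) / 2 := by
  simp [gprod, wdist, wlen_inv hS]

lemma gprod_symm (x y : Γ) : gprod S 1 x y = gprod S 1 y x := by
  rw [gprod_one hS, gprod_one hS]
  have : wlen S (x⁻¹ * y) = wlen S (y⁻¹ * x) := by
    rw [← wlen_inv hS (x⁻¹ * y)]; congr 1; group
  rw [this]; ring

lemma gprod_self (x : Γ) : gprod S 1 x x = wlen S x := by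
  rw [gprod_one hS]; simp [wlen_one]

lemma gprod_base (w x y : Γ) : gprod S w x y = gprod S 1 (w⁻¹ * x) (w⁻¹ * y) := by
  simp only [gprod, wdist]
  congr 2
  · congr 2
    · congr 1; group
    · congr 1; group
  · congr 2; group

lemma gprod_le_left (x y : Γ) : gprod S 1 x y ≤ wlen S x := by
  rw [gprod_one hS]
  have h := wlen_mul_le hS x (x⁻¹ * y)
  rw [mul_inv_cancel_left] at h
  have h' : (wlen S y : ℝ) ≤ wlen S x + wlen S (x⁻¹ * y) := by exact_mod_cast h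
  linarith

/-- change of base point -/
lemma gprod_change (g x y : Γ) : gprod S 1 (g⁻¹ * x) (g⁻¹ * y) =
    wlen S g - gprod S 1 x g - gprod S 1 y g + gprod S 1 x y := by
  rw [gprod_one hS, gprod_one hS, gprod_one hS, gprod_one hS]
  have e1 : (g⁻¹ * x)⁻¹ * (g⁻¹ * y) = x⁻¹ * y := by group
  have e2 : wlen S (g⁻¹ * x) = wlen S (x⁻¹ * g) := by
    rw [← wlen_inv hS (g⁻¹ * x)]; congr 1; group
  have e3 : wlen S (g⁻¹ * y) = wlen S (y⁻¹ * g) := by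
    rw [← wlen_inv hS (g⁻¹ * y)]; congr 1; group
  rw [e1, e2, e3]; ring

end gen

/-- hyperbolicity at the base point, with nonnegative constant -/
lemma IsHyperbolic.base (h : IsHyperbolic S) (hS : Subgroup.closure S = ⊤) :
    ∃ δ : ℝ, 0 ≤ δ ∧ ∀ x y z : Γ,
      min (gprod S 1 x y) (gprod S 1 y z) - δ ≤ gprod S 1 x z := by
  obtain ⟨δ, hδ⟩ := h
  refine ⟨δ, ?_, fun x y z => hδ 1 x y z⟩
  have := hδ 1 1 1 1
  rw [gprod_self hS, wlen_one] at this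
  simpa using this

section hyp

variable (hS : Subgroup.closure S = ⊤) {δ : ℝ} (hδ0 : 0 ≤ δ)
  (hδ : ∀ x y z : Γ, min (gprod S 1 x y) (gprod S 1 y z) - δ ≤ gprod S 1 x z)

include hS hδ0 hδ

omit hS hδ0 in
lemma hyp3 {x y z : Γ} {M : ℝ} (h1 : M ≤ gprod S 1 x y) (h2 : M ≤ gprod S 1 y z) :
    M - δ ≤ gprod S 1 x z := by
  have := hδ x y z
  have h3 : M ≤ min (gprod S 1 x y) (gprod S 1 y z) := le_min h1 h2
  linarith

omit hS in
lemma hyp4 {x y z w : Γ} {M : ℝ} (h1 : M ≤ gprod S 1 x y) (h2 : M ≤ gprod S 1 y z)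
    (h3 : M ≤ gprod S 1 z w) : M - 2 * δ ≤ gprod S 1 x w := by
  have a1 := hyp3 hδ h1 h2
  have a2 : M - δ ≤ gprod S 1 z w := by linarith
  have a3 := hyp3 hδ a1 a2
  linarith

lemma bequiv_equivalence : Equivalence (BEquiv S) := by
  refine ⟨fun x => x.2, ?_, ?_⟩
  · intro x y h
    unfold BEquiv at h ⊢
    rw [tendsto_pair_iff (fun i j => gprod S 1 (x.1 i) (y.1 j))] at h
    rw [tendsto_pair_iff (fun i j => gprod S 1 (y.1 i) (x.1 j))]
    intro M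
    obtain ⟨N, hN⟩ := h M
    exact ⟨N, fun i j hi hj => by rw [gprod_symm hS]; exact hN j i hj hi⟩
  · intro x y z h1 h2
    unfold BEquiv at h1 h2 ⊢
    rw [tendsto_pair_iff (fun i j => gprod S 1 (x.1 i) (y.1 j))] at h1
    rw [tendsto_pair_iff (fun i j => gprod S 1 (y.1 i) (z.1 j))] at h2
    rw [tendsto_pair_iff (fun i j => gprod S 1 (x.1 i) (z.1 j))]
    intro M
    obtain ⟨N1, hN1⟩ := h1 (M + δ)
    obtain ⟨N2, hN2⟩ := h2 (M + δ)
    refine ⟨max N1 N2, fun i j hi hj => ?_⟩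
    have a1 := hN1 i (max N1 N2) (le_trans (le_max_left _ _) hi) (le_max_left _ _)
    have a2 := hN2 (max N1 N2) j (le_max_right _ _) (le_trans (le_max_right _ _) hj)
    have := hyp3 hδ a1 a2
    linarith

lemma bmk_eq_iff (x y : InfSeq S) : bmk S x = bmk S y ↔ BEquiv S x y := by
  constructor
  · intro h
    have := Quot.eqvGen_exact h
    rwa [(bequiv_equivalence hS hδ0 hδ).eqvGen_iff] at this
  · intro h; exact Quot.sound h

omit hS hδ0 hδ in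
lemma bequiv_def (x y : InfSeq S) : BEquiv S x y ↔
    ∀ M : ℝ, ∃ N : ℕ, ∀ i j, N ≤ i → N ≤ j → M ≤ gprod S 1 (x.1 i) (y.1 j) :=
  tendsto_pair_iff (fun i j => gprod S 1 (x.1 i) (y.1 j))

/-- all representatives see a basic neighbourhood -/
lemma bnhd_reps {ξ η : Boundary S} {r : ℝ} (h : η ∈ bnhd S ξ r) (x y : InfSeq S)
    (hx : bmk S x = ξ) (hy : bmk S y = η) :
    ∃ N : ℕ, ∀ i j : ℕ, N ≤ i → N ≤ j → r - 2 * δ ≤ gprod S 1 (x.1 i) (y.1 j) := by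
  obtain ⟨x', y', hx', hy', N, hN⟩ := h
  have hxx : BEquiv S x x' := (bmk_eq_iff hS hδ0 hδ x x').1 (hx.trans hx'.symm)
  have hyy : BEquiv S y' y := (bmk_eq_iff hS hδ0 hδ y' y).1 (hy'.trans hy.symm)
  obtain ⟨N1, hN1⟩ := (bequiv_def x x').1 hxx r
  obtain ⟨N2, hN2⟩ := (bequiv_def y' y).1 hyy r
  set K := max N (max N1 N2) with hK
  have k0 : N ≤ K := le_max_left _ _
  have k1 : N1 ≤ K := le_trans (le_max_left _ _) (le_max_right _ _)
  have k2 : N2 ≤ K := le_trans (le_max_right _ _) (le_max_right _ _)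
  refine ⟨K, fun i j hi hj => ?_⟩
  exact hyp4 hδ0 hδ (hN1 i K (k1.trans hi) k1) (hN K K k0 k0) (hN2 K j k2 (k2.trans hj))

lemma bnhd_self (ξ : Boundary S) (r : ℝ) : ξ ∈ bnhd S ξ r := by
  obtain ⟨x, rfl⟩ := Quot.exists_rep ξ
  obtain ⟨N, hN⟩ := (bequiv_def x x).1 x.2 r
  exact ⟨x, x, rfl, rfl, N, hN⟩

lemma bnhd_trans {ξ η ζ : Boundary S} {r : ℝ} (h1 : η ∈ bnhd S ξ r) (h2 : ζ ∈ bnhd S η r) :
    ζ ∈ bnhd S ξ (r - 3 * δ) := by
  obtain ⟨x, hx⟩ := Quot.exists_rep ξ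
  obtain ⟨y, hy⟩ := Quot.exists_rep η
  obtain ⟨z, hz⟩ := Quot.exists_rep ζ
  obtain ⟨N1, hN1⟩ := bnhd_reps hS hδ0 hδ h1 x y hx hy
  obtain ⟨N2, hN2⟩ := bnhd_reps hS hδ0 hδ h2 y z hy hz
  refine ⟨x, z, hx, hz, max N1 N2, fun i j hi hj => ?_⟩
  have a1 := hN1 i (max N1 N2) (le_trans (le_max_left _ _) hi) (le_max_left _ _)
  have a2 := hN2 (max N1 N2) j (le_max_right _ _) (le_trans (le_max_right _ _) hj)
  have := hyp3 hδ a1 a2
  linarith

lemma bnhd_mem_nhds (ξ : Boundary S) (r : ℝ) : bnhd S ξ r ∈ 𝓝 ξ := by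
  rw [mem_nhds_iff]
  refine ⟨{η | ∃ r', bnhd S η r' ⊆ bnhd S ξ r}, ?_, ?_, ?_⟩
  · rintro η ⟨r', hr'⟩
    exact hr' (bnhd_self hS hδ0 hδ η r')
  · rintro η ⟨r', hr'⟩
    refine ⟨r' + 3 * δ, ?_⟩
    intro ζ hζ
    refine ⟨r' + 3 * δ, ?_⟩
    intro θ hθ
    apply hr'
    have := bnhd_trans hS hδ0 hδ hζ hθ
    have e : r' + 3 * δ - 3 * δ = r' := by ring
    rwa [e] at this
  · exact ⟨r, le_rfl⟩

/-- `ξ` and `η` are seen far apart from the base point -/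
def Sep (S : Set Γ) (C : ℝ) (ξ η : Boundary S) : Prop :=
  ∃ x y : InfSeq S, bmk S x = ξ ∧ bmk S y = η ∧
    ∃ N : ℕ, ∀ i j : ℕ, N ≤ i → N ≤ j → gprod S 1 (x.1 i) (y.1 j) ≤ C

lemma not_sep {ξ η ζ : Boundary S} {C : ℝ} (h : Sep S C ξ η)
    (h1 : ξ ∈ bnhd S ζ (C + 3 * δ + 1)) (h2 : η ∈ bnhd S ζ (C + 3 * δ + 1)) : False := by
  obtain ⟨x, y, hx, hy, N, hN⟩ := h
  obtain ⟨z, hz⟩ := Quot.exists_rep ζ
  obtain ⟨N1, hN1⟩ := bnhd_reps hS hδ0 hδ h1 z x hz hx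
  obtain ⟨N2, hN2⟩ := bnhd_reps hS hδ0 hδ h2 z y hz hy
  set K := max N (max N1 N2) with hK
  have k0 : N ≤ K := le_max_left _ _
  have k1 : N1 ≤ K := le_trans (le_max_left _ _) (le_max_right _ _)
  have k2 : N2 ≤ K := le_trans (le_max_right _ _) (le_max_right _ _)
  have a1 := hN1 K K k1 k1
  have a2 := hN2 K K k2 k2
  rw [gprod_symm hS] at a1
  have a3 := hyp3 hδ a1 a2
  have a4 := hN K K k0 k0
  linarith

/-- points approaching a boundary point along a geodesic -/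
lemma approach (x : InfSeq S) (k : ℕ) : ∃ g : Γ, wlen S g = k ∧
    ∃ N : ℕ, ∀ i, N ≤ i → (k : ℝ) - δ ≤ gprod S 1 (x.1 i) g := by
  obtain ⟨N, hN⟩ := (bequiv_def x x).1 x.2 k
  have h1 := hN N N le_rfl le_rfl
  rw [gprod_self hS] at h1
  have h2 : k ≤ wlen S (x.1 N) := by exact_mod_cast h1
  obtain ⟨g, hg1, hg2⟩ := wlen_geod hS (x.1 N) k h2
  refine ⟨g, hg1, N, fun i hi => ?_⟩
  have h3 : (k : ℝ) ≤ gprod S 1 (x.1 N) g := by
    rw [gprod_symm hS, gprod_one hS, hg1]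
    have : (wlen S (g⁻¹ * x.1 N) : ℝ) + k = wlen S (x.1 N) := by exact_mod_cast hg2
    linarith
  exact hyp3 hδ (hN i N hi le_rfl) h3

lemma bounded_of_ne {x y : InfSeq S} (h : ¬ BEquiv S x y) :
    ∃ M : ℝ, ∃ N : ℕ, ∀ i j, N ≤ i → N ≤ j → gprod S 1 (x.1 i) (y.1 j) ≤ M := by
  rw [bequiv_def] at h
  push Not at h
  obtain ⟨M, hM⟩ := h
  obtain ⟨N1, hN1⟩ := (bequiv_def x x).1 x.2 (M + 2 * δ)
  obtain ⟨N2, hN2⟩ := (bequiv_def y y).1 y.2 (M + 2 * δ)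
  refine ⟨M + 2 * δ, max N1 N2, fun i j hi hj => ?_⟩
  obtain ⟨i', j', hi', hj', hlt⟩ := hM (max N1 N2)
  by_contra hcon
  push Not at hcon
  have a1 := hN1 i' i (le_trans (le_max_left _ _) hi') (le_trans (le_max_left _ _) hi)
  have a2 := hN2 j j' (le_trans (le_max_right _ _) hj) (le_trans (le_max_right _ _) hj')
  have := hyp4 hδ0 hδ a1 hcon.le a2
  linarith

/-- conicality -/
lemma conical {x y : InfSeq S} (h : ¬ BEquiv S x y) (g : ℕ → Γ) (hg : ∀ k, wlen S (g k) = k)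
    (hg2 : ∀ k : ℕ, ∃ N : ℕ, ∀ i, N ≤ i → (k : ℝ) - δ ≤ gprod S 1 (x.1 i) (g k)) :
    ∃ k₀ : ℕ, ∀ k, k₀ ≤ k → Sep S (2 * δ) (bsmul hS (g k)⁻¹ (bmk S x))
      (bsmul hS (g k)⁻¹ (bmk S y)) := by
  obtain ⟨M, N, hN⟩ := bounded_of_ne hS hδ0 hδ h
  obtain ⟨k₀, hk₀⟩ := exists_nat_ge (M + δ)
  refine ⟨k₀, fun k hk => ?_⟩
  obtain ⟨N', hN'⟩ := hg2 k
  refine ⟨translate hS (g k)⁻¹ x, translate hS (g k)⁻¹ y, rfl, rfl, max N N', fun i j hi hj => ?_⟩
  change gprod S 1 ((g k)⁻¹ * x.1 i) ((g k)⁻¹ * y.1 j) ≤ 2 * δ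
  rw [gprod_change hS, hg]
  have a1 := hN i j (le_trans (le_max_left _ _) hi) (le_trans (le_max_left _ _) hj)
  have a2 := hN' i (le_trans (le_max_right _ _) hi)
  have hk' : (k₀ : ℝ) ≤ k := by exact_mod_cast hk
  have a3 : gprod S 1 (x.1 i) (y.1 j) - δ ≤ gprod S 1 (y.1 j) (g k) := by
    apply hyp3 hδ (y := x.1 i)
    · rw [gprod_symm hS]
    · linarith
  linarith

/-- extraction of sequences converging at infinity -/
lemma extract (hfin : S.Finite) (h : ℕ → Γ) (hlen : ∀ k, wlen S (h k) = k) :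
    ∃ ψ : ℕ → ℕ, StrictMono ψ ∧ ConvInf S (fun k => h (ψ k)) := by
  -- balls are finite
  have hball : ∀ n : ℕ, {g : Γ | wlen S g ≤ n}.Finite := by
    intro n
    induction n with
    | zero =>
      apply Set.Finite.subset (Set.finite_singleton (1 : Γ))
      intro g hg
      obtain ⟨l, hl1, hl2, hl3⟩ := wlen_spec hS g
      have : l.length = 0 := by
        rw [hl1]; exact Nat.le_zero.1 hg
      rw [List.length_eq_zero_iff] at this
      subst this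
      simpa using hl3.symm
    | succ n ih =>
      have hS' : (S ∪ S⁻¹ ∪ {1}).Finite := (hfin.union hfin.inv).union (Set.finite_singleton 1)
      apply Set.Finite.subset (ih.mul hS')
      intro g hg
      have hg' : wlen S g ≤ n + 1 := hg
      rcases Nat.lt_or_ge (wlen S g) (n + 1) with hlt | hge
      · exact ⟨g, Nat.lt_succ_iff.1 hlt, 1, by simp, by simp⟩
      · obtain ⟨h, hh1, hh2⟩ := wlen_geod hS g n (by omega)
        obtain ⟨l, hl1, hl2, hl3⟩ := wlen_spec hS (h⁻¹ * g)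
        have hl : l.length = 1 := by omega
        obtain ⟨s, rfl⟩ := List.length_eq_one_iff.1 hl
        refine ⟨h, le_of_eq hh1, s, ?_, ?_⟩
        · rcases hl2 s (by simp) with h1 | h1
          · left; left; exact h1
          · left; right; exact h1
        · simp only [List.prod_singleton] at hl3
          simp only
          rw [hl3]; group
  -- choose points on geodesics
  have hpt : ∀ k n : ℕ, ∃ p : {g : Γ | wlen S g ≤ n}, n ≤ k →
      wlen S p.1 = n ∧ wlen S (p.1⁻¹ * h k) + n = k := by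
    intro k n
    by_cases hnk : n ≤ k
    · obtain ⟨p, hp1, hp2⟩ := wlen_geod hS (h k) n (by rw [hlen]; exact hnk)
      exact ⟨⟨p, le_of_eq hp1⟩, fun _ => ⟨hp1, by rw [hp2, hlen]⟩⟩
    · exact ⟨⟨1, by simp [wlen_one]⟩, fun h => absurd h hnk⟩
  choose p hp using hpt
  let _ : ∀ n : ℕ, TopologicalSpace {g : Γ | wlen S g ≤ n} := fun n => ⊥
  have _ : ∀ n : ℕ, DiscreteTopology {g : Γ | wlen S g ≤ n} := fun n => ⟨rfl⟩
  have _ : ∀ n : ℕ, Finite {g : Γ | wlen S g ≤ n} := fun n => hball n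
  obtain ⟨a, ψ, hψ, hlim⟩ := CompactSpace.tendsto_subseq
    (fun k => (fun n => p k n : ∀ n : ℕ, {g : Γ | wlen S g ≤ n}))
  refine ⟨ψ, hψ, ?_⟩
  unfold ConvInf
  rw [tendsto_pair_iff (fun i j => gprod S 1 (h (ψ i)) (h (ψ j)))]
  intro M
  obtain ⟨n, hn⟩ := exists_nat_ge M
  have hlimn := (tendsto_pi_nhds.1 hlim) n
  have hev : ∀ᶠ k in atTop, p (ψ k) n = a n := by
    rw [nhds_discrete] at hlimn
    exact tendsto_pure.1 hlimn
  obtain ⟨N, hN⟩ := eventually_atTop.1 hev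
  refine ⟨max N n, fun i j hi hj => ?_⟩
  have hi1 := hp (ψ i) n (le_trans (le_trans (le_max_right _ _) hi) (hψ.id_le i))
  have hj1 := hp (ψ j) n (le_trans (le_trans (le_max_right _ _) hj) (hψ.id_le j))
  rw [hN i (le_trans (le_max_left _ _) hi)] at hi1
  rw [hN j (le_trans (le_max_left _ _) hj)] at hj1
  rw [gprod_one hS, hlen, hlen]
  have h1 := wlen_mul_le hS ((h (ψ i))⁻¹ * (a n).1) ((a n).1⁻¹ * h (ψ j))
  have e1 : (h (ψ i))⁻¹ * (a n).1 * ((a n).1⁻¹ * h (ψ j)) = (h (ψ i))⁻¹ * h (ψ j) := by group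
  have e2 : wlen S ((h (ψ i))⁻¹ * (a n).1) = wlen S ((a n).1⁻¹ * h (ψ i)) := by
    rw [← wlen_inv hS ((h (ψ i))⁻¹ * (a n).1)]; congr 1; group
  rw [e1, e2] at h1
  have h2 : wlen S ((h (ψ i))⁻¹ * h (ψ j)) + 2 * n ≤ ψ i + ψ j := by omega
  have h3 : (wlen S ((h (ψ i))⁻¹ * h (ψ j)) : ℝ) + 2 * n ≤ ψ i + ψ j := by exact_mod_cast h2
  linarith

/-- the boundary is not a single point -/
lemma exists_ne (hfin : S.Finite) (ξ : Boundary S) : ∃ η : Boundary S, η ≠ ξ := by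
  by_contra hcon
  push Not at hcon
  obtain ⟨x, hx⟩ := Quot.exists_rep ξ
  choose g hg hg2 using approach hS hδ0 hδ x
  obtain ⟨ψ, hψ, hconv⟩ := extract hS hδ0 hδ hfin (fun k => (g k)⁻¹)
    (fun k => by rw [wlen_inv hS, hg])
  set y : InfSeq S := ⟨fun k => (g (ψ k))⁻¹, hconv⟩ with hy
  obtain ⟨N1, hN1⟩ := (bequiv_def y y).1 y.2 (2 * δ + 1)
  -- the point g⁻¹ ξ equals the class of y
  have h1 : bmk S (translate hS (g (ψ N1))⁻¹ x) = bmk S y := by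
    rw [hcon (bmk S (translate hS (g (ψ N1))⁻¹ x)), hcon (bmk S y)]
  obtain ⟨N2, hN2⟩ := (bequiv_def _ _).1 ((bmk_eq_iff hS hδ0 hδ _ _).1 h1) (2 * δ + 1)
  obtain ⟨N3, hN3⟩ := hg2 (ψ N1)
  set K := max N1 (max N2 N3) with hK
  have k1 : N1 ≤ K := le_max_left _ _
  have k2 : N2 ≤ K := le_trans (le_max_left _ _) (le_max_right _ _)
  have k3 : N3 ≤ K := le_trans (le_max_right _ _) (le_max_right _ _)
  have a1 := hN2 K K k2 k2
  have a2 := hN1 K N1 k1 le_rfl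
  have a3 := hyp3 hδ a1 a2
  have a4 := hN3 K k3
  change 2 * δ + 1 - δ ≤ gprod S 1 ((g (ψ N1))⁻¹ * x.1 K) ((g (ψ N1))⁻¹) at a3
  have a5 : gprod S 1 ((g (ψ N1))⁻¹ * x.1 K) ((g (ψ N1))⁻¹) =
      gprod S 1 ((g (ψ N1))⁻¹ * x.1 K) ((g (ψ N1))⁻¹ * 1) := by rw [mul_one]
  rw [a5, gprod_change hS, hg] at a3
  have a6 : gprod S 1 (1 : Γ) (g (ψ N1)) = 0 := by
    rw [gprod_one hS]; simp [wlen_one]
  have a7 : gprod S 1 (x.1 K) (1 : Γ) = 0 := by
    rw [gprod_one hS]; simp [wlen_one, wlen_inv hS]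
  rw [a6, a7] at a3
  linarith

end hyp

end Pool.Agent.H322R3.Hyp
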