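import Mathlib
import Pool.Agent.H322R3.HypGeom
import Pool.Agent.H322R3.Dyn

set_option autoImplicit false
set_option linter.unusedSectionVars false

namespace Pool.Agent.H322R3.Hyp

open Filter Topology Metric Pool.Agent.H322R3.Dyn

section dyn

variable {Γ : Type*} [Group Γ] {X : Type*} [MetricSpace X] [CompactSpace X] [MulAction Γ X]
  [ContinuousConstSMul Γ X]

lemma con_smul {Λ : Set X} {d : ℝ} {ν : X} (h : Con Γ Λ d ν) (g : Γ) : Con Γ Λ d (g • ν) := by
  intro ρ hρ τ hτ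
  have hcont : Continuous (fun y : X => g • y) := continuous_const_smul g
  obtain ⟨ρ', hρ', hc⟩ := Metric.continuous_iff.1 hcont ν ρ hρ
  obtain ⟨s, b, hb, h1, h2⟩ := h ρ' hρ' τ hτ
  refine ⟨s * g⁻¹, b, hb, ?_, ?_⟩
  · rw [mul_smul, inv_smul_smul]; exact h1
  · intro y hy
    rw [mul_smul]
    apply h2
    by_contra hlt
    push Not at hlt
    have := hc _ hlt
    rw [smul_inv_smul] at this
    linarith

/-- uniform conicality when `Λ` has exactly two points -/
lemma con_two (hconv : IsConvergenceAction Γ X) {Λ : Set X} {p q : X} (hpq : p ≠ q)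
    (hΛ : Λ = {p, q}) (hinv : ∀ g : Γ, ∀ x ∈ Λ, g • x ∈ Λ) (γ : ℕ → Γ)
    (hγ : Function.Injective γ) : ∀ ν ∈ Λ, Con Γ Λ (dist p q) ν := by
  obtain ⟨φ, hφ, a, b, hab⟩ := hconv γ hγ
  have hd : 0 < dist p q := dist_pos.2 hpq
  have hΛc : IsClosed Λ := by rw [hΛ]; exact (Set.toFinite _).isClosed
  -- distances inside Λ
  have hdist : ∀ x ∈ Λ, ∀ y ∈ Λ, x ≠ y → dist x y = dist p q := by
    intro x hx y hy hne
    rw [hΛ] at hx hy
    rcases hx with rfl | rfl <;> rcases hy with rfl | rfl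
    · exact absurd rfl hne
    · rfl
    · exact dist_comm _ _
    · exact absurd rfl hne
  have hother : ∀ x ∈ Λ, ∃ y ∈ Λ, y ≠ x := by
    intro x hx
    rw [hΛ] at hx
    rcases hx with rfl | rfl
    · exact ⟨q, by rw [hΛ]; simp, hpq.symm⟩
    · exact ⟨p, by rw [hΛ]; simp, hpq⟩
  have hp : p ∈ Λ := by rw [hΛ]; simp
  have hq : q ∈ Λ := by rw [hΛ]; simp
  have honly : ∀ x ∈ Λ, ∀ y ∈ Λ, ∀ z ∈ Λ, x ≠ y → z ≠ y → x = z := by
    intro x hx y hy z hz
    rw [hΛ] at hx hy hz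
    rcases hx with rfl | rfl <;> rcases hy with rfl | rfl <;> rcases hz with rfl | rfl <;> simp
  -- eventually close
  have hev : ∀ x : X, x ≠ b → ∀ τ > 0, ∀ᶠ k in atTop, dist (γ (φ k) • x) a < τ := by
    intro x hx τ hτ
    have := hab {x} isCompact_singleton (by simpa using hx.symm) (ball a τ) (ball_mem_nhds _ hτ)
    filter_upwards [this] with k hk
    exact hk x rfl
  have ha : a ∈ Λ := by
    have hex : ∃ x ∈ Λ, x ≠ b := by
      by_cases h : p = b
      · exact ⟨q, hq, fun h' => hpq (h.trans h'.symm)⟩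
      · exact ⟨p, hp, h⟩
    obtain ⟨x, hx, hxb⟩ := hex
    apply hΛc.mem_of_tendsto (b := atTop) (f := fun k => γ (φ k) • x)
    · rw [Metric.tendsto_nhds]; exact hev x hxb
    · exact Eventually.of_forall fun k => hinv _ _ hx
  have hb : b ∈ Λ := by
    by_contra hb
    have hpb : p ≠ b := fun h => hb (h ▸ hp)
    have hqb : q ≠ b := fun h => hb (h ▸ hq)
    obtain ⟨k, hk1, hk2⟩ := ((hev p hpb (dist p q / 2) (by positivity)).and
      (hev q hqb (dist p q / 2) (by positivity))).exists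
    have h1 := hdist (γ (φ k) • p) (hinv _ _ hp) (γ (φ k) • q) (hinv _ _ hq)
      (fun h => hpq (MulAction.injective _ h))
    have h2 := dist_triangle (γ (φ k) • p) a (γ (φ k) • q)
    have h3 := dist_comm a (γ (φ k) • q)
    linarith
  obtain ⟨c, hc, hcb⟩ := hother b hb
  -- `γ c = a` eventually
  have hca : ∀ᶠ k in atTop, γ (φ k) • c = a := by
    filter_upwards [hev c hcb (dist p q) hd] with k hk
    by_contra hne
    rw [hdist _ (hinv _ _ hc) _ ha hne] at hk
    exact lt_irrefl _ hk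
  have hba : ∀ᶠ k in atTop, γ (φ k) • b ≠ a := by
    filter_upwards [hca] with k hk h
    exact hcb (MulAction.injective (γ (φ k)) (hk.trans h.symm))
  have hconb : Con Γ Λ (dist p q) b := by
    intro ρ hρ τ hτ
    have hK : IsCompact {y : X | ρ ≤ dist y b} :=
      (isClosed_le continuous_const (continuous_id.dist continuous_const)).isCompact
    have hbK : b ∉ {y : X | ρ ≤ dist y b} := by simpa using hρ
    have h1 := hab _ hK hbK (ball a τ) (ball_mem_nhds _ hτ)
    obtain ⟨k, hk1, hk2⟩ := (h1.and hba).exists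
    exact ⟨γ (φ k), a, ha, (hdist _ (hinv _ _ hb) _ ha hk2).ge, fun y hy => hk1 y hy⟩
  have hconc : Con Γ Λ (dist p q) c := by
    by_cases hE : a = b
    · obtain ⟨k, hk⟩ := hba.exists
      have h1 : γ (φ k) • b = c := by
        apply honly _ (hinv _ _ hb) b hb c hc _ hcb
        rw [← hE] at hk ⊢
        exact hk
      rw [← h1]; exact con_smul hconb _
    · have hac : a = c := honly a ha b hb c hc hE hcb
      rw [← hac]
      intro ρ hρ τ hτ
      -- inverse sequence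
      have hK : IsCompact {y : X | τ ≤ dist y b} :=
        (isClosed_le continuous_const (continuous_id.dist continuous_const)).isCompact
      have hbK : b ∉ {y : X | τ ≤ dist y b} := by simpa using hτ
      have h1 := hab _ hK hbK (ball a ρ) (ball_mem_nhds _ hρ)
      obtain ⟨k, hk1, hk2⟩ := (h1.and hca).exists
      refine ⟨(γ (φ k))⁻¹, b, hb, ?_, ?_⟩
      · have : (γ (φ k))⁻¹ • a = c := by rw [← hk2, inv_smul_smul]
        rw [this, hdist c hc b hb hcb]
      · intro y hy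
        by_contra hlt
        push Not at hlt
        have h2 := hk1 ((γ (φ k))⁻¹ • y) hlt
        rw [smul_inv_smul, mem_ball] at h2
        linarith
  intro ν hν
  by_cases h : ν = b
  · rw [h]; exact hconb
  · rw [honly ν hν b hb c hc h hcb]; exact hconc

end dyn

section hyp

variable {Γ : Type*} [Group Γ] {S : Set Γ} (hS : Subgroup.closure S = ⊤) {δ : ℝ} (hδ0 : 0 ≤ δ)
  (hδ : ∀ x y z : Γ, min (gprod S 1 x y) (gprod S 1 y z) - δ ≤ gprod S 1 x z)
  {X : Type*} [MetricSpace X] [CompactSpace X] [MulAction Γ X]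
  [ContinuousConstSMul Γ X]

include hS hδ0 hδ

/-- separated boundary points are uniformly far apart -/
lemma sep_dist {Λ : Set X} (hΛ : IsCompact Λ) (f : Boundary S ≃ₜ Λ) (C : ℝ) :
    ∃ d : ℝ, 0 < d ∧ ∀ ξ η : Boundary S, Sep S C ξ η → d ≤ dist (f ξ : X) (f η : X) := by
  by_contra hcon
  push Not at hcon
  have hseq : ∀ n : ℕ, ∃ ξ η : Boundary S, Sep S C ξ η ∧
      dist (f ξ : X) (f η : X) < 1 / ((n : ℝ) + 1) := fun n => hcon _ (by positivity)
  choose ξ η hsep hd using hseq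
  obtain ⟨μ, hμ, φ, hφ, hlim⟩ := hΛ.tendsto_subseq (fun n => (f (ξ n)).2)
  have hinv0 : Tendsto (fun k : ℕ => 1 / ((φ k : ℝ) + 1)) atTop (𝓝 0) :=
    tendsto_one_div_add_atTop_nhds_zero_nat.comp hφ.tendsto_atTop
  have hlim2 : Tendsto (fun k => (f (η (φ k)) : X)) atTop (𝓝 μ) := by
    rw [tendsto_iff_dist_tendsto_zero]
    apply squeeze_zero (fun _ => dist_nonneg)
      (g := fun k => 1 / ((φ k : ℝ) + 1) + dist (f (ξ (φ k)) : X) μ)
    · intro k
      have h1 := dist_triangle (f (η (φ k)) : X) (f (ξ (φ k)) : X) μ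
      have h2 := hd (φ k)
      have h3 := dist_comm (f (η (φ k)) : X) (f (ξ (φ k)) : X)
      linarith
    · simpa using hinv0.add (tendsto_iff_dist_tendsto_zero.1 hlim)
  have hback : ∀ ζ : ℕ → Boundary S, Tendsto (fun k => (f (ζ k) : X)) atTop (𝓝 μ) →
      Tendsto ζ atTop (𝓝 (f.symm ⟨μ, hμ⟩)) := by
    intro ζ hζ
    have h1 : Tendsto (fun k => f (ζ k)) atTop (𝓝 (⟨μ, hμ⟩ : Λ)) := by
      rw [tendsto_subtype_rng]; exact hζ
    have h2 := (f.symm.continuous.tendsto (⟨μ, hμ⟩ : Λ)).comp h1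
    simpa [Function.comp_def] using h2
  have c1 := hback (fun k => ξ (φ k)) hlim
  have c2 := hback (fun k => η (φ k)) hlim2
  have hn := bnhd_mem_nhds hS hδ0 hδ (f.symm ⟨μ, hμ⟩) (C + 3 * δ + 1)
  obtain ⟨k, hk1, hk2⟩ := ((c1.eventually hn).and (c2.eventually hn)).exists
  exact not_sep hS hδ0 hδ (hsep (φ k)) hk1 hk2

/-- uniform conicality when `Λ` has at least three points -/
lemma con_three (hconv : IsConvergenceAction Γ X) {Λ : Set X} (hΛ : IsCompact Λ)
    (hinv : ∀ g : Γ, ∀ x ∈ Λ, g • x ∈ Λ) (f : Boundary S ≃ₜ Λ)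
    (hf : ∀ (g : Γ) (ξ : Boundary S), (f (bsmul hS g ξ) : X) = g • (f ξ : X))
    (h3 : ∀ ξ : Boundary S, ∃ η η' : Boundary S, η ≠ ξ ∧ η' ≠ ξ ∧ η ≠ η') :
    ∃ d : ℝ, 0 < d ∧ ∀ ν ∈ Λ, Con Γ Λ d ν := by
  obtain ⟨d, hd, hsep⟩ := sep_dist hS hδ0 hδ hΛ f (2 * δ)
  refine ⟨d / 2, by positivity, ?_⟩
  intro ν hν
  set ξ : Boundary S := f.symm ⟨ν, hν⟩ with hξ
  have hfξ : (f ξ : X) = ν := by rw [hξ]; simp
  obtain ⟨η, η', hη, hη', hηη⟩ := h3 ξ
  obtain ⟨x, hx⟩ := Quot.exists_rep ξ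
  choose g hg hg2 using approach hS hδ0 hδ x
  have hinj : Function.Injective (fun k => (g k)⁻¹) := by
    intro i j hij
    have : g i = g j := inv_injective hij
    rw [← hg i, ← hg j, this]
  obtain ⟨φ, hφ, a, b, hab⟩ := hconv _ hinj
  -- separation from any other point
  have hsepd : ∀ θ : Boundary S, θ ≠ ξ → ∀ᶠ k in atTop,
      d ≤ dist ((g (φ k))⁻¹ • ν) ((g (φ k))⁻¹ • (f θ : X)) := by
    intro θ hθ
    obtain ⟨y, hy⟩ := Quot.exists_rep θ
    have hne : ¬ BEquiv S x y := by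
      intro h
      apply hθ
      rw [← hx, ← hy]
      exact ((bmk_eq_iff hS hδ0 hδ x y).2 h).symm
    obtain ⟨k₀, hk₀⟩ := conical hS hδ0 hδ hne g hg hg2
    filter_upwards [hφ.tendsto_atTop.eventually (eventually_ge_atTop k₀)] with k hk
    have h1 := hsep _ _ (hk₀ (φ k) hk)
    rw [hf, hf] at h1
    have hx' : bmk S x = ξ := hx
    have hy' : bmk S y = θ := hy
    rw [hx', hy', hfξ] at h1
    exact h1
  have hev : ∀ x : X, x ≠ b → ∀ τ > 0, ∀ᶠ k in atTop, dist ((g (φ k))⁻¹ • x) a < τ := by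
    intro x hx τ hτ
    have := hab {x} isCompact_singleton (by simpa using hx.symm) (ball a τ) (ball_mem_nhds _ hτ)
    filter_upwards [this] with k hk
    exact hk x rfl
  have hbν : b = ν := by
    by_contra hbν
    have hex : ∃ θ : Boundary S, θ ≠ ξ ∧ (f θ : X) ≠ b := by
      by_cases h : (f η : X) = b
      · refine ⟨η', hη', fun h' => hηη ?_⟩
        exact f.injective (Subtype.ext (h.trans h'.symm))
      · exact ⟨η, hη, h⟩
    obtain ⟨θ, hθ, hθb⟩ := hex
    obtain ⟨k, ⟨hk1, hk2⟩, hk3⟩ := (((hev ν (Ne.symm hbν) (d / 2) (by positivity)).and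
      (hev _ hθb (d / 2) (by positivity))).and (hsepd θ hθ)).exists
    have h1 := dist_triangle ((g (φ k))⁻¹ • ν) a ((g (φ k))⁻¹ • (f θ : X))
    have h2 := dist_comm a ((g (φ k))⁻¹ • (f θ : X))
    linarith
  subst hbν
  have hηb : (f η : X) ≠ b := by
    intro h
    apply hη
    apply f.injective
    apply Subtype.ext
    rw [h, hfξ]
  have ha : a ∈ Λ := by
    apply hΛ.isClosed.mem_of_tendsto (b := atTop) (f := fun k => (g (φ k))⁻¹ • (f η : X))
    · rw [Metric.tendsto_nhds]; exact hev _ hηb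
    · exact Eventually.of_forall fun k => hinv _ _ (f η).2
  intro ρ hρ τ hτ
  have hK : IsCompact {y : X | ρ ≤ dist y b} :=
    (isClosed_le continuous_const (continuous_id.dist continuous_const)).isCompact
  have hbK : b ∉ {y : X | ρ ≤ dist y b} := by simpa using hρ
  have h1 := hab _ hK hbK (ball a τ) (ball_mem_nhds _ hτ)
  obtain ⟨k, ⟨hk1, hk2⟩, hk3⟩ := ((h1.and (hsepd η hη)).and
    (hev _ hηb (d / 2) (by positivity))).exists
  refine ⟨(g (φ k))⁻¹, a, ha, ?_, fun y hy => hk1 y hy⟩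
  have h2 := dist_triangle ((g (φ k))⁻¹ • b) a ((g (φ k))⁻¹ • (f η : X))
  have h4 := dist_comm a ((g (φ k))⁻¹ • (f η : X))
  linarith

theorem cocompact_metric (hfin : S.Finite) (hconv : IsConvergenceAction Γ X) {Λ : Set X}
    (hΛ : IsCompact Λ)
    (hinv : ∀ g : Γ, ∀ x ∈ Λ, g • x ∈ Λ) (f : Boundary S ≃ₜ Λ)
    (hf : ∀ (g : Γ) (ξ : Boundary S), (f (bsmul hS g ξ) : X) = g • (f ξ : X)) :
    ∃ K : Set X, IsCompact K ∧ K ⊆ Λᶜ ∧ ∀ x ∈ Λᶜ, ∃ g : Γ, g • x ∈ K := by
  rcases Set.eq_empty_or_nonempty Λ with hE | hne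
  · refine ⟨Set.univ, isCompact_univ, by rw [hE]; simp, fun x _ => ⟨1, trivial⟩⟩
  by_cases h3 : ∀ ξ : Boundary S, ∃ η η' : Boundary S, η ≠ ξ ∧ η' ≠ ξ ∧ η ≠ η'
  · obtain ⟨d, hd, hc⟩ := con_three hS hδ0 hδ hconv hΛ hinv f hf h3
    exact cocompact_of_con hconv hΛ hne hinv hd hc
  · push Not at h3
    obtain ⟨ξ, hξ⟩ := h3
    obtain ⟨η, hη⟩ := exists_ne hS hδ0 hδ hfin ξ
    have hpq : (f ξ : X) ≠ f η := fun h => hη (f.injective (Subtype.ext h)).symm
    have hΛ2 : Λ = {(f ξ : X), (f η : X)} := by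
      ext z
      constructor
      · intro hz
        by_cases h1 : f.symm ⟨z, hz⟩ = ξ
        · left
          rw [← h1]; simp
        · right
          have h2 := hξ (f.symm ⟨z, hz⟩) η h1 hη
          rw [← h2]; simp
      · rintro (h | h)
        · rw [h]; exact (f ξ).2
        · have h' : z = (f η : X) := h
          rw [h']; exact (f η).2
    obtain ⟨x, hx⟩ := Quot.exists_rep ξ
    choose g hg hg2 using approach hS hδ0 hδ x
    have hinj : Function.Injective g := by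
      intro i j hij
      rw [← hg i, ← hg j, hij]
    exact cocompact_of_con hconv hΛ hne hinv (dist_pos.2 hpq)
      (con_two hconv hpq hΛ2 hinv g hinj)

end hyp

end Pool.Agent.H322R3.Hyp
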