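import Pool.Agent.H181R5.NLT.Stmts

/-! Task Num2 of the project NLT of helper181. -/

set_option autoImplicit false

namespace Pool.Agent.H322R3.NLT

theorem taskNum2 : Pool.Agent.H181R5.NLT.TaskNum2 := by
  intro s _
  by_cases hx : (s : ℝ) ^ (1 / 4 : ℝ) / 200 ≤ 1
  · exact Or.inl hx
  right
  push Not at hx
  set x : ℝ := (s : ℝ) ^ (1 / 4 : ℝ) with hxdef
  have hx0 : 0 ≤ x := by positivity
  have hx4 : x ^ 4 = (s : ℝ) := by
    rw [hxdef, ← Real.rpow_natCast, ← Real.rpow_mul (by positivity)]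
    norm_num
  have hx200 : (200 : ℝ) < x := by linarith
  set r : ℕ := ⌊x⌋₊ with hr
  have hr1 : (r : ℝ) ≤ x := Nat.floor_le hx0
  have hr2 : x < r + 1 := Nat.lt_floor_add_one x
  have hr200 : 200 ≤ r := Nat.le_floor (by exact_mod_cast hx200.le)
  have hr4 : r ^ 4 ≤ s := by
    have : (r : ℝ) ^ 4 ≤ (s : ℝ) := by
      rw [← hx4]
      exact pow_le_pow_left₀ (by positivity) hr1 4
    exact_mod_cast this
  have hs4 : s < (r + 1) ^ 4 := by
    have : (s : ℝ) < ((r : ℝ) + 1) ^ 4 := by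
      rw [← hx4]
      exact pow_lt_pow_left₀ hr2 hx0 (by norm_num)
    exact_mod_cast this
  have e2 : 200 * r ≤ r ^ 2 := by
    rw [pow_two]
    exact Nat.mul_le_mul_right r hr200
  have e3 : 200 * r ^ 2 ≤ r ^ 3 := by
    calc 200 * r ^ 2 ≤ r * r ^ 2 := Nat.mul_le_mul_right _ hr200
      _ = r ^ 3 := by ring
  have e4 : 200 * r ^ 3 ≤ r ^ 4 := by
    calc 200 * r ^ 3 ≤ r * r ^ 3 := Nat.mul_le_mul_right _ hr200
      _ = r ^ 4 := by ring
  set q : ℕ := r ^ 3 / 2 with hq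
  have hq1 : r ^ 3 ≤ 2 * q + 1 := by omega
  set m : ℕ := r / 4 with hm
  have hm1 : 4 * m ≤ r := by omega
  have hm2 : r ≤ 4 * m + 3 := by omega
  refine ⟨r ^ 3, 3 * r, m, ?_, ?_, ?_, ?_, ?_⟩
  · calc (r ^ 3) ^ 4 = (r ^ 4) ^ 3 := by ring
      _ ≤ s ^ 3 := Nat.pow_le_pow_left hr4 3
  · rw [← hq]
    have h1 : r ^ 3 * (3 * r) ≤ (2 * q + 1) * (3 * r) := Nat.mul_le_mul_right _ hq1
    have h2 : r ^ 3 * (3 * r) = 3 * r ^ 4 := by ring
    have h3 : (2 * q + 1) * (3 * r) = 2 * (q * (3 * r)) + 3 * r := by ring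
    have h4 : (r + 1) ^ 4 = r ^ 4 + 4 * r ^ 3 + 6 * r ^ 2 + 4 * r + 1 := by ring
    rw [h2, h3] at h1
    rw [h4] at hs4
    omega
  · rw [← hq]
    have h1 : (4 * m) ^ 2 ≤ r ^ 2 := Nat.pow_le_pow_left hm1 2
    have h2 : (4 * m) ^ 2 * (3 * r) ≤ r ^ 2 * (3 * r) := Nat.mul_le_mul_right _ h1
    have h3 : (4 * m) ^ 2 * (3 * r) = 16 * (m ^ 2 * (3 * r)) := by ring
    have h4 : r ^ 2 * (3 * r) = 3 * r ^ 3 := by ring
    rw [h3, h4] at h2
    omega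
  · omega
  · have h1 : r + 1 ≤ 200 * m := by omega
    have h2 : (r : ℝ) + 1 ≤ 200 * m := by exact_mod_cast h1
    rw [div_le_iff₀ (by norm_num)]
    linarith

end Pool.Agent.H322R3.NLT
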